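import Pool.Agent.P.MP_825e45_al.SxDefs

/-! Auxiliary notions: tails, roots of type T. -/

namespace Pool.Agent.SX.Rep

variable {ι M N : Type} [AddCommGroup M] [AddCommGroup N] {P : RootDatum ι M N} {b : P.Base}

/-- The submodule generated by a vector. -/
def gen {V : Type} [AddCommGroup V] [Module ℂ V] (R : Rep P b V) (v : V) : Submodule ℂ V :=
  sInf {W | R.Sub W ∧ v ∈ W}

variable {A : Type} [CommRing A] [Algebra ℂ A] (R : Rep P b A)

/-- The simple root `i` moves two colors. -/
def TypeT (i : b.support) : Prop := ∃ p q, p ≠ q ∧ R.Moves i p ∧ R.Moves i q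

/-- `τ = λ + μ - ν` with `V_ν` inside the product `V_λ V_μ`. -/
def Tail (τ : M) : Prop :=
  ∃ l m n x y z, R.HW l x ∧ R.HW m y ∧ R.HW n z ∧ z ∈ R.gen x * R.gen y ∧ τ = l + m - n

variable {κ L : Type} [AddCommGroup L] (Q : RootDatum κ R.lat L) (c : Q.Base)

/-- `v` is the valuation of a color moved by a root of type T. -/
def ColorT (v : L) : Prop := ∃ i p, R.TypeT i ∧ R.Moves i p ∧ R.Val Q p v

/-- `v` is the valuation of a color moved by a root `i` that pairs to one with a simple root of
`Q` whose support contains no other root moving a color. -/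
def ColorB (v : L) : Prop :=
  ∃ i p, R.Moves i p ∧ R.Val Q p v ∧ ∃ k ∈ c.support, ∃ n : b.support → ℕ,
    (Q.root k : M) = ∑ j, n j • P.root j ∧ (∀ j, j ≠ i → n j ≠ 0 → ∀ q, ¬ R.Moves j q) ∧
      P.coroot' i (Q.root k) = 1

/-- The simple roots of `Q` are the normalized spherical roots: they span the same rational cone
as the tails, are primitive in the root lattice, and their reflections are orthogonal. -/
structure TailRoots [Fintype ι] : Prop where
  cone : ∀ τ, R.Tail τ → ∃ r : ℕ, 0 < r ∧
    r • τ ∈ AddSubmonoid.closure ((fun k => (Q.root k : M)) '' c.support)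
  ray : ∀ k ∈ c.support, ∃ r : ℕ, 0 < r ∧
    r • (Q.root k : M) ∈ AddSubmonoid.closure {τ | R.Tail τ}
  orth : ∀ k ∈ c.support, ∀ μ ν : R.lat,
    P.RootForm (Q.reflection k μ) (Q.reflection k ν) = P.RootForm μ ν
  prim : ∀ k ∈ c.support, ∃ n : b.support → ℕ, (Q.root k : M) = ∑ i, n i • P.root i ∧
    Finset.univ.gcd n = 1

end Pool.Agent.SX.Rep
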