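import Mathlib

/-! Raising closure of a set of weights and the rank two argument. -/

namespace Pool.Agent.SX

/-- Simple roots and coroots with the rank two constraints of finite type. -/
structure Cart (κ M : Type) [AddCommGroup M] where
  β : κ → M
  c : κ → M →+ ℤ
  diag : ∀ k, c k (β k) = 2
  pair : ∀ k l, k ≠ l → (c k (β l) = 0 ∧ c l (β k) = 0) ∨ (c k (β l) = -1 ∧ c l (β k) = -1) ∨
    (c k (β l) = -1 ∧ c l (β k) = -2) ∨ (c k (β l) = -2 ∧ c l (β k) = -1) ∨
    (c k (β l) = -1 ∧ c l (β k) = -3) ∨ (c k (β l) = -3 ∧ c l (β k) = -1)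

namespace Cart

variable {κ M : Type} [AddCommGroup M] (D : Cart κ M)

def s (k : κ) (u : M) : M := u - D.c k u • D.β k

lemma c_s (k : κ) (u : M) : D.c k (D.s k u) = - D.c k u := by
  simp only [s, map_sub, map_zsmul, D.diag, smul_eq_mul]; ring

lemma s_s (k : κ) (u : M) : D.s k (D.s k u) = u := by
  rw [s, c_s, s]; simp

lemma s_neg (k : κ) (u : M) : D.s k (-u) = - D.s k u := by
  simp only [s, map_neg, neg_smul]; abel

lemma s_add (k : κ) (u v : M) : D.s k (u + v) = D.s k u + D.s k v := by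
  simp only [s, map_add, add_smul]; abel

lemma s_of_zero {k : κ} {u : M} (h : D.c k u = 0) : D.s k u = u := by simp [s, h]

inductive Up (C : Set M) : M → Prop
  | base (u : M) : u ∈ C → Up C u
  | raise (u : M) (k : κ) : Up C u → D.c k u < 0 → Up C (D.s k u)

/-- The partner axiom for a set of colors. -/
def Ax (C : Set M) : Prop := ∀ u ∈ C, ∀ k, 0 < D.c k u → D.c k u = 1 ∧ D.β k - u ∈ C

lemma Up.lower {C : Set M} (ℓ : M →+ ℤ) (hℓ : ∀ k, 0 < ℓ (D.β k)) (B : ℤ)
    (hB : ∀ u ∈ C, B ≤ ℓ u) {u : M} (h : D.Up C u) : B ≤ ℓ u := by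
  induction h with
  | base u hu => exact hB u hu
  | raise u k _ hk ih =>
    simp only [s, map_sub, map_zsmul, smul_eq_mul]
    nlinarith [hℓ k]

def el (μ : M) (g d : κ) (a b : ℤ) : M := μ - a • D.β g - b • D.β d

lemma cg_el (μ : M) (g d : κ) (a b : ℤ) :
    D.c g (D.el μ g d a b) = D.c g μ - 2 * a - b * D.c g (D.β d) := by
  simp only [el, map_sub, map_zsmul, D.diag, smul_eq_mul]; ring

lemma cd_el (μ : M) (g d : κ) (a b : ℤ) :
    D.c d (D.el μ g d a b) = D.c d μ - a * D.c d (D.β g) - 2 * b := by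
  simp only [el, map_sub, map_zsmul, D.diag, smul_eq_mul]; ring

lemma sg_el (μ : M) (g d : κ) (a b a' : ℤ) (h : a' = a + D.c g (D.el μ g d a b)) :
    D.s g (D.el μ g d a b) = D.el μ g d a' b := by
  rw [s, h]; generalize D.c g (D.el μ g d a b) = t
  simp only [el, add_smul]; abel

lemma sd_el (μ : M) (g d : κ) (a b b' : ℤ) (h : b' = b + D.c d (D.el μ g d a b)) :
    D.s d (D.el μ g d a b) = D.el μ g d a b' := by
  rw [s, h]; generalize D.c d (D.el μ g d a b) = t
  simp only [el, add_smul]; abel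

lemma el_swap (μ : M) (g d : κ) (a b : ℤ) : D.el μ g d a b = D.el μ d g b a := by
  simp only [el]; abel

section RankTwo

variable {C : Set M} (hA : D.Ax C) (μ : M) (g d : κ)
  (IH : ∀ a b : ℤ, 0 ≤ a → 0 ≤ b → 0 < a + b → D.Up C (D.el μ g d a b) → ∀ k,
    0 < D.c k (D.el μ g d a b) → D.Up C (D.s k (D.el μ g d a b)) ∨ D.el μ g d a b ∈ C)

include hA IH in
lemma downg (a b a' : ℤ) (ha : 0 ≤ a) (hb : 0 ≤ b) (hab : 0 < a + b)
    (h : D.Up C (D.el μ g d a b)) (h2 : a + 2 ≤ a')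
    (h3 : a' = a + (D.c g μ - 2 * a - b * D.c g (D.β d))) : D.Up C (D.el μ g d a' b) := by
  rw [← cg_el] at h3
  rcases IH a b ha hb hab h g (by omega) with h4 | h4
  · rwa [sg_el D μ g d a b a' h3] at h4
  · have := (hA _ h4 g (by omega)).1; omega

include hA IH in
lemma downd (a b b' : ℤ) (ha : 0 ≤ a) (hb : 0 ≤ b) (hab : 0 < a + b)
    (h : D.Up C (D.el μ g d a b)) (h2 : b + 2 ≤ b')
    (h3 : b' = b + (D.c d μ - a * D.c d (D.β g) - 2 * b)) : D.Up C (D.el μ g d a b') := by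
  rw [← cd_el] at h3
  rcases IH a b ha hb hab h d (by omega) with h4 | h4
  · rwa [sd_el D μ g d a b b' h3] at h4
  · have := (hA _ h4 d (by omega)).1; omega

lemma upg (a b a' : ℤ) (h : D.Up C (D.el μ g d a b)) (h2 : a' < a)
    (h3 : a' = a + (D.c g μ - 2 * a - b * D.c g (D.β d))) : D.Up C (D.el μ g d a' b) := by
  rw [← cg_el] at h3
  rw [← sg_el D μ g d a b a' h3]
  exact Up.raise _ _ h (by omega)

lemma upd (a b b' : ℤ) (h : D.Up C (D.el μ g d a b)) (h2 : b' < b)
    (h3 : b' = b + (D.c d μ - a * D.c d (D.β g) - 2 * b)) : D.Up C (D.el μ g d a b') := by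
  rw [← cd_el] at h3
  rw [← sd_el D μ g d a b b' h3]
  exact Up.raise _ _ h (by omega)

include hA in
lemma turn {u : M} {k l : κ} (hu : D.Up C (D.s k u) ∨ u ∈ C) (hk : 0 < D.c k u)
    (hl : D.c l (D.s k u) < 0) : D.Up C (D.s l (D.s k u)) := by
  rcases hu with h | h
  · exact Up.raise _ _ h hl
  · obtain ⟨h1, h2⟩ := hA u h k hk
    have e1 : D.s k u = -(D.β k - u) := by rw [s, h1]; simp
    have h3 : 0 < D.c l (D.β k - u) := by rw [e1, map_neg] at hl; omega
    obtain ⟨h4, h5⟩ := hA _ h2 l h3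
    have e2 : D.s l (D.s k u) = D.β l - (D.β k - u) := by
      rw [e1, s_neg, s, h4]; simp
    rw [e2]; exact Up.base _ h5

include hA IH in
/-- last step down along `g`, first step up along `d`. -/
lemma lastg (a b a' b' : ℤ) (ha : 0 ≤ a) (hb : 0 ≤ b) (hab : 0 < a + b)
    (h : D.Up C (D.el μ g d a b)) (h2 : a < a')
    (h3 : a' = a + (D.c g μ - 2 * a - b * D.c g (D.β d))) (h4 : b' < b)
    (h5 : b' = b + (D.c d μ - a' * D.c d (D.β g) - 2 * b)) : D.Up C (D.el μ g d a' b') := by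
  rw [← cg_el] at h3
  rw [← cd_el] at h5
  have := turn D hA (l := d) (IH a b ha hb hab h g (by omega)) (by omega)
    (by rw [sg_el D μ g d a b a' h3]; omega)
  rwa [sg_el D μ g d a b a' h3, sd_el D μ g d a' b b' h5] at this

include hA IH in
lemma lastd (a b a' b' : ℤ) (ha : 0 ≤ a) (hb : 0 ≤ b) (hab : 0 < a + b)
    (h : D.Up C (D.el μ g d a b)) (h2 : b < b')
    (h3 : b' = b + (D.c d μ - a * D.c d (D.β g) - 2 * b)) (h4 : a' < a)
    (h5 : a' = a + (D.c g μ - 2 * a - b' * D.c g (D.β d))) : D.Up C (D.el μ g d a' b') := by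
  rw [← cd_el] at h3
  rw [← cg_el] at h5
  have := turn D hA (l := g) (IH a b ha hb hab h d (by omega)) (by omega)
    (by rw [sd_el D μ g d a b b' h3]; omega)
  rwa [sd_el D μ g d a b b' h3, sg_el D μ g d a b' a' h5] at this

include hA IH in
lemma rank_two (hgd : g ≠ d) (hx : 0 < D.c g μ) (hy : 0 < D.c d μ)
    (h : D.Up C (D.el μ g d 0 (D.c d μ))) : D.Up C (D.el μ g d (D.c g μ) 0) := by
  obtain ⟨x, hxe⟩ : ∃ x, x = D.c g μ := ⟨_, rfl⟩
  obtain ⟨y, hye⟩ : ∃ y, y = D.c d μ := ⟨_, rfl⟩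
  have Dg := downg D hA μ g d IH
  have Dd := downd D hA μ g d IH
  have Ug := upg D (C := C) μ g d
  have Ud := upd D (C := C) μ g d
  have Lg := lastg D hA μ g d IH
  have Ld := lastd D hA μ g d IH
  rw [← hxe] at hx Dg Ug Lg Ld ⊢
  rw [← hye] at hy h Dd Ud Lg Ld
  rcases D.pair g d hgd with ⟨p, q⟩ | ⟨p, q⟩ | ⟨p, q⟩ | ⟨p, q⟩ | ⟨p, q⟩ | ⟨p, q⟩ <;>
    rw [p] at Dg Ug Lg Ld <;> rw [q] at Dd Ud Lg Ld
  · exact Lg 0 y x 0 (by omega) (by omega) (by omega) h (by omega) (by omega) (by omega) (by omega)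
  · have h1 := Dg 0 y (x + y) (by omega) (by omega) (by omega) h (by omega) (by omega)
    have h2 := Ld (x + y) y x (x + y) (by omega) (by omega) (by omega) h1 (by omega) (by omega)
      (by omega) (by omega)
    exact Ud x (x + y) 0 h2 (by omega) (by omega)
  · have h1 := Dg 0 y (x + y) (by omega) (by omega) (by omega) h (by omega) (by omega)
    have h2 := Dd (x + y) y (2 * x + 2 * y) (by omega) (by omega) (by omega) h1 (by omega)
      (by omega)
    have h3 := Lg (x + y) (2 * x + 2 * y) (2 * x + y) (2 * x + y) (by omega) (by omega) (by omega)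
      h2 (by omega) (by omega) (by omega) (by omega)
    have h4 := Ug (2 * x + y) (2 * x + y) x h3 (by omega) (by omega)
    exact Ud x (2 * x + y) 0 h4 (by omega) (by omega)
  · have h1 := Dg 0 y (x + 2 * y) (by omega) (by omega) (by omega) h (by omega) (by omega)
    have h2 := Dd (x + 2 * y) y (x + 2 * y) (by omega) (by omega) (by omega) h1 (by omega)
      (by omega)
    have h3 := Lg (x + 2 * y) (x + 2 * y) (2 * x + 2 * y) (x + y) (by omega) (by omega) (by omega)
      h2 (by omega) (by omega) (by omega) (by omega)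
    have h4 := Ug (2 * x + 2 * y) (x + y) x h3 (by omega) (by omega)
    exact Ud x (x + y) 0 h4 (by omega) (by omega)
  · have h1 := Dg 0 y (x + y) (by omega) (by omega) (by omega) h (by omega) (by omega)
    have h2 := Dd (x + y) y (3 * x + 3 * y) (by omega) (by omega) (by omega) h1 (by omega)
      (by omega)
    have h3 := Dg (x + y) (3 * x + 3 * y) (3 * x + 2 * y) (by omega) (by omega) (by omega) h2
      (by omega) (by omega)
    have h4 := Dd (3 * x + 2 * y) (3 * x + 3 * y) (6 * x + 4 * y) (by omega) (by omega) (by omega)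
      h3 (by omega) (by omega)
    have h5 := Lg (3 * x + 2 * y) (6 * x + 4 * y) (4 * x + 2 * y) (6 * x + 3 * y) (by omega)
      (by omega) (by omega) h4 (by omega) (by omega) (by omega) (by omega)
    have h6 := Ug (4 * x + 2 * y) (6 * x + 3 * y) (3 * x + y) h5 (by omega) (by omega)
    have h7 := Ud (3 * x + y) (6 * x + 3 * y) (3 * x + y) h6 (by omega) (by omega)
    have h8 := Ug (3 * x + y) (3 * x + y) x h7 (by omega) (by omega)
    exact Ud x (3 * x + y) 0 h8 (by omega) (by omega)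
  · have h1 := Dg 0 y (x + 3 * y) (by omega) (by omega) (by omega) h (by omega) (by omega)
    have h2 := Dd (x + 3 * y) y (x + 3 * y) (by omega) (by omega) (by omega) h1 (by omega)
      (by omega)
    have h3 := Dg (x + 3 * y) (x + 3 * y) (3 * x + 6 * y) (by omega) (by omega) (by omega) h2
      (by omega) (by omega)
    have h4 := Dd (3 * x + 6 * y) (x + 3 * y) (2 * x + 4 * y) (by omega) (by omega) (by omega)
      h3 (by omega) (by omega)
    have h5 := Lg (3 * x + 6 * y) (2 * x + 4 * y) (4 * x + 6 * y) (2 * x + 3 * y) (by omega)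
      (by omega) (by omega) h4 (by omega) (by omega) (by omega) (by omega)
    have h6 := Ug (4 * x + 6 * y) (2 * x + 3 * y) (3 * x + 3 * y) h5 (by omega) (by omega)
    have h7 := Ud (3 * x + 3 * y) (2 * x + 3 * y) (x + y) h6 (by omega) (by omega)
    have h8 := Ug (3 * x + 3 * y) (x + y) x h7 (by omega) (by omega)
    exact Ud x (x + y) 0 h8 (by omega) (by omega)

end RankTwo

theorem up_down {C : Set M} (hA : D.Ax C) (ℓ : M →+ ℤ) (hℓ : ∀ k, 0 < ℓ (D.β k)) (B : ℤ)
    (hB : ∀ u ∈ C, B ≤ ℓ u) (μ : M) (h : D.Up C μ) (g : κ) (hg : 0 < D.c g μ) :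
    D.Up C (D.s g μ) ∨ μ ∈ C := by
  generalize hn : (ℓ μ - B).toNat = n
  induction n using Nat.strong_induction_on generalizing μ g with
  | _ n ih =>
    have hlow := h.lower D ℓ hℓ B hB
    rcases h with ⟨u, hu⟩ | ⟨u, d, hu, hd⟩
    · exact Or.inr hu
    · left
      by_cases hgd : g = d
      · subst hgd; rwa [s_s]
      set μ := D.s d u with hμ
      have hy : 0 < D.c d μ := by rw [hμ, c_s]; omega
      have e0 : D.el μ g d 0 0 = μ := by simp [el]
      have e1 : D.el μ g d 0 (D.c d μ) = u := by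
        rw [← sd_el D μ g d 0 0 _ (by rw [e0]; simp), e0, hμ, s_s]
      have e2 : D.el μ g d (D.c g μ) 0 = D.s g μ := by
        rw [← sg_el D μ g d 0 0 _ (by rw [e0]; simp), e0]
      rw [← e2]
      refine rank_two D hA μ g d ?_ hgd hg hy (by rwa [e1])
      intro a b ha hb hab hU k hk
      have hl := hU.lower D ℓ hℓ B hB
      refine ih _ ?_ _ hU k hk rfl
      have : ℓ (D.el μ g d a b) < ℓ μ := by
        simp only [el, map_sub, map_zsmul, smul_eq_mul]
        have h1 := hℓ g; have h2 := hℓ d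
        rcases (by omega : 0 < a ∨ 0 < b) with h3 | h3 <;> nlinarith
      omega

/-- Weyl translates. -/
def Orb (u w : M) : Prop := Relation.ReflTransGen (fun x y => ∃ k, y = D.s k x) u w

lemma Orb.refl (u : M) : D.Orb u u := Relation.ReflTransGen.refl

lemma Orb.step {u w : M} (h : D.Orb u w) (k : κ) : D.Orb u (D.s k w) :=
  Relation.ReflTransGen.tail h ⟨k, rfl⟩

lemma Orb.trans {u v w : M} (h : D.Orb u v) (h' : D.Orb v w) : D.Orb u w :=
  Relation.ReflTransGen.trans h h'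

lemma Orb.symm {u w : M} (h : D.Orb u w) : D.Orb w u := by
  induction h with
  | refl => exact Orb.refl D u
  | @tail x y _ h2 ih =>
    obtain ⟨k, rfl⟩ := h2
    refine Orb.trans D ?_ ih
    simpa [s_s] using Orb.step D (Orb.refl D (D.s k x)) k

lemma Orb.neg {u w : M} (h : D.Orb u w) : D.Orb (-u) (-w) := by
  induction h with
  | refl => exact Orb.refl D _
  | tail _ h2 ih => obtain ⟨k, rfl⟩ := h2; rw [← s_neg]; exact ih.step D k

theorem orb_up {C : Set M} (hA : D.Ax C) (ℓ : M →+ ℤ) (hℓ : ∀ k, 0 < ℓ (D.β k)) (B : ℤ)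
    (hB : ∀ u ∈ C, B ≤ ℓ u) {v w : M} (hv : v ∈ C) (h : D.Orb v w) :
    D.Up C w ∨ D.Up C (-w) := by
  have key : ∀ μ k, D.Up C μ → D.Up C (D.s k μ) ∨ D.Up C (-(D.s k μ)) := by
    intro μ k hμ
    rcases lt_trichotomy (D.c k μ) 0 with h1 | h1 | h1
    · exact Or.inl (Up.raise _ _ hμ h1)
    · rw [s_of_zero D h1]; exact Or.inl hμ
    · rcases up_down D hA ℓ hℓ B hB μ hμ k h1 with h2 | h2
      · exact Or.inl h2
      · obtain ⟨h3, h4⟩ := hA μ h2 k h1
        right
        have : -(D.s k μ) = D.β k - μ := by rw [s, h3]; simp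
        rw [this]; exact Up.base _ h4
  induction h with
  | refl => exact Or.inl (Up.base _ hv)
  | tail _ h2 ih =>
    obtain ⟨k, rfl⟩ := h2
    rcases ih with h3 | h3
    · exact key _ k h3
    · have := key _ k h3
      rw [s_neg, neg_neg] at this
      exact this.symm

/-- The doubled datum. -/
def dbl : Cart κ (M × ℤ) where
  β k := (D.β k, 0)
  c k := (D.c k).comp (AddMonoidHom.fst M ℤ)
  diag k := D.diag k
  pair k l h := D.pair k l h

lemma dbl_s (k : κ) (u : M) (t : ℤ) : D.dbl.s k (u, t) = (D.s k u, t) := by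
  simp [s, dbl]

/-- A color whose orbit is self-dual has height one. -/
theorem height_one {C : Set M} (hA : D.Ax C) (ℓ : M →+ ℤ) (hℓ : ∀ k, 0 < ℓ (D.β k))
    (hC : ∀ u ∈ C, 0 < ℓ u) (h : M →+ ℤ) (hh : ∀ k, h (D.β k) = 2) {v : M} (hv : v ∈ C)
    (hsd : D.Orb v (-v)) : h v = 1 := by
  let C' : Set (M × ℤ) := {p | p.1 ∈ C ∧ p.2 = h p.1 - 1}
  let ℓ' : M × ℤ →+ ℤ := ℓ.comp (AddMonoidHom.fst M ℤ)
  have hA' : D.dbl.Ax C' := by
    rintro ⟨u, t⟩ ⟨hu, ht⟩ k hk
    obtain ⟨h1, h2⟩ := hA u hu k hk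
    refine ⟨h1, h2, ?_⟩
    simp only [dbl, Prod.snd_sub, Prod.fst_sub, map_sub, hh] at ht ⊢
    omega
  have hℓ' : ∀ k, 0 < ℓ' (D.dbl.β k) := hℓ
  have hB : ∀ p ∈ C', (1 : ℤ) ≤ ℓ' p := fun p hp => hC p.1 hp.1
  have horb : ∀ w, D.Orb v w → D.dbl.Orb (v, h v - 1) (w, h v - 1) := by
    intro w hw
    induction hw with
    | refl => exact Orb.refl _ _
    | tail _ h2 ih => obtain ⟨k, rfl⟩ := h2; rw [← dbl_s]; exact ih.step _ k
  have hpos := hC v hv
  rcases orb_up D.dbl hA' ℓ' hℓ' 1 hB (v := (v, h v - 1)) ⟨hv, rfl⟩ (horb _ hsd) with h1 | h1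
  · have := h1.lower D.dbl ℓ' hℓ' 1 hB
    simp [ℓ'] at this; omega
  · have e : -((-v, h v - 1) : M × ℤ) = (v, -(h v - 1)) := by simp
    rw [e] at h1
    generalize hp : ((v, -(h v - 1)) : M × ℤ) = p at h1
    rcases h1 with ⟨u, hu⟩ | ⟨⟨u, t⟩, k, hu, hk⟩
    · subst hp
      have := hu.2
      simp only at this; omega
    · rw [dbl_s] at hp
      have e1 : v = D.s k u := congrArg Prod.fst hp
      have hk' : D.c k u < 0 := hk
      have h2 : 0 < D.c k v := by rw [e1, c_s]; omega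
      obtain ⟨h3, h4⟩ := hA v hv k h2
      have e2 : u = -(D.β k - v) := by
        have : u = D.s k v := by rw [e1, s_s]
        rw [this, s, h3]; simp
      have h5 := hu.lower D.dbl ℓ' hℓ' 1 hB
      have h6 := hC _ h4
      simp only [ℓ', AddMonoidHom.comp_apply, AddMonoidHom.coe_fst] at h5
      rw [e2, map_neg] at h5; omega

end Cart

end Pool.Agent.SX
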