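import Pool.Agent.P.MP_825e45_al.SxFin

/-! The valuation cone is dual to the cone of tails. -/

namespace Pool.Agent.SX

lemma ext_fun {α M : Type} [Finite α] [AddCommGroup M] {v : α → M} (hv : LinearIndependent ℤ v)
    (g : α → ℚ) : ∃ φ : M →+ ℚ, ∀ a, φ (v a) = g a := by
  classical
  have := Fintype.ofFinite α
  obtain ⟨m, hm⟩ := (Module.Baer.of_divisible ℚ).extension_property (Fintype.linearCombination ℤ v)
    hv.fintypeLinearCombination_injective (Fintype.linearCombination ℤ g)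
  exact ⟨m.toAddMonoidHom, fun a => by simpa using LinearMap.congr_fun hm (Pi.single a 1)⟩

lemma simplex_dual {α M : Type} [Fintype α] [AddCommGroup M] {v : α → M}
    (hv : LinearIndependent ℤ v) {τ : M} (h : ∀ l : M →+ ℚ, (∀ a, l (v a) ≤ 0) → l τ ≤ 0) :
    ∃ r : ℕ, 0 < r ∧ ∃ n : α → ℕ, r • τ = ∑ a, n a • v a := by
  classical
  by_cases h1 : LinearIndependent ℤ fun o : Option α => o.elim τ v
  · obtain ⟨l, hl⟩ := ext_fun h1 fun o => o.elim 1 fun _ => 0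
    have h2 := h l fun a => (hl (some a)).le
    rw [show l τ = 1 from hl none] at h2
    exact absurd h2 (by norm_num)
  obtain ⟨g, h2, h3⟩ := Fintype.not_linearIndependent_iff.mp h1
  rw [Fintype.sum_option] at h2
  simp only [Option.elim] at h2
  have h4 : g none ≠ 0 := fun e => by
    rw [e, zero_smul, zero_add] at h2
    obtain ⟨_ | a, h5⟩ := h3
    · exact h5 e
    · exact h5 (Fintype.linearIndependent_iff.mp hv _ h2 a)
  have h5 : ∀ a, 0 ≤ -(g none * g (some a)) := fun a => by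
    obtain ⟨l, hl⟩ := ext_fun hv fun a' => if a' = a then -1 else 0
    have h6 := h l fun a' => by rw [hl]; split_ifs <;> norm_num
    have h7 := congrArg l h2
    simp only [map_add, map_sum, map_zsmul, hl, zsmul_eq_mul, map_zero, mul_ite, mul_zero,
      Finset.sum_ite_eq', Finset.mem_univ, if_true] at h7
    have h8 : ((g none * g (some a) : ℤ) : ℚ) = g none * g none * l τ := by
      push_cast; linear_combination -(g none : ℚ) * h7
    have h9 : ((g none * g (some a) : ℤ) : ℚ) ≤ 0 :=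
      h8 ▸ mul_nonpos_of_nonneg_of_nonpos (mul_self_nonneg _) h6
    have : g none * g (some a) ≤ 0 := by exact_mod_cast h9
    omega
  refine ⟨(g none * g none).toNat, by have := mul_self_pos.mpr h4; omega,
    fun a => (-(g none * g (some a))).toNat, ?_⟩
  simp only [← natCast_zsmul, Int.toNat_of_nonneg (h5 _), Int.toNat_of_nonneg (mul_self_nonneg _)]
  rw [mul_smul, eq_neg_of_add_eq_zero_left h2, smul_neg, Finset.smul_sum, ← Finset.sum_neg_distrib]
  exact Finset.sum_congr rfl fun a _ => by rw [neg_smul, mul_smul]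

variable {ι M N : Type} [AddCommGroup M] [AddCommGroup N] {P : RootDatum ι M N} {b : P.Base}

namespace Rep

variable {V : Type} [AddCommGroup V] [Module ℂ V] (R : Rep P b V)

lemma e_pow {W : Submodule ℂ V} (i : b.support) (h1 : ∀ v ∈ W, R.e i v ∈ W) {μ : M} {v : V}
    (h3 : v ∈ W) (hv : v ∈ R.wt μ) (k : ℕ) :
    (R.e i ^ k) v ∈ W ∧ (R.e i ^ k) v ∈ R.wt (μ + k • P.root i) := by
  induction k with
  | zero => simpa using ⟨h3, hv⟩
  | succ k ih =>
    rw [pow_succ', Module.End.mul_apply, succ_nsmul, ← add_assoc]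
    exact ⟨h1 _ ih.1, R.e_wt i _ _ ih.2⟩

lemma e_nil (h : R.Rat) (i : b.support) (v : V) : ∃ k, (R.e i ^ k) v = 0 := by
  refine R.G.ind (p := fun v => ∃ k, (R.e i ^ k) v = 0) (fun μ v hv => ?_) ?_ ⟨0, rfl⟩ v
  · obtain ⟨W, h1, h2, h3⟩ := R.exists_fd h v
    obtain ⟨s, hs⟩ := R.G.fin_wts W
    have key := R.e_pow i (fun v hv => (h1.1 i v hv).1) h3 hv
    have hinj : Function.Injective fun k : ℕ => μ + k • P.root i := by
      intro k l hkl
      have := congrArg (co P i) hkl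
      simp only [map_add, map_nsmul, co_self, nsmul_eq_mul] at this
      omega
    obtain ⟨_, ⟨k, rfl⟩, hk⟩ := (Set.infinite_range_of_injective hinj).exists_notMem_finset s
    exact ⟨k, by rw [← R.G.pr_self (key k).2]; exact hs _ (key k).1 _ hk⟩
  · rintro x y ⟨k, hk⟩ ⟨l, hl⟩
    refine ⟨k + l, ?_⟩
    rw [map_add, pow_add, Module.End.mul_apply, Module.End.mul_apply, hl, ← Module.End.mul_apply,
      ← pow_add, add_comm k l, pow_add, Module.End.mul_apply, hk]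
    simp

lemma sub_inf {U W : Submodule ℂ V} (hU : R.Sub U) (hW : R.Sub W) : R.Sub (U ⊓ W) :=
  (R.sub_iff _).mpr ⟨fun i v hv => ⟨⟨(hU.1 i v hv.1).1, (hW.1 i v hv.2).1⟩,
    (hU.1 i v hv.1).2, (hW.1 i v hv.2).2⟩, hU.gr.inf hW.gr⟩

end Rep

namespace Ctx

open Rep Polynomial

variable {A : Type} [CommRing A] [Algebra ℂ A] {R : Rep P b A} (c : Ctx R)

/-- The raising generator as a locally nilpotent derivation. -/
def lne (i : b.support) : LND A := ⟨R.e i, fun x y => (c.act.2.2 i x y).1, R.e_nil c.mf.1 i⟩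

include c

lemma no_zero [Module.Finite ℤ M] {U U' W : Submodule ℂ A} (hU : R.Sub U) (hU' : R.Sub U')
    (hW : R.Sub W) {x y : A} (hx : x ∈ U) (hy : y ∈ U') (x0 : x ≠ 0) (y0 : y ≠ 0)
    (h : x * y ∈ W) : ∃ μ ν, ∃ a ∈ U, ∃ a' ∈ U', R.HW μ a ∧ R.HW ν a' ∧ a * a' ∈ W := by
  classical
  have : Module.IsReflexive ℤ M := .of_isPerfPair P.toLinearMap
  have : AddGroup.FG M := Module.Finite.iff_addGroup_fg.mp inferInstance
  have : IsAddTorsionFree M := .of_isTorsionFree ℤ M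
  obtain ⟨W1, h1, _, h2⟩ := R.exists_fd c.mf.1 x
  obtain ⟨W2, h3, _, h4⟩ := R.exists_fd c.mf.1 y
  obtain ⟨s1, hs1⟩ := R.G.fin_wts W1
  obtain ⟨s2, hs2⟩ := R.G.fin_wts W2
  have k1 := R.sub_inf hU h1
  have k2 := R.sub_inf hU' h3
  let Z : Set (M × M) := {m | ∃ a ∈ U ⊓ W1, ∃ a' ∈ U' ⊓ W2, a ≠ 0 ∧ a' ≠ 0 ∧ a ∈ R.wt m.1 ∧
    a' ∈ R.wt m.2 ∧ a * a' ∈ W}
  have hZ : Z.Finite := (s1 ×ˢ s2).finite_toSet.subset (by
    rintro m ⟨a, ha, a', ha', e1, e2, e3, e4, _⟩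
    exact Finset.mem_product.mpr ⟨by_contra fun e => e1 (R.G.pr_self e3 ▸ hs1 a ha.2 _ e),
      by_contra fun e => e2 (R.G.pr_self e4 ▸ hs2 a' ha'.2 _ e)⟩)
  have sp : ∀ z : A, z ≠ 0 → ∃ t : Finset M, t.Nonempty ∧ (∀ μ ∈ t, R.G.pr μ z ≠ 0) ∧
      ∑ μ ∈ t, R.G.pr μ z = z := fun z hz => by
    obtain ⟨s, hs, _⟩ := R.G.exists_sum z
    have := R.G.sum_pr (s := s.filter fun μ => R.G.pr μ z ≠ 0) (v := z) fun μ hμ =>
      by_contra fun e => hμ (Finset.mem_filter.mpr ⟨by_contra fun e' => e (hs μ e'), e⟩)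
    exact ⟨_, Finset.nonempty_of_sum_ne_zero (this.trans_ne hz),
      fun μ hμ => (Finset.mem_filter.mp hμ).2, this⟩
  have hZ0 : Z.Nonempty := by
    obtain ⟨t, t0, t1, t2⟩ := sp x x0
    obtain ⟨t', t0', t1', t2'⟩ := sp y y0
    obtain ⟨μ, hμ, ν, hν, hu⟩ := UniqueSums.uniqueAdd_of_nonempty t0 t0'
    refine ⟨(μ, ν), _, k1.gr x ⟨hx, h2⟩ μ, _, k2.gr y ⟨hy, h4⟩ ν, t1 μ hμ, t1' ν hν,
      R.G.pr_mem μ x, R.G.pr_mem ν y, ?_⟩
    have h5 := hW.gr _ h (μ + ν)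
    have wt : ∀ μ ν, R.G.pr μ x * R.G.pr ν y ∈ R.wt (μ + ν) := fun μ ν =>
      c.act.2.1 _ _ _ (R.G.pr_mem μ x) _ (R.G.pr_mem ν y)
    rw [← t2, ← t2', Finset.sum_mul_sum, map_sum, Finset.sum_eq_single_of_mem μ hμ, map_sum,
      Finset.sum_eq_single_of_mem ν hν, R.G.pr_self (wt μ ν)] at h5
    · exact h5
    · exact fun ν' h6 h7 => R.G.pr_ne (wt _ _) fun e => h7 (hu hμ h6 e).2
    · intro μ' h6 h7
      rw [map_sum]
      exact Finset.sum_eq_zero fun ν' h8 => R.G.pr_ne (wt _ _) fun e => h7 (hu h6 h8 e).1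
  obtain ⟨ht, hht⟩ := ext_fun (v := fun i : b.support => P.root i) b.linearIndepOn_root fun _ => 1
  obtain ⟨⟨μ, ν⟩, ⟨a, ha, a', ha', e1, e2, e3, e4, e5⟩, hmax⟩ :=
    Set.exists_max_image Z (fun m => ht (m.1 + m.2)) hZ hZ0
  have key : ∀ i, R.e i a = 0 ∧ R.e i a' = 0 := by
    intro i
    let D := c.lne i
    have n0 : ∀ z : A, z ≠ 0 → D.Φ z ≠ 0 := fun z hz e => hz (by
      simpa [e] using (D.coeff_Φ z 0).symm)
    have lc : ∀ (X : Submodule ℂ A) (_ : R.Sub X) (ρ : M) (z : A), z ∈ X → z ∈ R.wt ρ →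
        (D.Φ z).leadingCoeff ∈ X ∧
          (D.Φ z).leadingCoeff ∈ R.wt (ρ + (D.Φ z).natDegree • P.root i) := fun X hX ρ z h1 h2 => by
      have := R.e_pow i (fun v hv => (hX.1 i v hv).1) h1 h2 (D.Φ z).natDegree
      rw [leadingCoeff, D.coeff_Φ]
      exact ⟨X.smul_mem _ this.1, Submodule.smul_mem _ _ this.2⟩
    have h5 := hmax (_, _) ⟨_, (lc _ k1 _ a ha e3).1, _, (lc _ k2 _ a' ha' e4).1,
      leadingCoeff_ne_zero.mpr (n0 a e1), leadingCoeff_ne_zero.mpr (n0 a' e2),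
      (lc _ k1 _ a ha e3).2, (lc _ k2 _ a' ha' e4).2, by
        rw [← coeff_mul_degree_add_degree, ← map_mul, D.coeff_Φ]
        exact W.smul_mem _ (R.e_pow i (fun v hv => (hW.1 i v hv).1) e5
          (c.act.2.1 _ _ _ e3 _ e4) _).1⟩
    simp only [map_add, map_nsmul, hht, nsmul_eq_mul, mul_one] at h5
    have h6 : (((D.Φ a).natDegree + (D.Φ a').natDegree : ℕ) : ℚ) ≤ 0 := by push_cast; linarith
    have h7 : (D.Φ a).natDegree + (D.Φ a').natDegree ≤ 0 := by exact_mod_cast h6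
    have h8 : ∀ z, (D.Φ z).natDegree = 0 → R.e i z = 0 := fun z hz => by
      have := D.coeff_Φ z 1
      rw [coeff_eq_zero_of_natDegree_lt (by omega)] at this
      exact show D.F z = 0 by simpa using this.symm
    exact ⟨h8 a (by omega), h8 a' (by omega)⟩
  exact ⟨μ, ν, a, ha.1, a', ha'.1, ⟨e1, e3, fun i => (key i).1⟩, ⟨e2, e4, fun i => (key i).2⟩, e5⟩

variable [Finite ι] [P.IsReduced] [IsDomain A]

lemma hw_Ls {T : Set M} {μ : M} {a : A} (h : R.HW μ a) (ha : a ∈ R.Ls T) : μ ∈ T :=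
  by_contra fun e => h.1 (((R.I c.mf).pr_self (h.mem_iso c.mf)).symm.trans
    ((R.mem_Ls c.mf).mp ha μ e))

theorem val_of_tails [Module.Finite ℤ M] (l : M →+ ℚ) (hl : ∀ τ, R.Tail τ → l τ ≤ 0) :
    ∃ v, R.InvVal v ∧ ∀ μ a, R.HW μ a → l μ = v a := by
  classical
  let I := R.I c.mf
  have ex : ∀ a : A, ∃ r : ℚ, a ≠ 0 → (∃ ν, I.pr ν a ≠ 0 ∧ l ν = r) ∧
      ∀ ν, I.pr ν a ≠ 0 → r ≤ l ν := fun a => by
    by_cases h0 : a = 0
    · exact ⟨0, fun h => absurd h0 h⟩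
    obtain ⟨s, hs, _⟩ := I.exists_sum a
    obtain ⟨ν, h1, h2⟩ := Set.exists_min_image {ν | I.pr ν a ≠ 0} l
      (s.finite_toSet.subset fun ν hν => by_contra fun h => hν (hs ν h))
      (by_contra fun h => h0 (I.eq_zero_of_pr fun ν => by_contra fun h' => h ⟨ν, h'⟩))
    exact ⟨l ν, fun _ => ⟨⟨ν, h1, rfl⟩, h2⟩⟩
  choose v hv using ex
  have hW : ∀ r x, x ∈ R.Ls {ν | r ≤ l ν} ↔ x = 0 ∨ r ≤ v x := fun r x => by
    rw [R.mem_Ls c.mf]
    refine ⟨fun h => or_iff_not_imp_left.mpr fun h0 => ?_, fun h ν hν => by_contra fun h1 => ?_⟩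
    · obtain ⟨ν, h1, h2⟩ := (hv x h0).1
      exact h2 ▸ by_contra fun e => h1 (h ν e)
    · have h0 : x ≠ 0 := fun e => h1 (by rw [e, map_zero])
      exact hν ((h.resolve_left h0).trans ((hv x h0).2 ν h1))
  let Γ : AddSubmonoid M :=
    { carrier := {τ | l τ ≤ 0}
      zero_mem' := (map_zero l).le
      add_mem' := fun h h' => by rw [Set.mem_ofPred_eq, map_add]; exact add_nonpos h h' }
  have mul : ∀ {T T' T'' : Set M}, (∀ ν ∈ T, ∀ ν' ∈ T', ∀ n, l ν + l ν' ≤ l n → n ∈ T'') →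
      ∀ {u w}, u ∈ R.Ls T → w ∈ R.Ls T' → u * w ∈ R.Ls T'' := fun h _ _ =>
    c.Ls_mul (Γ := Γ) hl fun ν hν ν' hν' n hn => h ν hν ν' hν' n (by
      have : l (ν + ν' - n) ≤ 0 := hn
      rw [map_sub, map_add] at this; linarith)
  have sp : ∀ x, x ≠ 0 → ∃ x0 x1, x = x0 + x1 ∧ x0 ≠ 0 ∧ x0 ∈ R.Ls {ν | l ν = v x} ∧
      x1 ∈ R.Ls {ν | v x < l ν} := fun x hx => by
    refine ⟨I.dg (fun ν => if l ν = v x then 1 else 0) x, _, (add_sub_cancel _ _).symm,
      fun e => ?_, (R.mem_Ls c.mf).mpr fun ν hν => ?_, (R.mem_Ls c.mf).mpr fun ν hν => ?_⟩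
    · obtain ⟨ν, h1, h2⟩ := (hv x hx).1
      have := I.pr_dg (fun ν => if l ν = v x then 1 else 0) ν x
      rw [e, map_zero, if_pos h2, one_smul] at this
      exact h1 this.symm
    · rw [I.pr_dg, if_neg (show ¬ l ν = v x from hν), zero_smul]
    · rw [map_sub, I.pr_dg]
      by_cases h1 : I.pr ν x = 0
      · rw [h1, smul_zero, sub_zero]
      · rw [if_pos (le_antisymm (not_lt.mp hν) ((hv x hx).2 ν h1)), one_smul, sub_self]
  refine ⟨v, ⟨fun x y hx hy => le_antisymm (not_lt.mp fun h => ?_) ?_,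
    fun r => ⟨_, R.Ls_sub _, hW r⟩⟩, fun μ a ha => ?_⟩
  · obtain ⟨x0, x1, e1, e2, e3, e4⟩ := sp x hx
    obtain ⟨y0, y1, e5, e6, e7, e8⟩ := sp y hy
    have h1 : x * y ∈ R.Ls {ν | v x + v y < l ν} := (R.mem_Ls c.mf).mpr fun ν hν =>
      by_contra fun e => hν (h.trans_le ((hv _ (mul_ne_zero hx hy)).2 ν e))
    have h2 : x1 * y ∈ R.Ls {ν | v x + v y < l ν} :=
      mul (T := {ν | v x < l ν}) (T' := {ν | v y ≤ l ν})
        (fun ν (h3 : v x < l ν) ν' (h4 : v y ≤ l ν') n h5 => show v x + v y < l n by linarith)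
        e4 ((hW _ y).mpr (Or.inr le_rfl))
    have h3 : x0 * y1 ∈ R.Ls {ν | v x + v y < l ν} :=
      mul (T := {ν | l ν = v x}) (T' := {ν | v y < l ν})
        (fun ν (h3 : l ν = v x) ν' (h4 : v y < l ν') n h5 => show v x + v y < l n by linarith)
        e3 e8
    obtain ⟨μ, ν, a, ha, a', ha', h4, h5, h6⟩ := c.no_zero (R.Ls_sub _) (R.Ls_sub _) (R.Ls_sub _)
      e3 e7 e2 e6 (show x0 * y0 ∈ R.Ls {ν | v x + v y < l ν} by
        rw [show x0 * y0 = x * y - x1 * y - x0 * y1 by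
          rw [eq_sub_of_add_eq e1.symm, eq_sub_of_add_eq e5.symm]; ring]
        exact sub_mem (sub_mem h1 h2) h3)
    have h7 : v x + v y < l (μ + ν) := c.hw_Ls (T := {ν | v x + v y < l ν}) (c.hw_mul h4 h5) h6
    rw [map_add, show l μ = v x from c.hw_Ls (T := {ν | l ν = v x}) h4 ha,
      show l ν = v y from c.hw_Ls (T := {ν | l ν = v y}) h5 ha'] at h7
    exact h7.false
  · exact ((hW (v x + v y) _).mp (mul (T := {ν | v x ≤ l ν}) (T' := {ν | v y ≤ l ν})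
      (fun ν (h3 : v x ≤ l ν) ν' (h4 : v y ≤ l ν') n h5 => show v x + v y ≤ l n by linarith)
      ((hW _ x).mpr (Or.inr le_rfl)) ((hW _ y).mpr (Or.inr le_rfl)))).resolve_left
        (mul_ne_zero hx hy)
  · obtain ⟨ν, h1, h2⟩ := (hv a ha.1).1
    rw [← h2, show μ = ν from by_contra fun e => h1 (I.pr_ne (ha.mem_iso c.mf) e)]

omit c [Finite ι] [P.IsReduced] in
lemma val_mul_ge {v : A → ℚ} (hv : R.InvVal v) {U U' W : Submodule ℂ A} {r s : ℚ}
    (hU : ∀ x ∈ U, x = 0 ∨ r ≤ v x) (hU' : ∀ x ∈ U', x = 0 ∨ s ≤ v x)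
    (hW : ∀ x, x ∈ W ↔ x = 0 ∨ r + s ≤ v x) : U * U' ≤ W :=
  Submodule.mul_le.mpr fun x hx y hy => (hW _).mpr (by
    by_cases h1 : x = 0
    · simp [h1]
    by_cases h2 : y = 0
    · simp [h2]
    rw [hv.1 x y h1 h2]
    exact Or.inr (add_le_add ((hU x hx).resolve_left h1) ((hU' y hy).resolve_left h2)))

omit c [Finite ι] [P.IsReduced] in
lemma tail_le {v : A → ℚ} (hv : R.InvVal v) {l : M →+ ℚ} (hl : ∀ μ a, R.HW μ a → l μ = v a)
    {τ : M} (h : R.Tail τ) : l τ ≤ 0 := by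
  obtain ⟨μ, ν, n, x, y, z, hx, hy, hz, h1, rfl⟩ := h
  have key : ∀ x, ∀ u ∈ R.gen x, u = 0 ∨ v x ≤ v u := fun x u hu => by
    obtain ⟨W, h2, h3⟩ := hv.2 (v x)
    exact (h3 u).mp (sInf_le (s := {W | R.Sub W ∧ x ∈ W}) ⟨h2, (h3 x).mpr (Or.inr le_rfl)⟩ hu)
  obtain ⟨W, _, h3⟩ := hv.2 (v x + v y)
  have := ((h3 z).mp (val_mul_ge hv (key x) (key y) h3 h1)).resolve_left hz.1
  rw [map_sub, map_add, hl _ _ hx, hl _ _ hy, hl _ _ hz]
  linarith

end Ctx

namespace Ctx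

open Rep

variable {A : Type} [CommRing A] [Algebra ℂ A] [IsDomain A] {R : Rep P b A} (c : Ctx R)
  [Fintype ι] [P.IsReduced] {κ L : Type} [AddCommGroup L] {Q : RootDatum κ R.lat L} {d : Q.Base}

lemma root_indep (d : Q.Base) : LinearIndependent ℤ fun k : d.support => (Q.root k : M) :=
  d.linearIndepOn_root.map' R.lat.subtype.toIntLinearMap
    (LinearMap.ker_eq_bot.mpr Subtype.val_injective)

lemma val_of_cone (hQ : R.SphRoots Q d) {l : M →+ ℚ} (hl : ∀ k : d.support, l (Q.root k) ≤ 0) :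
    ∃ v, R.InvVal v ∧ ∀ μ a, R.HW μ a → l μ = v a := by
  obtain ⟨v, h1, h2⟩ := (hQ.cone (l.comp R.lat.subtype)).mpr fun k hk => hl ⟨k, hk⟩
  exact ⟨v, h1, fun μ a ha => h2 ⟨μ, hw_lat ha⟩ a ha⟩

include c

theorem tailRoots [Module.Finite ℤ M] [IsNoetherianRing A] [IsIntegrallyClosed A]
    (hQ : R.SphRoots Q d) : R.TailRoots Q d := by
  classical
  have hi := root_indep d
  have h1 : ∀ τ ∈ AddSubmonoid.closure {τ | R.Tail τ}, ∃ r : ℕ, 0 < r ∧ ∃ n : d.support → ℕ,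
      r • τ = ∑ k, n k • (Q.root k : M) := fun τ hτ => simplex_dual hi fun l hl => by
    obtain ⟨v, h1, h2⟩ := val_of_cone hQ hl
    induction hτ using AddSubmonoid.closure_induction with
    | mem x hx => exact tail_le h1 h2 hx
    | zero => exact (map_zero l).le
    | add x y _ _ hx hy => rw [map_add]; exact add_nonpos hx hy
  have ray : ∀ k ∈ d.support, ∃ r : ℕ, 0 < r ∧
      r • (Q.root k : M) ∈ AddSubmonoid.closure {τ | R.Tail τ} := by
    intro k hk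
    by_contra h2
    obtain ⟨Φ, h3, h4, h5⟩ := c.tails_fin c.Γ_fg
    obtain ⟨u, hu⟩ := ext_fun hi fun j => if j = ⟨k, hk⟩ then 1 else 0
    obtain ⟨m, hm⟩ := ext_fun hi fun j => if j = ⟨k, hk⟩ then 0 else 1
    obtain ⟨B, hB⟩ := (h3.image fun φ => u φ / m φ).bddAbove
    have h6 : ∀ φ ∈ Φ, (u - B • m) φ ≤ 0 := by
      intro φ hφ
      obtain ⟨r, hr, n, hn⟩ := h1 φ (h4 φ hφ)
      have h7 : (0 : ℚ) < r := by exact_mod_cast hr
      have h8 := congrArg m hn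
      simp only [map_nsmul, map_sum, hm, nsmul_eq_mul] at h8
      have h9 : ∀ j ∈ Finset.univ, (0 : ℚ) ≤ n j * if j = ⟨k, hk⟩ then 0 else 1 := fun j _ => by
        split_ifs <;> simp
      change u φ - B * m φ ≤ 0
      rcases ((mul_nonneg_iff_of_pos_left h7).mp (h8 ▸ Finset.sum_nonneg h9)).eq_or_lt with h0 | h0
      · rw [← h0, mul_zero, eq_comm, Finset.sum_eq_zero_iff_of_nonneg h9] at h8
        rw [Finset.sum_eq_single_of_mem ⟨k, hk⟩ (Finset.mem_univ _) fun j hj e => by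
          rw [show n j = 0 by simpa [e] using h8 j hj, zero_smul]] at hn
        have h10 : n ⟨k, hk⟩ = 0 := by_contra fun e =>
          h2 ⟨_, Nat.pos_of_ne_zero e, hn ▸ nsmul_mem (h4 φ hφ) r⟩
        have h11 := congrArg u hn
        rw [h10, zero_smul, map_zero, map_nsmul, nsmul_eq_mul, mul_eq_zero] at h11
        rw [h11.resolve_left h7.ne', ← h0]; simp
      · exact sub_nonpos.mpr ((div_le_iff₀ h0).mp (hB ⟨φ, hφ, rfl⟩))
    obtain ⟨v, h7, h8⟩ := c.val_of_tails (u - B • m) fun τ hτ => by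
      have := h5 τ hτ
      clear hτ
      induction this using AddSubmonoid.closure_induction with
      | mem x hx => exact h6 x hx
      | zero => exact (map_zero _).le
      | add x y _ _ hx hy => rw [map_add]; exact add_nonpos hx hy
    have h9 : u (Q.root k) - B * m (Q.root k) ≤ 0 :=
      (hQ.cone ((u - B • m).comp R.lat.subtype)).mp ⟨v, h7, fun μ a ha => h8 μ a ha⟩ k hk
    rw [hu ⟨k, hk⟩, hm ⟨k, hk⟩] at h9
    norm_num at h9
  refine ⟨fun τ hτ => ?_, ray, hQ.orth, fun k hk => ?_⟩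
  · obtain ⟨r, hr, n, hn⟩ := h1 τ (AddSubmonoid.subset_closure hτ)
    exact ⟨r, hr, hn ▸ sum_mem fun k _ => nsmul_mem (AddSubmonoid.subset_closure
      (Set.mem_image_of_mem (fun k => (Q.root k : M)) k.2)) _⟩
  · obtain ⟨r, hr, h2⟩ := ray k hk
    obtain ⟨n', h3⟩ := c.tails_rt h2
    obtain ⟨n, h4, h5⟩ := hQ.prim k hk
    have h6 := Fintype.linearIndependent_iffₛ.mp b.linearIndepOn_root (fun i => r * n i)
      (fun i => (n' i : ℤ)) (by
        simp only [mul_smul, ← Finset.smul_sum, natCast_zsmul]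
        exact h4 ▸ h3)
    have h7 : ∀ i, ((n i).toNat : ℤ) = n i := fun i => Int.toNat_of_nonneg
      ((mul_nonneg_iff_of_pos_left (by exact_mod_cast hr : (0 : ℤ) < r)).mp (by
        rw [h6 i]; positivity))
    refine ⟨fun i => (n i).toNat, by simp only [← natCast_zsmul, h7, h4], Nat.dvd_one.mp ?_⟩
    rw [← Int.natCast_dvd_natCast, Nat.cast_one, ← h5]
    exact Finset.dvd_gcd fun i hi => h7 i ▸ Int.natCast_dvd_natCast.mpr (Finset.gcd_dvd hi)

end Ctx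

end Pool.Agent.SX
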