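import Mathlib

/-! Definitions for affine spherical varieties and the dual representation. -/

namespace Pool.Agent.SX

variable {ι M N : Type} [AddCommGroup M] [AddCommGroup N]

/-- A complex vector space with a weight grading and Chevalley generators of the reductive
group with root datum `P` and simple roots `b`. -/
structure Rep (P : RootDatum ι M N) (b : P.Base) (V : Type) [AddCommGroup V] [Module ℂ V] where
  wt : M → Submodule ℂ V
  indep : iSupIndep wt
  span : ⨆ μ, wt μ = ⊤
  e : b.support → V →ₗ[ℂ] V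
  f : b.support → V →ₗ[ℂ] V
  e_wt : ∀ (i : b.support) μ v, v ∈ wt μ → e i v ∈ wt (μ + P.root i)
  f_wt : ∀ (i : b.support) μ v, v ∈ wt μ → f i v ∈ wt (μ - P.root i)
  ef : ∀ (i : b.support) μ v, v ∈ wt μ → e i (f i v) - f i (e i v) = ((P.coroot' i μ : ℤ) : ℂ) • v
  ef_ne : ∀ i j v, i ≠ j → e i (f j v) = f j (e i v)

namespace Rep

variable {P : RootDatum ι M N} {b : P.Base}

section Mod

variable {V : Type} [AddCommGroup V] [Module ℂ V] (R : Rep P b V)

/-- Submodule: stable under the generators and spanned by weight vectors. -/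
def Sub (W : Submodule ℂ V) : Prop :=
  (∀ i, ∀ v ∈ W, R.e i v ∈ W ∧ R.f i v ∈ W) ∧ W ≤ ⨆ μ, W ⊓ R.wt μ

/-- Finite-dimensional irreducible submodule. -/
def Simple (W : Submodule ℂ V) : Prop :=
  R.Sub W ∧ FiniteDimensional ℂ W ∧ W ≠ ⊥ ∧ ∀ U, R.Sub U → U ≤ W → U = ⊥ ∨ U = W

/-- Highest weight vector of weight `μ`. -/
def HW (μ : M) (v : V) : Prop := v ≠ 0 ∧ v ∈ R.wt μ ∧ ∀ i, R.e i v = 0

/-- Rational (a sum of finite-dimensional irreducible submodules) and multiplicity free. -/
def MultFree : Prop :=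
  sSup {W | R.Simple W} = ⊤ ∧ ∀ μ v w, R.HW μ v → R.HW μ w → ∃ c : ℂ, w = c • v

/-- The lattice generated by the highest weights. -/
def lat : AddSubgroup M := AddSubgroup.closure {μ | ∃ v, R.HW μ v}

/-- Invariant symplectic form. -/
def Symplectic (B : LinearMap.BilinForm ℂ V) : Prop :=
  B.IsAlt ∧ B.Nondegenerate ∧
    (∀ i x y, B (R.e i x) y + B x (R.e i y) = 0 ∧ B (R.f i x) y + B x (R.f i y) = 0) ∧
    ∀ μ ν, ∀ x ∈ R.wt μ, ∀ y ∈ R.wt ν, μ + ν ≠ 0 → B x y = 0

end Mod

section Alg

variable {A : Type} [CommRing A] [Algebra ℂ A] (R : Rep P b A)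

/-- The group acts by algebra automorphisms: the grading is multiplicative and the generators
are derivations. -/
def Acts : Prop :=
  (1 : A) ∈ R.wt 0 ∧ (∀ μ ν, ∀ x ∈ R.wt μ, ∀ y ∈ R.wt ν, x * y ∈ R.wt (μ + ν)) ∧
    ∀ i x y, R.e i (x * y) = x * R.e i y + R.e i x * y ∧
      R.f i (x * y) = x * R.f i y + R.f i x * y

/-- `p` is a Borel-stable prime divisor that the minimal parabolic of `i` does not preserve. -/
def Moves (i : b.support) (p : Ideal A) : Prop :=
  p.IsPrime ∧ p.height = 1 ∧ (∀ j, ∀ a ∈ p, R.e j a ∈ p) ∧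
    (∀ a ∈ p, a ∈ ⨆ μ, p.restrictScalars ℂ ⊓ R.wt μ) ∧ ∃ a ∈ p, R.f i a ∉ p

/-- Order of vanishing of `a` along the prime divisor `p`. -/
noncomputable def ord (p : Ideal A) (a : A) : ℕ := sSup {n | ∃ s ∉ p, s * a ∈ p ^ n}

/-- An invariant valuation with rational values: additive on products of nonzero functions, and
the functions of valuation at least `r` form a submodule. -/
def InvVal (v : A → ℚ) : Prop :=
  (∀ x y, x ≠ 0 → y ≠ 0 → v (x * y) = v x + v y) ∧
    ∀ r, ∃ W, R.Sub W ∧ ∀ x, x ∈ W ↔ x = 0 ∨ r ≤ v x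

/-- The valuation cone: restrictions of invariant valuations to eigenfunctions. -/
def ValCone : Set (R.lat →+ ℚ) :=
  {l | ∃ v, R.InvVal v ∧ ∀ (μ : R.lat) (a : A), R.HW μ a → l μ = v a}

/-- The action of the Chevalley generators and of the cocharacters on rational functions. -/
structure Lift where
  e : b.support → Derivation ℂ (FractionRing A) (FractionRing A)
  f : b.support → Derivation ℂ (FractionRing A) (FractionRing A)
  h : (M →+ ℤ) → Derivation ℂ (FractionRing A) (FractionRing A)
  he : ∀ i a, e i (algebraMap A _ a) = algebraMap A _ (R.e i a)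
  hf : ∀ i a, f i (algebraMap A _ a) = algebraMap A _ (R.f i a)
  hh : ∀ φ μ, ∀ a ∈ R.wt μ, h φ (algebraMap A _ a) = φ μ • algebraMap A _ a

/-- Rational functions invariant under the radical of the standard parabolic of `I`: killed by
the centre of the Levi factor and, with all their Levi translates, by the other raising
generators. -/
def Lift.Inv {R : Rep P b A} (X : R.Lift) (I : Set b.support) : Set (FractionRing A) :=
  {x | (∀ φ, (∀ i ∈ I, φ (P.root i) = 0) → X.h φ x = 0) ∧
    ∀ y, Relation.ReflTransGen (fun u w => ∃ i ∈ I, w = X.e i u ∨ w = X.f i u) x y →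
      ∀ j ∉ I, X.e j y = 0}

open Classical in
/-- The parabolic of `I` has even spherical type: the invariants of its radical are the function
field of the quadric `q = 1` in the standard module `x 0, ..., x (2 n)` of `SO(2n+1)` or the
seven-dimensional module of `G2`; `s a` is the simple root lowering `x a` to `x (a + 1)`. -/
def EvenType [IsDomain A] (I : Set b.support) : Prop :=
  ∃ (X : R.Lift) (n : ℕ) (s : ℕ → b.support) (x : ℕ → FractionRing A), 0 < n ∧
    (∀ a < 2 * n, s a ∈ I ∧ s (2 * n - 1 - a) = s a) ∧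
    (Set.InjOn s (Set.Iio n) ∨ n = 3 ∧ s 0 = s 2 ∧ s 0 ≠ s 1) ∧
    (∀ φ, X.h φ (x 0) = φ (∑ a ∈ Finset.range n, P.root (s a)) • x 0) ∧
    (∀ i ∈ I, X.e i (x 0) = 0 ∧ X.f i (x (2 * n)) = 0 ∧ ∀ a < 2 * n,
      X.f i (x a) = (if s a = i then x (a + 1) else 0) ∧
      X.e i (x (a + 1)) = if s a = i then (if a + 1 = n ∨ a = n then 2 else 1) * x a else 0) ∧
    ∑ a ∈ Finset.range (2 * n + 1), (-1) ^ a * x a * x (2 * n - a) = 1 ∧
    AlgebraicIndependent ℂ (fun a : Fin (2 * n) => x a) ∧
    X.Inv I = IntermediateField.adjoin ℂ (x '' Set.Iic (2 * n))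

variable {κ L : Type} [AddCommGroup L] (Q : RootDatum κ R.lat L) (c : Q.Base)

/-- `v` is the valuation of `p` on eigenfunctions. -/
def Val (p : Ideal A) (v : L) : Prop :=
  ∀ (μ : R.lat) (a : A), R.HW μ a → Q.toLinearMap μ v = ord p a

/-- The valuations of the colors of even spherical type. -/
def Colors [IsDomain A] : Set L :=
  {v | ∃ I, R.EvenType I ∧ ∃ i ∈ I, ∃ p, R.Moves i p ∧ R.Val Q p v}

/-- The simple roots of `Q` are the normalized spherical roots: they cut out the valuation cone,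
are primitive in the root lattice, and their reflections are orthogonal. -/
structure SphRoots [Fintype ι] : Prop where
  cone : ∀ l, l ∈ R.ValCone ↔ ∀ k ∈ c.support, l (Q.root k) ≤ 0
  orth : ∀ k ∈ c.support, ∀ μ ν : R.lat,
    P.RootForm (Q.reflection k μ) (Q.reflection k ν) = P.RootForm μ ν
  prim : ∀ k ∈ c.support, ∃ n : b.support → ℤ, (Q.root k : M) = ∑ i, n i • P.root i ∧
    Finset.univ.gcd n = 1

end Alg

end Rep

variable {P : RootDatum ι M N} (b : P.Base)

/-- Dominant weights among the Weyl translates of elements of `C`. -/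
def Dom (C : Set M) : Set M :=
  {l | (∀ i ∈ b.support, 0 ≤ P.coroot' i l) ∧ ∃ v ∈ C,
    Relation.ReflTransGen (fun u w => ∃ i ∈ b.support, w = P.reflection i u) v l}

/-- The maximal ones for the order given by sums of positive roots. -/
def DomMax (C : Set M) : Set M :=
  {l ∈ Dom b C | ∀ m ∈ Dom b C, m - l ∈ AddSubmonoid.closure (P.root '' b.support) → m = l}

end Pool.Agent.SX
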