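import Pool.Agent.P.MP_825e45_al.SxTee

/-! Root data of semisimple rank one and their modules. -/

namespace Pool.Agent.SX

open Rep

variable {M N : Type} [AddCommGroup M] [AddCommGroup N]

section Rk

variable (p : M →ₗ[ℤ] N →ₗ[ℤ] ℤ) [p.IsPerfPair] (α : M) (β : N) (h : p α β = 2)

/-- The root datum with roots `± α` and coroots `± β`. -/
def rk1 : RootDatum Bool M N where
  toLinearMap := p
  root := ⟨fun s => cond s α (-α), by
    have e : α ≠ -α := fun e => by
      have := congrArg (fun x => p x β) e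
      simp [h] at this
    rintro (_ | _) (_ | _) h1 <;> first | rfl | exact absurd h1 e | exact absurd h1.symm e⟩
  coroot := ⟨fun s => cond s β (-β), by
    have e : β ≠ -β := fun e => by
      have := congrArg (fun x => p α x) e
      simp [h] at this
    rintro (_ | _) (_ | _) h1 <;> first | rfl | exact absurd h1 e | exact absurd h1.symm e⟩
  root_coroot_two := by rintro (_ | _) <;> simp [h]
  reflectionPerm _ := ⟨not, not, by simp [Function.LeftInverse], by
    simp [Function.RightInverse, Function.LeftInverse]⟩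
  reflectionPerm_root := by rintro (_ | _) (_ | _) <;> simp [h, two_smul]
  reflectionPerm_coroot := by rintro (_ | _) (_ | _) <;> simp [h, two_smul]

/-- Its base. -/
def rk1b : (rk1 p α β h).Base where
  support := {true}
  linearIndepOn_root := by
    have e : α ≠ 0 := fun e => by simp [e] at h
    have : Module.IsReflexive ℤ M := .of_isPerfPair p
    simpa [rk1] using e
  linearIndepOn_coroot := by
    have e : β ≠ 0 := fun e => by simp [e] at h
    have : Module.IsReflexive ℤ N := .of_isPerfPair p.flip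
    simpa [rk1] using e
  root_mem_or_neg_mem := by
    rintro (_ | _)
    · exact Or.inr (AddSubmonoid.subset_closure ⟨true, by simp, by simp [rk1]⟩)
    · exact Or.inl (AddSubmonoid.subset_closure ⟨true, by simp, rfl⟩)
  coroot_mem_or_neg_mem := by
    rintro (_ | _)
    · exact Or.inr (AddSubmonoid.subset_closure ⟨true, by simp, by simp [rk1]⟩)
    · exact Or.inl (AddSubmonoid.subset_closure ⟨true, by simp, rfl⟩)

theorem rk1_red : (rk1 p α β h).IsReduced :=
  ⟨by rintro (_ | _) (_ | _) _ <;> simp [rk1]⟩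

theorem rk1_red' : (rk1 p α β h).flip.IsReduced :=
  ⟨by rintro (_ | _) (_ | _) _ <;> simp [rk1]⟩

end Rk

variable {ι : Type} {P : RootDatum ι M N} {b : P.Base}

namespace Rep

variable {V : Type} [AddCommGroup V] [Module ℂ V] (R : Rep P b V) {i : b.support}

lemma fw_one (hi : ∀ j, j = i) (L : List b.support) (x : V) :
    R.fw L x = (R.f i ^ L.length) x := by
  induction L with
  | nil => rfl
  | cons j L ih =>
    change R.f j (R.fw L x) = _
    rw [ih, hi j, List.length_cons, pow_succ', Module.End.mul_apply]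

lemma rs_one (hi : ∀ j, j = i) (L : List b.support) : rs b L = L.length • P.root i := by
  induction L with
  | nil => simp [rs_nil]
  | cons j L ih => rw [rs_cons, ih, hi j, List.length_cons, succ_nsmul']

/-- In semisimple rank one a highest weight vector with nilpotent lowering generates an
irreducible module. -/
lemma simple_one [Finite ι] [P.IsReduced] (hi : ∀ j, j = i) {μ : M} {x : V} (hx : R.HW μ x)
    (hn : ∃ k, (R.f i ^ k) x = 0) : R.Simple (R.Wd Set.univ {x}) := by
  classical
  have hH := R.H_mem (co P i) hx.2.1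
  obtain ⟨m, h1, -, h3⟩ := hw_deg (R.e_f i) (R.Hco_f i) hx.1 (hx.2.2 i) hH hn
  have hz : ∀ n, m < n → (R.f i ^ n) x = 0 := fun n hn => by
    obtain ⟨d, rfl⟩ := Nat.exists_eq_add_of_lt hn
    rw [add_right_comm, add_comm (m + 1), pow_add, Module.End.mul_apply, h3, map_zero]
  have hle : R.Wd Set.univ {x} ≤
      Submodule.span ℂ (Set.range fun n : Fin (m + 1) => (R.f i ^ (n : ℕ)) x) := fun y hy =>
    R.Wd_map LinearMap.id _ (fun L _ x' hx' => by
      obtain rfl := hx'
      rw [LinearMap.id_apply, R.fw_one hi]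
      by_cases e : m < L.length
      · rw [hz _ e]; exact zero_mem _
      · exact Submodule.subset_span ⟨⟨L.length, by omega⟩, rfl⟩) hy
  have : FiniteDimensional ℂ
      (Submodule.span ℂ (Set.range fun n : Fin (m + 1) => (R.f i ^ (n : ℕ)) x)) :=
    FiniteDimensional.span_of_finite ℂ (Set.finite_range _)
  have hfd : FiniteDimensional ℂ (R.Wd Set.univ {x}) := Submodule.finiteDimensional_of_le hle
  refine ⟨hx.sub, hfd, (Submodule.ne_bot_iff _).mpr ⟨x, R.mem_Wd rfl, hx.1⟩, fun U hU hUle => ?_⟩
  by_cases h0 : U = ⊥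
  · exact Or.inl h0
  have : FiniteDimensional ℂ U := Submodule.finiteDimensional_of_le hUle
  obtain ⟨ν, y, hy, hw⟩ := R.exists_HW_fd hU.gr (fun j v hv => (hU.1 j v hv).1) h0
  obtain ⟨L, -, e1⟩ := R.wt_of_Wd hx.2.1 (hUle hy) (ν := ν)
    (by rw [R.G.pr_self hw.2.1]; exact hw.1)
  have h4 : R.G.pr ν y ∈ Submodule.span ℂ {(R.f i ^ L.length) x} :=
    R.Wd_map _ _ (fun L' _ x' hx' => by
      obtain rfl := hx'
      by_cases e : μ - rs b L' = ν
      · have e2 : L'.length = L.length := by
          have := congrArg (co P i) (e.trans e1)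
          simp only [rs_one hi, map_sub, map_nsmul, co_self, nsmul_eq_mul] at this
          omega
        rw [R.G.pr_self (e ▸ R.fw_wt L' hx.2.1), R.fw_one hi, e2]
        exact Submodule.mem_span_singleton_self _
      · rw [R.G.pr_ne (R.fw_wt L' hx.2.1) e]; exact zero_mem _) (hUle hy)
  rw [R.G.pr_self hw.2.1, Submodule.mem_span_singleton] at h4
  obtain ⟨c, rfl⟩ := h4
  have hc : c ≠ 0 := fun e => hw.1 (by simp [e])
  have hx' : x ∈ U := by
    rcases hl : L.length with _ | n
    · rw [hl] at hy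
      simpa [hc] using U.smul_mem c⁻¹ hy
    · rw [hl] at hw
      have h5 := hw.2.2 i
      have h6 : n + 1 ≤ m := by
        by_contra e
        exact hw.1 (by rw [hz _ (by omega), smul_zero])
      rw [map_smul, hw_pow (R.e_f i) (R.Hco_f i) (hx.2.2 i) hH, h1, smul_eq_zero, smul_eq_zero,
        mul_eq_zero] at h5
      rcases h5 with h5 | (h5 | h5) | h5
      · exact absurd h5 hc
      · exact absurd h5 (Nat.cast_add_one_ne_zero n)
      · have : m = n := by exact_mod_cast sub_eq_zero.mp h5
        omega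
      · exact absurd h5 (hw_ne (R.e_f i) (R.Hco_f i) hx.1 (hx.2.2 i) (h1 ▸ hH) n (by omega))
  exact Or.inr (le_antisymm hUle
    (R.Wd_le (fun j _ v hv => (hU.1 j v hv).2) (by rintro _ rfl; exact hx')))

end Rep

/-- The order along a principal prime divisor. -/
lemma ord_prime {A : Type} [CommRing A] [Algebra ℂ A] [IsDomain A] [IsNoetherianRing A]
    [IsIntegrallyClosed A] {π : A} (hπ : Prime π) : ∃ ν : A → ℤ,
      (∀ x ≠ 0, (Rep.ord (Ideal.span {π}) x : ℤ) = ν x) ∧
      (∀ x ≠ 0, ∀ y ≠ 0, ν (x * y) = ν x + ν y) ∧ (∀ x ≠ 0, ∀ n : ℕ, ν (x ^ n) = n * ν x) ∧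
      ν π = 1 ∧ ∀ x, ¬π ∣ x → ν x = 0 := by
  have : (Ideal.span {π}).IsPrime := (Ideal.span_singleton_prime hπ.ne_zero).mpr hπ
  obtain ⟨D⟩ := exists_DV (FractionRing A) (Ideal.span {π})
    (Ideal.height_span_singleton_eq_one_of_mem_nonZeroDivisors
      (mem_nonZeroDivisors_of_ne_zero hπ.ne_zero) hπ.not_isUnit)
  have hne : ∀ x : A, x ≠ 0 → algebraMap A (FractionRing A) x ≠ 0 := fun x hx =>
    (map_ne_zero_iff _ (IsFractionRing.injective A _)).mpr hx
  have hge : ∀ x : A, x ≠ 0 → 0 ≤ D.v (algebraMap A (FractionRing A) x) := fun x hx =>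
    (D.ge_iff (hne x hx)).mp (D.Ge_zero.mpr (D.alg_O x))
  refine ⟨fun x => D.v (algebraMap A _ x), fun x hx => D.ord_eq hx, fun x hx y hy => ?_,
    fun x hx n => ?_, ?_, fun x hx => ?_⟩
  · simp only [map_mul]; exact D.v_mul (hne x hx) (hne y hy)
  · simp only [map_pow]; exact D.v_pow (hne x hx) n
  · obtain ⟨a, ha, e⟩ := D.π_mem
    obtain ⟨g, rfl⟩ := Ideal.mem_span_singleton.mp ha
    have hg : g ≠ 0 := fun h => D.π_ne (by rw [← e, h, mul_zero, map_zero])
    have h1 := D.v_π
    rw [← e, map_mul, D.v_mul (hne _ hπ.ne_zero) (hne g hg)] at h1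
    have h2 := (D.ge_iff (hne _ hπ.ne_zero)).mp
      ((D.p_iff π).mp (Ideal.mem_span_singleton_self π))
    have := hge g hg
    change D.v _ = 1
    omega
  · have hx0 : x ≠ 0 := fun h => hx (h ▸ dvd_zero π)
    have h1 := hge x hx0
    have h2 : ¬1 ≤ D.v (algebraMap A (FractionRing A) x) := fun h =>
      hx (Ideal.mem_span_singleton.mp ((D.p_iff x).mpr ((D.ge_iff (hne x hx0)).mpr h)))
    change D.v _ = 0
    omega

end Pool.Agent.SX
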