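import Pool.Agent.P.MP_825e45_al.SxEx1

/-! The coordinate ring of two by two matrices under `GL2 × Gm`. -/

namespace Pool.Agent.SX.Ex

open Rep MvPolynomial

/-- The character lattice, in the basis of the weights of `a`, `b` and the determinant. -/
abbrev MM : Type := Fin 3 → ℤ

/-- Polynomials in the entries `a b c d`. -/
abbrev AA : Type := MvPolynomial (Fin 4) ℂ

/-- Coordinates on the character lattice. -/
def pj (i : Fin 3) : Module.Dual ℤ MM := LinearMap.proj i

@[simp] lemma pj_apply (i : Fin 3) (μ : MM) : pj i μ = μ i := rfl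

/-- The root. -/
def al : MM := ![1, 1, -1]

lemma hal : Module.Dual.eval ℤ MM al (pj 0 + pj 1) = 2 := by simp [al]

/-- The root datum of `GL2 × Gm`. -/
noncomputable abbrev PP : RootDatum Bool MM (Module.Dual ℤ MM) := rk1 _ al (pj 0 + pj 1) hal

/-- Its base. -/
noncomputable abbrev bb : PP.Base := rk1b _ al (pj 0 + pj 1) hal

instance : PP.IsReduced := rk1_red _ _ _ _

/-- The simple root. -/
def i0 : bb.support := ⟨true, Finset.mem_singleton_self _⟩

lemma hi0 (j : bb.support) : j = i0 := Subtype.ext (Finset.mem_singleton.mp j.2)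

lemma root_eq (j : bb.support) : PP.root j = al := by rw [hi0 j]; rfl

lemma co_eq (j : bb.support) (μ : MM) : PP.coroot' j μ = μ 0 + μ 1 := by rw [hi0 j]; rfl

/-- Weights of the entries. -/
def ww : Fin 4 → MM := ![![1, 0, 0], ![0, 1, 0], ![0, -1, 1], ![-1, 0, 1]]

lemma wt_eq (m : Fin 4 →₀ ℕ) :
    Finsupp.weight ww m = ![(m 0 : ℤ) - m 3, (m 1 : ℤ) - m 2, (m 2 : ℤ) + m 3] := by
  rw [Finsupp.weight_eq_sum, Fin.sum_univ_four]
  funext i
  fin_cases i <;> simp [ww] <;> ring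

/-- Raising. -/
noncomputable def eD : Derivation ℂ AA AA := (X 0 : AA) • pderiv 2 + (X 1 : AA) • pderiv 3

/-- Lowering. -/
noncomputable def fD : Derivation ℂ AA AA := (X 2 : AA) • pderiv 0 + (X 3 : AA) • pderiv 1

/-- The coroot. -/
noncomputable def hD : Derivation ℂ AA AA :=
  (X 0 : AA) • pderiv 0 + (X 1 : AA) • pderiv 1 - (X 2 : AA) • pderiv 2 - (X 3 : AA) • pderiv 3

lemma eD_apply (v : AA) : eD v = X 0 * pderiv 2 v + X 1 * pderiv 3 v := by simp [eD]

lemma fD_apply (v : AA) : fD v = X 2 * pderiv 0 v + X 3 * pderiv 1 v := by simp [fD]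

@[simp] lemma e0 : eD (X 0) = 0 := by simp [eD_apply, pderiv_X]
@[simp] lemma e1 : eD (X 1) = 0 := by simp [eD_apply, pderiv_X]
@[simp] lemma e2 : eD (X 2) = X 0 := by simp [eD_apply, pderiv_X]
@[simp] lemma e3 : eD (X 3) = X 1 := by simp [eD_apply, pderiv_X]
@[simp] lemma f0 : fD (X 0) = X 2 := by simp [fD_apply, pderiv_X]
@[simp] lemma f1 : fD (X 1) = X 3 := by simp [fD_apply, pderiv_X]
@[simp] lemma f2 : fD (X 2) = 0 := by simp [fD_apply, pderiv_X]
@[simp] lemma f3 : fD (X 3) = 0 := by simp [fD_apply, pderiv_X]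

lemma br : ⁅eD, fD⁆ = hD := by
  refine derivation_ext fun i => ?_
  rw [Derivation.commutator_apply]
  fin_cases i <;> simp [hD, pderiv_X]

lemma xd {μ ν : MM} {v : AA} (hv : v.IsWeightedHomogeneous ww μ) (i j : Fin 4)
    (h : ww i - ww j = ν) : (X i * pderiv j v).IsWeightedHomogeneous ww (μ + ν) := by
  have := (isWeightedHomogeneous_X ℂ ww i).mul (hv.pderiv (sub_add_cancel μ (ww j)))
  rwa [show ww i + (μ - ww j) = μ + ν by rw [← h]; abel] at this

/-- The action on the coordinate ring. -/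
noncomputable def RR : Rep PP bb AA where
  wt := weightedHomogeneousSubmodule ℂ ww
  indep :=
    letI := weightedDecomposition ℂ ww
    (DirectSum.Decomposition.isInternal _).submodule_iSupIndep
  span :=
    letI := weightedDecomposition ℂ ww
    (DirectSum.Decomposition.isInternal _).submodule_iSup_eq_top
  e _ := eD.toLinearMap
  f _ := fD.toLinearMap
  e_wt i μ v hv := by
    rw [root_eq]
    change (eD v).IsWeightedHomogeneous ww _
    rw [eD_apply]
    exact (xd hv 0 2 (by decide)).add (xd hv 1 3 (by decide))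
  f_wt i μ v hv := by
    rw [root_eq]
    change (fD v).IsWeightedHomogeneous ww _
    rw [fD_apply, sub_eq_add_neg]
    exact (xd hv 2 0 (by decide)).add (xd hv 3 1 (by decide))
  ef i μ v hv := by
    rw [co_eq]
    change eD (fD v) - fD (eD v) = _
    rw [← Derivation.commutator_apply, br]
    induction hv using IsWeightedHomogeneous.induction_on with
    | zero => simp
    | add p q _ _ h1 h2 => rw [map_add, h1, h2, smul_add]
    | monomial d r hr =>
      rw [← hr, wt_eq]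
      simp only [hD, Derivation.sub_apply, Derivation.add_apply, Derivation.smul_apply,
        smul_eq_mul, X_mul_pderiv_monomial, Matrix.cons_val_zero, Matrix.cons_val_one]
      push_cast
      module
  ef_ne i j _ h := absurd ((hi0 i).trans (hi0 j).symm) h

lemma re (i : bb.support) (v : AA) : RR.e i v = eD v := rfl

lemma rf (i : bb.support) (v : AA) : RR.f i v = fD v := rfl

lemma rwt {μ : MM} {v : AA} : v ∈ RR.wt μ ↔ v.IsWeightedHomogeneous ww μ := Iff.rfl

lemma acts : RR.Acts :=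
  ⟨isWeightedHomogeneous_one ℂ ww, fun _ _ _ hx _ hy => (rwt.mp hx).mul hy, fun _ x y => by
    simp only [re, rf, Derivation.leibniz, smul_eq_mul, mul_comm, and_self]⟩

/-- The determinant. -/
noncomputable def dt : AA := X 0 * X 3 - X 1 * X 2

lemma e_dt : eD dt = 0 := by simp [dt]; ring

lemma f_dt : fD dt = 0 := by simp [dt]; ring

lemma nd (i : Fin 4) : ¬(X i : AA) ∣ dt := by
  rintro ⟨g, hg⟩
  fin_cases i
  · simpa [dt] using congrArg (eval ![0, 1, 1, 0]) hg
  · simpa [dt] using congrArg (eval ![1, 0, 0, 1]) hg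
  · simpa [dt] using congrArg (eval ![1, 0, 0, 1]) hg
  · simpa [dt] using congrArg (eval ![0, 1, 1, 0]) hg

lemma dt_ne : dt ≠ 0 := fun h => nd 0 (h ▸ dvd_zero _)

lemma dt_wt : dt.IsWeightedHomogeneous ww ![0, 0, 1] := by
  have h1 := (isWeightedHomogeneous_X ℂ ww 0).mul (isWeightedHomogeneous_X ℂ ww 3)
  have h2 := (isWeightedHomogeneous_X ℂ ww 1).mul (isWeightedHomogeneous_X ℂ ww 2)
  rw [show ww 0 + ww 3 = ![0, 0, 1] by decide] at h1
  rw [show ww 1 + ww 2 = ![0, 0, 1] by decide] at h2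
  exact h1.sub h2

/-- The eigenfunctions. -/
noncomputable def hv (i j k : ℕ) : AA := X 0 ^ i * X 1 ^ j * dt ^ k

lemma hv_hw (i j k : ℕ) : RR.HW ![i, j, k] (hv i j k) := by
  refine ⟨mul_ne_zero (mul_ne_zero (pow_ne_zero _ (X_ne_zero _)) (pow_ne_zero _ (X_ne_zero _)))
    (pow_ne_zero _ dt_ne), ?_, fun _ => by simp [re, hv, e_dt]⟩
  have := (((isWeightedHomogeneous_X ℂ ww 0).pow i).mul
    ((isWeightedHomogeneous_X ℂ ww 1).pow j)).mul (dt_wt.pow k)
  rwa [show i • ww 0 + j • ww 1 + k • ![0, 0, 1] = ![(i : ℤ), j, k] by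
    funext t; fin_cases t <;> simp [ww]] at this

lemma ker_c {g : AA} (he : eD g = 0) (hc : ∀ m ∈ g.support, m 2 ≠ 0) : g = 0 := by
  by_contra h0
  have hp : Prime (X 2 : AA) := X_prime
  have hd : (X 2 : AA) ∣ g := by
    rw [← Ideal.mem_span_singleton, ← Set.image_singleton, mem_ideal_span_X_image]
    exact fun m hm => ⟨2, rfl, hc m hm⟩
  obtain ⟨n, u, hu, rfl⟩ := WfDvdMonoid.max_power_factor h0 hp.irreducible
  rcases n with _ | n
  · exact hu (by simpa using hd)
  · have h1 : (X 2 : AA) ^ n * (X 2 * eD u + ((n : AA) + 1) * X 0 * u) = 0 := by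
      rw [← he]
      simp only [Derivation.leibniz, Derivation.leibniz_pow, e2, smul_eq_mul, nsmul_eq_mul,
        Nat.add_sub_cancel]
      push_cast
      ring
    have h2 := (mul_eq_zero.mp h1).resolve_left (pow_ne_zero _ hp.ne_zero)
    have h3 : (X 2 : AA) ∣ ((n : AA) + 1) * X 0 * u :=
      ⟨-eD u, by linear_combination h2⟩
    rcases hp.dvd_or_dvd h3 with h4 | h4
    · obtain ⟨t, ht⟩ := h4
      have := congrArg (eval ![(1 : ℂ), 0, 0, 0]) ht
      simp at this
      exact Nat.cast_add_one_ne_zero n this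
    · exact hu h4

lemma exists_m {μ : MM} {v : AA} (h : RR.HW μ v) :
    ∃ m : Fin 4 →₀ ℕ, coeff m v ≠ 0 ∧ m 2 = 0 ∧ Finsupp.weight ww m = μ := by
  by_contra hc
  push Not at hc
  exact h.1 (ker_c (h.2.2 i0) fun m hm h2 =>
    hc m (mem_support_iff.mp hm) h2 (rwt.mp h.2.1 (mem_support_iff.mp hm)))

lemma hw_uniq (μ : MM) (v w : AA) (hv : RR.HW μ v) (hw : RR.HW μ w) : ∃ c : ℂ, w = c • v := by
  obtain ⟨m, h1, h2, h3⟩ := exists_m hv
  refine ⟨coeff m w / coeff m v, sub_eq_zero.mp (ker_c ?_ fun n hn h4 => ?_)⟩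
  · rw [map_sub, Derivation.map_smul, ← re i0, ← re i0, hv.2.2, hw.2.2, smul_zero, sub_zero]
  · have h5 : w - (coeff m w / coeff m v) • v ∈ RR.wt μ :=
      sub_mem hw.2.1 (Submodule.smul_mem _ _ hv.2.1)
    have h6 := (rwt.mp h5 (mem_support_iff.mp hn)).trans h3.symm
    rw [wt_eq, wt_eq] at h6
    have a0 := congrFun h6 0
    have a1 := congrFun h6 1
    have a2 := congrFun h6 2
    simp [h2, h4] at a0 a1 a2
    have : n = m := by
      ext t
      fin_cases t <;> simp <;> omega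
    rw [this, mem_support_iff, coeff_sub, coeff_smul, smul_eq_mul, div_mul_cancel₀ _ h1,
      sub_self] at hn
    exact hn rfl

lemma f_nil {μ : MM} {v : AA} (hv : v ∈ RR.wt μ) : ∃ k, (RR.f i0 ^ k) v = 0 := by
  have key : ∀ k : ℕ, (RR.f i0 ^ k) v ∈ RR.wt (μ - k • al) := by
    intro k
    induction k with
    | zero => simpa using hv
    | succ k ih =>
      rw [pow_succ', Module.End.mul_apply, succ_nsmul, ← sub_sub, ← root_eq i0]
      exact RR.f_wt i0 _ _ ih
  refine ⟨(μ 0 + μ 1 + μ 2).toNat + 1, (rwt.mp (key _)).eq_zero_of_no_monomials fun d hd => ?_⟩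
  rw [wt_eq] at hd
  have a0 := congrFun hd 0
  have a1 := congrFun hd 1
  have a2 := congrFun hd 2
  simp [al] at a0 a1 a2
  omega

lemma rat : RR.Rat := by
  let W : Submodule ℂ AA := sSup {W | RR.Simple W}
  have hW : RR.Sub W := RR.sub_sSup fun _ h => h.1
  have hf : ∀ v ∈ W, fD v ∈ W := fun v hv => (hW.1 i0 v hv).2
  have hs : ∀ (n : ℕ) (v : AA), ((n : AA) + 1) * v ∈ W → v ∈ W := by
    intro n v h
    have h1 := W.smul_mem ((n : ℂ) + 1)⁻¹ h
    rwa [show ((n : AA) + 1) * v = ((n : ℂ) + 1) • v by simp [Algebra.smul_def], smul_smul,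
      inv_mul_cancel₀ (Nat.cast_add_one_ne_zero n), one_smul] at h1
  have hn : ∀ (n : ℕ) (v : AA), v ∈ W → (n : AA) * v ∈ W := fun n v h => by
    rw [← nsmul_eq_mul]; exact nsmul_mem h n
  have key : ∀ t p q r s k : ℕ, p + q + 2 * r + 2 * s = t →
      dt ^ k * (X 0 ^ p * X 1 ^ q * X 2 ^ r * X 3 ^ s) ∈ W := by
    intro t
    induction t using Nat.strong_induction_on with
    | _ t ih =>
      intro p q r s k ht
      rcases r with _ | r
      · rcases s with _ | s
        · have h1 := hv_hw p q k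
          have h2 : hv p q k ∈ W := le_sSup (s := {W | RR.Simple W})
            (RR.simple_one hi0 h1 (f_nil h1.2.1)) (RR.mem_Wd rfl)
          rwa [show hv p q k = dt ^ k * (X 0 ^ p * X 1 ^ q * X 2 ^ 0 * X 3 ^ 0) by
            rw [hv]; ring] at h2
        · have h1 := hf _ (ih _ (by omega) p (q + 1) 0 s k rfl)
          rcases p with _ | p
          · refine hs q _ ?_
            rwa [show fD (dt ^ k * (X 0 ^ 0 * X 1 ^ (q + 1) * X 2 ^ 0 * X 3 ^ s)) =
              ((q : AA) + 1) * (dt ^ k * (X 0 ^ 0 * X 1 ^ q * X 2 ^ 0 * X 3 ^ (s + 1))) by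
                simp [f_dt]; ring] at h1
          · refine hs (p + 1 + q) _ ?_
            have h2 := add_mem h1 (hn (p + 1) _ (ih _ (by omega) p q 0 s (k + 1) rfl))
            rwa [show fD (dt ^ k * (X 0 ^ (p + 1) * X 1 ^ (q + 1) * X 2 ^ 0 * X 3 ^ s)) +
              ((p + 1 : ℕ) : AA) * (dt ^ (k + 1) * (X 0 ^ p * X 1 ^ q * X 2 ^ 0 * X 3 ^ s)) =
              (((p + 1 + q : ℕ) : AA) + 1) *
                (dt ^ k * (X 0 ^ (p + 1) * X 1 ^ q * X 2 ^ 0 * X 3 ^ (s + 1))) by
                simp [f_dt]; rw [pow_succ dt k]; generalize dt ^ k = z; rw [dt]; ring] at h2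
      · have h1 := hf _ (ih _ (by omega) (p + 1) q r s k rfl)
        rcases q with _ | q
        · refine hs p _ ?_
          rwa [show fD (dt ^ k * (X 0 ^ (p + 1) * X 1 ^ 0 * X 2 ^ r * X 3 ^ s)) =
            ((p : AA) + 1) * (dt ^ k * (X 0 ^ p * X 1 ^ 0 * X 2 ^ (r + 1) * X 3 ^ s)) by
              simp [f_dt]; ring] at h1
        · refine hs (p + (q + 1)) _ ?_
          have h2 := sub_mem h1 (hn (q + 1) _ (ih _ (by omega) p q r s (k + 1) rfl))
          rwa [show fD (dt ^ k * (X 0 ^ (p + 1) * X 1 ^ (q + 1) * X 2 ^ r * X 3 ^ s)) -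
            ((q + 1 : ℕ) : AA) * (dt ^ (k + 1) * (X 0 ^ p * X 1 ^ q * X 2 ^ r * X 3 ^ s)) =
            (((p + (q + 1) : ℕ) : AA) + 1) *
              (dt ^ k * (X 0 ^ p * X 1 ^ (q + 1) * X 2 ^ (r + 1) * X 3 ^ s)) by
              simp [f_dt]; rw [pow_succ dt k]; generalize dt ^ k = z; rw [dt]; ring] at h2
  refine eq_top_iff.mpr fun v _ => ?_
  change v ∈ W
  induction v using MvPolynomial.induction_on' with
  | monomial m r =>
    rw [monomial_eq, Finsupp.prod_fintype _ _ (by simp), Fin.prod_univ_four, ← smul_eq_C_mul]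
    simpa using W.smul_mem r (key _ (m 0) (m 1) (m 2) (m 3) 0 rfl)
  | add p q h1 h2 => exact add_mem (h1 trivial) (h2 trivial)

lemma ctx : Ctx RR := ⟨acts, rat, hw_uniq⟩

lemma hw_form {μ : MM} {v : AA} (h : RR.HW μ v) : ∃ (i j k : ℕ) (c : ℂ), c ≠ 0 ∧
    μ 0 = i - k ∧ μ 1 = j ∧ X 0 ^ k * v = C c * hv i j k := by
  obtain ⟨m, -, h2, h3⟩ := exists_m h
  rw [wt_eq] at h3
  have h4 := ctx.hw_mul (hv_hw (m 3) 0 0) h
  rw [show ![((m 3 : ℕ) : ℤ), (0 : ℕ), (0 : ℕ)] + μ = ![(m 0 : ℤ), m 1, m 3] by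
    rw [← h3]; funext t; fin_cases t <;> simp [h2]] at h4
  obtain ⟨c, hc⟩ := hw_uniq _ _ _ (hv_hw (m 0) (m 1) (m 3)) h4
  refine ⟨m 0, m 1, m 3, c, fun e => h4.1 (by rw [hc, e, zero_smul]), by simp [← h3],
    by simp [← h3, h2], ?_⟩
  rw [← smul_eq_C_mul, ← hc]
  simp [hv]

end Pool.Agent.SX.Ex
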