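import Pool.Agent.P.MP_825e45_al.SxEx2

/-! Spherical root, colors and dual module of two by two matrices under `GL2 × Gm`. -/

namespace Pool.Agent.SX.Ex

open Rep MvPolynomial

lemma lat_mem (μ : MM) : μ ∈ RR.lat := by
  have h : ∀ i j k : ℕ, (![(i : ℤ), j, k] : MM) ∈ RR.lat := fun i j k => Ctx.hw_lat (hv_hw i j k)
  have := add_mem (add_mem (zsmul_mem (h 1 0 0) (μ 0)) (zsmul_mem (h 0 1 0) (μ 1)))
    (zsmul_mem (h 0 0 1) (μ 2))
  rwa [show μ 0 • (![((1 : ℕ) : ℤ), (0 : ℕ), (0 : ℕ)] : MM) +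
    μ 1 • ![((0 : ℕ) : ℤ), (1 : ℕ), (0 : ℕ)] + μ 2 • ![((0 : ℕ) : ℤ), (0 : ℕ), (1 : ℕ)] = μ by
      funext t; fin_cases t <;> simp] at this

/-- Every character is a weight of a rational eigenfunction. -/
noncomputable def up : MM →+ RR.lat := (AddMonoidHom.id MM).codRestrict RR.lat lat_mem

@[simp] lemma up_coe (μ : MM) : (up μ : MM) = μ := rfl

instance : Module.Finite ℤ RR.lat :=
  Module.Finite.of_injective RR.lat.subtype.toIntLinearMap Subtype.val_injective

/-- The dual lattice. -/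
abbrev LL : Type := Module.Dual ℤ RR.lat

/-- Coordinates. -/
noncomputable def vv (i : Fin 3) : LL := (pj i).comp RR.lat.subtype.toIntLinearMap

@[simp] lemma vv_apply (i : Fin 3) (μ : RR.lat) : vv i μ = (μ : MM) i := rfl

lemma hq : Module.Dual.eval ℤ RR.lat (up al) (vv 0 + vv 1) = 2 := by simp [al]

/-- The root datum dual to the dual group. -/
noncomputable abbrev QQ : RootDatum Bool RR.lat LL := rk1 _ (up al) (vv 0 + vv 1) hq

/-- Its base. -/
noncomputable abbrev cc : QQ.Base := rk1b _ (up al) (vv 0 + vv 1) hq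

instance : QQ.IsReduced := rk1_red _ _ _ _

instance : QQ.flip.IsReduced := rk1_red' _ _ _ _

lemma ck {k : Bool} (hk : k ∈ cc.support) : k = true := Finset.mem_singleton.mp hk

lemma tail_al : RR.Tail al := by
  refine ⟨_, _, _, _, _, _, hv_hw 1 0 0, hv_hw 0 1 0, hv_hw 0 0 1, ?_, by decide⟩
  rw [(hv_hw 1 0 0).gen_eq, (hv_hw 0 1 0).gen_eq]
  have h1 : hv 1 0 0 ∈ RR.Wd Set.univ {hv 1 0 0} := RR.mem_Wd rfl
  have h2 : hv 0 1 0 ∈ RR.Wd Set.univ {hv 0 1 0} := RR.mem_Wd rfl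
  have h3 := sub_mem (Submodule.mul_mem_mul h1 (RR.Wd_f (Set.mem_univ i0) h2))
    (Submodule.mul_mem_mul (RR.Wd_f (Set.mem_univ i0) h1) h2)
  rwa [show hv 1 0 0 * RR.f i0 (hv 0 1 0) - RR.f i0 (hv 1 0 0) * hv 0 1 0 = hv 0 0 1 by
    simp [rf, hv, dt]; ring] at h3

lemma sph : RR.SphRoots QQ cc := by
  refine ⟨fun l => ⟨fun ⟨v, h1, h2⟩ k hk => ?_, fun h => ?_⟩, fun k hk μ ν => ?_, fun k hk => ?_⟩
  · rw [ck hk]
    exact Ctx.tail_le h1 (l := l.comp up) (fun μ a ha => h2 (up μ) a ha) tail_al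
  · obtain ⟨v, h1, h2⟩ := ctx.val_of_tails (l.comp up) fun τ hτ => by
      obtain ⟨L, rfl⟩ := ctx.tail_rs hτ
      rw [rs_one hi0, map_nsmul]
      exact nsmul_nonpos (h true (Finset.mem_singleton_self _)) _
    exact ⟨v, h1, fun μ a ha => h2 μ a ha⟩
  · rw [ck hk]
    exact PP.rootForm_reflection_reflection_apply true μ ν
  · have hu : (Finset.univ : Finset bb.support) = {i0} :=
      Finset.eq_singleton_iff_unique_mem.mpr ⟨Finset.mem_univ _, fun j _ => hi0 j⟩
    refine ⟨fun _ => 1, ?_, ?_⟩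
    · rw [ck hk, hu, Finset.sum_singleton, one_smul]; rfl
    · rw [hu, Finset.gcd_singleton]; rfl

lemma ht (i : Fin 4) : (Ideal.span {(X i : AA)}).height = 1 :=
  Ideal.height_span_singleton_eq_one_of_mem_nonZeroDivisors
    (mem_nonZeroDivisors_of_ne_zero (X_ne_zero i)) (X_prime (R := ℂ) (i := i)).not_isUnit

lemma pr (i : Fin 4) : (Ideal.span {(X i : AA)}).IsPrime :=
  (Ideal.span_singleton_prime (X_ne_zero i)).mpr X_prime

lemma moves {i j : Fin 4} (he : eD (X i) = 0) (hf : fD (X i) = X j) (hij : i ≠ j) :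
    RR.Moves i0 (Ideal.span {X i}) := by
  refine ⟨pr i, ht i, fun _ a ha => ?_, fun a ha => (RR.G.gr_iff _).mpr
    (RR.gr_of_H (U := (Ideal.span {(X i : AA)}).restrictScalars ℂ) fun φ a ha => ?_) ha,
    X i, Ideal.mem_span_singleton_self _, ?_⟩
  · obtain ⟨g, rfl⟩ := Ideal.mem_span_singleton.mp ha
    rw [re, Derivation.leibniz, he, smul_zero, add_zero]
    exact Ideal.mem_span_singleton.mpr (dvd_mul_right _ _)
  · obtain ⟨g, rfl⟩ := Ideal.mem_span_singleton.mp ha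
    have h1 : RR.H φ (X i * g) = (X i : AA) • RR.H φ g + g • RR.H φ (X i) :=
      (ctx.dH φ).leibniz _ _
    rw [h1, RR.H_mem φ (rwt.mpr (isWeightedHomogeneous_X ℂ ww i))]
    exact add_mem (Ideal.mem_span_singleton.mpr (dvd_mul_right _ _))
      (Submodule.smul_mem (Ideal.span {(X i : AA)}) _
        (Submodule.smul_of_tower_mem _ _ (Ideal.mem_span_singleton_self _)))
  · rw [rf, hf, Ideal.mem_span_singleton, X_dvd_X]
    exact hij

lemma m0 : RR.Moves i0 (Ideal.span {X 0}) := moves e0 f0 (by decide)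

lemma m1 : RR.Moves i0 (Ideal.span {X 1}) := moves e1 f1 (by decide)

lemma typeT : RR.TypeT i0 := by
  refine ⟨_, _, fun h => ?_, m0, m1⟩
  have := Ideal.mem_span_singleton.mp (h ▸ Ideal.mem_span_singleton_self (X 0 : AA))
  exact absurd (X_dvd_X.mp this) (by decide)

lemma classify {i : bb.support} {p : Ideal AA} (hp : RR.Moves i p) :
    p = Ideal.span {X 0} ∨ p = Ideal.span {X 1} := by
  have := hp.1
  have key : ∀ t : Fin 4, X t ∈ p → p = Ideal.span {X t} := fun t h => by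
    have := pr t
    exact (Ideal.eq_of_le_of_height_le _ ((Ideal.span_singleton_le_iff_mem _).mpr h)
      (by rw [hp.2.1, ht])).symm
  obtain ⟨μ, a, ha, ha'⟩ := ctx.hw_of_moves hp
  obtain ⟨k, l, m, c, hc, -, -, h⟩ := hw_form ha'
  have h1 : C c * hv k l m ∈ p := h ▸ p.mul_mem_left _ ha
  rw [p.unit_mul_mem_iff_mem ((Ne.isUnit hc).map C)] at h1
  rcases this.mem_or_mem h1 with h2 | h2
  · rcases this.mem_or_mem h2 with h3 | h3
    · exact Or.inl (key 0 (this.mem_of_pow_mem _ h3))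
    · exact Or.inr (key 1 (this.mem_of_pow_mem _ h3))
  · refine absurd ((ctx.lnd i).noStab_of_height hp.2.1 hp.2.2.2.2 dt fun n => ?_) dt_ne
    rcases n with _ | n
    · exact this.mem_of_pow_mem _ h2
    · rw [pow_succ, Module.End.mul_apply, show (ctx.lnd i).F dt = 0 from f_dt, map_zero]
      exact zero_mem _

lemma ord_hw (t : Fin 4) : ∃ x y : ℤ, (x = if t = 0 then 1 else 0) ∧ (y = if t = 1 then 1 else 0) ∧
    ∀ μ a, RR.HW μ a → (Rep.ord (Ideal.span {X t}) a : ℤ) = μ 0 * x + μ 1 * y := by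
  obtain ⟨ν, h1, h2, h3, h4, h5⟩ := ord_prime (X_prime (R := ℂ) (i := t))
  have hx : ∀ s : Fin 4, ν (X s) = if t = s then 1 else 0 := fun s => by
    split_ifs with e
    · rw [← e, h4]
    · exact h5 _ (by rwa [X_dvd_X])
  refine ⟨ν (X 0), ν (X 1), hx 0, hx 1, fun μ a ha => ?_⟩
  obtain ⟨k, l, m, c, hc, e0, e1, h⟩ := hw_form ha
  have h6 := congrArg ν h
  have n0 : ∀ (s : Fin 4) (n : ℕ), (X s : AA) ^ n ≠ 0 := fun s n => pow_ne_zero _ (X_ne_zero _)
  have hu : IsUnit (C c : AA) := (Ne.isUnit hc).map C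
  rw [h2 _ (n0 _ _) _ ha.1, h2 _ hu.ne_zero _ (hv_hw k l m).1, hv,
    h2 _ (mul_ne_zero (n0 _ _) (n0 _ _)) _ (pow_ne_zero _ dt_ne), h2 _ (n0 _ _) _ (n0 _ _),
    h3 _ (X_ne_zero _), h3 _ (X_ne_zero _), h3 _ (X_ne_zero _), h3 _ dt_ne, h5 _ (nd t),
    h5 _ fun e => (X_prime (R := ℂ) (i := t)).not_isUnit (isUnit_of_dvd_unit e hu)] at h6
  rw [h1 a ha.1, e0, e1]
  linear_combination h6

lemma val0 : RR.Val QQ (Ideal.span {X 0}) (vv 0) := fun μ a ha => by
  obtain ⟨x, y, rfl, rfl, h⟩ := ord_hw 0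
  rw [h _ a ha]
  simp
  rfl

lemma val1 : RR.Val QQ (Ideal.span {X 1}) (vv 1) := fun μ a ha => by
  obtain ⟨x, y, rfl, rfl, h⟩ := ord_hw 1
  rw [h _ a ha]
  simp
  rfl

lemma val_ext {p : Ideal AA} {u v : LL} (hu : RR.Val QQ p u) (hv' : RR.Val QQ p v) : u = v := by
  have h : ∀ i j k : ℕ, u (up ![i, j, k]) = v (up ![i, j, k]) := fun i j k =>
    (hu _ _ (hv_hw i j k)).trans (hv' _ _ (hv_hw i j k)).symm
  refine LinearMap.ext fun μ => ?_
  have e : μ = μ.1 0 • up ![((1 : ℕ) : ℤ), (0 : ℕ), (0 : ℕ)] +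
      μ.1 1 • up ![((0 : ℕ) : ℤ), (1 : ℕ), (0 : ℕ)] + μ.1 2 • up ![((0 : ℕ) : ℤ), (0 : ℕ), (1 : ℕ)] :=
    Subtype.ext (by funext t; fin_cases t <;> simp)
  rw [e]
  simp only [map_add, map_zsmul, h]

lemma colors : RR.Colors QQ = {vv 0, vv 1} := by
  ext v
  constructor
  · rintro ⟨I, -, i, -, p, h1, h2⟩
    rcases classify h1 with rfl | rfl
    · exact Or.inl (val_ext h2 val0)
    · exact Or.inr (val_ext h2 val1)
  · rintro (rfl | rfl)
    · exact ⟨{i0}, ctx.even_of_T typeT, i0, rfl, _, m0, val0⟩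
    · exact ⟨{i0}, ctx.even_of_T typeT, i0, rfl, _, m1, val1⟩

lemma vne : vv 0 ≠ vv 1 := fun h => by
  simpa using congrArg (fun u : LL => u (up ![1, 0, 0])) h

lemma rt' {k : Bool} (hk : k ∈ cc.flip.support) : QQ.flip.root k = vv 0 + vv 1 := by
  rw [ck hk]; rfl

lemma co' {k : Bool} (hk : k ∈ cc.flip.support) (u : LL) : QQ.flip.coroot' k u = u (up al) := by
  rw [ck hk]; rfl

lemma domMax : DomMax cc.flip {vv 0, vv 1} = {vv 0, vv 1} := by
  have h0 : Dom cc.flip {vv 0, vv 1} = {vv 0, vv 1} := by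
    ext l
    constructor
    · rintro ⟨h1, v, h2, h3⟩
      have h4 : l = vv 0 ∨ l = vv 1 ∨ l = -vv 0 ∨ l = -vv 1 := by
        clear h1
        induction h3 with
        | refl => exact h2.imp_right Or.inl
        | tail _ h ih =>
          obtain ⟨i, hi, rfl⟩ := h
          rw [RootPairing.reflection_apply, rt' hi, co' hi]
          rcases ih with rfl | rfl | rfl | rfl <;> simp [al]
      have h5 := h1 true (Finset.mem_singleton_self _)
      rw [co' (Finset.mem_singleton_self _)] at h5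
      rcases h4 with rfl | rfl | rfl | rfl
      · exact Or.inl rfl
      · exact Or.inr rfl
      all_goals simp [al] at h5
    · intro h
      refine ⟨fun i hi => ?_, l, h, .refl⟩
      rw [co' hi]
      rcases h with rfl | rfl <;> simp [al]
  have h1 : ∀ u ∈ AddSubmonoid.closure (QQ.flip.root '' cc.flip.support), ∀ μ : MM,
      0 ≤ μ 0 + μ 1 → 0 ≤ u (up μ) := fun u hu μ hμ => by
    induction hu using AddSubmonoid.closure_induction with
    | mem x hx => obtain ⟨k, hk, rfl⟩ := hx; rw [rt' hk]; simpa using hμ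
    | zero => simp
    | add x y _ _ hx hy => exact add_nonneg hx hy
  ext l
  rw [DomMax, h0]
  refine ⟨fun h => h.1, fun h => ⟨h, fun m hm h2 => ?_⟩⟩
  rcases h with rfl | rfl <;> rcases hm with rfl | rfl
  · rfl
  · simpa using h1 _ h2 ![1, 0, 0] (by simp)
  · simpa using h1 _ h2 ![0, 1, 0] (by simp)
  · rfl

/-- Weights of the dual module. -/
noncomputable def wd : Fin 4 → LL := ![vv 0, -vv 1, vv 1, -vv 0]

/-- The four-dimensional module of the dual group. -/
noncomputable def TT : Rep QQ.flip cc.flip (Fin 4 → ℂ) where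
  wt μ := Submodule.pi {k | wd k ≠ μ} fun _ => ⊥
  indep := fun μ => by
    refine Disjoint.mono_right (c := Submodule.pi {k | wd k = μ} fun _ => ⊥)
      (iSup₂_le fun ν hν x hx k hk => hx k fun e => hν (e.symm.trans hk)) ?_
    rw [Submodule.disjoint_def]
    intro x h1 h2
    funext k
    by_cases e : wd k = μ
    · exact h2 k e
    · exact h1 k e
  span := eq_top_iff.mpr fun v _ => by
    rw [← Finset.univ_sum_single v]
    refine sum_mem fun k _ => Submodule.mem_iSup_of_mem (wd k) fun j hj => ?_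
    exact Pi.single_eq_of_ne (fun e => hj (congrArg wd e)) _
  e _ := LinearMap.pi ![LinearMap.proj 1, 0, LinearMap.proj 3, 0]
  f _ := LinearMap.pi ![0, LinearMap.proj 0, 0, LinearMap.proj 2]
  e_wt i μ v hv k hk := by
    rw [rt' i.2] at hk
    fin_cases k
    · exact hv 1 fun e => hk (by rw [← e]; simp [wd])
    · rfl
    · exact hv 3 fun e => hk (by rw [← e]; simp [wd])
    · rfl
  f_wt i μ v hv k hk := by
    rw [rt' i.2] at hk
    fin_cases k
    · rfl
    · exact hv 0 fun e => hk (by rw [← e]; simp [wd])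
    · rfl
    · exact hv 2 fun e => hk (by rw [← e]; simp [wd])
  ef i μ v hv := by
    rw [co' i.2]
    funext k
    by_cases e : wd k = μ
    · rw [← e]
      fin_cases k <;> simp [wd, al]
    · have : v k = 0 := hv k e
      fin_cases k <;> simp at this <;> simp [this]
  ef_ne i j _ h := absurd (Subtype.ext ((ck i.2).trans (ck j.2).symm)) h

/-- The simple root of the dual group. -/
def k0 : cc.flip.support := ⟨true, Finset.mem_singleton_self _⟩

lemma hk0 (j : cc.flip.support) : j = k0 := Subtype.ext (ck j.2)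

lemma te (i : cc.flip.support) (v : Fin 4 → ℂ) : TT.e i v = ![v 1, 0, v 3, 0] := by
  funext k; fin_cases k <;> rfl

lemma tf (i : cc.flip.support) (v : Fin 4 → ℂ) : TT.f i v = ![0, v 0, 0, v 2] := by
  funext k; fin_cases k <;> rfl

lemma t0 : TT.HW (vv 0) ![1, 0, 0, 0] :=
  ⟨by simp, fun k hk => by fin_cases k <;> first | rfl | exact absurd rfl hk,
    fun i => by rw [te]; simp⟩

lemma t1 : TT.HW (vv 1) ![0, 0, 1, 0] :=
  ⟨by simp, fun k hk => by fin_cases k <;> first | rfl | exact absurd rfl hk,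
    fun i => by rw [te]; simp⟩

lemma thw {μ : LL} {v : Fin 4 → ℂ} (h : TT.HW μ v) :
    μ = vv 0 ∧ v = v 0 • ![1, 0, 0, 0] ∨ μ = vv 1 ∧ v = v 2 • ![0, 0, 1, 0] := by
  have h1 := h.2.2 k0
  rw [te] at h1
  have a1 : v 1 = 0 := congrFun h1 0
  have a3 : v 3 = 0 := congrFun h1 2
  by_cases e : vv 0 = μ
  · have a2 : v 2 = 0 := h.2.1 2 fun e' => vne (e.trans e'.symm)
    exact Or.inl ⟨e.symm, by funext k; fin_cases k <;> simp [a1, a2, a3]⟩
  · have a0 : v 0 = 0 := h.2.1 0 e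
    refine Or.inr ⟨by_contra fun e' => h.1 ?_, by funext k; fin_cases k <;> simp [a0, a1, a3]⟩
    have a2 : v 2 = 0 := h.2.1 2 fun e2 => e' e2.symm
    funext k; fin_cases k <;> assumption

lemma tmf : TT.MultFree := by
  have hn : ∀ v, ∃ k, (TT.f k0 ^ k) v = 0 := fun v =>
    ⟨2, by rw [pow_two, Module.End.mul_apply, tf, tf]; simp⟩
  refine ⟨eq_top_iff.mpr fun v _ => ?_, fun μ v w hv hw => ?_⟩
  · have h : ∀ {μ x}, TT.HW μ x → x ∈ sSup {W | TT.Simple W} ∧
        TT.f k0 x ∈ sSup {W | TT.Simple W} := fun hx =>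
      have := le_sSup (s := {W | TT.Simple W}) (TT.simple_one hk0 hx (hn _))
      ⟨this (TT.mem_Wd rfl), this (TT.Wd_f (Set.mem_univ _) (TT.mem_Wd rfl))⟩
    have := add_mem (add_mem (Submodule.smul_mem _ (v 0) (h t0).1)
      (Submodule.smul_mem _ (v 1) (h t0).2))
      (add_mem (Submodule.smul_mem _ (v 2) (h t1).1) (Submodule.smul_mem _ (v 3) (h t1).2))
    refine Eq.subst (motive := (· ∈ _)) ?_ this
    rw [tf, tf]
    funext k; fin_cases k <;> simp
  · rcases thw hv with ⟨e1, h1⟩ | ⟨e1, h1⟩ <;> rcases thw hw with ⟨e2, h2⟩ | ⟨e2, h2⟩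
    · have : v 0 ≠ 0 := fun e => hv.1 (by rw [h1, e, zero_smul])
      exact ⟨w 0 / v 0, by rw [h1, h2]; simp [this]⟩
    · exact absurd (e1.symm.trans e2) vne
    · exact absurd (e2.symm.trans e1) vne
    · have : v 2 ≠ 0 := fun e => hv.1 (by rw [h1, e, zero_smul])
      exact ⟨w 2 / v 2, by rw [h1, h2]; simp [this]⟩

lemma tw (l : LL) : (∃ v, TT.HW l v) ↔ l ∈ DomMax cc.flip (RR.Colors QQ) := by
  rw [colors, domMax]
  exact ⟨fun ⟨_, h⟩ => (thw h).imp And.left And.left,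
    by rintro (rfl | rfl); exacts [⟨_, t0⟩, ⟨_, t1⟩]⟩

end Pool.Agent.SX.Ex
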