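import Mathlib

/-! Exponentials of locally nilpotent derivations and the primes met by a generic orbit. -/

namespace Pool.Agent.SX

open Polynomial

/-- A locally nilpotent derivation. -/
structure LND (A : Type) [CommRing A] [Algebra ℂ A] where
  F : Module.End ℂ A
  mul : ∀ x y, F (x * y) = x * F y + F x * y
  nil : ∀ a, ∃ k, (F ^ k) a = 0

namespace LND

variable {A : Type} [CommRing A] [Algebra ℂ A] (D : LND A)

noncomputable def ph (a : A) : A[X] :=
  ∑ k ∈ Finset.range (D.nil a).choose, monomial k (((k.factorial : ℂ))⁻¹ • (D.F ^ k) a)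

lemma coeff_ph (a : A) (k : ℕ) : (D.ph a).coeff k = ((k.factorial : ℂ))⁻¹ • (D.F ^ k) a := by
  simp only [ph, finsetSum_coeff, coeff_monomial, Finset.sum_ite_eq', Finset.mem_range]
  split_ifs with h
  · rfl
  · obtain ⟨j, rfl⟩ := Nat.exists_eq_add_of_le' (not_lt.mp h)
    rw [pow_add, Module.End.mul_apply, (D.nil a).choose_spec, map_zero, smul_zero]

lemma ph_add (a b : A) : D.ph (a + b) = D.ph a + D.ph b := by
  ext k; simp [coeff_ph]

lemma ph_smul (c : ℂ) (a : A) : D.ph (c • a) = c • D.ph a := by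
  ext k; simp only [coeff_ph, coeff_smul, map_smul]; rw [smul_comm]

lemma fac_succ (k : ℕ) (x : A) :
    ((k + 1).factorial : ℂ)⁻¹ • x * ((k : A) + 1) = (k.factorial : ℂ)⁻¹ • x := by
  have h : ((k : A) + 1) = ((k : ℂ) + 1) • (1 : A) := by
    rw [add_smul, one_smul, Nat.cast_smul_eq_nsmul, nsmul_one]
  rw [h, mul_smul_comm, mul_one, smul_smul, Nat.factorial_succ]
  congr 1
  have := Nat.cast_add_one_ne_zero (R := ℂ) k
  push_cast; field_simp

lemma ph_deriv (a : A) : derivative (D.ph a) = D.ph (D.F a) := by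
  ext k
  rw [coeff_derivative, coeff_ph, coeff_ph, fac_succ, pow_succ, Module.End.mul_apply]

lemma cancel_succ {k : ℕ} {x y : A} (h : x * ((k : A) + 1) = y * ((k : A) + 1)) : x = y := by
  have h1 := fac_succ k x
  rw [smul_mul_assoc, h, ← smul_mul_assoc, fac_succ] at h1
  exact (smul_right_injective A (inv_ne_zero (Nat.cast_ne_zero.mpr k.factorial_ne_zero)) h1).symm

lemma ph_mul (a b : A) : D.ph (a * b) = D.ph a * D.ph b := by
  ext k
  induction k generalizing a b with
  | zero => simp [coeff_ph]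
  | succ k ih =>
    refine cancel_succ (k := k) ?_
    rw [← coeff_derivative, ← coeff_derivative, derivative_mul, ph_deriv, ph_deriv, ph_deriv,
      D.mul, ph_add, coeff_add, coeff_add, ih, ih, add_comm]

lemma F_one : D.F 1 = 0 := by simpa using D.mul 1 1

/-- The exponential. -/
noncomputable def Φ : A →+* A[X] where
  toFun := D.ph
  map_one' := by
    ext k
    cases k with
    | zero => simp [coeff_ph]
    | succ k => simp [coeff_ph, pow_succ, F_one, coeff_one]
  map_mul' := D.ph_mul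
  map_zero' := by ext k; simp [coeff_ph]
  map_add' := D.ph_add

lemma coeff_Φ (a : A) (k : ℕ) : (D.Φ a).coeff k = ((k.factorial : ℂ))⁻¹ • (D.F ^ k) a :=
  D.coeff_ph a k

lemma map_Φ_eq_zero {B : Type} [CommRing B] (φ : A →+* B) (a : A) :
    (D.Φ a).map φ = 0 ↔ ∀ k, φ ((D.F ^ k) a) = 0 := by
  rw [Polynomial.ext_iff]
  refine forall_congr' fun k => ?_
  rw [coeff_map, coeff_zero, coeff_Φ, ← RingHom.mem_ker, ← RingHom.mem_ker]
  exact ((RingHom.ker φ).restrictScalars ℂ).smul_mem_iff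
    (inv_ne_zero (Nat.cast_ne_zero.mpr k.factorial_ne_zero))

variable {B B' : Type} [CommRing B] [CommRing B']

/-- Translate of the point `φ` by time `τ`. -/
noncomputable def θ (φ : A →+* B) (τ : B) : A →+* B := (eval₂RingHom φ τ).comp D.Φ

lemma θ_apply (φ : A →+* B) (τ : B) (a : A) : D.θ φ τ a = eval₂ φ τ (D.Φ a) := rfl

lemma θ_zero (φ : A →+* B) : D.θ φ 0 = φ := by
  ext a; simp [θ_apply, eval₂_at_zero, coeff_Φ]

lemma θ_nat (φ : A →+* B) (τ : B) (g : B →+* B') : g.comp (D.θ φ τ) = D.θ (g.comp φ) (g τ) := by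
  ext a; exact hom_eval₂ _ _ _ _

lemma hasse (a : A) (n : ℕ) : hasseDeriv n (D.Φ a) = D.Φ ((D.Φ a).coeff n) := by
  ext k
  rw [hasseDeriv_coeff, coeff_Φ, coeff_Φ, coeff_Φ, map_smul, ← Module.End.mul_apply, ← pow_add,
    smul_smul, ← nsmul_eq_mul, ← Nat.cast_smul_eq_nsmul ℂ, smul_smul,
    ← Nat.add_choose_mul_factorial_mul_factorial]
  congr 1
  have h1 : ((k + n).choose n : ℂ) ≠ 0 := Nat.cast_ne_zero.mpr (Nat.choose_pos (by omega)).ne'
  have h2 : (k.factorial : ℂ) ≠ 0 := Nat.cast_ne_zero.mpr k.factorial_ne_zero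
  have h3 : (n.factorial : ℂ) ≠ 0 := Nat.cast_ne_zero.mpr n.factorial_ne_zero
  push_cast; field_simp

lemma θ_comp (φ : A →+* B) (τ s : B) : D.θ (D.θ φ τ) s = D.θ φ (s + τ) := by
  ext a
  have : (D.Φ a).map (D.θ φ τ) = taylor τ ((D.Φ a).map φ) := by
    ext n
    rw [coeff_map, taylor_coeff, θ_apply, ← hasse, eval₂_eq_eval_map]
    congr 1
    ext k
    simp [hasseDeriv_coeff]
  rw [θ_apply, θ_apply, eval₂_eq_eval_map, this, taylor_eval, eval₂_eq_eval_map]

/-- The ideal contains no nonzero stable part. -/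
def NoStab (p : Ideal A) : Prop := ∀ a, (∀ k, (D.F ^ k) a ∈ p) → a = 0

lemma noStab_ker (φ : A →+* B) (hφ : Function.Injective φ) (τ : B) :
    D.NoStab (RingHom.ker (D.θ φ τ)) := by
  intro a ha
  have h1 := (D.map_Φ_eq_zero (D.θ φ τ) a).mpr ha
  have h2 : D.θ (D.θ φ τ) (-τ) a = 0 := by rw [θ_apply, eval₂_eq_eval_map, h1, eval_zero]
  rw [θ_comp, neg_add_cancel, θ_zero] at h2
  exact (injective_iff_map_eq_zero φ).mp hφ a h2

lemma noStab_of_height [IsDomain A] {p : Ideal A} [p.IsPrime] (h1 : p.height = 1)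
    (h2 : ∃ a ∈ p, D.F a ∉ p) : D.NoStab p := by
  let g := (mapRingHom (Ideal.Quotient.mk p)).comp D.Φ
  have hg : ∀ a, a ∈ RingHom.ker g ↔ ∀ k, (D.F ^ k) a ∈ p := fun a => by
    simp only [← Ideal.Quotient.eq_zero_iff_mem (I := p)]
    exact D.map_Φ_eq_zero (Ideal.Quotient.mk p) a
  have hlt : RingHom.ker g < p := by
    refine lt_of_le_of_ne (fun a ha => by simpa using (hg a).mp ha 0) fun e => ?_
    obtain ⟨a, ha, ha'⟩ := h2
    exact ha' (by simpa using (hg a).mp (by rwa [e]) 1)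
  have h3 := (Ideal.height_le_iff (n := 1)).mp (by simp [h1]) _ (RingHom.ker_isPrime g) hlt
  rw [Nat.cast_one, Order.lt_one_iff, Ideal.height_eq_zero_iff_eq_bot] at h3
  intro a ha
  have := (hg a).mpr ha
  rwa [h3] at this

variable (K L : Type) [Field K] [Algebra A K] [IsFractionRing A K] [Field L] [Algebra K L]
  [Algebra A L] [IsScalarTower A K L]

lemma θ_aeval (τ : L) (a : A) :
    D.θ (algebraMap A L) τ a = aeval τ ((D.Φ a).map (algebraMap A K)) := by
  rw [aeval_map_algebraMap]; rfl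

omit [Algebra ℂ A] in
lemma exists_min [IsDomain A] [IsDomain B] (χ : A →+* B) (hχ : Function.Injective χ) (y : B)
    (g0 : A[X]) (h0 : g0 ≠ 0) (h1 : eval₂ χ y g0 = 0) : ∃ q : K[X], q.Monic ∧ Irreducible q ∧
      ∀ g : A[X], q ∣ g.map (algebraMap A K) ↔ eval₂ χ y g = 0 := by
  obtain ⟨Ω, _, i, hi⟩ : ∃ (Ω : Type) (_ : Field Ω) (i : B →+* Ω), Function.Injective i :=
    ⟨FractionRing B, inferInstance, algebraMap _ _, IsFractionRing.injective _ _⟩
  have hχ' : Function.Injective (i.comp χ) := hi.comp hχ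
  obtain ⟨j, hj⟩ : ∃ j : K →+* Ω, j.comp (algebraMap A K) = i.comp χ :=
    ⟨IsFractionRing.lift hχ', RingHom.ext (IsFractionRing.lift_algebraMap hχ')⟩
  let _ : Algebra K Ω := j.toAlgebra
  have hx : ∀ g : A[X], aeval (i y) (g.map (algebraMap A K)) = 0 ↔ eval₂ χ y g = 0 := by
    intro g
    rw [aeval_def, eval₂_map, ← map_eq_zero_iff i hi, hom_eval₂, ← hj]
    rfl
  have hint : IsIntegral K (i y) := IsAlgebraic.isIntegral
    ⟨_, (Polynomial.map_ne_zero_iff (IsFractionRing.injective A K)).mpr h0, (hx g0).mpr h1⟩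
  exact ⟨minpoly K (i y), minpoly.monic hint, minpoly.irreducible hint,
    fun g => minpoly.dvd_iff.trans (hx g)⟩

theorem exists_poly [IsDomain A] {p : Ideal A} [p.IsPrime] (h0 : p ≠ ⊥) (hs : D.NoStab p) :
    ∃ q : K[X], q.Monic ∧ Irreducible q ∧ ∀ τ : L,
      (p ≤ RingHom.ker (D.θ (algebraMap A L) τ) → aeval τ q = 0) ∧
      (aeval τ q = 0 → RingHom.ker (D.θ (algebraMap A L) τ) = p) := by
  obtain ⟨m, hm⟩ : ∃ m : A →+* (A ⧸ p)[X], m = C.comp (Ideal.Quotient.mk p) := ⟨_, rfl⟩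
  have hχ : Function.Injective (D.θ m (-X)) := by
    refine (injective_iff_map_eq_zero _).mpr fun a ha => hs a ?_
    have h1 := RingHom.congr_fun (D.θ_nat m (-X) (eval₂RingHom C (-X))) a
    have h2 : (eval₂RingHom C (-X : (A ⧸ p)[X])).comp m = m := by ext x : 1; simp [hm]
    rw [RingHom.comp_apply, ha, map_zero, h2] at h1
    simp only [coe_eval₂RingHom, eval₂_neg, eval₂_X, neg_neg] at h1
    rw [hm] at h1
    simpa only [Ideal.Quotient.eq_zero_iff_mem] using
      (D.map_Φ_eq_zero (Ideal.Quotient.mk p) a).mp h1.symm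
  have hΦ : ∀ a, eval₂ (D.θ m (-X)) X (D.Φ a) = 0 ↔ a ∈ p := by
    intro a
    rw [← θ_apply, θ_comp, add_neg_cancel, θ_zero]
    simp [hm, Ideal.Quotient.eq_zero_iff_mem]
  obtain ⟨a, ha, ha0⟩ := (Submodule.ne_bot_iff p).mp h0
  obtain ⟨q, hq1, hq2, hq3⟩ := exists_min K _ hχ X (D.Φ a)
    (fun h => ha0 (by simpa [coeff_Φ] using congrArg (coeff · 0) h)) ((hΦ a).mpr ha)
  refine ⟨q, hq1, hq2, fun τ => ⟨fun h => ?_, fun h => ?_⟩⟩
  · obtain ⟨s, hs1, hs2⟩ := IsLocalization.integerNormalization_spec (nonZeroDivisors A) q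
    generalize IsLocalization.integerNormalization (nonZeroDivisors A) q = g at hs2
    rw [← algebraMap_smul K] at hs2
    have h1 := (hq3 g).mp (by rw [hs2]; rw [smul_eq_C_mul]; exact dvd_mul_left _ _)
    obtain ⟨ψ, h2, h3⟩ : ∃ ψ : (A ⧸ p)[X] →+* L, ψ.comp m = D.θ (algebraMap A L) τ ∧ ψ X = τ :=
      ⟨eval₂RingHom (Ideal.Quotient.lift p (D.θ (algebraMap A L) τ) fun a ha => h ha) τ,
        by ext a; simp [hm], by simp⟩
    have h4 := hom_eval₂ g (D.θ m (-X)) ψ X
    rw [h1, map_zero, θ_nat, h2, map_neg, h3, θ_comp, neg_add_cancel, θ_zero, ← aeval_def,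
      ← aeval_map_algebraMap K, hs2, map_smul, eq_comm, smul_eq_zero] at h4
    exact h4.resolve_left (IsFractionRing.to_map_ne_zero_of_mem_nonZeroDivisors hs1)
  · ext a
    rw [RingHom.mem_ker, θ_aeval D K, ← hΦ, ← hq3, ← minpoly.dvd_iff,
      ← minpoly.eq_of_irreducible_of_monic hq2 h hq1]

end LND

lemma exists_root {K : Type} (L : Type) [Field K] [Field L] [Algebra K L] [IsAlgClosed L]
    {q : K[X]} (h : Irreducible q) : ∃ τ : L, aeval τ q = 0 :=
  IsAlgClosed.exists_aeval_eq_zero L q (degree_pos_of_irreducible h).ne'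

lemma LND.height_one {A : Type} [CommRing A] [Algebra ℂ A] [IsDomain A] (D : LND A) {p : Ideal A}
    [p.IsPrime] (h0 : p ≠ ⊥) (hs : D.NoStab p) : p.height = 1 := by
  refine le_antisymm ((Ideal.height_le_iff (n := 1)).mpr fun p' _ hlt => ?_)
    (Order.one_le_iff_ne_zero.mpr (Ideal.height_eq_zero_iff_eq_bot.not.mpr h0))
  rw [Nat.cast_one, Order.lt_one_iff, Ideal.height_eq_zero_iff_eq_bot]
  by_contra h1
  let K := FractionRing A
  obtain ⟨q, _, h2, h3⟩ := D.exists_poly K (AlgebraicClosure K) h0 hs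
  obtain ⟨q', _, _, h4⟩ := D.exists_poly K (AlgebraicClosure K) h1
    fun a ha => hs a fun k => hlt.le (ha k)
  obtain ⟨τ, hτ⟩ := exists_root (AlgebraicClosure K) h2
  have h5 := (h3 τ).2 hτ
  exact hlt.ne (((h4 τ).2 ((h4 τ).1 (h5 ▸ hlt.le))).symm.trans h5)

lemma ext_der {A B : Type} [CommRing A] [CommRing B] [Algebra ℂ A] [Algebra ℂ B] [Algebra A B]
    [IsScalarTower ℂ A B] [Algebra.FormallyEtale A B] (δ : Derivation ℂ A A) :
    ∃ d : Derivation ℂ B B, ∀ a, d (algebraMap A B a) = algebraMap A B (δ a) := by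
  let l := ((Algebra.linearMap A B).compDer δ).liftKaehlerDifferential.liftBaseChange B
  refine ⟨(l ∘ₗ (KaehlerDifferential.tensorKaehlerEquivOfFormallyEtale ℂ A B).symm.toLinearMap).compDer
    (KaehlerDifferential.D ℂ B), fun a => ?_⟩
  simp [l, KaehlerDifferential.tensorKaehlerEquivOfFormallyEtale_symm_D_algebraMap]

section Coeff

variable {L : Type} [Field L] [Algebra ℂ L] (d : Derivation ℂ L L)

/-- Coefficientwise derivative. -/
noncomputable def dc (g : L[X]) : L[X] := g.sum fun n a => monomial n (d a)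

lemma coeff_dc (g : L[X]) (n : ℕ) : (dc d g).coeff n = d (g.coeff n) := by
  simp only [dc, coeff_sum, coeff_monomial]
  rw [Polynomial.sum, Finset.sum_ite_eq']
  split_ifs with h
  · rfl
  · rw [notMem_support_iff.mp h, map_zero]

lemma dc_mul (g r : L[X]) : dc d (g * r) = g * dc d r + dc d g * r := by
  ext n
  simp only [coeff_dc, coeff_add, coeff_mul, map_sum, Derivation.leibniz, smul_eq_mul,
    ← Finset.sum_add_distrib]
  exact Finset.sum_congr rfl fun x _ => by ring

lemma d_eval (g : L[X]) (τ : L) :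
    d (g.eval τ) = (dc d g).eval τ + (derivative g).eval τ * d τ := by
  induction g using Polynomial.induction_on' with
  | add p q hp hq =>
    have : dc d (p + q) = dc d p + dc d q := by ext n; simp [coeff_dc]
    simp only [this, eval_add, map_add, hp, hq]; ring
  | monomial n a =>
    have : dc d (monomial n a) = monomial n (d a) := by
      ext k; simp only [coeff_dc, coeff_monomial]; split_ifs <;> simp
    simp only [this, eval_monomial, derivative_monomial, Derivation.leibniz,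
      Derivation.leibniz_pow, smul_eq_mul, nsmul_eq_mul]; ring

lemma root_der [CharZero L] {g u w : L[X]} (h0 : g ≠ 0) (h : dc d g = u * g + w * derivative g)
    {τ : L} (hτ : g.eval τ = 0) : d τ = -w.eval τ := by
  obtain ⟨r, h1, h2⟩ := g.exists_eq_pow_rootMultiplicity_mul_and_not_dvd h0 τ
  obtain ⟨m, hm⟩ := Nat.exists_eq_succ_of_ne_zero ((rootMultiplicity_pos h0).mpr hτ).ne'
  rw [hm] at h1
  have h3 : ∀ m : ℕ, dc d ((X - C τ) ^ (m + 1)) = -((m : L[X]) + 1) * C (d τ) * (X - C τ) ^ m := by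
    have e : dc d (X - C τ) = -C (d τ) := by
      ext n; simp only [coeff_dc, coeff_sub, coeff_neg, coeff_X, coeff_C]; split_ifs <;> simp
    intro m
    induction m with
    | zero => simp [e]
    | succ m ih => rw [pow_succ, dc_mul, ih, e]; push_cast; ring
  rw [h1, dc_mul, h3, derivative_mul, derivative_X_sub_C_pow] at h
  have h4 : (X - C τ) ^ m * ((X - C τ) * (dc d r - u * r - w * derivative r) -
      ((m : L[X]) + 1) * (C (d τ) + w) * r) = 0 := by
    simp only [Nat.succ_eq_add_one, Nat.add_sub_cancel, Nat.cast_add, Nat.cast_one, map_add,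
      map_natCast, map_one] at h
    linear_combination h
  have h5 := congrArg (eval τ) ((mul_eq_zero.mp h4).resolve_left (pow_ne_zero _ (X_sub_C_ne_zero τ)))
  simp only [eval_sub, eval_mul, eval_X, eval_C, sub_self, zero_mul, zero_sub, eval_add,
    eval_natCast, eval_one, eval_zero, neg_eq_zero, mul_eq_zero] at h5
  rcases h5 with (h5 | h5) | h5
  · exact absurd h5 (Nat.cast_add_one_ne_zero m)
  · exact eq_neg_of_add_eq_zero_left h5
  · exact absurd (dvd_iff_isRoot.mpr h5) h2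

end Coeff

lemma factor_two {K : Type} (L : Type) [Field K] [Field L] [Algebra K L] [IsAlgClosed L]
    {q r : K[X]} (hq : q.Monic) (hq' : Irreducible q) (hr : r.Monic) (hr' : Irreducible r)
    (g : K[X]) (h0 : g ≠ 0) (h : ∀ τ : L, aeval τ g = 0 → aeval τ q = 0 ∨ aeval τ r = 0) :
    ∃ m n : ℕ, g = C g.leadingCoeff * q ^ m * r ^ n := by
  induction hn : g.natDegree using Nat.strong_induction_on generalizing g with
  | _ n ih =>
    by_cases hd : g.degree = 0
    · exact ⟨0, 0, by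
        rw [eq_C_of_degree_eq_zero hd]; simp⟩
    obtain ⟨τ, hτ⟩ := IsAlgClosed.exists_aeval_eq_zero L g hd
    have key : ∀ s : K[X], s.Monic → Irreducible s → aeval τ s = 0 → ∃ g' m n, g = s * g' ∧
        g' = C g.leadingCoeff * q ^ m * r ^ n := by
      intro s hs hs' hsτ
      obtain ⟨g', rfl⟩ : s ∣ g := by
        rw [minpoly.eq_of_irreducible_of_monic hs' hsτ hs]; exact minpoly.dvd K τ hτ
      have hg' : g' ≠ 0 := right_ne_zero_of_mul h0
      obtain ⟨m, k, e⟩ := ih g'.natDegree (by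
        rw [← hn, hs.natDegree_mul' hg']
        have := hs'.natDegree_pos; omega) g' hg'
        (fun σ hσ => h σ (by rw [map_mul, hσ, mul_zero])) rfl
      exact ⟨g', m, k, rfl, by rwa [leadingCoeff_mul, hs.leadingCoeff, one_mul]⟩
    rcases h τ hτ with h1 | h1
    · obtain ⟨g', m, k, e1, e2⟩ := key q hq hq' h1
      exact ⟨m + 1, k, by rw [e2] at e1; linear_combination e1⟩
    · obtain ⟨g', m, k, e1, e2⟩ := key r hr hr' h1
      exact ⟨m, k + 1, by rw [e2] at e1; linear_combination e1⟩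

end Pool.Agent.SX
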