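import Pool.Agent.P.MP_825e45_al.SxHart

/-! The tails lie in a finitely generated monoid of tails. -/

namespace Pool.Agent.SX

namespace Ctx

open Rep MvPolynomial

variable {ι M N : Type} [AddCommGroup M] [AddCommGroup N] {P : RootDatum ι M N} {b : P.Base}
  {A : Type} [CommRing A] [Algebra ℂ A] {R : Rep P b A} (c : Ctx R)

include c

lemma mul_sub {U W : Submodule ℂ A} (hU : R.Sub U) (hW : R.Sub W) : R.Sub (U * W) :=
  (R.sub_iff _).mpr ⟨fun i v hv =>
    ⟨der_mul (c.dE i) (fun v hv => (hU.1 i v hv).1) (fun v hv => (hW.1 i v hv).1) v hv,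
      der_mul (c.dF i) (fun v hv => (hU.1 i v hv).2) (fun v hv => (hW.1 i v hv).2) v hv⟩,
    R.gr_of_H fun φ => der_mul (c.dH φ) (fun _ => hU.gr.dg _) fun _ => hW.gr.dg _⟩

lemma tail_rs {τ : M} (h : R.Tail τ) : ∃ L, τ = rs b L := by
  obtain ⟨l, m, n, x, y, z, hx, hy, hz, h1, rfl⟩ := h
  by_contra h2
  rw [hx.gen_eq, hy.gen_eq] at h1
  refine hz.1 ((R.G.pr_self hz.2.1).symm.trans (mul_ind (R.G.pr n) ⊥ (fun L L' => ?_) h1))
  refine R.G.pr_ne (c.act.2.1 _ _ _ (R.fw_wt L hx.2.1) _ (R.fw_wt L' hy.2.1)) fun e => h2 ?_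
  exact ⟨L ++ L', by rw [rs_append, ← e]; abel⟩

lemma tails_rt {τ : M} (h : τ ∈ AddSubmonoid.closure {τ | R.Tail τ}) : ∃ n, τ = rt b n := by
  induction h using AddSubmonoid.closure_induction with
  | mem x hx => obtain ⟨L, rfl⟩ := c.tail_rs hx; exact ⟨_, rfl⟩
  | zero => exact ⟨0, by simp [rt]⟩
  | add x y _ _ hx hy =>
    obtain ⟨n, rfl⟩ := hx
    obtain ⟨n', rfl⟩ := hy
    exact ⟨n + n', (rt_add b n n').symm⟩

variable [Finite ι] [P.IsReduced] [IsDomain A]

lemma iso_hw' {ν : M} {a : A} (ha : a ∈ R.iso ν) (h0 : a ≠ 0) : ν ∈ c.Γ := by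
  rcases R.iso_cases c.mf ν with h1 | ⟨_, x, _, hx⟩
  · rw [h1] at ha; exact absurd ha h0
  · exact ⟨x, hx⟩

lemma iso_add {l m : M} (hl : l ∈ c.Γ) (hm : m ∈ c.Γ) : R.iso (l + m) ≤ R.iso l * R.iso m := by
  obtain ⟨x, hx⟩ := hl
  obtain ⟨y, hy⟩ := hm
  rw [(c.hw_mul hx hy).iso_eq c.mf]
  exact R.Wd_le (fun j _ v hv => ((c.mul_sub (R.iso_sub l) (R.iso_sub m)).1 j v hv).2)
    (by rintro _ rfl; exact Submodule.mul_mem_mul (hx.mem_iso c.mf) (hy.mem_iso c.mf))

theorem tails_fin (hfg : c.Γ.FG) : ∃ Φ : Set M, Φ.Finite ∧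
    (∀ φ ∈ Φ, φ ∈ AddSubmonoid.closure {τ | R.Tail τ}) ∧
    ∀ τ, R.Tail τ → τ ∈ AddSubmonoid.closure Φ := by
  classical
  obtain ⟨S, hS⟩ := hfg
  have hfd : ∀ ν, ∃ t : Finset A, Submodule.span ℂ t = R.iso ν := fun ν => by
    rcases R.iso_cases c.mf ν with h1 | h1
    · exact ⟨∅, by simp [h1]⟩
    · exact (Submodule.fg_iff_finiteDimensional _).mpr h1.1.2.1
  choose t ht using hfd
  let σ := Σ l : S, t l
  let w : σ → M := fun j => j.1
  let π : MvPolynomial σ ℂ →ₐ[ℂ] A := aeval fun j => j.2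
  let H := weightedHomogeneousSubmodule ℂ w
  let T := AddSubmonoid.closure {τ | R.Tail τ}
  have hT : ∀ τ, R.Tail τ → τ ∈ T := fun τ h => AddSubmonoid.subset_closure h
  let I := R.I c.mf
  have h1 : ∀ d, ∀ p ∈ H d, π p ∈ R.Ls {ν | d - ν ∈ T} := by
    have mul : ∀ {d d' x y}, x ∈ R.Ls {ν | d - ν ∈ T} → y ∈ R.Ls {ν | d' - ν ∈ T} →
        x * y ∈ R.Ls {ν | d + d' - ν ∈ T} := fun {d d' x y} => c.Ls_mul hT fun ν hν ν' hν' n hn => by
      have := add_mem (add_mem hν hν') hn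
      rwa [show d - ν + (d' - ν') + (ν + ν' - n) = d + d' - n by abel] at this
    have one : (1 : A) ∈ R.Ls {ν | 0 - ν ∈ T} :=
      R.iso_le_Ls (ν := 0) (by simp) (c.hw_one.mem_iso c.mf)
    have mon : ∀ e : σ →₀ ℕ, π (monomial e 1) ∈ R.Ls {ν | Finsupp.weight w e - ν ∈ T} := by
      intro e
      induction e using Finsupp.induction_linear with
      | zero => simpa using one
      | add e e' h h' =>
        rw [map_add, ← one_mul (1 : ℂ), ← monomial_mul, map_mul]; exact mul h h'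
      | single j k =>
        rw [Finsupp.weight_single, ← X_pow_eq_monomial, map_pow]
        induction k with
        | zero => simpa using one
        | succ k ih =>
          rw [pow_succ, succ_nsmul]
          refine mul ih (R.iso_le_Ls (ν := w j) (by simp) ?_)
          rw [aeval_X, ← ht]
          exact Submodule.subset_span j.2.2
    intro d p hp
    induction hp using IsWeightedHomogeneous.induction_on with
    | zero => rw [map_zero]; exact zero_mem _
    | add p q _ _ h h' => rw [map_add]; exact add_mem h h'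
    | monomial e r hr =>
      rw [← mul_one r, ← smul_eq_mul, ← smul_monomial, map_smul, ← hr]
      exact Submodule.smul_mem _ _ (mon e)
  have hm : ∀ d d', (H d).map π.toLinearMap * (H d').map π.toLinearMap ≤
      (H (d + d')).map π.toLinearMap := fun d d' => by
    rw [← Submodule.map_mul]
    exact Submodule.map_mono (weightedHomogeneousSubmodule_mul w d d')
  have h2 : ∀ l, R.iso l ≤ (H l).map π.toLinearMap := by
    have : ∀ l ∈ AddSubmonoid.closure (S : Set M), R.iso l ≤ (H l).map π.toLinearMap := by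
      intro l hl
      induction hl using AddSubmonoid.closure_induction with
      | mem l hl =>
        rw [← ht, Submodule.span_le]
        exact fun a ha => ⟨X ⟨⟨l, hl⟩, a, ha⟩, isWeightedHomogeneous_X ℂ w _, aeval_X _ _⟩
      | zero =>
        have h0 : ∀ (d : Derivation ℂ A A) v, v ∈ (1 : Submodule ℂ A) → d v = 0 := fun d v hv => by
          obtain ⟨r, rfl⟩ := Submodule.mem_one.mp hv
          exact d.map_algebraMap r
        rw [c.hw_one.iso_eq c.mf]
        refine (R.Wd_le (U := 1) (fun j _ v hv => ?_) (by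
          rintro _ rfl; exact Submodule.one_le.mp le_rfl)).trans (Submodule.one_le.mpr
            ⟨1, isWeightedHomogeneous_one ℂ w, map_one π⟩)
        rw [show R.f j v = 0 from h0 (c.dF j) v hv]; exact zero_mem _
      | add l m hl hm' h h' =>
        exact (c.iso_add (hS ▸ hl) (hS ▸ hm')).trans ((mul_le_mul' h h').trans (hm l m))
    intro l a ha
    by_cases h0 : a = 0
    · rw [h0]; exact zero_mem _
    · exact this l (hS ▸ c.iso_hw' ha h0) ha
  let := weightedDecomposition ℂ w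
  let GP : Grad M (MvPolynomial σ ℂ) := ⟨H, (DirectSum.Decomposition.isInternal H).submodule_iSupIndep,
    (DirectSum.Decomposition.isInternal H).submodule_iSup_eq_top⟩
  obtain ⟨G, hG, hG'⟩ := (Submodule.fg_span_iff_fg_span_finset_subset
    {p : MvPolynomial σ ℂ | ∃ d, p ∈ H d ∧ I.pr d (π p) = 0}).mp
      (IsNoetherian.noetherian (R := MvPolynomial σ ℂ) _)
  have hG2 : ∀ g ∈ G, ∃ d, g ∈ H d ∧ I.pr d (π g) = 0 := fun g hg => hG hg
  choose! dg hdg using hG2
  let Φ : Set M := ⋃ g ∈ G, (fun ν => dg g - ν) '' {ν | I.pr ν (π g) ≠ 0}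
  have key : ∀ k : ℕ, ∀ d ν n, ∑ i, n i = k → d - ν = rt b n → ∀ p ∈ H d, I.pr ν (π p) ≠ 0 →
      d - ν ∈ AddSubmonoid.closure Φ := by
    intro k
    induction k using Nat.strong_induction_on with
    | _ k ih =>
    intro d ν n hn hd p hp h0
    by_cases e : ν = d
    · rw [e, sub_self]; exact zero_mem _
    obtain ⟨p', hp', h3⟩ := h2 d (I.pr_mem d (π p))
    replace h3 : π p' = I.pr d (π p) := h3
    have h4 : p - p' ∈ Submodule.span (MvPolynomial σ ℂ) (G : Set (MvPolynomial σ ℂ)) :=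
      hG' ▸ Submodule.subset_span ⟨d, sub_mem hp hp', by
        rw [map_sub, map_sub, h3, I.pr_self (I.pr_mem d _), sub_self]⟩
    obtain ⟨q, _, hq⟩ := Submodule.mem_span_finset.mp h4
    have h5 : p - p' = ∑ g ∈ G, GP.pr (d - dg g) (q g) * g := by
      rw [← GP.pr_self (sub_mem hp hp'), ← hq, map_sum]
      refine Finset.sum_congr rfl fun g hg => ?_
      have := GP.pr_comm (LinearMap.mulRight ℂ g) (· + dg g) (add_left_injective _)
        (fun μ v hv => IsWeightedHomogeneous.mul hv (hdg g hg).1) (d - dg g) (q g)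
      simpa using this
    have h6 : I.pr ν (π (p - p')) ≠ 0 := by
      rwa [map_sub, map_sub, h3, I.pr_ne (I.pr_mem d _) (Ne.symm e), sub_zero]
    rw [h5, map_sum, map_sum] at h6
    obtain ⟨g, hg, h7⟩ := Finset.exists_ne_zero_of_sum_ne_zero h6
    obtain ⟨s, _, hs⟩ := I.exists_sum (π g)
    rw [map_mul, ← hs s subset_rfl, Finset.mul_sum, map_sum] at h7
    obtain ⟨ρ, _, h8⟩ := Finset.exists_ne_zero_of_sum_ne_zero h7
    have h9 : I.pr ρ (π g) ≠ 0 := fun e => h8 (by rw [e, mul_zero, map_zero])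
    obtain ⟨g', hg', h10⟩ := h2 ρ (I.pr_mem ρ (π g))
    replace h10 : π g' = I.pr ρ (π g) := h10
    rw [← h10, ← map_mul] at h8
    have h11 : GP.pr (d - dg g) (q g) * g' ∈ H (d - dg g + ρ) :=
      IsWeightedHomogeneous.mul (GP.pr_mem _ _) hg'
    obtain ⟨n1, e1⟩ := c.tails_rt (by_contra fun h =>
      h8 ((R.mem_Ls c.mf).mp (h1 _ _ h11) ν h))
    obtain ⟨n2, e2⟩ := c.tails_rt (by_contra fun h =>
      h9 ((R.mem_Ls c.mf).mp (h1 _ _ (hdg g hg).1) ρ h))
    have e3 : d - ν = d - dg g + ρ - ν + (dg g - ρ) := by abel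
    have e4 : n = n1 + n2 := rt_inj b (by rw [rt_add, ← e1, ← e2, ← hd, e3])
    have e5 : ∑ i, n2 i ≠ 0 := fun h => h9 (by
      have h12 : n2 = 0 := funext fun i => Finset.sum_eq_zero_iff.mp h i (Finset.mem_univ i)
      rw [h12, show rt b 0 = 0 by simp [rt], sub_eq_zero] at e2
      rw [← e2]; exact (hdg g hg).2)
    rw [e3]
    refine add_mem (ih _ ?_ _ _ n1 rfl e1 _ h11 h8) (AddSubmonoid.subset_closure
      (Set.mem_biUnion hg ⟨ρ, h9, rfl⟩))
    rw [← hn, e4]
    simp only [Pi.add_apply, Finset.sum_add_distrib]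
    omega
  refine ⟨Φ, G.finite_toSet.biUnion fun g _ => Set.Finite.image _ ?_, ?_, ?_⟩
  · obtain ⟨s, hs, _⟩ := I.exists_sum (π g)
    exact s.finite_toSet.subset fun ν hν => by_contra fun h => hν (hs ν h)
  · intro φ hφ
    obtain ⟨g, hg, ρ, h9, rfl⟩ := Set.mem_iUnion₂.mp hφ
    exact by_contra fun h => h9 ((R.mem_Ls c.mf).mp (h1 _ _ (hdg g hg).1) ρ h)
  · intro τ hτ
    obtain ⟨L, hL⟩ := c.tail_rs hτ
    obtain ⟨l, m, n, x, y, z, hx, hy, hz, h3, rfl⟩ := hτ
    rw [hx.gen_eq, hy.gen_eq, ← hx.iso_eq c.mf, ← hy.iso_eq c.mf] at h3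
    obtain ⟨p, hp, h4⟩ := hm l m (mul_le_mul' (h2 l) (h2 m) h3)
    refine key _ _ _ _ rfl hL p hp ?_
    rw [show π p = z from h4, I.pr_self (hz.mem_iso c.mf)]
    exact hz.1

end Ctx

end Pool.Agent.SX
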