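import Pool.Agent.P.MP_825e45_al.SxRep

/-! The invariant symplectic form. -/

namespace Pool.Agent.SX

namespace Rep

variable {ι M N : Type} [AddCommGroup M] [AddCommGroup N] {P : RootDatum ι M N} {b : P.Base}
  {V : Type} [AddCommGroup V] [Module ℂ V] (R : Rep P b V)

/-- Twist by the Chevalley involution. -/
def tw : Rep P b V where
  wt μ := R.wt (-μ)
  indep := R.indep.comp neg_injective
  span := by rw [← R.span]; exact (Equiv.neg M).iSup_comp (g := R.wt)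
  e := R.f
  f := R.e
  e_wt i μ v hv := by rw [neg_add, ← sub_eq_add_neg]; exact R.f_wt i _ v hv
  f_wt i μ v hv := by rw [neg_sub', sub_neg_eq_add]; exact R.e_wt i _ v hv
  ef i μ v hv := by
    rw [← neg_sub, R.ef i _ v hv, map_neg]; simp
  ef_ne i j v h := (R.ef_ne j i v h.symm).symm

lemma tw_sub (W : Submodule ℂ V) : R.tw.Sub W ↔ R.Sub W := by
  have : ⨆ μ, W ⊓ R.tw.wt μ = ⨆ μ, W ⊓ R.wt μ :=
    (Equiv.neg M).iSup_comp (g := fun μ => W ⊓ R.wt μ)
  rw [Sub, Sub, this]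
  exact and_congr_left fun _ => forall₃_congr fun _ _ _ => and_comm

lemma tw_simple (W : Submodule ℂ V) : R.tw.Simple W ↔ R.Simple W := by
  simp only [Simple, tw_sub]

lemma tw_rat (h : R.Rat) : R.tw.Rat := by simpa only [Rat, tw_simple] using h

lemma wt_of_Wd' {J : Set b.support} {μ ν : M} {x y : V} (hx : x ∈ R.wt μ) (hy : y ∈ R.Wd J {x})
    (h0 : y ≠ 0) (h : y ∈ R.wt ν) : ∃ L : List b.support, ν = μ - rs b L := by
  obtain ⟨L, _, e⟩ := R.wt_of_Wd hx hy (ν := ν) (by rwa [R.G.pr_self h])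
  exact ⟨L, e⟩

lemma refl_aux (h : R.Rat) {W : Submodule ℂ V} (hW : R.Sub W) (i : b.support) {μ : M} {v : V}
    (hv : v ∈ W) (h0 : v ≠ 0) (hμ : v ∈ R.wt μ) (hm : 0 ≤ co P i μ) :
    ∃ w ∈ W, w ≠ 0 ∧ w ∈ R.wt (μ - co P i μ • P.root i) := by
  obtain ⟨m, hm⟩ := Int.eq_ofNat_of_zero_le hm
  have key : ∀ k : ℕ, (R.f i ^ k) v ∈ W ∧ (R.f i ^ k) v ∈ R.wt (μ - k • P.root i) := by
    intro k
    induction k with
    | zero => simpa using ⟨hv, hμ⟩
    | succ k ih =>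
      rw [pow_succ', Module.End.mul_apply, succ_nsmul, ← sub_sub]
      exact ⟨(hW.1 i _ ih.1).2, R.f_wt i _ _ ih.2⟩
  obtain ⟨n, hn⟩ := R.tw.f_nil (R.tw_rat h) i v
  refine ⟨_, (key m).1, fun h1 => h0 (pow_ne (R.e_f i) (R.Hco_f i) (R.Hco_e i) n v m hn ?_ h1), ?_⟩
  · rw [R.H_mem _ hμ, hm]; simp
  · rw [hm, natCast_zsmul]; exact (key m).2

/-- Weight spaces of the module together with its dual. -/
def dw (μ : M) : Submodule ℂ (V × Module.Dual ℂ V) where
  carrier := {g | g.1 ∈ R.wt μ ∧ ∀ ν, ν + μ ≠ 0 → ∀ y ∈ R.wt ν, g.2 y = 0}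
  add_mem' := fun hx hy => ⟨add_mem hx.1 hy.1, fun ν h y hy' => by
    simp [hx.2 ν h y hy', hy.2 ν h y hy']⟩
  zero_mem' := ⟨zero_mem _, fun _ _ _ _ => rfl⟩
  smul_mem' := fun c _ hx => ⟨Submodule.smul_mem _ c hx.1, fun ν h y hy' => by
    simp [hx.2 ν h y hy']⟩

lemma dw_indep : iSupIndep R.dw := by
  rw [iSupIndep_iff_finsetSum_eq_zero_imp_eq_zero]
  intro s g hg h0 μ hμ
  have h1 := congrArg (fun x => R.G.pr μ x.1) h0
  simp only [Prod.fst_sum, map_sum, Prod.fst_zero, map_zero] at h1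
  rw [Finset.sum_eq_single_of_mem μ hμ fun ν hν h => R.G.pr_ne (hg ν hν).1 h,
    R.G.pr_self (hg μ hμ).1] at h1
  refine Prod.ext h1 (LinearMap.ext (R.G.ext fun ρ y hy => ?_))
  by_cases e : ρ + μ = 0
  · have h3 := congrArg (fun x => x.2 y) h0
    simp only [Prod.snd_sum, LinearMap.sum_apply, Prod.snd_zero] at h3
    rwa [Finset.sum_eq_single_of_mem μ hμ fun ν hν h =>
      (hg ν hν).2 ρ (fun e' => h (add_left_cancel (e'.trans e.symm))) y hy] at h3
  · exact (hg μ hμ).2 ρ e y hy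

lemma dw_span [FiniteDimensional ℂ V] : ⨆ μ, R.dw μ = ⊤ := by
  rw [eq_top_iff]
  rintro ⟨v, η⟩ _
  rw [← Prod.fst_add_snd (v, η)]
  refine add_mem (R.G.ind (p := fun v => ((v, 0) : V × Module.Dual ℂ V) ∈ ⨆ μ, R.dw μ)
    (fun μ v hv => Submodule.mem_iSup_of_mem μ ⟨hv, fun _ _ _ _ => rfl⟩)
    (fun x y hx hy => by simpa using add_mem hx hy) (zero_mem _) v) ?_
  obtain ⟨s, hs⟩ := R.G.fin_wts ⊤
  have : ((0, η) : V × Module.Dual ℂ V) = ∑ ν ∈ s, (0, η ∘ₗ R.G.pr ν) := by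
    refine Prod.ext (by simp [Prod.fst_sum]) (LinearMap.ext fun y => ?_)
    simp only [Prod.snd_sum, LinearMap.sum_apply, LinearMap.comp_apply]
    rw [← map_sum, R.G.sum_pr (hs y trivial)]
  rw [this]
  refine Submodule.sum_mem _ fun ν _ => Submodule.mem_iSup_of_mem (-ν)
    ⟨zero_mem _, fun ρ h y hy => ?_⟩
  have h1 : R.G.pr ν y = 0 := R.G.pr_ne hy fun e => h (by rw [e, add_neg_cancel])
  simp [h1]

/-- The module together with its dual. -/
noncomputable def dbl [FiniteDimensional ℂ V] : Rep P b (V × Module.Dual ℂ V) where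
  wt := R.dw
  indep := R.dw_indep
  span := R.dw_span
  e i := (R.e i).prodMap (-(R.e i).dualMap)
  f i := (R.f i).prodMap (-(R.f i).dualMap)
  e_wt i μ g hg := ⟨R.e_wt i μ _ hg.1, fun ρ h y hy => by
    simpa using hg.2 (ρ + P.root i) (by rwa [add_assoc, add_comm _ μ]) _ (R.e_wt i _ y hy)⟩
  f_wt i μ g hg := ⟨R.f_wt i μ _ hg.1, fun ρ h y hy => by
    simpa using hg.2 (ρ - P.root i) (by rwa [sub_add_eq_add_sub, add_sub_assoc]) _
      (R.f_wt i _ y hy)⟩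
  ef i μ g hg := by
    refine Prod.ext (R.ef i μ _ hg.1) (LinearMap.ext (R.G.ext fun ρ y hy => ?_))
    have h1 : g.2 (R.e i (R.f i y)) - g.2 (R.f i (R.e i y)) = (P.coroot' i ρ : ℤ) * g.2 y := by
      rw [← map_sub, R.ef i ρ y hy, map_smul, smul_eq_mul]
    have h2 : ((P.coroot' i ρ : ℤ) + (P.coroot' i μ : ℤ) : ℂ) * g.2 y = 0 := by
      by_cases e : ρ + μ = 0
      · rw [← Int.cast_add, ← map_add, e]; simp
      · rw [hg.2 ρ e y hy, mul_zero]
    simp only [Prod.snd_sub, LinearMap.prodMap_apply, LinearMap.neg_apply, map_neg, neg_neg,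
      LinearMap.sub_apply, LinearMap.dualMap_apply, Prod.smul_snd, LinearMap.smul_apply,
      smul_eq_mul]
    linear_combination -h1 - h2
  ef_ne i j g h := by
    refine Prod.ext (R.ef_ne i j _ h) (LinearMap.ext fun y => ?_)
    simp [R.ef_ne i j y h]

lemma dbl_pr [FiniteDimensional ℂ V] (μ : M) (g : V × Module.Dual ℂ V) :
    (R.dbl.G.pr μ g).1 = R.G.pr μ g.1 := by
  refine R.dbl.G.ext (S := LinearMap.fst ℂ _ _ ∘ₗ R.dbl.G.pr μ)
    (T := R.G.pr μ ∘ₗ LinearMap.fst ℂ _ _) (fun ν g hg => ?_) g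
  simp only [LinearMap.comp_apply, LinearMap.fst_apply]
  by_cases e : ν = μ
  · subst e; rw [R.dbl.G.pr_self hg, R.G.pr_self hg.1]
  · rw [R.dbl.G.pr_ne hg e, R.G.pr_ne hg.1 e]; rfl

variable [Finite ι] [P.IsReduced] (D : Sys b.support M) (hD : D.toCart = cartOf P b)

include hD

lemma D_c (k : b.support) : D.c k = co P k := by rw [hD]; rfl

lemma D_β (k : b.support) : D.β k = P.root k := by rw [hD]; rfl

lemma rs_pos (L : List b.support) : rs b L ∈ D.Pos := by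
  have := rs_mem b L
  rwa [← range_root, ← funext (D_β D hD)] at this

lemma orb_wt (h : R.Rat) {W : Submodule ℂ V} (hW : R.Sub W) {μ ν : M} (ho : D.Orb μ ν)
    (h1 : ∃ v ∈ W, v ≠ 0 ∧ v ∈ R.wt μ) : ∃ v ∈ W, v ≠ 0 ∧ v ∈ R.wt ν := by
  induction ho with
  | refl => exact h1
  | @tail a _ _ h2 ih =>
    obtain ⟨k, rfl⟩ := h2
    obtain ⟨v, hv, h0, ha⟩ := ih
    rw [Cart.s, D_c D hD, D_β D hD]
    rcases le_total 0 (co P k a) with h3 | h3
    · exact R.refl_aux h hW k hv h0 ha h3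
    · obtain ⟨w, h4, h5, h6⟩ := R.tw.refl_aux (R.tw_rat h) ((R.tw_sub W).mpr hW) k (μ := -a) hv h0
        (by change v ∈ R.wt (- -a); rwa [neg_neg]) (by rw [map_neg]; omega)
      refine ⟨w, h4, h5, ?_⟩
      have e : a - co P k a • P.root k = -(-a - co P k (-a) • P.root k) := by
        rw [map_neg, neg_smul]; abel
      rw [e]; exact h6

lemma HW.domi {R : Rep P b V} (h : R.Rat) {μ : M} {x : V} (hx : R.HW μ x) : D.Domi μ := fun k => by
  obtain ⟨n, hn, _⟩ := hx.deg h k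
  rw [D_c D hD, hn]; omega

lemma exists_low (h : R.MultFree) {l l' : M} {x : V} (hx : R.HW l x) (hl' : D.Domi l')
    (ho : D.Orb (-l) l') : ∃ y ∈ R.iso l, R.tw.HW l' y := by
  have hs := hx.simple h
  have hs' := (R.tw_simple _).mpr hs
  have := hs.2.1
  obtain ⟨ρ, y, hy, hy'⟩ := R.tw.exists_HW_fd hs'.1.gr (fun i v hv => (hs'.1.1 i v hv).1) hs.2.2.1
  have hρ := hy'.domi D hD (R.tw_rat h.1)
  obtain ⟨v, h1, h2, h3⟩ := R.orb_wt D hD h.1 hs.1 (μ := l) (ν := -l') (by simpa using ho.neg _)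
    ⟨x, hx.mem_iso h, hx.1, hx.2.1⟩
  obtain ⟨L, e1⟩ := R.tw.wt_of_Wd' hy'.2.1 (hs'.eq_Wd hy' hy ▸ h1) h2 (ν := l') h3
  obtain ⟨ρ', h4, h5⟩ := D.exists_dom (-ρ)
  obtain ⟨w, h6, h7, h8⟩ := R.orb_wt D hD h.1 hs.1 h5 ⟨y, hy, hy'.1, hy'.2.1⟩
  obtain ⟨L', e2⟩ := R.wt_of_Wd' hx.2.1 (hx.iso_eq h ▸ h6) h7 h8
  have h9 := D.order_dual h4 (hx.domi D hD h.1) hl' (l' := ρ)
    (by rw [e2, sub_sub_cancel]; exact rs_pos D hD L') (by simpa using (h5.neg _).symm _) ho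
  have : l' - ρ = 0 := D.pos_antisymm h9 (by rw [e1]; simpa using rs_pos D hD L)
  rw [sub_eq_zero.mp this]; exact ⟨y, hy, hy'⟩

lemma exists_low_pow (h : R.MultFree) {l : M} {x : V} (hx : R.HW l x) (ho : D.Orb (-l) l) :
    ∃ n : ℕ, D.h l = n ∧ ((∑ k, (D.x k : ℂ) • R.f k) ^ n) x ∈ R.iso l ∧
      R.tw.HW l (((∑ k, (D.x k : ℂ) • R.f k) ^ n) x) := by
  classical
  have hl := hx.domi D hD h.1
  obtain ⟨y, hy, hy'⟩ := R.exists_low D hD h hx hl ho
  have hs := hx.simple h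
  have hW := ((R.tw_simple _).mpr hs).eq_Wd hy' hy
  have hβ : ∀ k : b.support, D.h (P.root k) = 2 := fun k => by rw [← D_β D hD, D.hβ]
  obtain ⟨n, hn⟩ : ∃ n : ℕ, D.h l = n := by
    refine Int.eq_ofNat_of_zero_le ?_
    rcases D.pos_h (D.dom_ge hl (ho.symm _)) with h1 | h1
    · have := congrArg D.h h1
      rw [map_sub, map_neg, map_zero] at this; omega
    · rw [map_sub, map_neg] at h1; omega
  set F := ∑ k, (D.x k : ℂ) • R.f k with hF
  have hE : ∀ v, (∑ k, R.e k) (F v) = F ((∑ k, R.e k) v) + R.H D.h v := by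
    refine R.G.ext (S := (∑ k, R.e k) ∘ₗ F) (T := F ∘ₗ (∑ k, R.e k) + R.H D.h) fun μ v hv => ?_
    simp only [hF, LinearMap.comp_apply, LinearMap.add_apply, LinearMap.sum_apply,
      LinearMap.smul_apply, map_sum, map_smul, Finset.smul_sum]
    rw [R.H_mem _ hv, D.hx, Int.cast_sum, Finset.sum_smul, Finset.sum_comm (s := Finset.univ)
      (f := fun i k => (D.x k : ℂ) • R.f k (R.e i v)), ← Finset.sum_add_distrib]
    refine Finset.sum_congr rfl fun k _ => ?_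
    rw [← sub_eq_iff_eq_add', ← Finset.sum_sub_distrib, Finset.sum_eq_single k]
    · rw [← smul_sub, R.ef k μ v hv, smul_smul, D_c D hD, Int.cast_mul]; rfl
    · intro i _ hi; rw [R.ef_ne i k v hi, sub_self]
    · simp
  have hH : ∀ v, R.H D.h (F v) = F (R.H D.h v) - (2 : ℂ) • F v := by
    intro v
    simp only [hF, LinearMap.sum_apply, LinearMap.smul_apply, map_sum, map_smul, H_f, hβ,
      Finset.smul_sum, ← Finset.sum_sub_distrib]
    exact Finset.sum_congr rfl fun k _ => by push_cast; module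
  have hHx : R.H D.h x = (n : ℂ) • x := by rw [R.H_mem _ hx.2.1, hn]; simp
  have h0 := hw_ne hE hH hx.1 (by simp [hx.2.2]) hHx n le_rfl
  have hmem : ∀ k, (F ^ k) x ∈ R.iso l := by
    intro k
    induction k with
    | zero => exact hx.mem_iso h
    | succ k ih =>
      rw [pow_succ', Module.End.mul_apply, hF, LinearMap.sum_apply]
      exact Submodule.sum_mem _ fun i _ => Submodule.smul_mem _ _ (hs.1.1 i _ ih).2
  have hwt : (F ^ n) x ∈ R.wt (-l) := by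
    refine R.G.mem_wt_of_pr fun ν hν => by_contra fun h1 => hν ?_
    obtain ⟨L, e1⟩ := R.tw.wt_of_Wd' hy'.2.1 (hW ▸ hs.1.gr _ (hmem n) ν) h1 (ν := -ν)
      (by change _ ∈ R.wt (- -ν); rw [neg_neg]; exact R.G.pr_mem ν _)
    have h2 := R.G.pr_dg (fun μ => (D.h μ : ℂ)) ν ((F ^ n) x)
    change R.G.pr ν (R.H D.h _) = _ at h2
    rw [H_pow hH, hHx, map_smul, ← sub_smul, map_smul] at h2
    have h3 : ((n : ℤ) - n * 2 : ℤ) = D.h ν := by exact_mod_cast smul_left_injective ℂ h1 h2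
    have h4 := congrArg D.h e1
    rw [map_neg, map_sub] at h4
    rcases D.pos_h (rs_pos D hD L) with h5 | h5
    · rw [h5, sub_zero] at e1; rw [← e1, neg_neg]
    · omega
  refine ⟨n, hn, hmem n, h0, hwt, fun i => by_contra fun h1 => ?_⟩
  obtain ⟨L, e1⟩ := R.tw.wt_of_Wd' hy'.2.1 (hW ▸ (hs.1.1 i _ (hmem n)).2) h1
    (R.tw.e_wt i l _ hwt)
  have h4 := congrArg D.h e1
  rw [map_add, map_sub, hβ] at h4
  rcases D.pos_h (rs_pos D hD L) with h5 | h5
  · rw [h5, map_zero] at h4; omega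
  · omega

theorem exists_form [FiniteDimensional ℂ V] (h : R.MultFree) (Λ : Set M)
    (hw : ∀ l, (∃ v, R.HW l v) ↔ l ∈ Λ) (hanti : ∀ l ∈ Λ, ∀ m ∈ Λ, m - l ∈ D.Pos → m = l)
    (hdual : ∀ l ∈ Λ, ∃ l' ∈ Λ, D.Orb (-l) l') (hodd : ∀ l ∈ Λ, D.Orb l (-l) → Odd (D.h l)) :
    ∃ B : LinearMap.BilinForm ℂ V, R.Symplectic B := by
  classical
  choose! x hx using fun l hl => (hw l).mpr hl
  choose! st hst hso using hdual
  have hdom : ∀ l ∈ Λ, D.Domi l := fun l hl => (hx l hl).domi D hD h.1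
  have hss : ∀ l ∈ Λ, st (st l) = l := fun l hl => D.dom_unique (hdom _ (hst _ (hst l hl)))
    (hdom l hl) (((hso _ (hst l hl)).symm _).trans _ (by simpa using ((hso l hl).neg _).symm _))
  set F := ∑ k, (D.x k : ℂ) • R.f k with hF
  have hy : ∀ l ∈ Λ, ∃ y ∈ R.iso l, R.tw.HW (st l) y ∧
      (st l = l → ∃ n, Odd n ∧ y = (F ^ n) (x l)) := by
    intro l hl
    by_cases e : st l = l
    · have ho : D.Orb (-l) l := by have := hso l hl; rwa [e] at this
      obtain ⟨n, h1, h2, h3⟩ := R.exists_low_pow D hD h (hx l hl) ho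
      refine ⟨_, h2, by rwa [e], fun _ => ⟨n, ?_, rfl⟩⟩
      have := hodd l hl (ho.symm _)
      rw [h1] at this; exact_mod_cast this
    · obtain ⟨y, h1, h2⟩ := R.exists_low D hD h (hx l hl) (hdom _ (hst l hl)) (hso l hl)
      exact ⟨y, h1, h2, fun h3 => absurd h3 e⟩
  choose! y hyi hy hyp using hy
  have hW : ∀ l ∈ Λ, R.iso l = R.tw.Wd Set.univ {y l} := fun l hl =>
    ((R.tw_simple _).mpr ((hx l hl).simple h)).eq_Wd (hy l hl) (hyi l hl)
  have htop : ∀ U : Submodule ℂ V, (∀ l ∈ Λ, R.iso l ≤ U) → ∀ v, v ∈ U := by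
    intro U hU v
    refine (iSup_le fun l => ?_ : ⨆ l, R.iso l ≤ U) (R.iso_span h.1 ▸ Submodule.mem_top)
    rcases R.iso_cases h l with h1 | ⟨_, z, _, hz⟩
    · rw [h1]; exact bot_le
    · exact hU l ((hw l).mp ⟨z, hz⟩)
  have hlow : ∀ l ∈ Λ, ∀ (i : b.support) v, R.G.pr (-l) (R.e i v) = 0 := by
    intro l hl i
    refine htop (LinearMap.ker (R.G.pr (-l) ∘ₗ R.e i)) fun m hm v hv => by_contra fun h1 => ?_
    have h2 : R.G.pr (-l - P.root i) v ≠ 0 := fun h2 => h1 (by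
      rw [LinearMap.mem_ker, LinearMap.comp_apply, ← sub_add_cancel (-l) (P.root i), pr_e, h2,
        map_zero])
    obtain ⟨L, e1⟩ := R.tw.wt_of_Wd' (hy m hm).2.1 (hW m hm ▸ (R.iso_sub m).gr v hv _) h2
      (ν := l + P.root i) (by change _ ∈ R.wt (-_); rw [neg_add']; exact R.G.pr_mem _ _)
    have h3 : st m - l = rs b (i :: L) := by
      rw [rs_cons, ← eq_sub_iff_add_eq.mp e1]; abel
    have h4 := hanti l hl _ (hst m hm) (h3 ▸ rs_pos D hD _)
    rw [h4, sub_self] at h3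
    exact List.cons_ne_nil _ _ (nil_of_rs b h3.symm)
  have hξ : ∀ l ∈ Λ, ∃ ξ : Module.Dual ℂ V, ξ (y (st l)) = 1 ∧ (∀ i v, ξ (R.e i v) = 0) ∧
      ∀ ν, ν + l ≠ 0 → ∀ v ∈ R.wt ν, ξ v = 0 := by
    intro l hl
    obtain ⟨φ, hφ⟩ := Module.Projective.exists_dual_eq_one ℂ (hy _ (hst l hl)).1
    have h1 : y (st l) ∈ R.wt (-l) := by have := (hy _ (hst l hl)).2.1; rwa [hss l hl] at this
    refine ⟨φ ∘ₗ R.G.pr (-l), by simp [R.G.pr_self h1, hφ], fun i v => by simp [hlow l hl],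
      fun ν hν v hv => ?_⟩
    rw [LinearMap.comp_apply, R.G.pr_ne hv fun e => hν (by rw [e, neg_add_cancel]), map_zero]
  choose! ξ hξ1 hξ2 hξ3 using hξ
  let _ : LinearOrder M := linearOrderOfSTO WellOrderingRel
  let c : M → ℂ := fun l => if l ≤ st l then 1 else 0
  let g : M → V × Module.Dual ℂ V := fun l => (x l, c l • ξ l)
  have hg : ∀ l ∈ Λ, g l ∈ R.dbl.wt l := fun l hl =>
    ⟨(hx l hl).2.1, fun ν hν v hv => by simp [g, hξ3 l hl ν hν v hv]⟩
  set G := R.dbl.Wd Set.univ (g '' Λ) with hG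
  have hGs : R.dbl.Sub G := R.dbl.Wd_sub (by
    rintro _ ⟨l, hl, rfl⟩
    exact ⟨⟨l, hg l hl⟩, fun i => Prod.ext ((hx l hl).2.2 i)
      (LinearMap.ext fun v => by simp [g, dbl, hξ2 l hl])⟩)
  have hsurj : ∀ v, v ∈ G.map (LinearMap.fst ℂ _ _) := htop _ fun l hl => by
    rw [(hx l hl).iso_eq h]
    refine R.Wd_le ?_ (by rintro _ rfl; exact ⟨g l, R.dbl.mem_Wd ⟨l, hl, rfl⟩, rfl⟩)
    rintro j _ _ ⟨u, hu, rfl⟩
    exact ⟨_, (hGs.1 j u hu).2, rfl⟩
  have hinj : ∀ u ∈ G, u.1 = 0 → u = 0 := by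
    by_contra h1
    push Not at h1
    obtain ⟨u, h2, h3, h4⟩ := h1
    obtain ⟨ν, u, ⟨hu, hu1⟩, hu2⟩ := R.dbl.exists_HW_fd
      (U := G ⊓ LinearMap.ker (LinearMap.fst ℂ _ _))
      (fun u hu μ => ⟨hGs.gr u hu.1 μ, by
        change (R.dbl.G.pr μ u).1 = 0
        rw [dbl_pr, show u.1 = 0 from hu.2, map_zero]⟩)
      (fun i u hu => ⟨(hGs.1 i u hu.1).1, by
        change R.e i u.1 = 0
        rw [show u.1 = 0 from hu.2, map_zero]⟩)
      ((Submodule.ne_bot_iff _).mpr ⟨u, ⟨h2, h3⟩, h4⟩)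
    have hν : ν ∈ Λ := by
      by_contra hν
      refine hu2.1 (Prod.ext hu1 (LinearMap.ext (htop (LinearMap.ker u.2) fun m hm => ?_)))
      rw [hW m hm]
      refine R.tw.Wd_le (fun j _ v _ => ?_) ?_
      · change u.2 (R.e j v) = 0
        simpa [dbl] using congrArg (fun w => w.2 v) (hu2.2.2 j)
      · rintro _ rfl
        refine hu2.2.1.2 _ (fun e => hν ?_) _ (hy m hm).2.1
        rw [← neg_add_eq_zero.mp e]; exact hst m hm
    have h5 := R.dbl.Wd_map (R.dbl.G.pr ν) (ℂ ∙ g ν) (J := Set.univ) (X := g '' Λ) (by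
      rintro L _ _ ⟨l, hl, rfl⟩
      by_cases e : l - rs b L = ν
      · have h6 := hanti ν hν l hl (by rw [← e, sub_sub_cancel]; exact rs_pos D hD L)
        subst h6
        rw [nil_of_rs b (sub_eq_self.mp e)]
        change R.dbl.G.pr l (g l) ∈ _
        rw [R.dbl.G.pr_self (hg l hl)]; exact Submodule.mem_span_singleton_self _
      · rw [R.dbl.G.pr_ne (R.dbl.fw_wt L (hg l hl)) e]; exact zero_mem _) hu
    rw [R.dbl.G.pr_self hu2.2.1] at h5
    obtain ⟨a, rfl⟩ := Submodule.mem_span_singleton.mp h5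
    have h6 : a • x ν = 0 := hu1
    exact hu2.1 (by rw [(smul_eq_zero.mp h6).resolve_right (hx ν hν).1, zero_smul])
  obtain ⟨s, hs⟩ := LinearMap.exists_rightInverse_of_surjective
    ((LinearMap.fst ℂ V (Module.Dual ℂ V)) ∘ₗ G.subtype) (by
      rw [LinearMap.range_comp, Submodule.range_subtype, eq_top_iff]; exact fun v _ => hsurj v)
  let B : LinearMap.BilinForm ℂ V := LinearMap.snd ℂ _ _ ∘ₗ G.subtype ∘ₗ s
  have hB : ∀ v, (v, B v) ∈ G := fun v => by
    have : (v, B v) = (s v).1 := Prod.ext (LinearMap.congr_fun hs v).symm rfl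
    rw [this]; exact (s v).2
  have hB' : ∀ u ∈ G, B u.1 = u.2 := fun u hu => by
    have := congrArg Prod.snd (hinj _ (sub_mem (hB u.1) hu) (by simp))
    simpa [sub_eq_zero] using this
  have hBe : ∀ i v w, B (R.e i v) w = -B v (R.e i w) := fun i v w =>
    LinearMap.congr_fun (hB' _ (hGs.1 i _ (hB v)).1) w
  have hBf : ∀ i v w, B (R.f i v) w = -B v (R.f i w) := fun i v w =>
    LinearMap.congr_fun (hB' _ (hGs.1 i _ (hB v)).2) w
  have hBw : ∀ μ ν, ∀ v ∈ R.wt μ, ∀ w ∈ R.wt ν, μ + ν ≠ 0 → B v w = 0 := by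
    intro μ ν v hv w hw' hne
    have h1 := hB' _ (hGs.gr _ (hB v) μ)
    rw [dbl_pr, R.G.pr_self hv] at h1
    rw [h1]; exact (R.dbl.G.pr_mem μ _).2 ν (by rwa [add_comm]) w hw'
  have hBx : ∀ l ∈ Λ, B (x l) = c l • ξ l := fun l hl => hB' (g l) (R.dbl.mem_Wd ⟨l, hl, rfl⟩)
  have hB0 : ∀ l ∈ Λ, c l = 0 → B (y l) = 0 := by
    intro l hl hc
    have h1 := hyi l hl
    rw [(hx l hl).iso_eq h] at h1
    refine R.Wd_le (U := LinearMap.ker B) (fun j _ v hv => LinearMap.ext fun w => ?_) ?_ h1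
    · rw [hBf, show B v = 0 from hv]; simp
    · rintro _ rfl; rw [LinearMap.mem_ker, hBx l hl, hc, zero_smul]
  have hBF : ∀ n v w, B ((F ^ n) v) w = (-1) ^ n * B v ((F ^ n) w) := by
    have h1 : ∀ v w, B (F v) w = -B v (F w) := fun v w => by
      simp [hF, hBf]
    intro n
    induction n with
    | zero => simp
    | succ n ih =>
      intro v w
      rw [pow_succ' F, Module.End.mul_apply, h1, ih, ← Module.End.mul_apply, ← pow_succ,
        ← pow_succ' F]; ring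
  have halt : (B - B.flip).IsAlt := fun v => by simp
  have hΩ : ∀ v w, (B - B.flip) v w = B v w - B w v := fun v w => rfl
  have hΩw : ∀ μ ν, ∀ v ∈ R.wt μ, ∀ w ∈ R.wt ν, μ + ν ≠ 0 → (B - B.flip) v w = 0 :=
    fun μ ν v hv w hw' hne => by
      rw [hΩ, hBw μ ν v hv w hw' hne, hBw ν μ w hw' v hv (by rwa [add_comm]), sub_self]
  have hΩe : ∀ i v w, (B - B.flip) (R.e i v) w + (B - B.flip) v (R.e i w) = 0 ∧
      (B - B.flip) (R.f i v) w + (B - B.flip) v (R.f i w) = 0 := fun i v w => by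
    simp only [hΩ, hBe, hBf]; constructor <;> ring
  refine ⟨B - B.flip, halt, halt.isRefl.nondegenerate_iff_separatingLeft.mpr ?_, hΩe, hΩw⟩
  by_contra h1
  have hK : ∀ v, v ∈ LinearMap.ker (B - B.flip) ↔ ∀ w, (B - B.flip) v w = 0 := fun v =>
    LinearMap.ext_iff
  obtain ⟨l, z, hz, hz'⟩ := R.exists_HW_fd (U := LinearMap.ker (B - B.flip))
    (R.gr_of_H fun φ v hv => (hK _).mpr fun w => by
      have h2 : ∀ v w, (B - B.flip) (R.H φ v) w = -(B - B.flip) v (R.H φ w) := fun v w =>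
        LinearMap.congr_fun (R.G.ext (S := (B - B.flip) ∘ₗ R.H φ)
          (T := -(B - B.flip).compl₂ (R.H φ)) (fun μ v hv => LinearMap.ext (R.G.ext
            fun ν w hw' => by
              simp only [LinearMap.comp_apply, LinearMap.neg_apply, LinearMap.compl₂_apply,
                R.H_mem φ hv, R.H_mem φ hw', map_smul, LinearMap.smul_apply, smul_eq_mul]
              by_cases e : μ + ν = 0
              · rw [eq_neg_of_add_eq_zero_left e, map_neg]; simp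
              · rw [hΩw μ ν v hv w hw' e]; simp)) v) w
      rw [h2, (hK v).mp hv, neg_zero])
    (fun i v hv => (hK _).mpr fun w => by
      have := (hΩe i v w).1
      rwa [(hK v).mp hv, add_zero] at this)
    (fun h2 => h1 fun v hv => by rw [← Submodule.mem_bot ℂ, ← h2]; exact (hK v).mpr hv)
  have hl := (hw l).mp ⟨z, hz'⟩
  have hiso : R.iso l ≤ LinearMap.ker (B - B.flip) := by
    rw [hz'.iso_eq h]
    exact R.Wd_le (fun j _ v hv => (hK _).mpr fun w => by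
      have := (hΩe j v w).2
      rwa [(hK v).mp hv, add_zero] at this) (by rintro _ rfl; exact hz)
  have h2 := (hK _).mp (hiso ((hx l hl).mem_iso h)) (y (st l))
  have h3 := (hK _).mp (hiso (hyi l hl)) (x (st l))
  rw [hΩ, hBx l hl, LinearMap.smul_apply, hξ1 l hl] at h2
  rcases lt_trichotomy l (st l) with h4 | h4 | h4
  · rw [hB0 _ (hst l hl) (by simp [c, hss l hl, h4])] at h2
    simp [c, h4.le] at h2
  · obtain ⟨n, h5, h6⟩ := hyp l hl h4.symm
    have h7 := hξ1 l hl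
    rw [← h4] at h2 h7
    rw [h6, hBF, ← h6, hBx l hl, h5.neg_one_pow, LinearMap.smul_apply, h7] at h2
    simp [c, h4.le] at h2
  · have h5 := hξ1 _ (hst l hl)
    rw [hss l hl] at h5
    rw [hΩ, hB0 l hl (by simp [c, h4]), hBx _ (hst l hl), LinearMap.smul_apply, h5] at h3
    simp [c, hss l hl, h4.le] at h3

end Rep

end Pool.Agent.SX
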