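import Pool.Agent.P.MP_825e45_al.SxMain

/-! The weight monoid of a normal multiplicity free algebra is finitely generated. -/

namespace Pool.Agent.SX

lemma hartogs {A K : Type} [CommRing A] [IsDomain A] [IsNoetherianRing A] [IsIntegrallyClosed A]
    [Field K] [Algebra A K] [IsFractionRing A K] (y : K)
    (h : ∀ p : Ideal A, p.IsPrime → p.height = 1 →
      ∃ a s : A, s ∉ p ∧ y * algebraMap A K s = algebraMap A K a) :
    ∃ a, algebraMap A K a = y := by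
  by_contra hy
  have inj := IsFractionRing.injective A K
  let J : K → Ideal A := fun z =>
    (LinearMap.range (Algebra.linearMap A K)).comap (LinearMap.toSpanSingleton A K z)
  have hJ : ∀ z s, s ∈ J z ↔ ∃ a, algebraMap A K a = algebraMap A K s * z := fun z s => by
    rw [← Algebra.smul_def]; exact Iff.rfl
  obtain ⟨_, ⟨c, hc, rfl⟩, hmax⟩ := set_has_maximal_iff_noetherian.mpr
    (inferInstance : IsNoetherian A A)
    {I | ∃ c : A, (¬ ∃ a, algebraMap A K a = algebraMap A K c * y) ∧ I = J (algebraMap A K c * y)}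
    ⟨_, 1, by simpa using hy, rfl⟩
  generalize hz : algebraMap A K c * y = z at hc hmax
  have hq : (J z).IsPrime := by
    refine ⟨fun h1 => hc (by simpa using (hJ z 1).mp (h1 ▸ Submodule.mem_top)),
      fun {s t} hst => or_iff_not_imp_left.mpr fun hs => ?_⟩
    have h1 : J z ≤ J (algebraMap A K (s * c) * y) := fun u hu => by
      obtain ⟨a, ha⟩ := (hJ z u).mp hu
      exact (hJ _ u).mpr ⟨s * a, by rw [map_mul, map_mul, ha, ← hz]; ring⟩
    have h2 := eq_of_le_of_not_lt h1 (hmax _ ⟨s * c, fun h3 => hs ((hJ z s).mpr (by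
      rwa [map_mul, mul_assoc, hz] at h3)), rfl⟩)
    obtain ⟨a, ha⟩ := (hJ z _).mp hst
    rw [h2]
    exact (hJ _ t).mpr ⟨a, by rw [ha, ← hz, map_mul, map_mul]; ring⟩
  have h0 : J z ≠ ⊥ := by
    obtain ⟨⟨a, s⟩, ha⟩ := IsLocalization.surj (nonZeroDivisors A) z
    exact (Submodule.ne_bot_iff _).mpr ⟨s, (hJ z s).mpr ⟨a, by rw [← ha, mul_comm]⟩,
      nonZeroDivisors.coe_ne_zero s⟩
  obtain ⟨π, hπ, u, hu, hu'⟩ : ∃ π ∈ J z, ∃ u, algebraMap A K u = algebraMap A K π * z ∧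
      u ∉ J z := by
    by_contra h1
    push Not at h1
    refine hc (IsIntegrallyClosed.isIntegral_iff.mp (isIntegral_of_smul_mem_submodule
      (Submodule.map (Algebra.linearMap A K) (J z)) (fun h2 => h0 ?_)
      ((IsNoetherian.noetherian _).map _) z ?_))
    · rw [eq_bot_iff] at h2 ⊢
      intro s hs
      exact inj (by simpa using h2 (Submodule.mem_map_of_mem hs))
    · rintro _ ⟨s, hs, rfl⟩
      obtain ⟨a, ha⟩ := (hJ z s).mp hs
      exact ⟨a, h1 s hs a ha, by simpa [mul_comm] using ha⟩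
  have hmin : J z ∈ (Ideal.span {π}).minimalPrimes := by
    refine ⟨⟨hq, (Ideal.span_singleton_le_iff_mem _).mpr hπ⟩, fun q hq' hle s hs => ?_⟩
    obtain ⟨a, ha⟩ := (hJ z s).mp hs
    have h2 : s * u = π * a := inj (by rw [map_mul, map_mul, hu, ha]; ring)
    have h3 : s * u ∈ q := h2 ▸ q.mul_mem_right _ (hq'.2 (Ideal.mem_span_singleton_self π))
    exact (hq'.1.mem_or_mem h3).resolve_right fun h4 => hu' (hle h4)
  obtain ⟨a, s, hs, ha⟩ := h (J z) hq (le_antisymm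
    (Ideal.height_le_one_of_isPrincipal_of_mem_minimalPrimes _ _ hmin)
    (Order.one_le_iff_ne_zero.mpr (Ideal.height_eq_zero_iff_eq_bot.not.mpr h0)))
  exact hs ((hJ z s).mpr ⟨c * a, by rw [map_mul, ← ha, ← hz]; ring⟩)

lemma exists_inner {M : Type} [AddCommGroup M] [Module.Finite ℤ M] (Γ : AddSubmonoid M) :
    ∃ σ ∈ Γ, ∀ μ ∈ Γ, ∃ n : ℕ, n • σ - μ ∈ Γ := by
  let G : M → Submodule ℤ M := fun σ => AddSubgroup.toIntSubmodule
    { carrier := {μ | ∃ n : ℕ, n • σ - μ ∈ Γ ∧ n • σ + μ ∈ Γ}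
      zero_mem' := ⟨0, by simp⟩
      add_mem' := by
        rintro μ ν ⟨n, h1, h2⟩ ⟨m, h3, h4⟩
        refine ⟨n + m, ?_, ?_⟩
        · rw [add_smul, ← sub_add_sub_comm]; exact add_mem h1 h3
        · rw [add_smul, add_add_add_comm]; exact add_mem h2 h4
      neg_mem' := by
        rintro μ ⟨n, h1, h2⟩
        exact ⟨n, by rwa [sub_neg_eq_add], by rwa [← sub_eq_add_neg]⟩ }
  obtain ⟨_, ⟨σ, hσ, rfl⟩, hmax⟩ := set_has_maximal_iff_noetherian.mpr
    (inferInstance : IsNoetherian ℤ M) (G '' Γ) ⟨_, 0, Γ.zero_mem, rfl⟩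
  refine ⟨σ, hσ, fun μ hμ => ?_⟩
  have h1 : G σ ≤ G (σ + μ) := by
    rintro ν ⟨n, h1, h2⟩
    refine ⟨n, ?_, ?_⟩
    · rw [smul_add, add_sub_right_comm]; exact add_mem h1 (nsmul_mem hμ n)
    · rw [smul_add, add_right_comm]; exact add_mem h2 (nsmul_mem hμ n)
  have h2 := eq_of_le_of_not_lt h1 (hmax _ ⟨_, add_mem hσ hμ, rfl⟩)
  have h3 : μ ∈ G (σ + μ) := ⟨1, by simpa using hσ, by
    rw [one_smul]; exact add_mem (add_mem hσ hμ) hμ⟩
  obtain ⟨n, h4, _⟩ : μ ∈ G σ := h2 ▸ h3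
  exact ⟨n, h4⟩

namespace Ctx

open Rep

variable {ι M N : Type} [AddCommGroup M] [AddCommGroup N] {P : RootDatum ι M N} {b : P.Base}
  {A : Type} [CommRing A] [Algebra ℂ A] [IsDomain A] {R : Rep P b A} (c : Ctx R)

/-- The weight monoid. -/
def Γ : AddSubmonoid M where
  carrier := {μ | ∃ a, R.HW μ a}
  zero_mem' := ⟨1, c.hw_one⟩
  add_mem' := fun ⟨_, h⟩ ⟨_, h'⟩ => ⟨_, c.hw_mul h h'⟩

include c

lemma hw_pow {μ : M} {a : A} (h : R.HW μ a) (n : ℕ) : R.HW (n • μ) (a ^ n) := by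
  induction n with
  | zero => simpa using c.hw_one
  | succ n ih => rw [pow_succ, succ_nsmul]; exact c.hw_mul ih h

lemma hw_div {μ ν : M} {a u : A} (h : R.HW μ a) (h' : R.HW ν (a * u)) : R.HW (ν - μ) u := by
  refine ⟨fun e => h'.1 (by rw [e, mul_zero]), R.wt_of_H fun φ => mul_left_cancel₀ h.1 ?_,
    fun i => mul_left_cancel₀ h.1 ?_⟩
  · have h1 : R.H φ (a * u) = a • R.H φ u + u • R.H φ a := (c.dH φ).leibniz a u
    rw [R.H_mem φ h'.2.1, R.H_mem φ h.2.1, smul_eq_mul, smul_eq_mul] at h1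
    rw [eq_sub_of_add_eq h1.symm, map_sub, Int.cast_sub, sub_smul, mul_sub, mul_smul_comm,
      mul_smul_comm, mul_smul_comm, mul_comm u]
  · have h1 := (c.act.2.2 i a u).1
    rw [h'.2.2, h.2.2, zero_mul, add_zero] at h1
    rw [← h1, mul_zero]

theorem Γ_fg [Module.Finite ℤ M] [IsNoetherianRing A] [IsIntegrallyClosed A] : c.Γ.FG := by
  classical
  let K := FractionRing A
  have inj := IsFractionRing.injective A K
  obtain ⟨σ, ⟨g, hg⟩, hσ⟩ := exists_inner c.Γ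
  let S := {p : Ideal A // p ∈ (Ideal.span {g}).minimalPrimes ∧ p.height = 1}
  have : Finite S := ((Ideal.finite_minimalPrimes_of_isNoetherianRing A (Ideal.span {g})).subset
    fun p (hp : _ ∧ _) => hp.1).to_subtype
  have hp : ∀ p : S, p.1.IsPrime := fun p => p.2.1.1.1
  let D : ∀ p : S, DV K p.1 := fun p => (exists_DV K p.1 p.2.2).some
  have n0 : ∀ {μ a}, R.HW μ a → algebraMap A K a ≠ 0 := fun h => (map_ne_zero_iff _ inj).mpr h.1
  have key : ∀ μ ν a a', R.HW μ a → R.HW ν a' →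
      (∀ p, (D p).v (algebraMap A K a) ≤ (D p).v (algebraMap A K a')) →
      ∃ u, a' = a * u := by
    intro μ ν a a' ha ha' hv
    obtain ⟨u, hu⟩ := hartogs (A := A) (algebraMap A K a' * (algebraMap A K a)⁻¹) fun p hp1 hp2 => by
      by_cases h1 : a ∈ p
      · obtain ⟨n, w, hw⟩ := hσ μ ⟨a, ha⟩
        obtain ⟨t, ht⟩ := c.mf.2 _ _ _ (c.hw_mul ha hw) (by simpa using c.hw_pow hg n)
        have h2 : Ideal.span {g} ≤ p := (Ideal.span_singleton_le_iff_mem _).mpr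
          (hp1.mem_of_pow_mem n (by
            rw [ht, Algebra.smul_def]; exact p.mul_mem_left _ (p.mul_mem_right _ h1)))
        have : p.FiniteHeight := ⟨Or.inr (by rw [hp2]; simp)⟩
        let q : S := ⟨p, Ideal.mem_minimalPrimes_of_height_le h2 (hp2 ▸
          Order.one_le_iff_ne_zero.mpr (Ideal.height_eq_zero_iff_eq_bot.not.mpr
            (by simpa using hg.1))), hp2⟩
        refine ((D q).mem_O _).mp ((D q).Ge_zero.mp (((D q).ge_iff
          (mul_ne_zero (n0 ha') (inv_ne_zero (n0 ha)))).mpr ?_))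
        rw [(D q).v_mul (n0 ha') (inv_ne_zero (n0 ha)), (D q).v_inv (n0 ha)]
        have := hv q
        omega
      · exact ⟨a', a, h1, by rw [inv_mul_cancel_right₀ (n0 ha)]⟩
    exact ⟨u, inj (by rw [map_mul, hu, mul_comm, inv_mul_cancel_right₀ (n0 ha)])⟩
  let W : AddSubmonoid (S → ℕ) :=
    { carrier := {w | ∃ μ a, R.HW μ a ∧ ∀ p, (w p : ℤ) = (D p).v (algebraMap A K a)}
      zero_mem' := ⟨0, 1, c.hw_one, fun p => by simp [DV.v_one]⟩
      add_mem' := by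
        rintro w w' ⟨μ, a, ha, h1⟩ ⟨ν, a', ha', h2⟩
        exact ⟨_, _, c.hw_mul ha ha', fun p => by
          rw [map_mul, (D p).v_mul (n0 ha) (n0 ha'), ← h1, ← h2]; simp⟩ }
  obtain ⟨T, hT⟩ : W.FG := AddSubmonoid.fg_of_subtractive (by
    rintro w ⟨μ, a, ha, h1⟩ w' ⟨ν, a', ha', h2⟩
    obtain ⟨u, rfl⟩ := key _ _ _ _ ha ha' fun p => by rw [← h1, ← h2]; simp
    have hu := c.hw_div ha ha'
    refine ⟨_, u, hu, fun p => ?_⟩
    have := h2 p
    rw [map_mul, (D p).v_mul (n0 ha) (n0 hu), ← h1] at this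
    simpa using this)
  have hT' : ∀ w : T, ∃ μ a, R.HW μ a ∧ ∀ p, (w.1 p : ℤ) = (D p).v (algebraMap A K a) :=
    fun w => show w.1 ∈ W from hT ▸ AddSubmonoid.subset_closure w.2
  choose l hl using hT'
  let U : AddSubgroup M :=
    { carrier := {μ | μ ∈ c.Γ ∧ -μ ∈ c.Γ}
      zero_mem' := by simp
      add_mem' := fun h h' => ⟨add_mem h.1 h'.1, by rw [neg_add]; exact add_mem h.2 h'.2⟩
      neg_mem' := fun h => ⟨h.2, by simpa using h.1⟩ }
  have hU : U.toAddSubmonoid.FG := (AddSubgroup.fg_iff_addSubmonoid_fg U).mp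
    ((Submodule.fg_iff_addSubgroup_fg U.toIntSubmodule).mp (IsNoetherian.noetherian _))
  have h1 : ∀ w ∈ AddSubmonoid.closure (T : Set (S → ℕ)), ∃ μ ∈ AddSubmonoid.closure (Set.range l),
      ∃ a, R.HW μ a ∧ ∀ p, (w p : ℤ) = (D p).v (algebraMap A K a) := by
    intro w hw
    induction hw using AddSubmonoid.closure_induction with
    | mem w hw => exact ⟨_, AddSubmonoid.subset_closure ⟨⟨w, hw⟩, rfl⟩, hl ⟨w, hw⟩⟩
    | zero => exact ⟨0, zero_mem _, 1, c.hw_one, fun p => by simp [DV.v_one]⟩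
    | add w w' _ _ h h' =>
      obtain ⟨μ, h1, a, ha, h2⟩ := h
      obtain ⟨ν, h3, a', ha', h4⟩ := h'
      exact ⟨_, add_mem h1 h3, _, c.hw_mul ha ha', fun p => by
        rw [map_mul, (D p).v_mul (n0 ha) (n0 ha'), ← h2, ← h4]; simp⟩
  have h2 : c.Γ = AddSubmonoid.closure (Set.range l) ⊔ U.toAddSubmonoid := by
    refine le_antisymm ?_ (sup_le (AddSubmonoid.closure_le.mpr ?_) fun μ h => h.1)
    · rintro μ ⟨a, ha⟩
      have h3 : ∀ p, 0 ≤ (D p).v (algebraMap A K a) := fun p =>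
        ((D p).ge_iff (n0 ha)).mp ((D p).Ge_zero.mpr ((D p).alg_O a))
      obtain ⟨ν, h4, a', ha', h5⟩ := h1 (fun p => ((D p).v (algebraMap A K a)).toNat)
        (hT ▸ ⟨μ, a, ha, fun p => Int.toNat_of_nonneg (h3 p)⟩)
      simp only [Int.toNat_of_nonneg (h3 _)] at h5
      obtain ⟨u, hu⟩ := key _ _ _ _ ha ha' fun p => (h5 p).le
      obtain ⟨u', hu'⟩ := key _ _ _ _ ha' ha fun p => (h5 p).ge
      refine AddSubmonoid.mem_sup.mpr ⟨ν, h4, μ - ν, ⟨⟨u', c.hw_div ha' (hu' ▸ ha)⟩, ?_⟩, by abel⟩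
      rw [neg_sub]
      exact ⟨u, c.hw_div ha (hu ▸ ha')⟩
    · rintro _ ⟨w, rfl⟩
      obtain ⟨a, ha, _⟩ := hl w
      exact ⟨a, ha⟩
  rw [h2]
  exact ((AddSubmonoid.fg_iff _).mpr ⟨_, rfl, Set.finite_range l⟩).sup hU

end Ctx

end Pool.Agent.SX
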