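import Pool.Agent.P.MP_825e45_al.SxCone

/-! Rational invariants of the radical of a parabolic; vector fields on the quadric. -/

namespace Pool.Agent.SX

section Der

variable {K : Type} [Field K] [Algebra ℂ K]

open IntermediateField

lemma adj_stab (D : Derivation ℂ K K) {S : Set K} (h : ∀ s ∈ S, D s ∈ adjoin ℂ S) {y : K}
    (hy : y ∈ adjoin ℂ S) : D y ∈ adjoin ℂ S := by
  induction hy using adjoin_induction with
  | mem x hx => exact h x hx
  | algebraMap x => rw [D.map_algebraMap]; exact zero_mem _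
  | add x y _ _ hx hy => rw [map_add]; exact add_mem hx hy
  | inv x h1 hx =>
    rw [D.leibniz_inv, smul_eq_mul]; exact mul_mem (neg_mem (pow_mem (inv_mem h1) 2)) hx
  | mul x y h1 h2 hx hy =>
    rw [D.leibniz, smul_eq_mul, smul_eq_mul]; exact add_mem (mul_mem h1 hy) (mul_mem h2 hx)

lemma adj_kill (D : Derivation ℂ K K) {S : Set K} (h : ∀ s ∈ S, D s = 0) {y : K}
    (hy : y ∈ adjoin ℂ S) : D y = 0 := by
  induction hy using adjoin_induction with
  | mem x hx => exact h x hx
  | algebraMap x => exact D.map_algebraMap x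
  | add x y _ _ hx hy => rw [map_add, hx, hy, add_zero]
  | inv x _ hx => rw [D.leibniz_inv, hx, smul_zero]
  | mul x y _ _ hx hy => rw [D.leibniz, hx, hy, smul_zero, smul_zero, add_zero]

lemma der_ext {A : Type} [CommRing A] [Algebra A K] [IsFractionRing A K] (D : Derivation ℂ K K)
    (h : ∀ a, D (algebraMap A K a) = 0) (y : K) : D y = 0 := by
  obtain ⟨a, s, _, rfl⟩ := IsFractionRing.div_surjective (A := A) y
  rw [D.leibniz_div, h, h]; simp

lemma elim (x : ℕ → K) (ψ : K) (E : Derivation ℂ K K) (hE : E (x 0) = 0) (m : ℕ)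
    (hD : ∀ a < m, ∃ D : Derivation ℂ K K, D ψ = 0 ∧ D (x (a + 1)) ≠ 0 ∧ ∀ t ≤ a, D (x t) = 0) :
    ∃ E' : Derivation ℂ K K, E' ψ = E ψ ∧ ∀ t ≤ m, E' (x t) = 0 := by
  induction m with
  | zero => exact ⟨E, rfl, fun t ht => by rw [Nat.le_zero.mp ht, hE]⟩
  | succ m ih =>
    obtain ⟨E', h1, h2⟩ := ih fun a ha => hD a (by omega)
    obtain ⟨D, h3, h4, h5⟩ := hD m (by omega)
    refine ⟨E' - (E' (x (m + 1)) / D (x (m + 1))) • D, by simp [h1, h3], fun t ht => ?_⟩
    rcases ht.eq_or_lt with rfl | ht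
    · simp [h4]
    · simp [h2 t (by omega), h5 t (by omega)]

variable {σ : Type} (n : ℕ) (s : ℕ → σ)

open Classical in
/-- Matrix coefficients of the raising generators on the chain. -/
noncomputable def cf (i : σ) (a : ℕ) : ℤ :=
  if s a = i then (if a + 1 = n ∨ a = n then 2 else 1) else 0

/-- Matrix coefficients of the iterated brackets. -/
noncomputable def kap : ℕ → ℕ → ℤ
  | 0, t => cf n s (s 0) t
  | a + 1, t => cf n s (s (a + 1)) (a + 1 + t) * kap a t - kap a (t + 1) * cf n s (s (a + 1)) t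

variable {n s}

lemma kap_ne (h1 : ∀ a < 2 * n, s (2 * n - 1 - a) = s a)
    (h2 : Set.InjOn s (Set.Iio n) ∨ n = 3 ∧ s 0 = s 2 ∧ s 0 ≠ s 1) (a : ℕ) (ha : a + 1 < 2 * n) :
    kap n s a 0 ≠ 0 := by
  have h0 : ∀ a, cf n s (s a) a ≠ 0 := fun a => by
    rw [cf, if_pos rfl]; split_ifs <;> norm_num
  rcases h2 with h2 | ⟨rfl, h2, h3⟩
  · induction a with
    | zero => exact h0 0
    | succ a ih =>
      have h3 : s 0 ≠ s (a + 1) := fun e => by
        by_cases h4 : a + 1 < n
        · exact absurd (h2 (show 0 < n by omega) h4 e) (by omega)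
        · rw [← h1 (a + 1) (by omega)] at e
          exact absurd (h2 (show 0 < n by omega) (show 2 * n - 1 - (a + 1) < n by omega) e)
            (by omega)
      rw [kap, show cf n s (s (a + 1)) 0 = 0 from if_neg h3, mul_zero, sub_zero]
      exact mul_ne_zero (h0 _) (ih (by omega))
  · have e3 : s 3 = s 0 := (h1 2 (by omega)).trans h2.symm
    have e4 : s 4 = s 1 := h1 1 (by omega)
    have ha' : a < 5 := by omega
    interval_cases a <;> simp [kap, cf, e3, e4, ← h2, h3, h3.symm]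

/-- Iterated brackets of the raising generators along the chain. -/
noncomputable def br (e : σ → Derivation ℂ K K) (s : ℕ → σ) : ℕ → Derivation ℂ K K
  | 0 => e (s 0)
  | a + 1 => ⁅br e s a, e (s (a + 1))⁆

lemma br_x {e : σ → Derivation ℂ K K} {x : ℕ → K} (h0 : ∀ a < 2 * n, e (s a) (x 0) = 0)
    (h1 : ∀ a < 2 * n, ∀ t < 2 * n, e (s a) (x (t + 1)) = cf n s (s a) t • x t) (a : ℕ)
    (ha : a < 2 * n) : (∀ t ≤ a, br e s a (x t) = 0) ∧
      ∀ t, a + t < 2 * n → br e s a (x (a + t + 1)) = kap n s a t • x t := by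
  induction a with
  | zero =>
    exact ⟨fun t ht => by rw [Nat.le_zero.mp ht]; exact h0 0 ha,
      fun t ht => by rw [zero_add] at ht ⊢; exact h1 0 ha t ht⟩
  | succ a ih =>
    obtain ⟨h2, h3⟩ := ih (by omega)
    refine ⟨fun t ht => ?_, fun t ht => ?_⟩
    · rw [br, Derivation.commutator_apply]
      cases t with
      | zero => rw [h0 _ ha, h2 0 (by omega)]; simp
      | succ t =>
        rw [h1 _ ha t (by omega), map_zsmul, h2 t (by omega), smul_zero, zero_sub, neg_eq_zero]
        rcases ht.eq_or_lt with e0 | ht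
        · rw [e0, show x (a + 1) = x (a + 0 + 1) from rfl, h3 0 (by omega), map_zsmul, h0 _ ha,
            smul_zero]
        · rw [h2 _ (by omega), map_zero]
    · rw [br, Derivation.commutator_apply, h1 _ ha _ ht, map_zsmul,
        show a + 1 + t = a + t + 1 by omega, h3 t (by omega),
        show a + t + 1 + 1 = a + (t + 1) + 1 by omega, h3 (t + 1) (by omega), map_zsmul,
        h1 _ ha t (by omega), kap, smul_smul, smul_smul, sub_smul,
        show a + 1 + t = a + t + 1 by omega]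

theorem quadric_kill {e : σ → Derivation ℂ K K} {x : ℕ → K} (hn : 0 < n)
    (h1 : ∀ a < 2 * n, s (2 * n - 1 - a) = s a)
    (h2 : Set.InjOn s (Set.Iio n) ∨ n = 3 ∧ s 0 = s 2 ∧ s 0 ≠ s 1)
    (h3 : ∀ a < 2 * n, e (s a) (x 0) = 0)
    (h4 : ∀ a < 2 * n, ∀ t < 2 * n, e (s a) (x (t + 1)) = cf n s (s a) t • x t)
    (hq : ∑ a ∈ Finset.range (2 * n + 1), (-1) ^ a * x a * x (2 * n - a) = 1) (x0 : x 0 ≠ 0)
    {ψ : K} (hψ : ψ ∈ adjoin ℂ (x '' Set.Iic (2 * n))) (h5 : e (s 0) ψ = 0)
    (h6 : ∀ a < 2 * n, ∃ r, e (s a) ψ = algebraMap ℂ K r) (E : Derivation ℂ K K)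
    (hE : E (x 0) = 0) : E ψ = 0 := by
  have : CharZero K := charZero_of_injective_algebraMap (algebraMap ℂ K).injective
  have h7 : ∀ a < 2 * n, br e s a ψ = 0 := fun a ha => by
    induction a with
    | zero => exact h5
    | succ a ih =>
      obtain ⟨r, hr⟩ := h6 _ ha
      rw [br, Derivation.commutator_apply, ih (by omega), hr, Derivation.map_algebraMap]; simp
  obtain ⟨E', h8, h9⟩ := elim x ψ E hE (2 * n - 1) fun a ha => by
    obtain ⟨h8, h9⟩ := br_x h3 h4 a (by omega)
    refine ⟨_, h7 a (by omega), ?_, h8⟩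
    rw [show x (a + 1) = x (a + 0 + 1) from rfl, h9 0 (by omega)]
    exact smul_ne_zero (kap_ne h1 h2 a (by omega)) x0
  have h10 := congrArg E' hq
  rw [map_sum, Finset.sum_eq_add_of_mem 0 (2 * n) (by simp) (by simp) (by omega), E'.map_one_eq_zero]
    at h10
  · rw [← h8]
    refine adj_kill E' ?_ hψ
    rintro _ ⟨t, ht, rfl⟩
    rcases (show t ≤ 2 * n from ht).eq_or_lt with rfl | ht
    · simp only [pow_zero, one_mul, Nat.sub_zero, pow_mul, neg_one_sq, one_pow, Nat.sub_self,
        Derivation.leibniz, h9 0 (by omega), smul_eq_mul, mul_zero, add_zero, zero_add] at h10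
      exact (mul_eq_zero.mp (add_self_eq_zero.mp h10)).resolve_left x0
    · exact h9 t (by omega)
  · intro t ht h11
    rw [Finset.mem_range] at ht
    rw [mul_assoc, show (-1 : K) ^ t = algebraMap ℂ K ((-1) ^ t) by simp, ← Algebra.smul_def,
      Derivation.map_smul, Derivation.leibniz, h9 t (by omega), h9 (2 * n - t) (by omega)]
    simp

end Der

variable {ι M N : Type} [AddCommGroup M] [AddCommGroup N] {P : RootDatum ι M N} {b : P.Base}

namespace Rep

lemma Wd_kill {V : Type} [AddCommGroup V] [Module ℂ V] (R : Rep P b V) {I : Set b.support}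
    {j : b.support} (hj : j ∉ I) {a y : V} (ha : R.e j a = 0) (hy : y ∈ R.Wd I {a}) :
    R.e j y = 0 := by
  refine R.Wd_map (R.e j) ⊥ (fun L hL x hx => ?_) hy
  rw [(hx : x = a)]
  induction L with
  | nil => exact ha
  | cons i L ih =>
    have h1 : R.e j (R.fw L a) = 0 := ih fun l hl => hL l (by simp [hl])
    change R.e j (R.f i (R.fw L a)) = 0
    rw [R.ef_ne j i _ fun e => hj (e ▸ hL i (by simp)), h1, map_zero]

namespace Lift

variable {A : Type} [CommRing A] [Algebra ℂ A] [IsDomain A] {R : Rep P b A} (X : R.Lift)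

lemma ext : Ctx.Ext R X.e X.f X.h :=
  ⟨IsFractionRing.injective A _, X.he, X.hf, fun φ a => R.G.ind
    (p := fun a => X.h φ (algebraMap A _ a) = algebraMap A _ (R.H φ a))
    (fun μ v hv => by rw [X.hh φ μ v hv, R.H_mem φ hv, Int.cast_smul_eq_zsmul, map_zsmul])
    (fun x y hx hy => by simp only [map_add, hx, hy]) (by simp) a⟩

lemma h_f (φ : M →+ ℤ) (i : b.support) (y : FractionRing A) :
    X.h φ (X.f i y) = X.f i (X.h φ y) - φ (P.root i) • X.f i y := by
  have := der_ext (A := A) (⁅X.h φ, X.f i⁆ + φ (P.root i) • X.f i) (fun a => by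
    simp only [Derivation.add_apply, Derivation.commutator_apply, Derivation.smul_apply, X.hf,
      X.ext.hh, R.H_f, map_sub, Int.cast_smul_eq_zsmul, map_zsmul]
    abel) y
  simp only [Derivation.add_apply, Derivation.commutator_apply, Derivation.smul_apply] at this
  linear_combination (norm := module) this

lemma e_f (i : b.support) (y : FractionRing A) :
    X.e i (X.f i y) = X.f i (X.e i y) + X.h (co P i) y := by
  have := der_ext (A := A) (⁅X.e i, X.f i⁆ - X.h (co P i)) (fun a => by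
    simp only [Derivation.sub_apply, Derivation.commutator_apply, X.hf, X.he,
      X.ext.hh, R.e_f, map_add]
    abel) y
  simp only [Derivation.sub_apply, Derivation.commutator_apply] at this
  linear_combination this

open IntermediateField in
lemma uinv {I : Set b.support} {S : Set (FractionRing A)}
    (h1 : ∀ s ∈ S, ∀ i ∈ I, X.e i s ∈ adjoin ℂ S ∧ X.f i s ∈ adjoin ℂ S)
    (h2 : ∀ s ∈ S, ∀ j ∉ I, X.e j s = 0) {x y : FractionRing A} (hx : x ∈ adjoin ℂ S)
    (h : Relation.ReflTransGen (fun u w => ∃ i ∈ I, w = X.e i u ∨ w = X.f i u) x y) :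
    ∀ j ∉ I, X.e j y = 0 := by
  have : y ∈ adjoin ℂ S := by
    induction h with
    | refl => exact hx
    | tail _ h ih =>
      obtain ⟨i, hi, rfl | rfl⟩ := h
      · exact adj_stab _ (fun s hs => (h1 s hs i hi).1) ih
      · exact adj_stab _ (fun s hs => (h1 s hs i hi).2) ih
  exact fun j hj => adj_kill _ (fun s hs => h2 s hs j hj) this

lemma psi_mem {I : Set b.support} {j : b.support} (hj : j ∈ I) {μ : M} {a : A} (ha : R.HW μ a) :
    algebraMap A _ (R.f j a) / algebraMap A _ a ∈ X.Inv I := by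
  refine ⟨fun φ hφ => d_div_zero _ (c := φ μ) ?_ ?_, fun y hy => X.uinv
    (S := algebraMap A _ '' R.Wd I {a}) ?_ ?_ (div_mem
      (IntermediateField.subset_adjoin _ _ ⟨_, R.Wd_f hj (R.mem_Wd rfl), rfl⟩)
      (IntermediateField.subset_adjoin _ _ ⟨_, R.mem_Wd rfl, rfl⟩)) hy⟩
  · rw [X.hh φ _ _ (R.f_wt j μ a ha.2.1), map_sub, hφ j hj, sub_zero, zsmul_eq_mul]
  · rw [X.hh φ _ _ ha.2.1, zsmul_eq_mul]
  · rintro _ ⟨w, hw, rfl⟩ i hi
    rw [X.he, X.hf]
    exact ⟨IntermediateField.subset_adjoin _ _ ⟨_, R.Wd_e (by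
      rintro _ rfl; exact ⟨⟨μ, ha.2.1⟩, ha.2.2⟩) i hw, rfl⟩,
      IntermediateField.subset_adjoin _ _ ⟨_, R.Wd_f hi hw, rfl⟩⟩
  · rintro _ ⟨w, hw, rfl⟩ k hk
    rw [X.he, R.Wd_kill hk (ha.2.2 k) hw, map_zero]

lemma psi_e (j k : b.support) {μ : M} {a : A} (ha : R.HW μ a) :
    X.e k (algebraMap A _ (R.f j a) / algebraMap A _ a) =
      open Classical in algebraMap ℂ _ (if k = j then (co P j μ : ℂ) else 0) := by
  have h0 : algebraMap A (FractionRing A) a ≠ 0 := (map_ne_zero_iff _ X.ext.inj).mpr ha.1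
  rw [Derivation.leibniz_div, X.he, X.he, ha.2.2]
  split_ifs with h
  · subst h
    rw [R.e_f, ha.2.2, map_zero, map_zero, zero_add, R.H_mem _ ha.2.1, Int.cast_smul_eq_zsmul,
      map_zsmul]
    simp only [smul_eq_mul, zsmul_eq_mul, map_intCast]
    field_simp
    simp
  · rw [R.ef_ne k j a h, ha.2.2]; simp

end Lift

end Rep

end Pool.Agent.SX
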