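import Pool.Agent.P.MP_825e45_al.SxTail
import Pool.Agent.P.MP_825e45_al.SxForm

/-! The partner axiom for colors of even spherical type and the main theorem. -/

namespace Pool.Agent.SX

namespace Ctx

open Rep

variable {ι M N : Type} [AddCommGroup M] [AddCommGroup N] {P : RootDatum ι M N} {b : P.Base}
  {A : Type} [CommRing A] [Algebra ℂ A] [IsDomain A] {R : Rep P b A} (c : Ctx R)
  [Fintype ι] [P.IsReduced] {κ L : Type} [AddCommGroup L] {Q : RootDatum κ R.lat L} {d : Q.Base}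

lemma hw_lat {μ : M} {a : A} (h : R.HW μ a) : μ ∈ R.lat := AddSubgroup.subset_closure ⟨a, h⟩

lemma lat_dvd (φ : R.lat →+ ℤ) (g : ℤ) (h : ∀ (μ : R.lat) a, R.HW μ a → g ∣ φ μ) (μ : R.lat) :
    g ∣ φ μ := by
  obtain ⟨μ, hμ⟩ := μ
  induction hμ using AddSubgroup.closure_induction with
  | mem x hx => obtain ⟨a, ha⟩ := hx; exact h _ a ha
  | zero => exact ⟨0, by rw [mul_zero]; exact map_zero φ⟩
  | add x y hx hy h1 h2 => exact (map_add φ ⟨x, hx⟩ ⟨y, hy⟩) ▸ dvd_add h1 h2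
  | neg x hx h1 => exact (map_neg φ ⟨x, hx⟩) ▸ (dvd_neg.mpr h1)

lemma form_root (i : ι) (μ : M) :
    2 * P.RootForm (P.root i) μ = P.RootForm (P.root i) (P.root i) * co P i μ := by
  have := P.rootForm_reflection_reflection_apply i (P.root i) μ
  rw [RootPairing.reflection_apply_self, RootPairing.reflection_apply] at this
  simp only [map_neg, map_sub, map_smul, LinearMap.neg_apply, smul_eq_mul] at this
  change _ = _ * P.coroot' i μ
  linear_combination -this

lemma form_pos {n : b.support → ℕ} (h : rt b n ≠ 0) : 0 < P.RootForm (rt b n) (rt b n) := by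
  obtain ⟨D, hD⟩ := exists_sys P b
  rw [RootPairing.rootForm_apply_apply]
  refine (Finset.sum_nonneg fun j _ => mul_self_nonneg _).lt_of_ne fun h0 => h ?_
  have h1 := (Finset.sum_eq_zero_iff_of_nonneg fun j _ => mul_self_nonneg _).mp h0.symm
  have h2 : D.h (rt b n) = 0 := by
    rw [D.hx]
    refine Finset.sum_eq_zero fun k _ => ?_
    rw [D_c D hD, show co P k (rt b n) = 0 from mul_self_eq_zero.mp (h1 k (Finset.mem_univ _)),
      mul_zero]
  have h3 : rt b n ∈ D.Pos := sum_mem fun i _ => nsmul_mem (D_β D hD i ▸ D.β_mem i) _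
  exact (D.pos_h h3).resolve_right (by omega)

variable (hQ : R.TailRoots Q d)

include hQ

lemma coroot_eq {k : κ} (hk : k ∈ d.support) {n : b.support → ℕ} (hn : (Q.root k : M) = rt b n) :
    ∃ (s : ℤ) (w : b.support → ℤ), 0 < s ∧ (∀ i, 0 < w i) ∧
      ∀ μ : R.lat, s * Q.coroot' k μ = ∑ i, n i * (w i * co P i μ) := by
  classical
  refine ⟨P.RootForm (rt b n) (rt b n), fun i => P.RootForm (P.root i) (P.root i),
    form_pos (hn ▸ fun h => Q.ne_zero k (Subtype.ext h)), fun i => ?_, fun μ => ?_⟩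
  · have := form_pos (b := b) (n := Pi.single i 1) (by rw [rt_single]; exact P.ne_zero _)
    rwa [rt_single] at this
  · have := hQ.orth k hk (Q.root k) μ
    rw [RootPairing.reflection_apply_self, RootPairing.reflection_apply] at this
    simp only [AddSubgroup.coe_neg, AddSubgroup.coe_sub, AddSubgroup.coe_zsmul, map_neg, map_sub,
      map_smul, LinearMap.neg_apply, smul_eq_mul, hn] at this
    have h2 : 2 * P.RootForm (rt b n) μ =
        ∑ i, n i * (P.RootForm (P.root i) (P.root i) * co P i μ) := by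
      simp only [rt, map_sum, map_nsmul, LinearMap.sum_apply, LinearMap.smul_apply, nsmul_eq_mul,
        Finset.mul_sum, ← form_root]
      exact Finset.sum_congr rfl fun i _ => by ring
    linear_combination this + h2

lemma coroot_one {k : κ} (hk : k ∈ d.support) {n : b.support → ℕ} (hn : (Q.root k : M) = rt b n)
    (i : b.support) (h : ∀ j, j ≠ i → n j ≠ 0 → ∀ μ : R.lat, co P j μ = 0) (μ : R.lat) :
    Q.coroot' k μ * co P i (Q.root k) = 2 * co P i μ := by
  obtain ⟨s, w, hs, _, h1⟩ := coroot_eq hQ hk hn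
  have h2 : ∀ μ : R.lat, s * Q.coroot' k μ = n i * (w i * co P i μ) := fun μ => by
    rw [h1, Finset.sum_eq_single_of_mem i (Finset.mem_univ i) fun j _ hj => ?_]
    by_cases e : n j = 0
    · simp [e]
    · simp [h j hj e μ]
  have h3 := h2 (Q.root k)
  rw [show Q.coroot' k (Q.root k) = 2 from Q.root_coroot_two k] at h3
  refine mul_left_cancel₀ hs.ne' ?_
  linear_combination co P i (Q.root k) * h2 μ - co P i μ * h3

omit hQ in
/-- The rational cone of the spherical roots. -/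
def cone (d : Q.Base) : AddSubmonoid M where
  carrier := {τ | ∃ r : ℕ, 0 < r ∧
    r • τ ∈ AddSubmonoid.closure ((fun k => (Q.root k : M)) '' d.support)}
  zero_mem' := ⟨1, one_pos, by simp⟩
  add_mem' := by
    rintro x y ⟨r, hr, hx⟩ ⟨s, hs, hy⟩
    refine ⟨r * s, mul_pos hr hs, ?_⟩
    rw [smul_add, mul_nsmul, mul_nsmul']
    exact add_mem (nsmul_mem hx s) (nsmul_mem hy r)

omit hQ in
lemma cone_ind {k k' : κ} (hk : k ∈ d.support) (hk' : k' ∈ d.support) (r : ℕ)
    (h : r • (Q.root k : M) - Q.root k' ∈ cone d) : k = k' := by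
  classical
  obtain ⟨s, hs, h⟩ := h
  have key : ∀ u ∈ AddSubmonoid.closure ((fun k => (Q.root k : M)) '' d.support),
      ∃ n, u = (rt d n : R.lat) := by
    intro u hu
    induction hu using AddSubmonoid.closure_induction with
    | mem x hx => obtain ⟨j, hj, rfl⟩ := hx; exact ⟨_, by rw [rt_single d ⟨j, hj⟩]⟩
    | zero => exact ⟨0, by simp [rt]⟩
    | add x y _ _ hx hy =>
      obtain ⟨n, rfl⟩ := hx
      obtain ⟨n', rfl⟩ := hy
      exact ⟨n + n', by rw [rt_add]; rfl⟩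
  obtain ⟨n, hn⟩ := key _ h
  have sm : ∀ (t : ℕ) n, rt d (t • n) = t • rt d n := fun t n => by
    simp [rt, Finset.smul_sum, mul_smul]
  have h1 : rt d ((s * r) • Pi.single ⟨k, hk⟩ 1) = rt d (n + s • Pi.single ⟨k', hk'⟩ 1) := by
    rw [rt_add, sm, sm, rt_single, rt_single]
    refine Subtype.ext ?_
    rw [AddSubgroup.coe_add, ← hn, AddSubgroup.coe_nsmul, AddSubgroup.coe_nsmul, smul_sub, mul_smul,
      sub_add_cancel]
  by_contra e
  have h2 := congrFun (rt_inj d h1) ⟨k', hk'⟩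
  simp [Ne.symm e] at h2
  omega

variable {K : Type} [Field K] [Algebra ℂ K] [Algebra A K] [IsScalarTower ℂ A K] [IsFractionRing A K]
  {e f : b.support → Derivation ℂ K K} {h : (M →+ ℤ) → Derivation ℂ K K} (x : Ext R e f h)
  [IsNoetherianRing A] [IsIntegrallyClosed A]

include c x

open Classical in
lemma root_T {i : b.support} (hT : R.TypeT i) : ∃ k ∈ d.support, (Q.root k : M) = P.root i := by
  obtain ⟨p, p', τ, τ', t⟩ : ∃ p p' τ τ', c.TD e f h i p p' τ τ' :=
    ⟨_, c.exists_TD x hT hT.choose_spec.choose_spec.2.1⟩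
  have := t.mv.1
  have := t.mv'.1
  obtain ⟨D⟩ := exists_DV K p t.mv.2.1
  obtain ⟨D'⟩ := exists_DV K p' t.mv'.2.1
  obtain ⟨r, hr, h1⟩ := hQ.cone _ (t.tail x D D')
  have key : ∀ u ∈ AddSubmonoid.closure ((fun k => (Q.root k : M)) '' d.support), ∃ n,
      u = rt b n ∧ (u = 0 ∨ ∃ k ∈ d.support, ∃ n' ≤ n, (Q.root k : M) = rt b n' ∧
        Finset.univ.gcd n' = 1) := by
    intro u hu
    induction hu using AddSubmonoid.closure_induction with
    | mem x hx =>
      obtain ⟨k, hk, rfl⟩ := hx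
      obtain ⟨n, h2, h3⟩ := hQ.prim k hk
      exact ⟨n, h2, Or.inr ⟨k, hk, n, le_rfl, h2, h3⟩⟩
    | zero => exact ⟨0, by simp [rt], Or.inl rfl⟩
    | add x y _ _ hx hy =>
      obtain ⟨n, h2, h3⟩ := hx
      obtain ⟨n', h4, h5⟩ := hy
      refine ⟨n + n', by rw [rt_add, h2, h4], ?_⟩
      rcases h3 with rfl | ⟨k, hk, m, h6, h7⟩
      · rcases h5 with rfl | ⟨k, hk, m, h6, h7⟩
        · simp
        · exact Or.inr ⟨k, hk, m, h6.trans le_add_self, h7⟩
      · exact Or.inr ⟨k, hk, m, h6.trans le_self_add, h7⟩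
  obtain ⟨n, h2, h3 | ⟨k, hk, m, h4, h5, h6⟩⟩ := key _ h1
  · have := congrArg (co P i) h3
    simp [co_self] at this; omega
  have h7 : n = (r * 2) • Pi.single i 1 := rt_inj b (by
    rw [← h2, ← rt_single]; simp [rt, Finset.smul_sum, smul_smul, mul_assoc])
  have h8 : ∀ j, j ≠ i → m j = 0 := fun j hj => by simpa [h7, hj] using h4 j
  have h9 : rt b m = m i • P.root i :=
    Finset.sum_eq_single_of_mem i (Finset.mem_univ i) fun j _ hj => by rw [h8 j hj, zero_smul]
  have h10 : m i ∣ Finset.univ.gcd m := Finset.dvd_gcd fun j _ => by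
    by_cases e0 : j = i
    · rw [e0]
    · rw [h8 j e0]; exact dvd_zero _
  rw [h6, Nat.dvd_one] at h10
  exact ⟨k, hk, by rw [h5, h9, h10, one_smul]⟩

omit c hQ in
lemma val_d {p : Ideal A} [p.IsPrime] (D : DV K p) {u : L} (hu : R.Val Q p u) {y : K} (hy : y ≠ 0)
    {γ : R.lat} (h1 : ∃ σ s a, R.HW σ s ∧ R.HW (σ + -γ) a ∧ y * algebraMap A K s = algebraMap A K a) :
    Q.toLinearMap γ u = -D.v y := by
  obtain ⟨σ, s, a, hs, ha, h2⟩ := h1
  have h3 := congrArg D.v h2
  have h4 := hu ⟨σ, hw_lat hs⟩ s hs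
  have h5 := hu (⟨σ, hw_lat hs⟩ + -γ) a ha
  rw [D.v_mul hy ((map_ne_zero_iff _ x.inj).mpr hs.1), ← D.ord_eq hs.1, ← D.ord_eq ha.1] at h3
  simp only [map_add, map_neg, LinearMap.add_apply, LinearMap.neg_apply] at h5
  omega

lemma partner {j : b.support} (hT : R.TypeT j) {k : κ} (hk : k ∈ d.support)
    (hkj : (Q.root k : M) = P.root j) {p : Ideal A} (hp : R.Moves j p) {u : L} (hu : R.Val Q p u) :
    Q.toLinearMap (Q.root k) u = 1 ∧ R.ColorT Q (Q.coroot k - u) := by
  classical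
  obtain ⟨p', τ, τ', t⟩ := c.exists_TD x hT hp
  have := t.mv.1
  have := t.mv'.1
  obtain ⟨D⟩ := exists_DV K p t.mv.2.1
  obtain ⟨D'⟩ := exists_DV K p' t.mv'.2.1
  refine ⟨by rw [val_d x D hu t.d_ne (hkj ▸ t.d_eig x), t.d_val x D]; rfl,
    j, p', hT, t.mv', fun μ a ha => ?_⟩
  obtain ⟨m, n, _, _, h1, _, h2, h3⟩ := t.fac' x D D' ha
  have h4 := coroot_one hQ hk (hkj.trans (rt_single b j).symm) j
    (fun i hi h0 => absurd (Pi.single_eq_of_ne hi 1) h0) μ
  rw [hkj, co_self] at h4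
  rw [map_sub, hu μ a ha, D.ord_eq ha.1, D'.ord_eq ha.1, h2, h3]
  change Q.coroot' k μ - _ = _
  omega

open Classical in
lemma ax_T {u : L} (hu : R.ColorT Q u) {k : κ} (hk : k ∈ d.support)
    (h0 : 0 < Q.toLinearMap (Q.root k) u) :
    Q.toLinearMap (Q.root k) u = 1 ∧ R.ColorT Q (Q.coroot k - u) := by
  obtain ⟨i, p, hT, hp, hu⟩ := hu
  have := hp.1
  obtain ⟨D⟩ := exists_DV K p hp.2.1
  let I : Set b.support := {j | R.Moves j p}
  have tT : ∀ j ∈ I, R.TypeT j := fun j hj => c.typeT_of_moves x hT hp hj D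
  have hB := Module.Baer.of_divisible ℚ
  obtain ⟨w, hw⟩ := hB.extension_property R.lat.subtype.toIntLinearMap Subtype.val_injective
    (Algebra.linearMap ℤ ℚ ∘ₗ Q.toLinearMap.flip u)
  replace hw : ∀ μ : R.lat, w μ = (Q.toLinearMap μ u : ℤ) := fun μ => LinearMap.congr_fun hw μ
  obtain ⟨m, hm⟩ := hB.extension_property (R.lat.subtype.toIntLinearMap ∘ₗ
    Fintype.linearCombination ℤ fun k : d.support => Q.root k)
    (Subtype.val_injective.comp d.linearIndepOn_root.fintypeLinearCombination_injective)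
    (Fintype.linearCombination ℤ fun k : d.support =>
      if 0 < Q.toLinearMap (Q.root k) u then (0 : ℚ) else 1)
  replace hm : ∀ k ∈ d.support, m (Q.root k) = if 0 < Q.toLinearMap (Q.root k) u then 0 else 1 :=
    fun k hk => by simpa using LinearMap.congr_fun hm (Pi.single ⟨k, hk⟩ 1)
  have hmw : ∀ ρ ∈ cone d, 0 ≤ m ρ ∧ (m ρ = 0 → ρ = 0 ∨ 0 < w ρ) := by
    have key : ∀ ρ ∈ AddSubmonoid.closure ((fun k => (Q.root k : M)) '' d.support),
        0 ≤ m ρ ∧ (m ρ = 0 → ρ = 0 ∨ 0 < w ρ) := by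
      intro ρ hρ
      induction hρ using AddSubmonoid.closure_induction with
      | mem y hy =>
        obtain ⟨j, hj, rfl⟩ := hy
        simp only [hm j hj, hw]
        split_ifs with h1
        · exact ⟨le_rfl, fun _ => Or.inr (by exact_mod_cast h1)⟩
        · simp
      | zero => simp
      | add y z _ _ hy hz =>
        rw [map_add, map_add]
        refine ⟨add_nonneg hy.1 hz.1, fun h1 => ?_⟩
        rcases hy.2 (by linarith [hy.1, hz.1]) with rfl | h2
        · simpa using hz.2 (by simpa using h1)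
        · rcases hz.2 (by linarith [hy.1, hz.1]) with rfl | h3
          · right; simpa using h2
          · right; linarith
    rintro ρ ⟨r, hr, h1⟩
    obtain ⟨h2, h3⟩ := key _ h1
    have h4 : (0 : ℚ) < r := by exact_mod_cast hr
    have : Module.IsReflexive ℤ M := .of_isPerfPair P.toLinearMap
    rw [map_nsmul, nsmul_eq_mul] at h2 h3
    refine ⟨(mul_nonneg_iff_of_pos_left h4).mp h2, fun h5 => (h3 (by simp [h5])).imp
      (fun h6 => ?_) fun h6 => ?_⟩
    · rw [← natCast_zsmul, smul_eq_zero] at h6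
      exact h6.resolve_left (by omega)
    · rw [map_nsmul, nsmul_eq_mul] at h6
      exact (mul_pos_iff_of_pos_left h4).mp h6
  have hc : ∀ j ∈ I, ∃ k' ∈ d.support, (Q.root k' : M) = P.root j ∧ P.root j ∈ cone d ∧
      Q.toLinearMap (Q.root k') u = 1 := fun j hj => by
    obtain ⟨k', h1, h2⟩ := c.root_T hQ x (tT j hj)
    exact ⟨k', h1, h2, ⟨1, one_pos, by
      rw [one_smul]; exact AddSubmonoid.subset_closure ⟨k', h1, h2⟩⟩,
      (c.partner hQ x (tT j hj) h1 h2 hj hu).1⟩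
  obtain ⟨r, hr, h1⟩ := hQ.ray k hk
  have tm := fun τ => c.tail_mem (τ := τ) (Γ := cone d) hQ.cone x D hp.2.2.1
    ((R.G.gr_iff _).mp hp.2.2.2.1) m.toAddMonoidHom w.toAddMonoidHom hmw
    (fun μ a ha => (hw ⟨μ, hw_lat ha⟩).trans (by rw [hu _ a ha, D.ord_eq ha.1])) I ⟨i, hp⟩
    (fun j hj a ha => by_contra fun h4 => hj ⟨hp.1, hp.2.1, hp.2.2.1, hp.2.2.2.1, a, ha, h4⟩)
    (fun j hj => by
      obtain ⟨k', h2, h3, h4, h5⟩ := hc j hj
      refine ⟨h4, ?_, ?_, c.exists_TD x (tT j hj) hj⟩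
      · rw [← h3]; simpa [h5] using hm k' h2
      · rw [← h3]; simpa [h5] using hw (Q.root k'))
  have tm' : ∀ τ ∈ AddSubmonoid.closure {τ | R.Tail τ}, τ ∈ cone d ∧
      (m τ = 0 → ∃ Z : List b.support, (∀ j ∈ Z, j ∈ I) ∧ τ = rs b Z) := by
    intro τ hτ
    induction hτ using AddSubmonoid.closure_induction with
    | mem y hy => exact ⟨hQ.cone y hy, tm y hy⟩
    | zero => exact ⟨zero_mem _, fun _ => ⟨[], by simp, (rs_nil b).symm⟩⟩
    | add y z _ _ hy hz =>
      refine ⟨add_mem hy.1 hz.1, fun h2 => ?_⟩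
      rw [map_add] at h2
      have h3 := (hmw y hy.1).1
      have h4 := (hmw z hz.1).1
      obtain ⟨Z, h5, rfl⟩ := hy.2 (by linarith)
      obtain ⟨Z', h6, rfl⟩ := hz.2 (by linarith)
      exact ⟨Z ++ Z', fun j hj => (List.mem_append.mp hj).elim (h5 j) (h6 j),
        (rs_append b Z Z').symm⟩
  obtain ⟨Z, h2, h3⟩ := (tm' _ h1).2 (by simp [hm k hk, h0])
  have h4 : ∀ Z : List b.support, (∀ j ∈ Z, j ∈ I) → rs b Z ∈ cone d := by
    intro Z hZ
    induction Z with
    | nil => rw [rs_nil]; exact zero_mem _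
    | cons j Z ih =>
      obtain ⟨_, _, _, h4, _⟩ := hc j (hZ j (by simp))
      rw [rs_cons]; exact add_mem h4 (ih fun l hl => hZ l (by simp [hl]))
  cases Z with
  | nil =>
    have h5 := congrArg w h3
    have h6 : (0 : ℚ) < r * (Q.toLinearMap (Q.root k) u : ℤ) := by positivity
    rw [rs_nil, map_zero, map_nsmul, hw, nsmul_eq_mul] at h5
    exact absurd h5 h6.ne'
  | cons j Z =>
    have hj := h2 j (by simp)
    obtain ⟨k', h5, h6, _⟩ := hc j hj
    obtain rfl := cone_ind hk h5 r (by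
      rw [h3, rs_cons, h6, add_sub_cancel_left]; exact h4 Z fun l hl => h2 l (by simp [hl]))
    exact c.partner hQ x (tT j hj) hk h6 hj hu

lemma half {u : L} (hu : R.ColorB Q d u) : R.ColorT Q u ∨ ∃ k ∈ d.support, 2 • u = Q.coroot k := by
  obtain ⟨i, p, hp, hu, k, hk, n, h1, h2, h3⟩ := hu
  by_cases hT : R.TypeT i
  · exact Or.inl ⟨i, p, hT, hp, hu⟩
  have := hp.1
  obtain ⟨D⟩ := exists_DV K p hp.2.1
  obtain ⟨g, w, _, _, h4, h5⟩ := c.not_T x hT hp D
  have h6 := lat_dvd ((co P i).comp R.lat.subtype) g (fun μ a ha => by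
    obtain ⟨m, h6, _⟩ := h5 μ a ha
    exact ⟨m, h6.trans (mul_comm _ _)⟩) (Q.root k)
  have h7 : g = 1 := by
    have : (g : ℤ) ∣ 1 := h3 ▸ h6
    exact_mod_cast Int.eq_one_of_dvd_one (by omega) this
  refine Or.inr ⟨k, hk, (LinearMap.IsPerfPair.bijective_right Q.toLinearMap).1
    (LinearMap.ext fun μ => ?_)⟩
  have h8 := coroot_one hQ hk h1 i (fun j hj h0 μ => zero_dvd_iff.mp (lat_dvd
    ((co P j).comp R.lat.subtype) 0 (fun μ a ha => zero_dvd_iff.mpr
      (c.no_color x (h2 j hj h0) ha)) μ)) μ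
  have h9 := zero_dvd_iff.mp (lat_dvd ((co P i).comp R.lat.subtype -
    (Q.toLinearMap.flip u).toAddMonoidHom) 0 (fun μ a ha => zero_dvd_iff.mpr (by
      obtain ⟨m, h6, h8⟩ := h5 μ a ha
      change co P i μ - Q.toLinearMap μ u = 0
      rw [hu μ a ha, D.ord_eq ha.1, h6, h8, h4 h7, h7]; simp)) μ)
  change co P i μ - Q.toLinearMap μ u = 0 at h9
  rw [show co P i (Q.root k) = 1 from h3] at h8
  change Q.toLinearMap μ (2 • u) = Q.coroot' k μ
  rw [map_nsmul, nsmul_eq_mul]; push_cast; omega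

lemma exists_big : ∃ (μ : R.lat) (a : A), R.HW μ a ∧
    (∀ i, R.TypeT i → ∀ p, R.Moves i p → a ∈ p) ∧ ∀ k ∈ d.support, 0 < Q.coroot' k μ := by
  classical
  have nn : ∀ k ∈ d.support, ∀ (μ : R.lat) a, R.HW μ a → 0 ≤ Q.coroot' k μ := by
    intro k hk μ a ha
    obtain ⟨n, h1, _⟩ := hQ.prim k hk
    obtain ⟨s, w, hs, hw, h2⟩ := coroot_eq hQ hk h1
    refine (mul_nonneg_iff_of_pos_left hs).mp ?_
    rw [h2]
    refine Finset.sum_nonneg fun i _ => mul_nonneg (by omega) (mul_nonneg (hw i).le ?_)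
    obtain ⟨m, hm, _⟩ := ha.deg c.mf.1 i
    omega
  have s1 : ∀ s : Finset b.support, ∃ μ a, R.HW μ a ∧
      ∀ i ∈ s, R.TypeT i → ∀ p, R.Moves i p → a ∈ p := by
    intro s
    induction s using Finset.induction_on with
    | empty => exact ⟨0, 1, c.hw_one, by simp⟩
    | insert i s _ ih =>
      obtain ⟨μ, a, ha, h1⟩ := ih
      by_cases hT : R.TypeT i
      · obtain ⟨p, p', τ, τ', t⟩ : ∃ p p' τ τ', c.TD e f h i p p' τ τ' :=
          ⟨_, c.exists_TD x hT hT.choose_spec.choose_spec.2.1⟩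
        obtain ⟨_, a1, h2, h3⟩ := c.hw_of_moves t.mv
        obtain ⟨_, a2, h4, h5⟩ := c.hw_of_moves t.mv'
        refine ⟨_, _, c.hw_mul ha (c.hw_mul h3 h5), fun j hj hT' r hr => ?_⟩
        rcases Finset.mem_insert.mp hj with rfl | hj
        · refine r.mul_mem_left _ ?_
          rcases t.all r hr with rfl | rfl
          · exact r.mul_mem_right _ h2
          · exact r.mul_mem_left _ h4
        · exact r.mul_mem_right _ (h1 j hj hT' r hr)
      · refine ⟨μ, a, ha, fun j hj hT' => ?_⟩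
        rcases Finset.mem_insert.mp hj with rfl | hj
        · exact absurd hT' hT
        · exact h1 j hj hT'
  have s2 : ∀ s : Finset κ, s ⊆ d.support → ∃ (μ : R.lat) (a : A), R.HW μ a ∧
      ∀ k ∈ s, 0 < Q.coroot' k μ := by
    intro s
    induction s using Finset.induction_on with
    | empty => exact fun _ => ⟨0, 1, c.hw_one, by simp⟩
    | insert k s _ ih =>
      intro hs
      have hk := hs (Finset.mem_insert_self k s)
      obtain ⟨μ, a, ha, h1⟩ := ih ((Finset.subset_insert k s).trans hs)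
      obtain ⟨ν, a', ha', h2⟩ : ∃ (ν : R.lat) (a : A), R.HW ν a ∧ Q.coroot' k ν ≠ 0 := by
        by_contra h2
        push Not at h2
        have := lat_dvd (Q.coroot' k).toAddMonoidHom 0 (fun μ a ha => zero_dvd_iff.mpr (h2 μ a ha))
          (Q.root k)
        exact two_ne_zero ((Q.root_coroot_two k).symm.trans (zero_dvd_iff.mp this))
      refine ⟨μ + ν, _, c.hw_mul ha ha', fun j hj => ?_⟩
      have h3 := nn j (hs hj) μ a ha
      have h4 := nn j (hs hj) ν a' ha'
      rw [map_add]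
      rcases Finset.mem_insert.mp hj with rfl | hj
      · omega
      · have := h1 j hj; omega
  obtain ⟨μ, a, ha, h1⟩ := s1 Finset.univ
  obtain ⟨ν, a', ha', h2⟩ := s2 _ subset_rfl
  refine ⟨⟨μ, hw_lat ha⟩ + ν, _, c.hw_mul ha ha', fun i hT p hp =>
    p.mul_mem_right _ (h1 i (Finset.mem_univ i) hT p hp), fun k hk => ?_⟩
  have := nn k hk ⟨μ, hw_lat ha⟩ a ha
  have := h2 k hk
  rw [map_add]; omega

theorem main [Finite κ] [Q.IsReduced] (C : Set L) (hT : ∀ v, R.ColorT Q v → v ∈ C)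
    (hC : ∀ v ∈ C, R.ColorT Q v ∨ R.ColorB Q d v) {S : Type} [AddCommGroup S] [Module ℂ S]
    [FiniteDimensional ℂ S] (T : Rep Q.flip d.flip S) (hS : T.MultFree)
    (hw : ∀ l, (∃ v, T.HW l v) ↔ l ∈ DomMax d.flip C) :
    ∃ B : LinearMap.BilinForm ℂ S, T.Symplectic B := by
  have := flip_red Q
  obtain ⟨D, hD⟩ := exists_sys Q.flip d.flip
  have hc : ∀ k u, D.c k u = Q.toLinearMap (Q.root k) u := fun k u => by rw [D_c D hD]; rfl
  have hβ : ∀ k, D.β k = Q.coroot k := fun k => D_β D hD k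
  have hC' : ∀ v ∈ C, R.ColorT Q v ∨ ∃ k ∈ d.support, 2 • v = Q.coroot k := fun v hv =>
    (hC v hv).elim Or.inl (c.half hQ x)
  have hh : ∀ v, ∀ k : d.flip.support, 2 • v = Q.coroot k → D.c k v = 1 := fun v k h1 => by
    have := D.diag k
    rw [hβ, ← h1, map_nsmul, nsmul_eq_mul] at this
    push_cast at this; omega
  have hA : D.Ax C := by
    intro u hu k h0
    rcases hC' u hu with h1 | ⟨k', hk', h1⟩
    · rw [hc] at h0 ⊢
      rw [hβ]
      exact ⟨(c.ax_T hQ x h1 k.2 h0).1, hT _ (c.ax_T hQ x h1 k.2 h0).2⟩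
    · obtain rfl : k = ⟨k', hk'⟩ := by
        by_contra e0
        have h2 := D.pair k _ e0
        rw [hβ ⟨k', hk'⟩, ← h1, map_nsmul, nsmul_eq_mul] at h2
        push_cast at h2; omega
      exact ⟨hh u _ h1, by rwa [hβ, ← h1, two_smul, add_sub_cancel_right]⟩
  have hE : ∀ v ∈ C, ∃ k, 0 < D.c k v := by
    intro v hv
    rcases hC' v hv with ⟨i, p, h1, h2, h3⟩ | ⟨k, hk, h1⟩
    · obtain ⟨k, hk, h4⟩ := c.root_T hQ x h1
      exact ⟨⟨k, hk⟩, by rw [hc, (c.partner hQ x h1 hk h4 h2 h3).1]; exact one_pos⟩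
    · exact ⟨⟨k, hk⟩, by rw [hh v ⟨k, hk⟩ h1]; exact one_pos⟩
  obtain ⟨μ, a, ha, h1, h2⟩ := c.exists_big hQ x
  rw [domMax_eq _ _ D hD] at hw
  refine T.exists_form D hD hS _ hw (fun l hl m hm => hl.2 m hm.1) (fun l => D.dual_max hA hE)
    fun l hl => D.odd_of_selfdual hA (Q.toLinearMap μ).toAddMonoidHom
      (fun k => by rw [hβ]; exact h2 k k.2) (fun u hu => ?_) hl.1
  change 0 < Q.toLinearMap μ u
  rcases hC' u hu with ⟨i, p, h3, h4, h5⟩ | ⟨k, hk, h3⟩
  · have := h4.1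
    obtain ⟨E⟩ := exists_DV K p h4.2.1
    rw [h5 μ a ha, E.ord_eq ha.1]
    exact (E.ge_iff ((map_ne_zero_iff _ x.inj).mpr ha.1)).mp ((E.p_iff a).mp (h1 i h3 p h4))
  · have h6 : 0 < Q.toLinearMap μ (Q.coroot k) := h2 k hk
    rw [← h3, map_nsmul, nsmul_eq_mul] at h6
    push_cast at h6; omega

end Ctx

end Pool.Agent.SX
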