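import Pool.Agent.P.MP_825e45_al.SxSys

/-! Gradings, words in the generators, and rank one lemmas. -/

namespace Pool.Agent.SX

/-- A direct sum decomposition. -/
structure Grad (M V : Type) [AddCommGroup V] [Module ℂ V] where
  wt : M → Submodule ℂ V
  indep : iSupIndep wt
  span : ⨆ μ, wt μ = ⊤

namespace Grad

variable {M V : Type} [AddCommGroup V] [Module ℂ V] (G : Grad M V)

lemma exists_dg (φ : M → ℂ) : ∃ H : V →ₗ[ℂ] V, ∀ μ, ∀ v ∈ G.wt μ, H v = φ μ • v := by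
  classical
  have h := DirectSum.isInternal_submodule_of_iSupIndep_of_iSup_eq_top G.indep G.span
  let e := LinearEquiv.ofBijective (DirectSum.coeLinearMap G.wt) h
  refine ⟨(DirectSum.toModule ℂ M V fun μ => φ μ • (G.wt μ).subtype) ∘ₗ e.symm.toLinearMap,
    fun μ v hv => ?_⟩
  have : e.symm v = DirectSum.lof ℂ M (fun μ => G.wt μ) μ ⟨v, hv⟩ := by
    rw [LinearEquiv.symm_apply_eq]; simp [e]
  simp [this]

noncomputable def dg (φ : M → ℂ) : V →ₗ[ℂ] V := (G.exists_dg φ).choose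

lemma dg_mem (φ : M → ℂ) {μ : M} {v : V} (hv : v ∈ G.wt μ) : G.dg φ v = φ μ • v :=
  (G.exists_dg φ).choose_spec μ v hv

open Classical in
noncomputable def pr (μ : M) : V →ₗ[ℂ] V := G.dg fun ν => if ν = μ then 1 else 0

lemma pr_self {μ : M} {v : V} (hv : v ∈ G.wt μ) : G.pr μ v = v := by
  simp [pr, G.dg_mem _ hv]

lemma pr_ne {μ ν : M} {v : V} (hv : v ∈ G.wt ν) (h : ν ≠ μ) : G.pr μ v = 0 := by
  simp [pr, G.dg_mem _ hv, h]

lemma ind {p : V → Prop} (hw : ∀ μ, ∀ v ∈ G.wt μ, p v) (hadd : ∀ x y, p x → p y → p (x + y))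
    (h0 : p 0) (v : V) : p v :=
  Submodule.iSup_induction G.wt (motive := p) (G.span ▸ Submodule.mem_top) hw h0 hadd

lemma ext {W : Type} [AddCommGroup W] [Module ℂ W] {S T : V →ₗ[ℂ] W}
    (h : ∀ μ, ∀ v ∈ G.wt μ, S v = T v) (v : V) : S v = T v :=
  G.ind (p := fun v => S v = T v) h (fun x y hx hy => by rw [map_add, map_add, hx, hy])
    (by simp) v

lemma pr_mem (μ : M) (v : V) : G.pr μ v ∈ G.wt μ := by
  refine G.ind (p := fun v => G.pr μ v ∈ G.wt μ) (fun ν v hv => ?_)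
    (fun x y hx hy => by rw [map_add]; exact add_mem hx hy) (by simp) v
  by_cases h : ν = μ
  · subst h; rwa [G.pr_self hv]
  · rw [G.pr_ne hv h]; exact zero_mem _

lemma exists_sum (v : V) : ∃ s : Finset M, (∀ μ ∉ s, G.pr μ v = 0) ∧
    ∀ t : Finset M, s ⊆ t → ∑ μ ∈ t, G.pr μ v = v := by
  classical
  refine G.ind (p := fun v => ∃ s : Finset M, (∀ μ ∉ s, G.pr μ v = 0) ∧
    ∀ t : Finset M, s ⊆ t → ∑ μ ∈ t, G.pr μ v = v) (fun ν v hv => ?_) ?_ ⟨∅, by simp⟩ v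
  · refine ⟨{ν}, fun μ h => G.pr_ne hv fun e => h (by simp [e]), fun t ht => ?_⟩
    rw [Finset.sum_eq_single_of_mem ν (ht (by simp)) fun μ _ h => G.pr_ne hv h.symm, G.pr_self hv]
  · rintro x y ⟨s, h1, h2⟩ ⟨s', h3, h4⟩
    refine ⟨s ∪ s', fun μ h => ?_, fun t ht => ?_⟩
    · rw [Finset.mem_union, not_or] at h
      rw [map_add, h1 μ h.1, h3 μ h.2, add_zero]
    · simp only [map_add, Finset.sum_add_distrib]
      rw [h2 t (Finset.subset_union_left.trans ht), h4 t (Finset.subset_union_right.trans ht)]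

lemma sum_pr {s : Finset M} {v : V} (h : ∀ μ ∉ s, G.pr μ v = 0) : ∑ μ ∈ s, G.pr μ v = v := by
  classical
  obtain ⟨t, _, h2⟩ := G.exists_sum v
  rw [Finset.sum_subset Finset.subset_union_right fun μ _ hμ => h μ hμ]
  exact h2 _ Finset.subset_union_left

lemma mem_of_pr {U : Submodule ℂ V} {v : V} (h : ∀ μ, G.pr μ v ∈ U) : v ∈ U := by
  obtain ⟨s, _, h2⟩ := G.exists_sum v
  rw [← h2 s subset_rfl]; exact Submodule.sum_mem _ fun μ _ => h μ

lemma eq_zero_of_pr {v : V} (h : ∀ μ, G.pr μ v = 0) : v = 0 :=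
  G.mem_of_pr (U := ⊥) h

lemma mem_wt_of_pr {μ : M} {v : V} (h : ∀ ν, ν ≠ μ → G.pr ν v = 0) : v ∈ G.wt μ := by
  refine G.mem_of_pr fun ν => ?_
  by_cases e : ν = μ
  · subst e; exact G.pr_mem _ _
  · rw [h ν e]; exact zero_mem _

/-- A graded subspace. -/
def Gr (U : Submodule ℂ V) : Prop := ∀ v ∈ U, ∀ μ, G.pr μ v ∈ U

lemma gr_iff (U : Submodule ℂ V) : U ≤ ⨆ μ, U ⊓ G.wt μ ↔ G.Gr U := by
  constructor
  · intro h v hv μ
    refine Submodule.iSup_induction (fun μ => U ⊓ G.wt μ) (motive := fun v => G.pr μ v ∈ U)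
      (h hv) (fun ν v hv => ?_) (by simp) fun x y hx hy => by rw [map_add]; exact add_mem hx hy
    by_cases e : ν = μ
    · subst e; rw [G.pr_self hv.2]; exact hv.1
    · rw [G.pr_ne hv.2 e]; exact zero_mem _
  · intro h v hv
    exact G.mem_of_pr fun μ => Submodule.mem_iSup_of_mem μ ⟨h v hv μ, G.pr_mem μ v⟩

lemma gr_span {X : Set V} (h : ∀ x ∈ X, ∃ μ, x ∈ G.wt μ) : G.Gr (Submodule.span ℂ X) := by
  intro v hv μ
  refine (Submodule.span_le (p := (Submodule.span ℂ X).comap (G.pr μ))).mpr (fun x hx => ?_) hv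
  obtain ⟨ν, hν⟩ := h x hx
  change G.pr μ x ∈ Submodule.span ℂ X
  by_cases e : ν = μ
  · subst e; rw [G.pr_self hν]; exact Submodule.subset_span hx
  · rw [G.pr_ne hν e]; exact zero_mem _

lemma Gr.inf {G : Grad M V} {U W : Submodule ℂ V} (h : G.Gr U) (h' : G.Gr W) : G.Gr (U ⊓ W) :=
  fun v hv μ => ⟨h v hv.1 μ, h' v hv.2 μ⟩

lemma pr_comm (T : V →ₗ[ℂ] V) (σ : M → M) (hσ : Function.Injective σ)
    (hT : ∀ μ, ∀ v ∈ G.wt μ, T v ∈ G.wt (σ μ)) (μ : M) (v : V) :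
    G.pr (σ μ) (T v) = T (G.pr μ v) := by
  refine G.ext (S := G.pr (σ μ) ∘ₗ T) (T := T ∘ₗ G.pr μ) (fun ν v hv => ?_) v
  simp only [LinearMap.comp_apply]
  by_cases e : ν = μ
  · subst e; rw [G.pr_self hv, G.pr_self (hT _ _ hv)]
  · rw [G.pr_ne hv e, G.pr_ne (hT _ _ hv) (hσ.ne e), map_zero]

lemma pr_dg (φ : M → ℂ) (μ : M) (v : V) : G.pr μ (G.dg φ v) = φ μ • G.pr μ v := by
  rw [← G.dg_mem φ (G.pr_mem μ v)]
  exact G.pr_comm (G.dg φ) id Function.injective_id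
    (fun ν v hv => by rw [G.dg_mem φ hv]; exact Submodule.smul_mem _ _ hv) μ v

lemma Gr.dg {G : Grad M V} {U : Submodule ℂ V} (h : G.Gr U) (φ : M → ℂ) {v : V} (hv : v ∈ U) :
    G.dg φ v ∈ U :=
  G.mem_of_pr fun μ => by rw [pr_dg]; exact U.smul_mem _ (h v hv μ)

lemma gr_of_dg {U : Submodule ℂ V} (Φ : Set (M → ℂ))
    (hs : ∀ μ ν, μ ≠ ν → ∃ φ ∈ Φ, φ μ ≠ φ ν) (h : ∀ φ ∈ Φ, ∀ v ∈ U, G.dg φ v ∈ U) : G.Gr U := by
  classical
  intro v hv μ
  have key : ∀ s : Finset M, ∀ v ∈ U, (∀ ν ∉ s, ν ≠ μ → G.pr ν v = 0) → G.pr μ v ∈ U := by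
    intro s
    induction s using Finset.induction_on with
    | empty =>
      intro v hv h0
      rwa [G.pr_self (G.mem_wt_of_pr fun ν => h0 ν (by simp))]
    | insert ν s _ ih =>
      intro v hv h0
      by_cases e : ν = μ
      · exact ih v hv fun ρ h1 h2 => h0 ρ (by simp [h1, e, h2]) h2
      obtain ⟨φ, hφ, hne⟩ := hs μ ν (Ne.symm e)
      have h1 := ih (G.dg φ v - φ ν • v) (sub_mem (h φ hφ v hv) (U.smul_mem _ hv))
        fun ρ h1 h2 => by
          rw [map_sub, map_smul, pr_dg]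
          by_cases e' : ρ = ν
          · rw [e', sub_self]
          · rw [h0 ρ (by simp [h1, e']) h2]; simp
      rw [map_sub, map_smul, pr_dg, ← sub_smul] at h1
      exact (U.smul_mem_iff (sub_ne_zero.mpr hne)).mp h1
  obtain ⟨s, h1, _⟩ := G.exists_sum v
  exact key s v hv fun ν h2 _ => h1 ν h2

lemma mem_wt_of_dg (Φ : Set (M → ℂ)) (hs : ∀ μ ν, μ ≠ ν → ∃ φ ∈ Φ, φ μ ≠ φ ν) {μ : M} {v : V}
    (h : ∀ φ ∈ Φ, G.dg φ v = φ μ • v) : v ∈ G.wt μ := by
  refine G.mem_wt_of_pr fun ν hν => ?_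
  obtain ⟨φ, hφ, hne⟩ := hs ν μ hν
  have h1 := G.pr_dg φ ν v
  rw [h φ hφ, map_smul, eq_comm, ← sub_eq_zero, ← sub_smul] at h1
  exact (smul_eq_zero.mp h1).resolve_left (sub_ne_zero.mpr hne)

lemma fin_wts (W : Submodule ℂ V) [FiniteDimensional ℂ W] :
    ∃ s : Finset M, ∀ v ∈ W, ∀ μ ∉ s, G.pr μ v = 0 := by
  classical
  obtain ⟨t, rfl⟩ := (Submodule.fg_iff_finiteDimensional W).mpr inferInstance
  choose s hs _ using G.exists_sum
  refine ⟨t.biUnion s, fun v hv μ hμ => ?_⟩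
  refine (Submodule.span_le (p := LinearMap.ker (G.pr μ))).mpr (fun x hx => ?_) hv
  exact hs x μ fun h => hμ (Finset.mem_biUnion.mpr ⟨x, hx, h⟩)

end Grad

section Sl2

variable {V : Type} [AddCommGroup V] [Module ℂ V] {E F H : Module.End ℂ V}

lemma H_pow {c : ℂ} (hF : ∀ x, H (F x) = F (H x) - c • F x) (k : ℕ) (x : V) :
    H ((F ^ k) x) = (F ^ k) (H x) - ((k : ℂ) * c) • (F ^ k) x := by
  induction k with
  | zero => simp
  | succ k ih =>
    simp only [pow_succ', Module.End.mul_apply]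
    rw [hF, ih, map_sub, map_smul]; push_cast; module

lemma E_pow (hE : ∀ x, E (F x) = F (E x) + H x) (hF : ∀ x, H (F x) = F (H x) - (2 : ℂ) • F x)
    (k : ℕ) (x : V) : E ((F ^ (k + 1)) x) =
      (F ^ (k + 1)) (E x) + ((k : ℂ) + 1) • ((F ^ k) (H x) - (k : ℂ) • (F ^ k) x) := by
  induction k with
  | zero => simp [hE]
  | succ k ih =>
    rw [pow_succ' F (k + 1), Module.End.mul_apply, hE, ih, H_pow hF]
    simp only [pow_succ', Module.End.mul_apply, map_add, map_sub, map_smul]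
    push_cast; module

lemma hw_pow (hE : ∀ x, E (F x) = F (E x) + H x) (hF : ∀ x, H (F x) = F (H x) - (2 : ℂ) • F x)
    {x : V} {m : ℂ} (h0 : E x = 0) (hm : H x = m • x) (k : ℕ) :
    E ((F ^ (k + 1)) x) = (((k : ℂ) + 1) * (m - k)) • (F ^ k) x := by
  rw [E_pow hE hF, h0, hm, map_zero, map_smul]; module

lemma hw_ne (hE : ∀ x, E (F x) = F (E x) + H x) (hF : ∀ x, H (F x) = F (H x) - (2 : ℂ) • F x)
    {x : V} {m : ℕ} (hx : x ≠ 0) (h0 : E x = 0) (hm : H x = (m : ℂ) • x) (k : ℕ) (hk : k ≤ m) :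
    (F ^ k) x ≠ 0 := by
  induction k with
  | zero => simpa using hx
  | succ k ih =>
    intro h
    have h1 := hw_pow hE hF h0 hm k
    rw [h, map_zero, eq_comm, smul_eq_zero, mul_eq_zero] at h1
    rcases h1 with (h1 | h1) | h1
    · exact Nat.cast_add_one_ne_zero k h1
    · have : m = k := by exact_mod_cast sub_eq_zero.mp h1
      omega
    · exact ih (by omega) h1

lemma hw_deg (hE : ∀ x, E (F x) = F (E x) + H x) (hF : ∀ x, H (F x) = F (H x) - (2 : ℂ) • F x)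
    {x : V} {m : ℂ} (hx : x ≠ 0) (h0 : E x = 0) (hm : H x = m • x) (hn : ∃ k, (F ^ k) x = 0) :
    ∃ k : ℕ, m = k ∧ (F ^ k) x ≠ 0 ∧ (F ^ (k + 1)) x = 0 := by
  classical
  obtain ⟨k, hk⟩ : ∃ k, Nat.find hn = k + 1 := Nat.exists_eq_succ_of_ne_zero fun h => by
    have := Nat.find_spec hn
    rw [h] at this; exact hx (by simpa using this)
  have h1 : (F ^ (k + 1)) x = 0 := hk ▸ Nat.find_spec hn
  have h2 : (F ^ k) x ≠ 0 := Nat.find_min hn (by omega)
  have h3 := hw_pow hE hF h0 hm k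
  rw [h1, map_zero, eq_comm, smul_eq_zero, mul_eq_zero] at h3
  rcases h3 with (h3 | h3) | h3
  · exact absurd h3 (Nat.cast_add_one_ne_zero k)
  · exact ⟨k, sub_eq_zero.mp h3, h2, h1⟩
  · exact absurd h3 h2

lemma pow_ne (hE : ∀ x, E (F x) = F (E x) + H x) (hF : ∀ x, H (F x) = F (H x) - (2 : ℂ) • F x)
    (hH : ∀ x, H (E x) = E (H x) + (2 : ℂ) • E x) (n : ℕ) : ∀ (x : V) (m : ℕ), (E ^ n) x = 0 →
      H x = (m : ℂ) • x → (F ^ m) x = 0 → x = 0 := by
  induction n with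
  | zero => intro x m h _ _; simpa using h
  | succ n ih =>
    intro x m h1 h2 h3
    have h4 : E x = 0 := by
      refine ih (E x) (m + 2) (by rwa [pow_succ, Module.End.mul_apply] at h1) ?_ ?_
      · rw [hH, h2, map_smul]; push_cast; module
      · have h5 := E_pow hE hF (m + 1) x
        have h6 : (F ^ (m + 1)) x = 0 := by rw [pow_succ', Module.End.mul_apply, h3, map_zero]
        rw [h2, map_smul, h6, pow_succ' F (m + 1), Module.End.mul_apply, h6] at h5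
        rw [pow_succ' F (m + 1)]
        simpa using h5.symm
    by_contra hx
    exact hw_ne hE hF hx h4 h2 m le_rfl h3

end Sl2

end Pool.Agent.SX
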