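import Pool.Agent.P.MP_825e45_al.SxInv

/-! Colors of even spherical type are of type T or half coroots. -/

namespace Pool.Agent.SX

namespace Ctx

open Rep Polynomial

variable {ι M N : Type} [AddCommGroup M] [AddCommGroup N] {P : RootDatum ι M N} {b : P.Base}
  {A : Type} [CommRing A] [Algebra ℂ A] [IsDomain A] {R : Rep P b A} (c : Ctx R)

section Ge

variable {K : Type} [Field K] [Algebra ℂ K] [Algebra A K] [IsFractionRing A K] (v : A → ℚ)

/-- Rational functions of valuation at least `r`. -/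
def VGe (r : ℚ) (y : K) : Prop :=
  ∃ s a : A, s ≠ 0 ∧ y * algebraMap A K s = algebraMap A K a ∧ (a = 0 ∨ r + v s ≤ v a)

variable {v} (hv : R.InvVal v)

include hv

lemma v_mul {r s : ℚ} {x y : A} (hx : x = 0 ∨ r ≤ v x) (hy : y = 0 ∨ s ≤ v y) :
    x * y = 0 ∨ r + s ≤ v (x * y) := by
  by_cases h1 : x = 0
  · simp [h1]
  by_cases h2 : y = 0
  · simp [h2]
  rw [hv.1 x y h1 h2]
  exact Or.inr (add_le_add (hx.resolve_left h1) (hy.resolve_left h2))

lemma VGe.mul {r s : ℚ} {x y : K} (hx : VGe v r x) (hy : VGe v s y) : VGe v (r + s) (x * y) := by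
  obtain ⟨t, a, h1, h2, h3⟩ := hx
  obtain ⟨t', a', h4, h5, h6⟩ := hy
  refine ⟨t * t', a * a', mul_ne_zero h1 h4, by rw [map_mul, map_mul, ← h2, ← h5]; ring, ?_⟩
  rw [hv.1 t t' h1 h4, add_add_add_comm]
  exact v_mul hv h3 h6

lemma VGe.comb {r : ℚ} {x y : K} (hx : VGe v r x) (hy : VGe v r y) (k : ℤ) :
    VGe v r (x + k * y) := by
  obtain ⟨t, a, h1, h2, h3⟩ := hx
  obtain ⟨t', a', h4, h5, h6⟩ := hy
  refine ⟨t * t', a * t' + (k : ℂ) • (a' * t), mul_ne_zero h1 h4, ?_, ?_⟩
  · rw [Int.cast_smul_eq_zsmul, map_add, map_zsmul, map_mul, map_mul, map_mul, ← h2, ← h5,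
      zsmul_eq_mul]
    ring
  obtain ⟨W, _, hW⟩ := hv.2 (r + v (t * t'))
  refine (hW _).mp (add_mem ((hW _).mpr ?_) (W.smul_mem _ ((hW _).mpr ?_)))
  · rw [hv.1 t t' h1 h4, ← add_assoc]; exact v_mul hv h3 (Or.inr le_rfl)
  · rw [hv.1 t t' h1 h4, add_comm (v t), ← add_assoc]; exact v_mul hv h6 (Or.inr le_rfl)

lemma VGe.der {r : ℚ} {x : K} (hx : VGe v r x) (D : Derivation ℂ K K) (i : b.support)
    (hD : ∀ a, D (algebraMap A K a) = algebraMap A K (R.f i a)) : VGe v r (D x) := by
  obtain ⟨t, a, h1, h2, h3⟩ := hx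
  have key : ∀ (s : ℚ) z, (z = 0 ∨ s ≤ v z) → R.f i z = 0 ∨ s ≤ v (R.f i z) := fun s z hz => by
    obtain ⟨W, h4, hW⟩ := hv.2 s
    exact (hW _).mp (h4.1 i z ((hW _).mpr hz)).2
  refine ⟨t * t, R.f i a * t - a * R.f i t, mul_ne_zero h1 h1, ?_, ?_⟩
  · have := congrArg D h2
    rw [D.leibniz, hD, hD, smul_eq_mul, smul_eq_mul] at this
    rw [map_sub, map_mul, map_mul, map_mul, ← this, ← h2]; ring
  obtain ⟨W, _, hW⟩ := hv.2 (r + v (t * t))
  rw [hv.1 t t h1 h1, ← add_assoc] at hW ⊢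
  exact (hW _).mp (sub_mem ((hW _).mpr (v_mul hv (key _ a h3) (Or.inr le_rfl)))
    ((hW _).mpr (v_mul hv h3 (key _ t (Or.inr le_rfl)))))

omit hv in
lemma VGe.one {r : ℚ} (h : VGe v r (1 : K)) : r ≤ 0 := by
  obtain ⟨t, a, h1, h2, h3⟩ := h
  rw [one_mul] at h2
  rw [← IsFractionRing.injective A K h2] at h3
  linarith [h3.resolve_left h1]

end Ge

section Two

variable {K : Type} [Field K] [Algebra ℂ K] [Algebra A K] [IsScalarTower ℂ A K] [IsFractionRing A K]
  {e f : b.support → Derivation ℂ K K} {h : (M →+ ℤ) → Derivation ℂ K K} (x : Ext R e f h)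

include c x

lemma kr_ne {i : b.support} {τ : K} (hτ : f i τ = -1) : c.kr i τ ≠ ⊥ := by
  have : CharZero K := charZero_of_injective_algebraMap (algebraMap ℂ K).injective
  obtain ⟨⟨a, s⟩, ha⟩ := IsLocalization.surj (nonZeroDivisors A) τ
  have h0 : τ ≠ 0 := fun e0 => by simp [e0] at hτ
  have h1 : ∀ k : ℕ, algebraMap A K ((R.f i ^ (k + 1)) a) =
      τ * algebraMap A K ((R.f i ^ (k + 1)) s) - (k + 1) * algebraMap A K ((R.f i ^ k) s) := by
    intro k
    induction k with
    | zero => simp [← x.hf, ← ha, hτ, sub_eq_add_neg]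
    | succ k ih =>
      rw [pow_succ', Module.End.mul_apply, ← x.hf, ih, map_sub, Derivation.leibniz,
        Derivation.leibniz, x.hf, x.hf, hτ, ← Module.End.mul_apply, ← Module.End.mul_apply,
        ← pow_succ', ← pow_succ']
      simp only [smul_eq_mul, map_add, Derivation.map_natCast, Derivation.map_one_eq_zero]
      push_cast; ring
  have h2 : c.Ψ K i a = (C τ - X) * c.Ψ K i s := by
    have e1 : ∀ z n, (c.Ψ K i z).coeff n =
        (n.factorial : K)⁻¹ * algebraMap A K ((R.f i ^ n) z) := fun z n => by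
      rw [Ψ, RingHom.comp_apply, coe_mapRingHom, coeff_map, LND.coeff_Φ, Algebra.smul_def, map_mul,
        ← IsScalarTower.algebraMap_apply, map_inv₀, map_natCast]
      rfl
    ext k
    rw [sub_mul, coeff_sub, coeff_C_mul]
    cases k with
    | zero => simp [e1, ← ha]
    | succ k =>
      have h3 : (k.factorial : K) ≠ 0 := Nat.cast_ne_zero.mpr k.factorial_ne_zero
      have h4 : (k : K) + 1 ≠ 0 := Nat.cast_add_one_ne_zero k
      rw [coeff_X_mul, e1, e1, e1, h1, Nat.factorial_succ]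
      push_cast; field_simp
  refine (Submodule.ne_bot_iff _).mpr ⟨a, c.mem_kr.mpr (by simp [h2]), fun e0 => ?_⟩
  simp only [e0, map_zero, mul_eq_zero, h0, false_or, map_eq_zero_iff _ x.inj] at ha
  exact nonZeroDivisors.coe_ne_zero s ha

variable [Finite ι] [P.IsReduced] [IsNoetherianRing A]

lemma typeT_of_sp {i : b.support} {τ τ' : K} (s : Sp e f h i τ) (s' : Sp e f h i τ')
    (hne : τ ≠ τ') : R.TypeT i := by
  have : CharZero K := charZero_of_injective_algebraMap (algebraMap ℂ K).injective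
  let L := AlgebraicClosure K
  have := Algebra.FormallyEtale.of_isSeparable K L
  have hp := c.moves_of_sp x s (c.kr_ne x s.hf)
  refine ⟨_, _, fun e0 => hne ?_, hp, c.moves_of_sp x s' (c.kr_ne x s'.hf)⟩
  obtain ⟨q, _, h2, _, h3, _⟩ := c.poly_of_moves x L hp
  have h4 : ∀ t : K, c.kr i t = c.kr i τ → q.IsRoot t := fun t ht => by
    have := (h3 (algebraMap K L t)).mpr ((c.kr_alg i t).trans ht)
    rwa [aeval_algebraMap_apply, map_eq_zero, coe_aeval_eq_eval] at this
  have h5 := degree_eq_one_of_irreducible_of_root h2 (h4 τ rfl)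
  have h6 := h4 τ rfl
  have h7 := h4 τ' e0.symm
  rw [eq_X_add_C_of_degree_eq_one h5, IsRoot.def] at h6 h7
  simp only [eval_add, eval_mul, eval_C, eval_X] at h6 h7
  exact mul_left_cancel₀ (leadingCoeff_ne_zero.mpr h2.ne_zero) (by linear_combination h6 - h7)

lemma not_moves [IsIntegrallyClosed A] {j : b.support} (hj : ∀ μ a, R.HW μ a → co P j μ = 0)
    (p : Ideal A) : ¬ R.Moves j p := fun hp => by
  have := hp.1
  obtain ⟨D⟩ := exists_DV K p hp.2.1
  obtain ⟨μ, a, ha, ha'⟩ := c.hw_of_moves hp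
  obtain ⟨k, h1, _, h2⟩ := ha'.deg c.mf.1 j
  obtain rfl : k = 0 := by have := hj μ a ha'; omega
  have h0 := (map_ne_zero_iff _ x.inj).mpr ha'.1
  have h3 := D.d_move (f j) (x.hf j) hp.2.2.2.2 h0 (by
    rw [x.hf, show R.f j a = 0 by simpa using h2, map_zero]; exact zero_mem _)
  have := (D.ge_iff h0).mp ((D.p_iff a).mp ha)
  omega

end Two

variable [Fintype ι] [P.IsReduced] {κ L : Type} [AddCommGroup L] {Q : RootDatum κ R.lat L}
  {d : Q.Base} [Module.Finite ℤ M] [IsNoetherianRing A] [IsIntegrallyClosed A]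

include c

theorem even_cases (hQ : R.SphRoots Q d) {u : L} (hu : u ∈ R.Colors Q) :
    R.ColorT Q u ∨ R.ColorB Q d u := by
  classical
  obtain ⟨I, ⟨X, n, s, x, hn, h1, h2, h3, h4, hq, h5, h6⟩, i, hi, p, hp, hu⟩ := hu
  have : CharZero (FractionRing A) :=
    charZero_of_injective_algebraMap (algebraMap ℂ (FractionRing A)).injective
  have x0 : x 0 ≠ 0 := fun e0 => (h5.transcendental ⟨0, by omega⟩)
    (show IsAlgebraic ℂ (x 0) from e0 ▸ isAlgebraic_zero)
  have hx : ∀ t ≤ 2 * n, x t ∈ X.Inv I := fun t ht =>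
    h6 ▸ IntermediateField.subset_adjoin _ _ ⟨t, ht, rfl⟩
  have hs := fun a ha => (h1 a ha).1
  have he : ∀ j ∈ I, ∀ t < 2 * n, X.e j (x (t + 1)) = cf n s j t • x t := fun j hj t ht => by
    rw [((h4 j hj).2.2 t ht).2, cf]
    split_ifs <;> simp
  have e0 : ∀ j, X.e j (x 0) = 0 := fun j => by
    by_cases hj : j ∈ I
    · exact (h4 j hj).1
    · exact (hx 0 (by omega)).2 _ .refl j hj
  have hz : ∀ j ∈ I, j ≠ s 0 → ∀ μ a, R.HW μ a → co P j μ = 0 := fun j hj hj' μ a ha => by
    have := quadric_kill hn (fun a ha => (h1 a ha).2) h2 (fun a _ => e0 _)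
      (fun a ha => he _ (hs a ha)) hq x0 ((Set.ext_iff.mp h6 _).mp (X.psi_mem hj ha))
      (by rw [X.psi_e j _ ha, if_neg hj'.symm, map_zero])
      (fun a _ => ⟨_, X.psi_e j _ ha⟩) (X.e j) (e0 j)
    rw [X.psi_e j j ha, if_pos rfl, map_eq_zero] at this
    exact_mod_cast this
  obtain rfl : i = s 0 := by_contra fun e1 => c.not_moves X.ext (hz i hi e1) p hp
  have f0 : X.f (s 0) (x 0) = x 1 := by rw [((h4 _ hi).2.2 0 (by omega)).1, if_pos rfl]
  by_cases hn1 : n = 1
  · subst hn1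
    have s1 : s 1 = s 0 := (h1 0 (by omega)).2
    have f1 : X.f (s 0) (x 1) = x 2 := by rw [((h4 _ hi).2.2 1 (by omega)).1, if_pos s1]
    have e1 : X.e (s 0) (x 1) = 2 * x 0 := by rw [((h4 _ hi).2.2 0 (by omega)).2]; simp
    simp only [Finset.sum_range_succ, Finset.range_one, Finset.sum_singleton] at hq h3
    norm_num at hq
    have key : ∀ t : ℂ, t ^ 2 = -1 → algebraMap ℂ (FractionRing A) t - x 1 ≠ 0 ∧
        Sp X.e X.f X.h (s 0) (2 * x 0 / (algebraMap ℂ (FractionRing A) t - x 1)) := fun t ht => by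
      have t2 : algebraMap ℂ (FractionRing A) t ^ 2 = -1 := by rw [← map_pow, ht]; simp
      have d2 : ∀ D : Derivation ℂ (FractionRing A) (FractionRing A), D 2 = 0 := fun D => D.map_natCast 2
      have n0 : algebraMap ℂ (FractionRing A) t - x 1 ≠ 0 := fun e2 => by
        have := congrArg (X.e (s 0)) e2
        rw [map_sub, Derivation.map_algebraMap, e1] at this
        simp [x0] at this
      have dd : ∀ D : Derivation ℂ (FractionRing A) (FractionRing A), D (2 * x 0 / (algebraMap ℂ (FractionRing A) t - x 1)) =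
          ((algebraMap ℂ (FractionRing A) t - x 1) * (2 * D (x 0)) + 2 * x 0 * D (x 1)) /
            (algebraMap ℂ (FractionRing A) t - x 1) ^ 2 := fun D => by
        rw [D.leibniz_div, D.leibniz, d2, map_sub, D.map_algebraMap]
        simp only [smul_eq_mul]
        field_simp; ring
      refine ⟨n0, ?_, ?_, fun j hj => ?_, fun φ => ?_⟩ <;> rw [dd]
      · rw [f0, f1]; field_simp; linear_combination hq + t2
      · rw [e0, e1]; field_simp; ring
      · rw [e0, show X.e j (x 1) = 0 from ?_]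
        · simp
        by_cases hj' : j ∈ I
        · rw [((h4 j hj').2.2 0 (by omega)).2, if_neg hj.symm]
        · exact (hx 1 (by omega)).2 _ .refl j hj'
      · rw [← f0, X.h_f, h3, map_zsmul, sub_self, f0, zsmul_eq_mul]; field_simp; ring
    obtain ⟨n1, k1⟩ := key Complex.I Complex.I_sq
    obtain ⟨n2, k2⟩ := key (-Complex.I) (by rw [neg_sq, Complex.I_sq])
    refine Or.inl ⟨_, p, c.typeT_of_sp X.ext k1 k2 fun e2 => ?_, hp, hu⟩
    rw [div_eq_div_iff n1 n2, mul_right_inj' (mul_ne_zero two_ne_zero x0), sub_left_inj,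
      (algebraMap ℂ (FractionRing A)).injective.eq_iff, neg_eq_iff_add_eq_zero, add_self_eq_zero] at e2
    exact Complex.I_ne_zero e2
  right
  have hT := c.tailRoots hQ
  choose m hm using fun k : d.support => hT.prim k k.2
  obtain ⟨g, hg⟩ : ∃ g : b.support → ℕ, g = ∑ a ∈ Finset.range n, Pi.single (s a) 1 := ⟨_, rfl⟩
  have hγ : ∑ a ∈ Finset.range n, (P.root (s a) : M) = rt b g := by
    rw [hg]
    induction Finset.range n using Finset.induction_on with
    | empty => simp [rt]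
    | insert a t ha ih => rw [Finset.sum_insert ha, Finset.sum_insert ha, rt_add, rt_single, ih]
  have gI : ∀ j ∉ I, g j = 0 := fun j hj => by
    rw [hg, Finset.sum_apply]
    exact Finset.sum_eq_zero fun a ha => Pi.single_eq_of_ne
      (fun (e1 : j = s a) => hj (e1 ▸ hs a (by rw [Finset.mem_range] at ha; omega))) _
  obtain ⟨σ, t, a, ht, ha, h7⟩ := c.rat_eig X.ext x0 e0 (μ := rt b g) fun φ => by
    rw [h3, hγ, zsmul_eq_mul]
  obtain ⟨k, hk⟩ : ∃ k, ∀ j ∉ I, m k j = 0 := by
    by_contra h8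
    push Not at h8
    obtain ⟨l, hl⟩ := ext_fun (v := fun i : b.support => P.root i) b.linearIndepOn_root
      fun j => if j ∈ I then 1 else 1 - 2 * ∑ k, ∑ j, (m k j : ℚ)
    obtain ⟨v, hv, h9⟩ := val_of_cone hQ (l := l) fun k => by
      obtain ⟨j, hj, h9⟩ := h8 k
      have h10 : (1 : ℚ) ≤ m k j := by exact_mod_cast Nat.pos_of_ne_zero h9
      have h11 : ∑ j, (m k j : ℚ) ≤ ∑ k, ∑ j, (m k j : ℚ) :=
        Finset.single_le_sum (f := fun k => ∑ j, (m k j : ℚ)) (fun _ _ => by positivity)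
          (Finset.mem_univ k)
      have h12 : (0 : ℚ) ≤ ∑ j, (m k j : ℚ) := by positivity
      rw [(hm k).1, map_sum]
      simp only [map_nsmul, hl, nsmul_eq_mul]
      generalize ∑ k, ∑ j, (m k j : ℚ) = B at *
      have h13 := Finset.single_le_sum (f := fun j' => (m k j' : ℚ) -
        m k j' * if j' ∈ I then 1 else 1 - 2 * B) (fun j' _ => by
          split_ifs
          · simp
          · nlinarith [(Nat.cast_nonneg (m k j') : (0 : ℚ) ≤ _)]) (Finset.mem_univ j)
      rw [Finset.sum_sub_distrib, if_neg hj] at h13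
      nlinarith
    have h10 : l (rt b g) = n := by
      rw [← hγ, map_sum, Finset.sum_congr rfl fun a ha => (hl (s a)).trans
        (if_pos (hs a (by rw [Finset.mem_range] at ha; omega)))]
      simp
    have h11 : ∀ t ≤ 2 * n, VGe v n (x t) := fun r hr => by
      induction r with
      | zero => exact ⟨t, a, ht.1, h7, Or.inr (by
          rw [← h9 _ _ ht, ← h9 _ _ ha, map_add, h10, add_comm])⟩
      | succ r ih =>
        have := (ih (by omega)).der hv _ _ (X.hf (s r))
        rwa [((h4 _ (hs r hr)).2.2 r hr).1, if_pos rfl] at this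
    have h12 : ∀ r ≤ 2 * n + 1, VGe v (n + n)
        (∑ a ∈ Finset.range r, (-1) ^ a * x a * x (2 * n - a)) := fun r hr => by
      induction r with
      | zero => exact ⟨1, 0, one_ne_zero, by simp, Or.inl rfl⟩
      | succ r ih =>
        have := (ih (by omega)).comb hv ((h11 r (by omega)).mul hv (h11 (2 * n - r) (by omega)))
          ((-1) ^ r)
        rw [Finset.sum_range_succ, mul_assoc]
        simpa using this
    have h13 := (hq ▸ h12 _ le_rfl).one
    have h14 : (0 : ℚ) < n := by exact_mod_cast hn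
    linarith
  have hγl : rt b g ∈ R.lat := by simpa using sub_mem (hw_lat ha) (hw_lat ht)
  have hz' : ∀ j ∈ I, j ≠ s 0 → ∀ μ : R.lat, co P j μ = 0 := fun j hj hj' μ => zero_dvd_iff.mp
    (lat_dvd ((co P j).comp R.lat.subtype) 0
      (fun μ a ha => zero_dvd_iff.mpr (hz j hj hj' μ a ha)) μ)
  have h8 : co P (s 0) (rt b g) = 1 := by
    have := X.e_f (s 0) (x 0)
    rw [f0, e0, map_zero, zero_add, h3, hγ, he _ hi 0 (by omega), cf, if_pos rfl,
      if_neg (by omega)] at this
    exact (smul_left_injective ℤ x0 this).symm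
  obtain ⟨r, hr⟩ : ∃ r, r = co P (s 0) (Q.root k) := ⟨_, rfl⟩
  have h9 : (Q.root k : M) - r • rt b g = 0 := by
    have h9 : ∀ j ∈ I, P.RootForm (P.root j) (Q.root k - r • rt b g) = 0 := fun j hj => by
      have := form_root (P := P) j (Q.root k - r • rt b g)
      rw [show co P j (Q.root k - r • rt b g) = 0 by
        rw [map_sub, map_zsmul]
        by_cases e1 : j = s 0
        · rw [e1, h8, hr]; simp
        · rw [hz' j hj e1, hz' j hj e1 ⟨_, hγl⟩]; simp] at this
      omega
    have h10 : ∀ m : b.support → ℕ, (∀ j ∉ I, m j = 0) → rt b m ∈ P.rootSpan ℤ ∧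
        P.RootForm (rt b m) (Q.root k - r • rt b g) = 0 := fun m hm => by
      refine ⟨sum_mem fun j _ => nsmul_mem (Submodule.subset_span (Set.mem_range_self _)) _, ?_⟩
      rw [rt, map_sum, LinearMap.sum_apply]
      refine Finset.sum_eq_zero fun j _ => ?_
      by_cases hj : j ∈ I
      · rw [map_nsmul, LinearMap.smul_apply, h9 j hj, smul_zero]
      · simp [hm j hj]
    have h11 := h10 _ hk
    rw [show rt b (m k) = Q.root k from (hm k).1.symm] at h11
    refine P.eq_zero_of_mem_rootSpan_of_rootForm_self_eq_zero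
      (sub_mem h11.1 (Submodule.smul_mem _ _ (h10 g gI).1)) ?_
    rw [map_sub P.RootForm, map_smul P.RootForm, LinearMap.sub_apply, LinearMap.smul_apply, h11.2,
      (h10 g gI).2, smul_zero, sub_zero]
  have h10 := Fintype.linearIndependent_iffₛ.mp b.linearIndepOn_root (fun j => (m k j : ℤ))
    (fun j => r * g j) (by
      simp only [mul_smul, ← Finset.smul_sum, natCast_zsmul]
      exact (hm k).1 ▸ sub_eq_zero.mp h9)
  have h11 : r.natAbs = 1 := Nat.dvd_one.mp ((hm k).2 ▸ Finset.dvd_gcd fun j _ =>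
    Int.natAbs_dvd_natAbs.mpr (show r ∣ (m k j : ℤ) from ⟨_, h10 j⟩))
  have h12 : 0 < g (s 0) := by
    rw [hg, Finset.sum_apply]
    exact Finset.sum_pos' (fun _ _ => Nat.zero_le _) ⟨0, Finset.mem_range.mpr hn, by simp⟩
  have h13 : r = 1 := by
    have := h10 (s 0)
    rcases Int.natAbs_eq r with e1 | e1 <;> rw [h11] at e1
    · exact e1
    · rw [e1] at this; omega
  refine ⟨_, p, hp, hu, k, k.2, m k, (hm k).1, fun j hj h0 => c.not_moves X.ext
    (hz j (by_contra fun e1 => h0 (hk j e1)) hj), hr.symm.trans h13⟩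

end Ctx

end Pool.Agent.SX
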