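import Pool.Agent.P.MP_825e45_al.SxMod

/-! Highest weight theory for the modules of `SxDefs`. -/

namespace Pool.Agent.SX

variable {ι M N : Type} [AddCommGroup M] [AddCommGroup N] {P : RootDatum ι M N} (b : P.Base)

/-- Sum of simple roots with multiplicities. -/
noncomputable def rt (n : b.support → ℕ) : M := ∑ i, n i • P.root i

open Classical in
noncomputable def cnt (L : List b.support) (i : b.support) : ℕ := L.count i

noncomputable def rs (L : List b.support) : M := rt b (cnt b L)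

lemma rt_add (n n' : b.support → ℕ) : rt b (n + n') = rt b n + rt b n' := by
  simp [rt, add_smul, Finset.sum_add_distrib]

open Classical in
lemma cnt_cons (i : b.support) (L : List b.support) :
    cnt b (i :: L) = Pi.single i 1 + cnt b L := by
  ext j
  by_cases h : i = j
  · subst h; simp [cnt, add_comm]
  · simp [cnt, h, Pi.single_eq_of_ne' h]

open Classical in
lemma rt_single (i : b.support) : rt b (Pi.single i 1) = P.root i := by
  rw [rt, Finset.sum_eq_single i] <;> simp +contextual [Pi.single_apply]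

lemma rs_nil : rs b [] = 0 := by simp [rs, rt, cnt]

lemma rs_cons (i : b.support) (L : List b.support) : rs b (i :: L) = P.root i + rs b L := by
  rw [rs, cnt_cons, rt_add, rt_single, rs]

lemma rt_inj {n n' : b.support → ℕ} (h : rt b n = rt b n') : n = n' := by
  have h1 := Fintype.linearIndependent_iffₛ.mp b.linearIndepOn_root
    (fun i => (n i : ℤ)) (fun i => (n' i : ℤ)) (by simpa [rt] using h)
  ext i; exact_mod_cast h1 i

lemma mem_of_rs {L L' : List b.support} (h : rs b L = rs b L') {i : b.support} (hi : i ∈ L) :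
    i ∈ L' := by
  classical
  have := congrFun (rt_inj b h) i
  simp only [cnt] at this
  have h1 : 0 < cnt b L i := List.count_pos_iff.mpr hi
  simp only [cnt] at h1
  rw [this] at h1
  exact List.count_pos_iff.mp h1

lemma rs_append (L L' : List b.support) : rs b (L ++ L') = rs b L + rs b L' := by
  induction L with
  | nil => simp [rs_nil]
  | cons i L ih => rw [List.cons_append, rs_cons, rs_cons, ih, add_assoc]

lemma nil_of_rs {L : List b.support} (h : rs b L = 0) : L = [] :=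
  List.eq_nil_iff_forall_not_mem.mpr fun _ hi =>
    List.not_mem_nil (mem_of_rs b (h.trans (rs_nil b).symm) hi)

lemma rs_mem (L : List b.support) : rs b L ∈ AddSubmonoid.closure (P.root '' b.support) :=
  sum_mem fun i _ => nsmul_mem (AddSubmonoid.subset_closure (Set.mem_image_of_mem _ i.2)) _

lemma descend [Finite ι] [P.IsReduced] (s : Finset M) (p : M → Prop) (h1 : ∀ μ ∉ s, p μ)
    (h2 : ∀ μ, (∀ i : b.support, p (μ + P.root i)) → p μ) (μ : M) : p μ := by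
  classical
  obtain ⟨D, hD⟩ := exists_sys P b
  have hβ : ∀ i : b.support, D.h (P.root i) = 2 := fun i => by
    have := D.hβ i; rwa [hD] at this
  by_contra h
  obtain ⟨ν, hν, hmax⟩ := (s.filter fun ν => ¬ p ν).exists_max_image D.h
    ⟨μ, Finset.mem_filter.mpr ⟨by_contra fun h3 => h (h1 μ h3), h⟩⟩
  refine (Finset.mem_filter.mp hν).2 (h2 ν fun i => by_contra fun h4 => ?_)
  have := hmax _ (Finset.mem_filter.mpr ⟨by_contra fun h3 => h4 (h1 _ h3), h4⟩)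
  rw [map_add, hβ] at this; omega

namespace Rep

variable {b} {V : Type} [AddCommGroup V] [Module ℂ V] (R : Rep P b V)

def G : Grad M V := ⟨R.wt, R.indep, R.span⟩

/-- The operator of an additive function on weights. -/
noncomputable def H (φ : M →+ ℤ) : V →ₗ[ℂ] V := R.G.dg fun μ => (φ μ : ℂ)

lemma H_mem (φ : M →+ ℤ) {μ : M} {v : V} (hv : v ∈ R.wt μ) : R.H φ v = (φ μ : ℂ) • v :=
  R.G.dg_mem _ hv

lemma H_e (φ : M →+ ℤ) (i : b.support) (v : V) :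
    R.H φ (R.e i v) = R.e i (R.H φ v) + (φ (P.root i) : ℂ) • R.e i v := by
  refine R.G.ext (S := R.H φ ∘ₗ R.e i) (T := R.e i ∘ₗ R.H φ + (φ (P.root i) : ℂ) • R.e i)
    (fun μ v hv => ?_) v
  simp only [LinearMap.comp_apply, LinearMap.add_apply, LinearMap.smul_apply]
  rw [R.H_mem φ (R.e_wt i μ v hv), R.H_mem φ hv, map_add, map_smul]; push_cast; module

lemma H_f (φ : M →+ ℤ) (i : b.support) (v : V) :
    R.H φ (R.f i v) = R.f i (R.H φ v) - (φ (P.root i) : ℂ) • R.f i v := by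
  refine R.G.ext (S := R.H φ ∘ₗ R.f i) (T := R.f i ∘ₗ R.H φ - (φ (P.root i) : ℂ) • R.f i)
    (fun μ v hv => ?_) v
  simp only [LinearMap.comp_apply, LinearMap.sub_apply, LinearMap.smul_apply]
  rw [R.H_mem φ (R.f_wt i μ v hv), R.H_mem φ hv, map_sub, map_smul]; push_cast; module

/-- The coroot as an additive function. -/
noncomputable def co (P : RootDatum ι M N) (i : ι) : M →+ ℤ := (P.coroot' i).toAddMonoidHom

lemma co_self (i : ι) : co P i (P.root i) = 2 := P.root_coroot_two i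

lemma e_f (i : b.support) (v : V) : R.e i (R.f i v) = R.f i (R.e i v) + R.H (co P i) v := by
  refine R.G.ext (S := R.e i ∘ₗ R.f i) (T := R.f i ∘ₗ R.e i + R.H (co P i)) (fun μ v hv => ?_) v
  simp only [LinearMap.comp_apply, LinearMap.add_apply]
  rw [R.H_mem _ hv, ← sub_eq_iff_eq_add']; exact R.ef i μ v hv

lemma Hco_f (i : b.support) (v : V) :
    R.H (co P i) (R.f i v) = R.f i (R.H (co P i) v) - (2 : ℂ) • R.f i v := by
  rw [H_f, co_self]; norm_num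

lemma Hco_e (i : b.support) (v : V) :
    R.H (co P i) (R.e i v) = R.e i (R.H (co P i) v) + (2 : ℂ) • R.e i v := by
  rw [H_e, co_self]; norm_num

lemma sep (P : RootDatum ι M N) (μ ν : M) (h : μ ≠ ν) :
    ∃ φ ∈ Set.range fun (ψ : M →+ ℤ) (μ : M) => (ψ μ : ℂ), φ μ ≠ φ ν := by
  by_contra h1
  push Not at h1
  refine h ((LinearMap.IsPerfPair.bijective_left P.toLinearMap).1 (LinearMap.ext fun y => ?_))
  exact Int.cast_injective (α := ℂ) (h1 _ ⟨(P.toLinearMap.flip y).toAddMonoidHom, rfl⟩)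

lemma gr_of_H {U : Submodule ℂ V} (h : ∀ φ, ∀ v ∈ U, R.H φ v ∈ U) : R.G.Gr U :=
  R.G.gr_of_dg _ (sep P) (by rintro _ ⟨φ, rfl⟩; exact h φ)

lemma wt_of_H {μ : M} {v : V} (h : ∀ φ, R.H φ v = (φ μ : ℂ) • v) : v ∈ R.wt μ :=
  R.G.mem_wt_of_dg _ (sep P) (by rintro _ ⟨φ, rfl⟩; exact h φ)

lemma pr_e (i : b.support) (μ : M) (v : V) :
    R.G.pr (μ + P.root i) (R.e i v) = R.e i (R.G.pr μ v) :=
  R.G.pr_comm (R.e i) (· + P.root i) (add_left_injective _) (R.e_wt i) μ v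

lemma sub_iff (W : Submodule ℂ V) :
    R.Sub W ↔ (∀ i, ∀ v ∈ W, R.e i v ∈ W ∧ R.f i v ∈ W) ∧ R.G.Gr W :=
  and_congr_right fun _ => R.G.gr_iff W

lemma Sub.gr {R : Rep P b V} {W : Submodule ℂ V} (h : R.Sub W) : R.G.Gr W :=
  ((R.sub_iff W).mp h).2

lemma sub_sSup {T : Set (Submodule ℂ V)} (h : ∀ W ∈ T, R.Sub W) : R.Sub (sSup T) := by
  have key : ∀ g : V →ₗ[ℂ] V, (∀ W ∈ T, ∀ v ∈ W, g v ∈ W) → ∀ v ∈ sSup T, g v ∈ sSup T :=
    fun g hg => sSup_le (a := (sSup T).comap g) fun W hW v hv => le_sSup hW (hg W hW v hv)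
  exact (R.sub_iff _).mpr ⟨fun i v hv => ⟨key _ (fun W hW v hv => ((h W hW).1 i v hv).1) v hv,
    key _ (fun W hW v hv => ((h W hW).1 i v hv).2) v hv⟩,
    fun v hv μ => key _ (fun W hW v hv => (h W hW).gr v hv μ) v hv⟩

/-- A word in the lowering generators. -/
def fw (L : List b.support) (v : V) : V := L.foldr (fun i x => R.f i x) v

lemma fw_wt (L : List b.support) {μ : M} {v : V} (hv : v ∈ R.wt μ) :
    R.fw L v ∈ R.wt (μ - rs b L) := by
  induction L with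
  | nil => rwa [rs_nil, sub_zero]
  | cons i L ih => rw [rs_cons, add_comm, ← sub_sub]; exact R.f_wt i _ _ ih

/-- Span of the words with letters in `J` applied to `X`. -/
def Wd (J : Set b.support) (X : Set V) : Submodule ℂ V :=
  Submodule.span ℂ {y | ∃ L : List b.support, (∀ i ∈ L, i ∈ J) ∧ ∃ x ∈ X, y = R.fw L x}

variable {J : Set b.support} {X : Set V}

lemma fw_mem {L : List b.support} (hL : ∀ i ∈ L, i ∈ J) {x : V} (hx : x ∈ X) :
    R.fw L x ∈ R.Wd J X := Submodule.subset_span ⟨L, hL, x, hx, rfl⟩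

lemma mem_Wd {x : V} (hx : x ∈ X) : x ∈ R.Wd J X := R.fw_mem (L := []) (by simp) hx

lemma Wd_map {W : Type} [AddCommGroup W] [Module ℂ W] (g : V →ₗ[ℂ] W) (Z : Submodule ℂ W)
    (h : ∀ L : List b.support, (∀ i ∈ L, i ∈ J) → ∀ x ∈ X, g (R.fw L x) ∈ Z) {y : V}
    (hy : y ∈ R.Wd J X) : g y ∈ Z :=
  (Submodule.span_le (p := Z.comap g)).mpr (by rintro _ ⟨L, hL, x, hx, rfl⟩; exact h L hL x hx) hy

lemma Wd_f {j : b.support} (hj : j ∈ J) {y : V} (hy : y ∈ R.Wd J X) : R.f j y ∈ R.Wd J X :=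
  R.Wd_map _ _ (fun L hL _ hx => R.fw_mem (L := j :: L) (by simpa [hj] using hL) hx) hy

lemma Wd_le {U : Submodule ℂ V} (hU : ∀ j ∈ J, ∀ v ∈ U, R.f j v ∈ U) (hX : ∀ x ∈ X, x ∈ U) :
    R.Wd J X ≤ U := fun _ hy =>
  R.Wd_map LinearMap.id U (fun L hL x hx => by
    induction L with
    | nil => exact hX x hx
    | cons i L ih => exact hU i (hL i (by simp)) _ (ih fun k hk => hL k (by simp [hk]))) hy

lemma Wd_gr (hX : ∀ x ∈ X, ∃ μ, x ∈ R.wt μ) : R.G.Gr (R.Wd J X) :=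
  R.G.gr_span (by
    rintro _ ⟨L, _, x, hx, rfl⟩
    obtain ⟨μ, hμ⟩ := hX x hx
    exact ⟨_, R.fw_wt L hμ⟩)

lemma Wd_e (hX : ∀ x ∈ X, (∃ μ, x ∈ R.wt μ) ∧ ∀ i, R.e i x = 0) (i : b.support) {y : V}
    (hy : y ∈ R.Wd J X) : R.e i y ∈ R.Wd J X := by
  refine R.Wd_map _ _ (fun L hL x hx => ?_) hy
  induction L with
  | nil => rw [show R.fw [] x = x from rfl, (hX x hx).2 i]; exact zero_mem _
  | cons j L ih =>
    have hL' : ∀ k ∈ L, k ∈ J := fun k hk => hL k (by simp [hk])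
    have h1 := R.Wd_f (hL j (by simp)) (ih hL')
    change R.e i (R.f j (R.fw L x)) ∈ _
    by_cases e : i = j
    · subst e
      rw [e_f]
      exact add_mem h1 ((R.Wd_gr fun x hx => (hX x hx).1).dg _ (R.fw_mem hL' hx))
    · rwa [R.ef_ne i j _ e]

lemma Wd_sub (hX : ∀ x ∈ X, (∃ μ, x ∈ R.wt μ) ∧ ∀ i, R.e i x = 0) : R.Sub (R.Wd Set.univ X) :=
  (R.sub_iff _).mpr ⟨fun i _ hv => ⟨R.Wd_e hX i hv, R.Wd_f (Set.mem_univ i) hv⟩,
    R.Wd_gr fun x hx => (hX x hx).1⟩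

lemma HW.sub {R : Rep P b V} {μ : M} {x : V} (h : R.HW μ x) : R.Sub (R.Wd Set.univ {x}) :=
  R.Wd_sub (by rintro _ rfl; exact ⟨⟨μ, h.2.1⟩, h.2.2⟩)

lemma HW.gen_eq {R : Rep P b V} {μ : M} {x : V} (h : R.HW μ x) : R.gen x = R.Wd Set.univ {x} :=
  le_antisymm (sInf_le ⟨h.sub, R.mem_Wd rfl⟩) (le_sInf fun _ hW =>
    R.Wd_le (fun j _ v hv => (hW.1.1 j v hv).2) (by rintro _ rfl; exact hW.2))

lemma wt_of_Wd {μ ν : M} {x y : V} (hx : x ∈ R.wt μ) (hy : y ∈ R.Wd J {x})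
    (h : R.G.pr ν y ≠ 0) : ∃ L : List b.support, (∀ i ∈ L, i ∈ J) ∧ ν = μ - rs b L := by
  by_contra h1
  push Not at h1
  refine h (R.Wd_map _ ⊥ (fun L hL x hx' => ?_) hy)
  obtain rfl := hx'
  exact R.G.pr_ne (R.fw_wt L hx) (h1 L hL).symm

lemma Simple.eq_Wd {R : Rep P b V} {W : Submodule ℂ V} (hW : R.Simple W) {μ : M} {x : V}
    (h : R.HW μ x) (hx : x ∈ W) : W = R.Wd Set.univ {x} := by
  rcases hW.2.2.2 _ h.sub (R.Wd_le (fun j _ v hv => (hW.1.1 j v hv).2)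
    (by rintro _ rfl; exact hx)) with h1 | h1
  · exact absurd (h1 ▸ R.mem_Wd rfl : x ∈ (⊥ : Submodule ℂ V)) h.1
  · exact h1.symm

lemma Simple.hw_eq {R : Rep P b V} {W : Submodule ℂ V} (hW : R.Simple W) {μ ν : M} {x y : V}
    (h : R.HW μ x) (hx : x ∈ W) (h' : R.HW ν y) (hy : y ∈ W) : μ = ν := by
  obtain ⟨L, _, e1⟩ := R.wt_of_Wd h.2.1 (hW.eq_Wd h hx ▸ hy) (ν := ν)
    (by rw [R.G.pr_self h'.2.1]; exact h'.1)
  obtain ⟨L', _, e2⟩ := R.wt_of_Wd h'.2.1 (hW.eq_Wd h' hy ▸ hx) (ν := μ)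
    (by rw [R.G.pr_self h.2.1]; exact h.1)
  have h3 : rs b (L ++ L') = 0 := by
    rw [e1, sub_sub, eq_comm, sub_eq_self] at e2; rwa [rs_append]
  rw [e1, (List.append_eq_nil_iff.mp (nil_of_rs b h3)).1, rs_nil, sub_zero]

/-- Sum of finite-dimensional irreducible submodules. -/
def Rat : Prop := sSup {W | R.Simple W} = ⊤

lemma exists_fd (h : R.Rat) (v : V) : ∃ W, R.Sub W ∧ FiniteDimensional ℂ W ∧ v ∈ W := by
  have hv : v ∈ sSup {W | R.Simple W} := h ▸ Submodule.mem_top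
  rw [sSup_eq_iSup'] at hv
  refine Submodule.iSup_induction _
    (motive := fun v => ∃ W, R.Sub W ∧ FiniteDimensional ℂ W ∧ v ∈ W)
    hv (fun W v hv => ⟨W, W.2.1, W.2.2.1, hv⟩) ⟨sSup ∅, R.sub_sSup (by simp), ?_, zero_mem _⟩ ?_
  · rw [sSup_empty]; infer_instance
  · rintro x y ⟨W, h1, h2, h3⟩ ⟨W', h4, h5, h6⟩
    refine ⟨W ⊔ W', ?_, inferInstance, Submodule.add_mem_sup h3 h6⟩
    rw [← sSup_pair]
    exact R.sub_sSup (by rintro _ (rfl | rfl) <;> assumption)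

lemma f_nil (h : R.Rat) (i : b.support) (v : V) : ∃ k, (R.f i ^ k) v = 0 := by
  refine R.G.ind (p := fun v => ∃ k, (R.f i ^ k) v = 0) (fun μ v hv => ?_) ?_ ⟨0, rfl⟩ v
  · obtain ⟨W, h1, h2, h3⟩ := R.exists_fd h v
    obtain ⟨s, hs⟩ := R.G.fin_wts W
    have key : ∀ k : ℕ, (R.f i ^ k) v ∈ W ∧ (R.f i ^ k) v ∈ R.wt (μ - k • P.root i) := by
      intro k
      induction k with
      | zero => simpa using ⟨h3, hv⟩
      | succ k ih =>
        rw [pow_succ', Module.End.mul_apply, succ_nsmul, ← sub_sub]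
        exact ⟨(h1.1 i _ ih.1).2, R.f_wt i _ _ ih.2⟩
    have hinj : Function.Injective fun k : ℕ => μ - k • P.root i := by
      intro k l hkl
      have := congrArg (co P i) hkl
      simp only [map_sub, map_nsmul, co_self, nsmul_eq_mul] at this
      omega
    obtain ⟨_, ⟨k, rfl⟩, hk⟩ := (Set.infinite_range_of_injective hinj).exists_notMem_finset s
    exact ⟨k, by rw [← R.G.pr_self (key k).2]; exact hs _ (key k).1 _ hk⟩
  · rintro x y ⟨k, hk⟩ ⟨l, hl⟩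
    refine ⟨k + l, ?_⟩
    rw [map_add, pow_add, Module.End.mul_apply, Module.End.mul_apply, hl, ← Module.End.mul_apply,
      ← pow_add, add_comm k l, pow_add, Module.End.mul_apply, hk]
    simp

lemma HW.deg {R : Rep P b V} (h : R.Rat) {μ : M} {x : V} (hx : R.HW μ x) (i : b.support) :
    ∃ k : ℕ, co P i μ = k ∧ (R.f i ^ k) x ≠ 0 ∧ (R.f i ^ (k + 1)) x = 0 := by
  obtain ⟨k, h1, h2⟩ := hw_deg (R.e_f i) (R.Hco_f i) hx.1 (hx.2.2 i) (R.H_mem _ hx.2.1)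
    (R.f_nil h i x)
  exact ⟨k, by exact_mod_cast h1, h2⟩

variable [Finite ι] [P.IsReduced]

lemma exists_HW_fd {U : Submodule ℂ V} [FiniteDimensional ℂ U] (hg : R.G.Gr U)
    (he : ∀ i, ∀ v ∈ U, R.e i v ∈ U) (h0 : U ≠ ⊥) : ∃ μ, ∃ v ∈ U, R.HW μ v := by
  obtain ⟨s, hs⟩ := R.G.fin_wts U
  by_contra h
  push Not at h
  refine h0 ((Submodule.eq_bot_iff U).mpr fun v hv => R.G.eq_zero_of_pr fun μ => ?_)
  refine descend b s (fun μ => ∀ v ∈ U, R.G.pr μ v = 0) (fun μ hμ v hv => hs v hv μ hμ)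
    (fun μ h1 v hv => by_contra fun h2 => ?_) μ v hv
  exact h μ _ (hg v hv μ) ⟨h2, R.G.pr_mem μ v, fun i => by rw [← pr_e]; exact h1 i _ (he i v hv)⟩

lemma exists_HW (h : R.Rat) {U : Submodule ℂ V} (hg : R.G.Gr U)
    (he : ∀ i, ∀ v ∈ U, R.e i v ∈ U) (h0 : U ≠ ⊥) : ∃ μ, ∃ v ∈ U, R.HW μ v := by
  obtain ⟨v, hv, hv0⟩ := (Submodule.ne_bot_iff U).mp h0
  obtain ⟨W, h1, h2, h3⟩ := R.exists_fd h v
  obtain ⟨μ, w, hw, h4⟩ := R.exists_HW_fd (U := U ⊓ W) (hg.inf h1.gr)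
    (fun i v hv => ⟨he i v hv.1, (h1.1 i v hv.2).1⟩) ((Submodule.ne_bot_iff _).mpr ⟨v, ⟨hv, h3⟩, hv0⟩)
  exact ⟨μ, w, hw.1, h4⟩

/-- The sum of the irreducible submodules of highest weight `ν`. -/
def iso (ν : M) : Submodule ℂ V := sSup {W | R.Simple W ∧ ∃ x ∈ W, R.HW ν x}

omit [Finite ι] [P.IsReduced] in
lemma iso_sub (ν : M) : R.Sub (R.iso ν) := R.sub_sSup fun _ h => h.1.1

omit [Finite ι] [P.IsReduced] in
lemma iso_cases (h : R.MultFree) (ν : M) :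
    R.iso ν = ⊥ ∨ R.Simple (R.iso ν) ∧ ∃ x ∈ R.iso ν, R.HW ν x := by
  by_cases h1 : ∃ W, R.Simple W ∧ ∃ x ∈ W, R.HW ν x
  · obtain ⟨W, hW, x, hx, hx'⟩ := h1
    have : R.iso ν = W := by
      refine le_antisymm (sSup_le ?_) (le_sSup ⟨hW, x, hx, hx'⟩)
      rintro W' ⟨hW', y, hy, hy'⟩
      obtain ⟨c, rfl⟩ := h.2 ν y x hy' hx'
      rw [hW'.eq_Wd hx' (W'.smul_mem c hy), ← hW.eq_Wd hx' hx]
    rw [this]; exact Or.inr ⟨hW, x, hx, hx'⟩
  · left
    exact le_bot_iff.mp (sSup_le fun W hW => absurd ⟨W, hW⟩ h1)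

omit [Finite ι] [P.IsReduced] in
lemma iso_hw (h : R.MultFree) {μ ν : M} {y : V} (hy : R.HW μ y) (hm : y ∈ R.iso ν) : μ = ν := by
  rcases R.iso_cases h ν with h1 | ⟨h1, x, hx, hx'⟩
  · rw [h1] at hm; exact absurd hm hy.1
  · exact h1.hw_eq hy hm hx' hx

lemma iso_span (h : R.Rat) : ⨆ ν, R.iso ν = ⊤ := by
  rw [eq_top_iff, ← h]
  refine sSup_le fun W hW => ?_
  have := hW.2.1
  obtain ⟨μ, v, hv, hv'⟩ := R.exists_HW_fd hW.1.gr (fun i v hv => (hW.1.1 i v hv).1) hW.2.2.1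
  exact le_iSup_of_le μ (le_sSup ⟨hW, v, hv, hv'⟩)

lemma iso_indep (h : R.MultFree) : iSupIndep R.iso := by
  classical
  rw [iSupIndep_iff_finsetSum_eq_zero_imp_eq_zero]
  intro t y hy h0 ν hν
  have hfd : ∀ ν, FiniteDimensional ℂ (R.iso ν) := fun ν => by
    rcases R.iso_cases h ν with h1 | h1
    · rw [h1]; infer_instance
    · exact h1.1.2.1
  choose s hs using fun ν => R.G.fin_wts (R.iso ν)
  refine R.G.eq_zero_of_pr fun μ => descend b (t.biUnion s) (fun μ => ∀ y : M → V,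
    (∀ ν ∈ t, y ν ∈ R.iso ν) → ∑ ν ∈ t, y ν = 0 → ∀ ν ∈ t, R.G.pr μ (y ν) = 0)
    (fun μ hμ y hy _ ν hν => hs ν _ (hy ν hν) μ fun h1 => hμ (Finset.mem_biUnion.mpr ⟨ν, hν, h1⟩))
    (fun μ h1 y hy h0 => ?_) μ y hy h0 ν hν
  have h2 : ∀ ν ∈ t, ν ≠ μ → R.G.pr μ (y ν) = 0 := fun ν hν hne => by_contra fun h3 =>
    hne (R.iso_hw h ⟨h3, R.G.pr_mem μ _, fun i => by
      rw [← pr_e]
      exact h1 i (fun ν => R.e i (y ν)) (fun ν hν => ((R.iso_sub ν).1 i _ (hy ν hν)).1)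
        (by rw [← map_sum, h0, map_zero]) ν hν⟩ ((R.iso_sub ν).gr _ (hy ν hν) μ)).symm
  intro ν hν
  by_cases e : ν = μ
  · subst e
    rw [← Finset.sum_eq_single_of_mem ν hν h2, ← map_sum, h0, map_zero]
  · exact h2 ν hν e

/-- The decomposition into irreducible submodules. -/
def I (h : R.MultFree) : Grad M V := ⟨R.iso, R.iso_indep h, R.iso_span h.1⟩

lemma I_comm (h : R.MultFree) (T : V →ₗ[ℂ] V) (hT : ∀ W, R.Sub W → ∀ v ∈ W, T v ∈ W) (ν : M)
    (v : V) : (R.I h).pr ν (T v) = T ((R.I h).pr ν v) :=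
  (R.I h).pr_comm T id Function.injective_id (fun μ => hT _ (R.iso_sub μ)) ν v

lemma I_e (h : R.MultFree) (i : b.support) (ν : M) (v : V) :
    (R.I h).pr ν (R.e i v) = R.e i ((R.I h).pr ν v) :=
  R.I_comm h _ (fun _ hW v hv => (hW.1 i v hv).1) ν v

lemma I_pr (h : R.MultFree) (μ ν : M) (v : V) :
    (R.I h).pr ν (R.G.pr μ v) = R.G.pr μ ((R.I h).pr ν v) :=
  R.I_comm h _ (fun _ hW v hv => hW.gr v hv μ) ν v

lemma HW.mem_iso {R : Rep P b V} (h : R.MultFree) {μ : M} {x : V} (hx : R.HW μ x) :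
    x ∈ R.iso μ :=
  (R.I h).mem_wt_of_pr fun ν hν => by_contra fun h1 => hν (R.iso_hw h (μ := μ) ⟨h1,
    by rw [← R.G.pr_self hx.2.1, I_pr]; exact R.G.pr_mem _ _,
    fun i => by rw [← I_e, hx.2.2, map_zero]⟩ ((R.I h).pr_mem ν x)).symm

lemma HW.simple {R : Rep P b V} (h : R.MultFree) {μ : M} {x : V} (hx : R.HW μ x) :
    R.Simple (R.iso μ) := by
  rcases R.iso_cases h μ with h1 | h1
  · exact absurd (h1 ▸ hx.mem_iso h : x ∈ (⊥ : Submodule ℂ V)) hx.1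
  · exact h1.1

lemma HW.iso_eq {R : Rep P b V} (h : R.MultFree) {μ : M} {x : V} (hx : R.HW μ x) :
    R.iso μ = R.Wd Set.univ {x} := (hx.simple h).eq_Wd hx (hx.mem_iso h)

end Rep

end Pool.Agent.SX
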