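import Pool.Agent.P.MP_825e45_al.SxAux

/-! The discrete valuation of a prime divisor and derivations. -/

namespace Pool.Agent.SX

variable {A : Type} (K : Type) [CommRing A] [Algebra ℂ A] [Field K] [Algebra A K] [Algebra ℂ K]

/-- The local ring of a prime divisor with a uniformizer. -/
structure DV (p : Ideal A) where
  O : Subalgebra ℂ K
  π : K
  mem_O : ∀ x, x ∈ O ↔ ∃ a s : A, s ∉ p ∧ x * algebraMap A K s = algebraMap A K a
  π_mem : ∃ a ∈ p, algebraMap A K a = π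
  π_ne : π ≠ 0
  p_le : ∀ a ∈ p, algebraMap A K a * π⁻¹ ∈ O
  dec : ∀ x ≠ 0, ∃ n : ℤ, x * π ^ (-n) ∈ O ∧ x⁻¹ * π ^ n ∈ O

lemma exists_DV [IsScalarTower ℂ A K] [IsFractionRing A K] [IsDomain A] [IsNoetherianRing A]
    [IsIntegrallyClosed A] (p : Ideal A) [p.IsPrime] (h : p.height = 1) : Nonempty (DV K p) := by
  have hS := p.primeCompl_le_nonZeroDivisors
  let O := Localization.subalgebra.ofField K p.primeCompl hS
  have : IsLocalRing O := IsLocalization.AtPrime.isLocalRing O p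
  have : IsNoetherianRing O := IsLocalization.isNoetherianRing p.primeCompl O inferInstance
  have : IsIntegrallyClosed O := isIntegrallyClosed_of_isLocalization O p.primeCompl hS
  have hd : ringKrullDim O = 1 := by
    rw [IsLocalization.AtPrime.ringKrullDim_eq_height p O, h]; rfl
  have : Ring.KrullDimLE 1 O := Ring.krullDimLE_iff.mpr hd.le
  have hf : ¬IsField O := fun hf => by
    rw [ringKrullDim_eq_zero_of_isField hf] at hd; exact zero_ne_one hd
  have : Ring.DimensionLEOne O := ⟨fun h0 hp => hp.isMaximal_of_ne_bot h0⟩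
  have : IsDedekindRing O := ⟨⟩
  have : IsDedekindDomain O := ⟨⟩
  have : IsDiscreteValuationRing O := ((IsDiscreteValuationRing.TFAE O hf).out 0 2).mpr this
  obtain ⟨ϖ, hϖ⟩ := IsDiscreteValuationRing.exists_irreducible O
  obtain ⟨⟨a, s⟩, has⟩ := IsLocalization.surj p.primeCompl ϖ
  have hirr : Irreducible (algebraMap A O a) := by
    rw [← has]; exact (irreducible_mul_isUnit (IsLocalization.map_units O s)).mpr hϖ
  have hmax : ∀ c : A, c ∈ p ↔ algebraMap A O a ∣ algebraMap A O c := fun c => by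
    rw [← IsLocalization.AtPrime.to_map_mem_maximal_iff O p, hirr.maximalIdeal_eq,
      Ideal.mem_span_singleton]
  have h0 : algebraMap A K a ≠ 0 := fun e => hirr.ne_zero (Subtype.ext e)
  refine ⟨⟨O.restrictScalars ℂ, algebraMap A K a, fun x => ?_, ⟨a, (hmax a).mpr dvd_rfl, rfl⟩, h0,
    fun c hc => ?_, fun x hx => ?_⟩⟩
  · refine exists₂_congr fun c s => ?_
    rw [exists_prop]
    refine and_congr_right fun hs => ?_
    rw [eq_mul_inv_iff_mul_eq₀ (IsFractionRing.to_map_ne_zero_of_mem_nonZeroDivisors (hS hs))]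
  · obtain ⟨y, hy⟩ := (hmax c).mp hc
    have : algebraMap A K c = algebraMap A K a * y := congrArg Subtype.val hy
    rw [this, mul_comm, inv_mul_cancel_left₀ h0]; exact y.2
  · obtain ⟨n, u, rfl⟩ := IsDiscreteValuationRing.exists_units_eq_smul_zpow_of_irreducible hirr hx
    have e : (algebraMap O K (algebraMap A O a)) = algebraMap A K a := rfl
    have hz := zpow_ne_zero n h0
    have hu : ((u⁻¹ : Oˣ) : O).1 * (u : O).1 = 1 := congrArg Subtype.val u.inv_mul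
    refine ⟨n, ?_, ?_⟩
    · rw [e, zpow_neg, Units.smul_def, Algebra.smul_def, mul_inv_cancel_right₀ hz]; exact u.1.2
    · rw [e, Units.smul_def, Algebra.smul_def, mul_inv, inv_mul_cancel_right₀ hz]
      change ((u : O).1)⁻¹ ∈ O
      rw [← eq_inv_of_mul_eq_one_left hu]; exact (u⁻¹).1.2

namespace DV

variable {K} {p : Ideal A} (D : DV K p)

/-- Elements of valuation at least `k`. -/
def Ge (k : ℤ) : Submodule ℂ K := D.O.toSubmodule.comap (LinearMap.mulRight ℂ (D.π ^ (-k)))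

lemma mem_Ge {k : ℤ} {x : K} : x ∈ D.Ge k ↔ x * D.π ^ (-k) ∈ D.O := Iff.rfl

lemma Ge_zero {x : K} : x ∈ D.Ge 0 ↔ x ∈ D.O := by simp [mem_Ge]

lemma Ge_mul {k l : ℤ} {x y : K} (hx : x ∈ D.Ge k) (hy : y ∈ D.Ge l) : x * y ∈ D.Ge (k + l) := by
  rw [mem_Ge, neg_add, zpow_add₀ D.π_ne, mul_mul_mul_comm]; exact mul_mem hx hy

lemma π_Ge (k : ℤ) : D.π ^ k ∈ D.Ge k := by
  rw [mem_Ge, ← zpow_add₀ D.π_ne, add_neg_cancel, zpow_zero]; exact one_mem _

open Classical in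
/-- The valuation. -/
noncomputable def v (x : K) : ℤ := if h : x = 0 then 0 else (D.dec x h).choose

lemma mem_v (x : K) : x ∈ D.Ge (D.v x) := by
  by_cases h : x = 0
  · rw [h]; exact zero_mem _
  · rw [v, dif_neg h]; exact (D.dec x h).choose_spec.1

lemma inv_mem_v (x : K) : x⁻¹ ∈ D.Ge (-D.v x) := by
  by_cases h : x = 0
  · rw [h, inv_zero]; exact zero_mem _
  · rw [v, dif_neg h, mem_Ge, neg_neg]; exact (D.dec x h).choose_spec.2

variable [p.IsPrime]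

lemma alg_O (a : A) : algebraMap A K a ∈ D.O :=
  (D.mem_O _).mpr ⟨a, 1, p.primeCompl.one_mem, by simp⟩

lemma Ge_mono {k l : ℤ} (h : k ≤ l) {x : K} (hx : x ∈ D.Ge l) : x ∈ D.Ge k := by
  obtain ⟨n, rfl⟩ := Int.le.dest h
  obtain ⟨a, _, ha⟩ := D.π_mem
  have : x * D.π ^ (-k) = x * D.π ^ (-(k + n)) * D.π ^ n := by
    rw [mul_assoc, ← zpow_natCast, ← zpow_add₀ D.π_ne]; congr 2; ring
  rw [mem_Ge, this]; exact mul_mem hx (pow_mem (ha ▸ D.alg_O a) n)

variable [IsFractionRing A K]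

lemma p_iff (a : A) : a ∈ p ↔ algebraMap A K a ∈ D.Ge 1 := by
  rw [mem_Ge, zpow_neg_one]
  refine ⟨D.p_le a, fun h => ?_⟩
  obtain ⟨c, s, hs, e⟩ := (D.mem_O _).mp h
  obtain ⟨t, ht, e'⟩ := D.π_mem
  have : a * s = c * t := IsFractionRing.injective A K (by
    rw [map_mul, map_mul, ← e, e']; field_simp [D.π_ne])
  exact (Ideal.IsPrime.mem_or_mem inferInstance (this ▸ p.mul_mem_left c ht)).resolve_right hs

lemma le_of_one {k : ℤ} (h : (1 : K) ∈ D.Ge k) : k ≤ 0 := by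
  by_contra h1
  exact p.primeCompl.one_mem ((D.p_iff 1).mpr (by rw [map_one]; exact D.Ge_mono (by omega) h))

lemma ge_iff {x : K} (h : x ≠ 0) {k : ℤ} : x ∈ D.Ge k ↔ k ≤ D.v x := by
  refine ⟨fun h1 => ?_, fun h1 => D.Ge_mono h1 (D.mem_v x)⟩
  have := D.Ge_mul h1 (D.inv_mem_v x)
  rw [mul_inv_cancel₀ h] at this
  have := D.le_of_one this; omega

lemma v_eq {x : K} (h : x ≠ 0) {k : ℤ} (h1 : x ∈ D.Ge k) (h2 : x⁻¹ ∈ D.Ge (-k)) : D.v x = k := by
  have := D.Ge_mul (D.mem_v x) h2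
  rw [mul_inv_cancel₀ h] at this
  have := D.le_of_one this
  have := (D.ge_iff h).mp h1; omega

lemma v_mul {x y : K} (hx : x ≠ 0) (hy : y ≠ 0) : D.v (x * y) = D.v x + D.v y :=
  D.v_eq (mul_ne_zero hx hy) (D.Ge_mul (D.mem_v x) (D.mem_v y))
    (by rw [mul_inv, neg_add]; exact D.Ge_mul (D.inv_mem_v x) (D.inv_mem_v y))

lemma v_inv {x : K} (hx : x ≠ 0) : D.v x⁻¹ = -D.v x :=
  D.v_eq (inv_ne_zero hx) (D.inv_mem_v x) (by rw [inv_inv, neg_neg]; exact D.mem_v x)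

lemma v_one : D.v 1 = 0 := by simpa using D.v_mul one_ne_zero one_ne_zero

lemma v_pow {x : K} (hx : x ≠ 0) (n : ℕ) : D.v (x ^ n) = n * D.v x := by
  induction n with
  | zero => simp [v_one]
  | succ n ih => rw [pow_succ, D.v_mul (pow_ne_zero _ hx) hx, ih]; push_cast; ring

lemma v_neg (x : K) : D.v (-x) = D.v x := by
  by_cases h : x = 0
  · rw [h, neg_zero]
  exact D.v_eq (neg_ne_zero.mpr h) (neg_mem (D.mem_v x))
    (by rw [inv_neg]; exact neg_mem (D.inv_mem_v x))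

lemma v_π : D.v D.π = 1 :=
  D.v_eq D.π_ne (by simpa using D.π_Ge 1) (by simpa using D.π_Ge (-1))

lemma zpow_Ge {x : K} (hx : x ≠ 0) (h : D.v x = 1) (k : ℤ) : x ^ k ∈ D.Ge k := by
  rw [D.ge_iff (zpow_ne_zero k hx)]
  obtain ⟨n, rfl | rfl⟩ := k.eq_nat_or_neg
  · rw [zpow_natCast, D.v_pow hx, h, mul_one]
  · rw [zpow_neg, zpow_natCast, D.v_inv (pow_ne_zero _ hx), D.v_pow hx, h, mul_one]

lemma ord_eq {a : A} (h : a ≠ 0) : (Rep.ord p a : ℤ) = D.v (algebraMap A K a) := by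
  have hinj := IsFractionRing.injective A K
  have h0 : algebraMap A K a ≠ 0 := (map_ne_zero_iff _ hinj).mpr h
  obtain ⟨n, hn⟩ := Int.eq_ofNat_of_zero_le ((D.ge_iff h0).mp (D.Ge_zero.mpr (D.alg_O a)))
  have hp : ∀ m : ℕ, ∀ c ∈ p ^ m, algebraMap A K c ∈ D.Ge m := by
    intro m
    induction m with
    | zero => exact fun c _ => D.Ge_zero.mpr (D.alg_O c)
    | succ m ih =>
      intro c hc
      rw [pow_succ] at hc
      refine Submodule.mul_induction_on hc (fun x hx y hy => ?_) fun x y hx hy => ?_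
      · rw [map_mul, Nat.cast_succ]; exact D.Ge_mul (ih x hx) ((D.p_iff y).mp hy)
      · rw [map_add]; exact add_mem hx hy
  have : {m | ∃ s ∉ p, s * a ∈ p ^ m} = Set.Iic n := by
    ext m
    rw [Set.mem_Iic, ← Int.ofNat_le, ← hn, ← D.ge_iff h0]
    constructor
    · rintro ⟨s, hs, h1⟩
      have h2 : algebraMap A K s ≠ 0 := (map_ne_zero_iff _ hinj).mpr fun e => hs (e ▸ p.zero_mem)
      have h3 := D.Ge_mul (D.Ge_zero.mpr ((D.mem_O (algebraMap A K s)⁻¹).mpr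
        ⟨1, s, hs, by simp [h2]⟩)) (hp m _ h1)
      rwa [map_mul, inv_mul_cancel_left₀ h2, zero_add] at h3
    · intro h1
      obtain ⟨c, s, hs, e⟩ := (D.mem_O _).mp (D.mem_Ge.mp h1)
      obtain ⟨t, ht, e'⟩ := D.π_mem
      have : s * a = c * t ^ m := hinj (by
        rw [map_mul, map_mul, map_pow, ← e, e', zpow_neg, zpow_natCast]; field_simp [D.π_ne])
      exact ⟨s, hs, this ▸ Ideal.mul_mem_left _ c (Ideal.pow_mem_pow ht m)⟩
  rw [Rep.ord, this, csSup_Iic, hn]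

variable (d : Derivation ℂ K K) {δ : A → A} (hd : ∀ a, d (algebraMap A K a) = algebraMap A K (δ a))

include hd

lemma d_O {x : K} (hx : x ∈ D.O) : d x ∈ D.O := by
  obtain ⟨a, s, hs, e⟩ := (D.mem_O _).mp hx
  have h2 : algebraMap A K s ≠ 0 :=
    (map_ne_zero_iff _ (IsFractionRing.injective A K)).mpr fun e => hs (e ▸ p.zero_mem)
  have h1 := congrArg d e
  rw [Derivation.leibniz, hd, hd, smul_eq_mul, smul_eq_mul] at h1
  have : d x = (algebraMap A K (δ a) - x * algebraMap A K (δ s)) * (algebraMap A K s)⁻¹ := by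
    rw [← h1]; field_simp; ring
  rw [this]
  exact mul_mem (sub_mem (D.alg_O _) (mul_mem hx (D.alg_O _)))
    ((D.mem_O _).mpr ⟨1, s, hs, by simp [h2]⟩)

lemma d_Ge {t : K} (ht : t ≠ 0) (h : D.v t = 1) {k : ℤ} {x : K} (hx : x ∈ D.Ge k) :
    d x - (k : ℂ) • (x * (d t * t⁻¹)) ∈ D.Ge k := by
  have h1 := D.Ge_mul hx (D.zpow_Ge ht h (-k))
  rw [add_neg_cancel, Ge_zero] at h1
  have h2 := D.Ge_mul (D.Ge_zero.mpr (D.d_O d hd h1)) (D.zpow_Ge ht h k)
  have : d (x * t ^ (-k)) * t ^ k = d x - (k : ℂ) • (x * (d t * t⁻¹)) := by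
    rw [Derivation.leibniz, Derivation.leibniz_zpow, Int.cast_smul_eq_zsmul, zpow_sub_one₀ ht,
      zpow_neg]
    simp only [smul_eq_mul, zsmul_eq_mul, Int.cast_neg]
    field_simp; ring
  rwa [this, zero_add] at h2

lemma d_pred {k : ℤ} {x : K} (hx : x ∈ D.Ge k) : d x ∈ D.Ge (k - 1) := by
  have h1 := D.Ge_mono (show k - 1 ≤ k by omega) (D.d_Ge d hd D.π_ne D.v_π hx)
  obtain ⟨t, _, e⟩ := D.π_mem
  have h2 := D.Ge_mul hx (D.Ge_mul (D.Ge_zero.mpr (D.d_O d hd (e ▸ D.alg_O t))) (D.π_Ge (-1)))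
  rw [zpow_neg_one, zero_add, ← sub_eq_add_neg] at h2
  simpa using add_mem h1 (Submodule.smul_mem _ (k : ℂ) h2)

lemma d_stab' (h : d D.π * D.π⁻¹ ∈ D.Ge 0) {k : ℤ} {x : K} (hx : x ∈ D.Ge k) : d x ∈ D.Ge k := by
  have h2 := D.Ge_mul hx h
  rw [add_zero] at h2
  simpa using add_mem (D.d_Ge d hd D.π_ne D.v_π hx) (Submodule.smul_mem _ (k : ℂ) h2)

lemma d_stab (h : ∀ a ∈ p, δ a ∈ p) {k : ℤ} {x : K} (hx : x ∈ D.Ge k) : d x ∈ D.Ge k := by
  obtain ⟨t, ht, e⟩ := D.π_mem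
  refine D.d_stab' d hd (D.Ge_zero.mpr ?_) hx
  have := D.p_le _ (h t ht)
  rwa [← hd, e] at this

lemma d_move (h : ∃ a ∈ p, δ a ∉ p) {x : K} (h0 : x ≠ 0) (hx : d x ∈ D.Ge (D.v x)) :
    D.v x = 0 := by
  by_contra h1
  obtain ⟨a, ha, ha'⟩ := h
  have h2 := sub_mem hx (D.d_Ge d hd D.π_ne D.v_π (D.mem_v x))
  rw [sub_sub_cancel, Submodule.smul_mem_iff _ (Int.cast_ne_zero.mpr h1)] at h2
  have h3 := D.Ge_mul (D.inv_mem_v x) h2
  rw [inv_mul_cancel_left₀ h0, neg_add_cancel] at h3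
  exact ha' ((D.p_iff _).mpr (hd a ▸ D.d_stab' d hd h3 ((D.p_iff a).mp ha)))

end DV

end Pool.Agent.SX
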