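import Pool.Agent.P.MP_825e45_al.SxRep
import Pool.Agent.P.MP_825e45_al.SxExp
import Pool.Agent.P.MP_825e45_al.SxVal

/-! Colors moved by a simple root. -/

namespace Pool.Agent.SX

open Polynomial

namespace LND

variable {A : Type} [CommRing A] [Algebra ℂ A] (D : LND A) {E H : Module.End ℂ A}

lemma Φ_deriv (a : A) : derivative (D.Φ a) = D.Φ (D.F a) := D.ph_deriv a

lemma Φ_smul (c : ℂ) (a : A) : D.Φ (c • a) = c • D.Φ a := D.ph_smul c a

lemma X_deriv (g : A[X]) (k : ℕ) : (X * derivative g).coeff k = (k : ℂ) • g.coeff k := by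
  cases k with
  | zero => simp
  | succ k => rw [coeff_X_mul, coeff_derivative, Nat.cast_smul_eq_nsmul, nsmul_eq_mul']; simp

lemma co_H {c : ℂ} (h : ∀ x, H (D.F x) = D.F (H x) - c • D.F x) (a : A) (k : ℕ) :
    H ((D.Φ a).coeff k) = (D.Φ (H a) - c • (X * derivative (D.Φ a))).coeff k := by
  rw [coeff_sub, coeff_smul, X_deriv, coeff_Φ, coeff_Φ, map_smul, H_pow h]; module

lemma co_E (hE : ∀ x, E (D.F x) = D.F (E x) + H x)
    (hF : ∀ x, H (D.F x) = D.F (H x) - (2 : ℂ) • D.F x) (a : A) (k : ℕ) :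
    E ((D.Φ a).coeff k) =
      (D.Φ (E a) + X * (D.Φ (H a) - X * derivative (D.Φ a))).coeff k := by
  cases k with
  | zero => simp [coeff_Φ]
  | succ k =>
    rw [coeff_add, coeff_X_mul, coeff_sub, X_deriv]
    simp only [coeff_Φ]
    have h : (((k + 1).factorial : ℂ))⁻¹ * ((k : ℂ) + 1) = (k.factorial : ℂ)⁻¹ := by
      have := Nat.cast_add_one_ne_zero (R := ℂ) k
      rw [Nat.factorial_succ]; push_cast; field_simp
    rw [map_smul, E_pow hE hF, smul_add, smul_smul, h]; module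

end LND

/-- Extension of a derivation along an unramified extension. -/
noncomputable def xt {A : Type} (B : Type) [CommRing A] [CommRing B] [Algebra ℂ A] [Algebra ℂ B]
    [Algebra A B] [IsScalarTower ℂ A B] [Algebra.FormallyEtale A B] (δ : Derivation ℂ A A) :
    Derivation ℂ B B := (ext_der δ).choose

lemma xt_alg {A : Type} (B : Type) [CommRing A] [CommRing B] [Algebra ℂ A] [Algebra ℂ B]
    [Algebra A B] [IsScalarTower ℂ A B] [Algebra.FormallyEtale A B] (δ : Derivation ℂ A A) (a : A) :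
    xt B δ (algebraMap A B a) = algebraMap A B (δ a) := (ext_der δ).choose_spec a

lemma d_div_zero {L : Type} [Field L] [Algebra ℂ L] (d : Derivation ℂ L L) {x y c : L}
    (hx : d x = c * x) (hy : d y = c * y) : d (x / y) = 0 := by
  rw [Derivation.leibniz_div, hx, hy]; simp only [smul_eq_mul]; ring

variable {ι M N : Type} [AddCommGroup M] [AddCommGroup N] {P : RootDatum ι M N} {b : P.Base}
  {A : Type} [CommRing A] [Algebra ℂ A]

/-- A multiplicity free action by automorphisms. -/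
structure Ctx (R : Rep P b A) : Prop where
  act : R.Acts
  mf : R.MultFree

/-- The equations of a root of the orbit polynomial of a highest weight vector. -/
structure Sp {B : Type} [Field B] [Algebra ℂ B] (e f : b.support → Derivation ℂ B B)
    (h : (M →+ ℤ) → Derivation ℂ B B) (i : b.support) (τ : B) : Prop where
  hf : f i τ = -1
  he : e i τ = τ ^ 2
  hne : ∀ j, j ≠ i → e j τ = 0
  hh : ∀ φ, h φ τ = φ (P.root i) * τ

namespace Sp

variable {B : Type} [Field B] [Algebra ℂ B] {e f : b.support → Derivation ℂ B B}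
    {h : (M →+ ℤ) → Derivation ℂ B B} {i : b.support} {τ τ' : B}

lemma ne (s : Sp e f h i τ) : τ ≠ 0 := fun h0 => by simpa [h0] using s.hf

lemma f_inv (s : Sp e f h i τ) : f i τ⁻¹ = τ⁻¹ ^ 2 := by
  rw [Derivation.leibniz_inv, s.hf]; simp

lemma e_sub (s : Sp e f h i τ) (s' : Sp e f h i τ') (j : b.support) : e j (τ⁻¹ - τ'⁻¹) = 0 := by
  rw [map_sub, Derivation.leibniz_inv, Derivation.leibniz_inv]
  by_cases hj : j = i
  · subst hj
    rw [s.he, s'.he]; simp [s.ne, s'.ne]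
  · rw [s.hne j hj, s'.hne j hj]; simp

lemma h_sub (s : Sp e f h i τ) (s' : Sp e f h i τ') (φ : M →+ ℤ) :
    h φ (τ⁻¹ - τ'⁻¹) = φ (-P.root i) * (τ⁻¹ - τ'⁻¹) := by
  rw [map_sub, Derivation.leibniz_inv, Derivation.leibniz_inv, s.hh, s'.hh, map_neg]
  have := s.ne; have := s'.ne
  simp only [smul_eq_mul, Int.cast_neg]; field_simp; ring

end Sp

namespace Ctx

open Rep

variable {R : Rep P b A} (c : Ctx R)

noncomputable def dE (i : b.support) : Derivation ℂ A A :=
  .mk' (R.e i) fun x y => by rw [(c.act.2.2 i x y).1, smul_eq_mul, smul_eq_mul, mul_comm y]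

noncomputable def dF (i : b.support) : Derivation ℂ A A :=
  .mk' (R.f i) fun x y => by rw [(c.act.2.2 i x y).2, smul_eq_mul, smul_eq_mul, mul_comm y]

noncomputable def dH (φ : M →+ ℤ) : Derivation ℂ A A :=
  .mk' (R.H φ) fun x y => by
    refine R.G.ind (p := fun x => R.H φ (x * y) = x • R.H φ y + y • R.H φ x) (fun μ x hx => ?_)
      (fun x x' h h' => by rw [add_mul, map_add, map_add, h, h']; module) (by simp) x
    refine R.G.ind (p := fun y => R.H φ (x * y) = x • R.H φ y + y • R.H φ x) (fun ν y hy => ?_)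
      (fun y y' h h' => by rw [mul_add, map_add, map_add, h, h']; module) (by simp) y
    rw [R.H_mem φ (c.act.2.1 _ _ x hx y hy), R.H_mem φ hx, R.H_mem φ hy, map_add]
    simp only [smul_eq_mul, mul_smul_comm, Int.cast_add]
    rw [mul_comm y x]; module

/-- The lowering generator as a locally nilpotent derivation. -/
def lnd (i : b.support) : LND A := ⟨R.f i, fun x y => (c.act.2.2 i x y).2, R.f_nil c.mf.1 i⟩

include c in
lemma hw_mul [IsDomain A] {μ ν : M} {x y : A} (hx : R.HW μ x) (hy : R.HW ν y) :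
    R.HW (μ + ν) (x * y) :=
  ⟨mul_ne_zero hx.1 hy.1, c.act.2.1 _ _ x hx.2.1 y hy.2.1, fun i => by
    rw [(c.act.2.2 i x y).1, hx.2.2, hy.2.2]; simp⟩

include c in
lemma hw_one [IsDomain A] : R.HW 0 1 :=
  ⟨one_ne_zero, c.act.1, fun i => (c.dE i).map_one_eq_zero⟩

section Field

variable {B : Type} [Field B] [Algebra ℂ B] [Algebra A B] [IsScalarTower ℂ A B]
  {e f : b.support → Derivation ℂ B B} {h : (M →+ ℤ) → Derivation ℂ B B}

variable (R e f h) in
/-- Extensions of the generators to a field. -/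
structure Ext : Prop where
  inj : Function.Injective (algebraMap A B)
  he : ∀ i a, e i (algebraMap A B a) = algebraMap A B (R.e i a)
  hf : ∀ i a, f i (algebraMap A B a) = algebraMap A B (R.f i a)
  hh : ∀ φ a, h φ (algebraMap A B a) = algebraMap A B (R.H φ a)

omit [IsScalarTower ℂ A B] in
lemma dc_map (d : Derivation ℂ B B) {δ : A → A}
    (hd : ∀ a, d (algebraMap A B a) = algebraMap A B (δ a)) {g g' : A[X]}
    (hg : ∀ k, δ (g.coeff k) = g'.coeff k) :
    dc d (g.map (algebraMap A B)) = g'.map (algebraMap A B) := by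
  ext k; rw [coeff_dc, coeff_map, coeff_map, hd, hg]

/-- The orbit polynomial. -/
noncomputable def Ψ (B : Type) [Field B] [Algebra A B] (i : b.support) : A →+* B[X] :=
  (mapRingHom (algebraMap A B)).comp (c.lnd i).Φ

/-- The prime met at time `τ`. -/
noncomputable def kr (i : b.support) (τ : B) : Ideal A :=
  RingHom.ker ((c.lnd i).θ (algebraMap A B) τ)

omit [Algebra ℂ B] [IsScalarTower ℂ A B] in
lemma mem_kr {i : b.support} {τ : B} {a : A} : a ∈ c.kr i τ ↔ (c.Ψ B i a).eval τ = 0 := by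
  rw [kr, RingHom.mem_ker, LND.θ_apply, eval₂_eq_eval_map]; rfl

lemma Ψ_smul (i : b.support) (t : ℂ) (a : A) : c.Ψ B i (t • a) = t • c.Ψ B i a := by
  ext k
  simp only [Ψ, RingHom.comp_apply, LND.Φ_smul, coe_mapRingHom, coeff_map, coeff_smul]
  exact map_smul (IsScalarTower.toAlgHom ℂ A B) t _

omit [Algebra ℂ B] [IsScalarTower ℂ A B] in
lemma Ψ_zero (i : b.support) (a : A) : (c.Ψ B i a).eval 0 = algebraMap A B a := by
  rw [← coeff_zero_eq_eval_zero]; simp [Ψ, LND.coeff_Φ]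

variable (x : Ext R e f h)

include x

omit [IsScalarTower ℂ A B] in
lemma dc_f (i : b.support) (a : A) : dc (f i) (c.Ψ B i a) = derivative (c.Ψ B i a) := by
  refine (dc_map (f i) (x.hf i) (g' := derivative ((c.lnd i).Φ a)) fun k => ?_).trans
    (derivative_map _ _).symm
  rw [LND.Φ_deriv]
  change _ = ((c.lnd i).Φ (R.f i a)).coeff k
  simpa using (c.lnd i).co_H (H := R.f i) (c := 0) (fun _ => by simp [lnd]) a k

omit [IsScalarTower ℂ A B] in
lemma dc_ne {i j : b.support} (hj : j ≠ i) (a : A) : dc (e j) (c.Ψ B i a) = c.Ψ B i (R.e j a) := by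
  refine dc_map (e j) (x.he j) fun k => ?_
  simpa using (c.lnd i).co_H (H := R.e j) (c := 0) (fun y => by simp [lnd, R.ef_ne j i y hj]) a k

lemma dc_h (i : b.support) (φ : M →+ ℤ) (a : A) : dc (h φ) (c.Ψ B i a) =
    c.Ψ B i (R.H φ a) - (φ (P.root i) : B[X]) * X * derivative (c.Ψ B i a) := by
  refine (dc_map (h φ) (x.hh φ) ((c.lnd i).co_H (R.H_f φ i) a)).trans ?_
  simp [Ψ, Int.cast_smul_eq_zsmul, mul_assoc]

omit [IsScalarTower ℂ A B] in
lemma dc_e (i : b.support) (a : A) : dc (e i) (c.Ψ B i a) =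
    c.Ψ B i (R.e i a) + X * (c.Ψ B i (R.H (co P i) a) - X * derivative (c.Ψ B i a)) := by
  refine (dc_map (e i) (x.he i) ((c.lnd i).co_E (R.e_f i) (R.Hco_f i) a)).trans ?_
  simp [Ψ]

lemma sp_of_root {i : b.support} {μ : M} {a : A} (ha : R.HW μ a) {τ : B} (hτ : a ∈ c.kr i τ) :
    Sp e f h i τ := by
  have : CharZero B := charZero_of_injective_algebraMap (algebraMap ℂ B).injective
  rw [mem_kr] at hτ
  have h0 : c.Ψ B i a ≠ 0 := fun h1 => ha.1 (x.inj (by rw [← c.Ψ_zero i, h1]; simp))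
  have hH : ∀ φ, c.Ψ B i (R.H φ a) = (φ μ : B[X]) * c.Ψ B i a := fun φ => by
    rw [R.H_mem φ ha.2.1, Ψ_smul, Int.cast_smul_eq_zsmul, zsmul_eq_mul]
  refine ⟨?_, ?_, fun j hj => ?_, fun φ => ?_⟩
  · simpa using root_der (f i) (u := 0) (w := 1) h0 (by simp [c.dc_f x]) hτ
  · have := root_der (e i) (u := X * (co P i μ : B[X])) (w := -X ^ 2) h0
      (by rw [c.dc_e x, hH, ha.2.2, map_zero]; ring) hτ
    rwa [eval_neg, neg_neg, eval_pow, eval_X] at this
  · simpa using root_der (e j) (u := 0) (w := 0) h0 (by simp [c.dc_ne x hj, ha.2.2]) hτ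
  · have := root_der (h φ) (u := φ μ) (w := -((φ (P.root i) : B[X]) * X)) h0
      (by rw [c.dc_h x, hH]; ring) hτ
    rwa [eval_neg, neg_neg, eval_mul, eval_X, eval_intCast] at this

lemma moves_of_sp [IsDomain A] {i : b.support} {τ : B} (s : Sp e f h i τ) (h0 : c.kr i τ ≠ ⊥) :
    R.Moves i (c.kr i τ) := by
  have hp : (c.kr i τ).IsPrime := RingHom.ker_isPrime _
  have hs : (c.lnd i).NoStab (c.kr i τ) := (c.lnd i).noStab_ker _ x.inj τ
  have hH : ∀ φ, ∀ a ∈ c.kr i τ, R.H φ a ∈ c.kr i τ := fun φ a ha => by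
    have h1 := d_eval (h φ) (c.Ψ B i a) τ
    rw [c.mem_kr.mp ha, map_zero, c.dc_h x, s.hh] at h1
    simp only [eval_sub, eval_mul, eval_intCast, eval_X] at h1
    rw [mem_kr]; linear_combination -h1
  refine ⟨hp, (c.lnd i).height_one h0 hs, fun j a ha => ?_, fun a ha =>
    (R.G.gr_iff _).mpr (R.gr_of_H (U := (c.kr i τ).restrictScalars ℂ) hH) ha, ?_⟩
  · have h1 := d_eval (e j) (c.Ψ B i a) τ
    rw [c.mem_kr.mp ha, map_zero] at h1
    by_cases hj : j = i
    · subst hj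
      rw [c.dc_e x, s.he] at h1
      simp only [eval_sub, eval_mul, eval_add, eval_X, c.mem_kr.mp (hH _ a ha)] at h1
      rw [mem_kr]; linear_combination -h1
    · rw [c.dc_ne x hj, s.hne j hj] at h1
      rw [mem_kr]; linear_combination -h1
  · by_contra h1
    push Not at h1
    refine h0 ((Submodule.eq_bot_iff _).mpr fun a ha => hs a fun k => ?_)
    induction k with
    | zero => exact ha
    | succ k ih => rw [pow_succ', Module.End.mul_apply]; exact h1 _ ih

omit [IsScalarTower ℂ A B] in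
lemma Ψ_deg {μ : M} {a : A} (ha : R.HW μ a) (i : b.support) :
    co P i μ = (c.Ψ B i a).natDegree ∧ (c.Ψ B i a).leadingCoeff ≠ 0 ∧
      f i (c.Ψ B i a).leadingCoeff = 0 := by
  obtain ⟨k, h1, h2, h3⟩ := ha.deg c.mf.1 i
  have e1 : ∀ n, (c.Ψ B i a).coeff n = algebraMap A B (((n.factorial : ℂ))⁻¹ • (R.f i ^ n) a) :=
    fun n => by rw [Ψ, RingHom.comp_apply, coe_mapRingHom, coeff_map, LND.coeff_Φ]; rfl
  have h4 : (c.Ψ B i a).coeff k ≠ 0 := by
    rw [e1, map_ne_zero_iff _ x.inj]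
    exact smul_ne_zero (inv_ne_zero (Nat.cast_ne_zero.mpr k.factorial_ne_zero)) h2
  have h5 : (c.Ψ B i a).natDegree = k := by
    refine natDegree_eq_of_le_of_coeff_ne_zero (natDegree_le_iff_coeff_eq_zero.mpr fun n hn => ?_) h4
    obtain ⟨j, rfl⟩ := Nat.exists_eq_add_of_le' (Nat.succ_le_of_lt hn)
    rw [e1, pow_add, Module.End.mul_apply, h3]; simp
  rw [leadingCoeff, h5]
  refine ⟨h1, h4, ?_⟩
  rw [e1, x.hf, map_smul, ← Module.End.mul_apply, ← pow_succ', h3]; simp

end Field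

variable [Finite ι] [P.IsReduced]

include c in
lemma hw_of_moves [IsDomain A] {i : b.support} {p : Ideal A} (hp : R.Moves i p) :
    ∃ μ, ∃ a ∈ p, R.HW μ a :=
  R.exists_HW c.mf.1 (U := p.restrictScalars ℂ) ((R.G.gr_iff _).mp hp.2.2.2.1) hp.2.2.1
    fun h => Ideal.ne_bot_of_height_eq_one hp.2.1 ((Submodule.restrictScalars_eq_bot_iff _ _ _).mp h)

section Frac

variable {K : Type} [Field K] [Algebra ℂ K] [Algebra A K] [IsScalarTower ℂ A K] [IsFractionRing A K]
  {e f : b.support → Derivation ℂ K K} {h : (M →+ ℤ) → Derivation ℂ K K} (x : Ext R e f h)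

include c x

lemma rat_eig {y : K} (h0 : y ≠ 0) (h1 : ∀ j, e j y = 0) {μ : M} (h2 : ∀ φ, h φ y = φ μ * y) :
    ∃ σ s a, R.HW σ s ∧ R.HW (σ + μ) a ∧ y * algebraMap A K s = algebraMap A K a := by
  let g : A →ₗ[ℂ] K := (IsScalarTower.toAlgHom ℂ A K).toLinearMap
  let U : Submodule ℂ A := (LinearMap.range g).comap (LinearMap.mulLeft ℂ y ∘ₗ g)
  have hU : ∀ s, s ∈ U ↔ ∃ a, algebraMap A K a = y * algebraMap A K s := fun s => Iff.rfl
  have hE : ∀ j s a, algebraMap A K a = y * algebraMap A K s →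
      algebraMap A K (R.e j a) = y * algebraMap A K (R.e j s) := fun j s a ha => by
    rw [← x.he, ha, Derivation.leibniz, h1, x.he]; simp
  have hH : ∀ φ s a, algebraMap A K a = y * algebraMap A K s →
      algebraMap A K (R.H φ a - φ μ • a) = y * algebraMap A K (R.H φ s) := fun φ s a ha => by
    rw [map_sub, map_zsmul, ← x.hh, ha, Derivation.leibniz, h2, x.hh]
    simp only [smul_eq_mul, zsmul_eq_mul]; ring
  obtain ⟨σ, s, ⟨a, ha⟩, hs⟩ := R.exists_HW c.mf.1 (U := U)
    (R.gr_of_H fun φ s ⟨a, ha⟩ => ⟨_, hH φ s a ha⟩) (fun j s ⟨a, ha⟩ => ⟨_, hE j s a ha⟩) (by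
      obtain ⟨⟨a, s⟩, ha⟩ := IsLocalization.surj (nonZeroDivisors A) y
      exact (Submodule.ne_bot_iff _).mpr ⟨s, ⟨a, ha.symm⟩, fun h3 =>
        (IsLocalization.map_units K s).ne_zero (by rw [h3, map_zero])⟩)
  replace ha : algebraMap A K a = y * algebraMap A K s := ha
  refine ⟨σ, s, a, hs, ⟨fun h3 => ?_, R.wt_of_H fun φ => ?_, fun j => x.inj ?_⟩, ha.symm⟩
  · rw [h3, map_zero, eq_comm, mul_eq_zero, map_eq_zero_iff _ x.inj] at ha
    exact ha.elim h0 hs.1
  · have h3 := hH φ s a ha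
    rw [R.H_mem φ hs.2.1, Int.cast_smul_eq_zsmul, map_zsmul, mul_smul_comm, ← ha, ← map_zsmul,
      x.inj.eq_iff, sub_eq_iff_eq_add] at h3
    rw [h3, Int.cast_smul_eq_zsmul, map_add, add_smul]
  · rw [hE j s a ha, hs.2.2]; simp

lemma const {y : K} (h1 : ∀ j, e j y = 0) (h2 : ∀ φ, h φ y = 0) : ∃ t, algebraMap ℂ K t = y := by
  by_cases h0 : y = 0
  · exact ⟨0, by simp [h0]⟩
  obtain ⟨σ, s, a, hs, ha, h3⟩ := c.rat_eig x h0 h1 (μ := 0) (by simpa using h2)
  obtain ⟨t, rfl⟩ := c.mf.2 σ s a hs (by simpa using ha)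
  rw [Algebra.smul_def, map_mul, ← IsScalarTower.algebraMap_apply] at h3
  exact ⟨t, (mul_right_cancel₀ ((map_ne_zero_iff _ x.inj).mpr hs.1) h3).symm⟩

end Frac

end Ctx

end Pool.Agent.SX
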