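import Pool.Agent.P.MP_825e45_al.SxComb
import Pool.Agent.P.MP_825e45_al.SxAux

/-! Dominance order, duality, and the bridge from root data. -/

namespace Pool.Agent.SX

/-- Finite type data. -/
structure Sys (κ M : Type) [Fintype κ] [AddCommGroup M] extends Cart κ M where
  h : M →+ ℤ
  hβ : ∀ k, h (β k) = 2
  x : κ → ℤ
  hx : ∀ u, h u = ∑ k, x k * c k u
  bdd : ∀ u, ∃ B, ∀ w, toCart.Orb u w → h w ≤ B
  w0 : ∃ w : M →+ M, (∀ u, toCart.Orb u (w u)) ∧ (∀ l, ∃ u, w u = l) ∧
    ∀ k, -w (β k) ∈ AddSubmonoid.closure (Set.range β)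

namespace Sys

variable {κ M : Type} [Fintype κ] [AddCommGroup M] (D : Sys κ M)

def Pos : AddSubmonoid M := AddSubmonoid.closure (Set.range D.β)

lemma β_mem (k : κ) : D.β k ∈ D.Pos := AddSubmonoid.subset_closure ⟨k, rfl⟩

lemma zsmul_mem (k : κ) {n : ℤ} (hn : 0 ≤ n) : n • D.β k ∈ D.Pos := by
  lift n to ℕ using hn
  rw [natCast_zsmul]; exact nsmul_mem (D.β_mem k) n

lemma pos_h {u : M} (hu : u ∈ D.Pos) : u = 0 ∨ 0 < D.h u := by
  induction hu using AddSubmonoid.closure_induction with
  | mem x hx => obtain ⟨k, rfl⟩ := hx; right; rw [D.hβ]; norm_num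
  | zero => exact Or.inl rfl
  | add x y _ _ hx hy =>
    rcases hx with rfl | hx
    · simpa using hy
    · rcases hy with rfl | hy
      · right; simpa using hx
      · right; rw [map_add]; omega

lemma pos_antisymm {u : M} (hu : u ∈ D.Pos) (hu' : -u ∈ D.Pos) : u = 0 := by
  rcases D.pos_h hu with h | h
  · exact h
  · rcases D.pos_h hu' with h' | h'
    · simpa using h'
    · rw [map_neg] at h'; omega

def Domi (l : M) : Prop := ∀ k, 0 ≤ D.c k l

lemma anti_le {ν w : M} (hν : D.Domi (-ν)) (h : D.Orb ν w) : w - ν ∈ D.Pos := by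
  have hA : D.Ax {ν} := by
    rintro u rfl k hk
    have := hν k; rw [map_neg] at this; omega
  have hU : D.Up {ν} w := by
    induction h with
    | refl => exact Cart.Up.base _ rfl
    | @tail a _ _ h2 ih =>
      obtain ⟨k, rfl⟩ := h2
      rcases lt_trichotomy (D.c k a) 0 with h1 | h1 | h1
      · exact Cart.Up.raise _ _ ih h1
      · rwa [Cart.s_of_zero _ h1]
      · rcases Cart.up_down D.toCart hA D.h (fun k => by rw [D.hβ]; norm_num) (D.h ν)
          (by rintro u rfl; exact le_rfl) a ih k h1 with h2 | h2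
        · exact h2
        · have := hν k; rw [map_neg, ← (h2 : a = ν)] at this; omega
  clear h
  induction hU with
  | base u hu => rw [(hu : u = ν), sub_self]; exact zero_mem _
  | raise u k _ hk ih =>
    have : D.s k u - ν = (u - ν) + (-D.c k u) • D.β k := by rw [Cart.s, neg_smul]; abel
    rw [this]; exact add_mem ih (D.zsmul_mem k (by omega))

lemma dom_ge {l w : M} (hl : D.Domi l) (h : D.Orb l w) : l - w ∈ D.Pos := by
  have := D.anti_le (ν := -l) (by rwa [neg_neg]) (h.neg _)
  rwa [neg_sub_neg] at this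

lemma dom_unique {l m : M} (hl : D.Domi l) (hm : D.Domi m) (h : D.Orb l m) : l = m :=
  sub_eq_zero.mp (D.pos_antisymm (D.dom_ge hl h) (by rw [neg_sub]; exact D.dom_ge hm (h.symm _)))

lemma exists_dom (u : M) : ∃ l, D.Domi l ∧ D.Orb u l := by
  obtain ⟨B, hB⟩ := D.bdd u
  obtain ⟨t, ⟨l, hl, rfl⟩, hmax⟩ := Int.exists_greatest_of_bdd
    (P := fun t => ∃ w, D.Orb u w ∧ D.h w = t) ⟨B, by rintro t ⟨w, hw, rfl⟩; exact hB w hw⟩
    ⟨_, u, Cart.Orb.refl _ u, rfl⟩
  refine ⟨l, fun k => ?_, hl⟩
  have := hmax _ ⟨_, hl.step _ k, rfl⟩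
  simp only [Cart.s, map_sub, map_zsmul, D.hβ, smul_eq_mul] at this
  omega

lemma order_dual {l m l' m' : M} (hl : D.Domi l) (hm : D.Domi m) (hm' : D.Domi m')
    (h : m - l ∈ D.Pos) (h1 : D.Orb (-l) l') (h2 : D.Orb (-m) m') : m' - l' ∈ D.Pos := by
  obtain ⟨w, hw1, hw2, hw3⟩ := D.w0
  have hneg : ∀ u ∈ D.Pos, -w u ∈ D.Pos := by
    intro u hu
    induction hu using AddSubmonoid.closure_induction with
    | mem x hx => obtain ⟨k, rfl⟩ := hx; exact hw3 k
    | zero => simp
    | add x y _ _ hx hy => rw [map_add, neg_add]; exact add_mem hx hy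
  obtain ⟨u, rfl⟩ := hw2 l'
  have a1 : u - -l ∈ D.Pos :=
    D.anti_le (by rwa [neg_neg]) (h1.trans _ ((hw1 u).symm _))
  have a2 := hneg _ a1
  have a3 := hneg _ h
  have a4 := D.dom_ge hm' ((h2.symm _).trans _ (hw1 (-m)))
  have : m' - w u = -w (u - -l) + -w (m - l) + (m' - w (-m)) := by
    simp only [map_sub, map_neg]; abel
  rw [this]; exact add_mem (add_mem a2 a3) a4

lemma orb_even {u w : M} (h : D.Orb u w) : Even (D.h w - D.h u) := by
  induction h with
  | refl => simp
  | @tail a _ _ h2 ih =>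
    obtain ⟨k, rfl⟩ := h2
    obtain ⟨t, ht⟩ := ih
    refine ⟨t - D.c k a, ?_⟩
    simp only [Cart.s, map_sub, map_zsmul, D.hβ, smul_eq_mul]
    omega

def Dm (C : Set M) : Set M := {l | D.Domi l ∧ ∃ v ∈ C, D.Orb v l}

def Dx (C : Set M) : Set M := {l ∈ D.Dm C | ∀ m ∈ D.Dm C, m - l ∈ D.Pos → m = l}

variable {C : Set M} (hA : D.Ax C) (hE : ∀ v ∈ C, ∃ k, 0 < D.c k v)

include hA hE in
lemma dual_mem {l : M} (hl : l ∈ D.Dm C) : ∃ l' ∈ D.Dm C, D.Orb (-l) l' := by
  obtain ⟨_, v, hv, hvl⟩ := hl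
  obtain ⟨k, hk⟩ := hE v hv
  obtain ⟨h1, h2⟩ := hA v hv k hk
  obtain ⟨l', hl', ho⟩ := D.exists_dom (-l)
  refine ⟨l', ⟨hl', _, h2, ?_⟩, ho⟩
  have e : D.β k - v = D.s k (-v) := by rw [Cart.s_neg, Cart.s, h1]; simp
  rw [e]
  exact (((Cart.Orb.refl _ (-v)).step _ k).symm _).trans _ ((hvl.neg _).trans _ ho)

include hA hE in
lemma dual_max {l : M} (hl : l ∈ D.Dx C) : ∃ l' ∈ D.Dx C, D.Orb (-l) l' := by
  obtain ⟨l', hl', ho⟩ := D.dual_mem hA hE hl.1
  refine ⟨l', ⟨hl', fun m hm hml => ?_⟩, ho⟩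
  obtain ⟨m', hm', hmo⟩ := D.dual_mem hA hE hm
  have h1 : D.Orb (-l') l := by simpa using (ho.neg _).symm _
  have h2 := D.order_dual hl'.1 hm.1 hm'.1 hml h1 hmo
  have h3 := hl.2 m' hm' h2
  subst h3
  have h4 : D.Orb m (-m') := by simpa using hmo.neg _
  exact D.dom_unique hm.1 hl'.1 (h4.trans _ ho)

include hA in
lemma odd_of_selfdual (ℓ : M →+ ℤ) (hℓ : ∀ k, 0 < ℓ (D.β k)) (hC : ∀ u ∈ C, 0 < ℓ u)
    {l : M} (hl : l ∈ D.Dm C) (hsd : D.Orb l (-l)) : Odd (D.h l) := by
  obtain ⟨_, v, hv, hvl⟩ := hl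
  have h1 := Cart.height_one D.toCart hA ℓ hℓ hC D.h D.hβ hv
    ((hvl.trans _ hsd).trans _ ((hvl.neg _).symm _))
  obtain ⟨t, ht⟩ := D.orb_even hvl
  exact ⟨t, by omega⟩

end Sys

section Bridge

variable {ι M N : Type} [AddCommGroup M] [AddCommGroup N] [Finite ι]
  (P : RootDatum ι M N) [P.IsReduced] (b : P.Base)

/-- The rank two data of a based root datum. -/
noncomputable def cartOf : Cart b.support M where
  β k := P.root k
  c k := (P.coroot' k).toAddMonoidHom
  diag k := P.root_coroot_two k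
  pair k l hkl := by
    have h1 := P.pairingIn_pairingIn_mem_set_of_isCrystal_of_isRed' (l : ι) (k : ι)
      (fun h => hkl (Subtype.ext (P.root.injective h)).symm)
      (b.root_ne_neg_of_ne l.2 k.2 (fun h => hkl (Subtype.ext h).symm))
    have h2 := b.pairingIn_le_zero_of_ne (fun h => hkl (Subtype.ext h)) k.2 l.2
    have h3 := b.pairingIn_le_zero_of_ne (fun h => hkl (Subtype.ext h).symm) l.2 k.2
    have e1 : (P.coroot' k).toAddMonoidHom (P.root l) = P.pairingIn ℤ l k :=
      (P.algebraMap_pairingIn ℤ (l : ι) (k : ι)).symm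
    have e2 : (P.coroot' l).toAddMonoidHom (P.root k) = P.pairingIn ℤ k l :=
      (P.algebraMap_pairingIn ℤ (k : ι) (l : ι)).symm
    rw [e1, e2]
    simp only [Set.mem_insert_iff, Set.mem_singleton_iff, Prod.mk.injEq] at h1
    omega

lemma cartOf_s (k : b.support) (u : M) : (cartOf P b).s k u = P.reflection k u := by
  rw [RootPairing.reflection_apply]; rfl

lemma orb_pair {u w : M} (h : (cartOf P b).Orb u w) (i : ι) :
    ∃ j, P.coroot' i w = P.coroot' j u := by
  induction h generalizing i with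
  | refl => exact ⟨i, rfl⟩
  | @tail a _ _ h2 ih =>
    obtain ⟨k, rfl⟩ := h2
    obtain ⟨j, hj⟩ := ih (P.reflectionPerm k i)
    refine ⟨j, ?_⟩
    rw [← hj, cartOf_s]
    exact P.coroot'_reflection a

open Classical in
lemma sum_pos_root (k : b.support) :
    letI := Fintype.ofFinite ι
    P.coroot' k (∑ i with b.IsPos i, P.root i) = 2 := by
  letI := Fintype.ofFinite ι
  set T := Finset.univ.filter (fun i => b.IsPos i) with hT
  have hk : (k : ι) ∈ T := by simpa [hT] using RootPairing.Base.isPos_of_mem_support k.2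
  have h1 : ∑ i ∈ T.erase k, P.coroot' k (P.root i) = 0 := by
    have h2 : ∑ i ∈ T.erase k, P.coroot' k (P.root i) =
        ∑ i ∈ T.erase k, -P.coroot' k (P.root i) := by
      have hm : ∀ i ∈ T.erase k, P.reflectionPerm k i ∈ T.erase k := by
        intro i hi
        rw [Finset.mem_erase] at hi ⊢
        have hp : b.IsPos i := by simpa [hT] using hi.2
        refine ⟨fun h => ?_, by simpa [hT] using hp.reflectionPerm k.2 hi.1⟩
        have h3 : i = P.reflectionPerm k k := by
          rw [← P.reflectionPerm_self k i, h]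
        have h4 := b.height_reflectionPerm_self k
        rw [RootPairing.Base.height_one_of_mem_support k.2] at h4
        have h5 : b.height i = -1 := by rw [h3]; exact h4
        rw [RootPairing.Base.isPos_iff] at hp; omega
      refine Finset.sum_bij' (fun i _ => P.reflectionPerm k i) (fun i _ => P.reflectionPerm k i)
        hm hm (fun i _ => P.reflectionPerm_self k i) (fun i _ => P.reflectionPerm_self k i) ?_
      intro i _
      rw [P.root_reflectionPerm, RootPairing.reflection_apply, map_sub, map_zsmul]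
      have : P.coroot' k (P.root k) = 2 := P.root_coroot_two k
      rw [this, smul_eq_mul]; ring
    rw [Finset.sum_neg_distrib] at h2; omega
  rw [map_sum, ← Finset.add_sum_erase T _ hk, h1, add_zero]
  exact P.root_coroot_two k

lemma list_act (L : List b.support) : ∃ w : M →+ M,
    (∀ u, w u = L.foldr (fun k x => (cartOf P b).s k x) u) := by
  induction L with
  | nil => exact ⟨AddMonoidHom.id M, fun _ => rfl⟩
  | cons k L ih =>
    obtain ⟨w, hw⟩ := ih
    refine ⟨(P.reflection k).toLinearMap.toAddMonoidHom.comp w, fun u => ?_⟩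
    rw [List.foldr_cons, cartOf_s, ← hw]; rfl

omit [Finite ι] [P.IsReduced] in
lemma range_root : (Set.range fun k : b.support => P.root k) = P.root '' b.support := by
  ext x; simp

lemma flip_red : P.flip.IsReduced := by
  have : Module.IsReflexive ℤ N := .of_isPerfPair P.flip.toLinearMap
  have : Module.IsReflexive ℤ M := .of_isPerfPair P.toLinearMap
  exact RootPairing.instFlipIsReduced P

open Classical in
lemma exists_sys : ∃ D : Sys b.support M, D.toCart = cartOf P b := by
  letI := Fintype.ofFinite ι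
  haveI := flip_red P
  let r : M := ∑ i with b.IsPos i, P.root i
  let r' : N := ∑ i with b.flip.IsPos i, P.coroot i
  let h : M →+ ℤ := (P.toLinearMap.flip r').toAddMonoidHom
  have hβ : ∀ k : b.support, h (P.root k) = 2 := fun k => sum_pos_root P.flip b.flip k
  have hr : ∀ k : b.support, P.coroot' k r = 2 := fun k => sum_pos_root P b k
  have hx : ∃ x : b.support → ℤ, r' = ∑ k, x k • P.coroot k := by
    have : r' ∈ Submodule.span ℤ (Set.range fun k : b.support => P.coroot k) := by
      refine Submodule.sum_mem _ fun i _ => ?_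
      have := b.coroot_mem_span_int i
      rwa [Set.image_eq_range] at this
    obtain ⟨x, hx⟩ := (Submodule.mem_span_range_iff_exists_fun ℤ).mp this
    exact ⟨x, hx.symm⟩
  obtain ⟨x, hx⟩ := hx
  have hsum : ∀ u, h u = ∑ i with b.flip.IsPos i, P.coroot' i u := by
    intro u
    change P.toLinearMap u r' = _
    simp only [r', map_sum]; rfl
  have hbd : ∀ u, ∃ B, ∀ w, (cartOf P b).Orb u w → |h w| ≤ B := by
    intro u
    refine ⟨∑ _i with b.flip.IsPos _i, ∑ j, |P.coroot' j u|, fun w hw => ?_⟩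
    rw [hsum]
    refine (Finset.abs_sum_le_sum_abs _ _).trans (Finset.sum_le_sum fun i _ => ?_)
    obtain ⟨j, hj⟩ := orb_pair P b hw i
    rw [hj]
    exact Finset.single_le_sum (f := fun j => |P.coroot' j u|) (fun _ _ => abs_nonneg _)
      (Finset.mem_univ j)
  have horb : ∀ (L : List b.support) u,
      (cartOf P b).Orb u (L.foldr (fun k x => (cartOf P b).s k x) u) := by
    intro L u
    induction L with
    | nil => exact Cart.Orb.refl _ _
    | cons k L ih => exact ih.step _ k
  have hroot : ∀ (L : List b.support) i, ∃ j,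
      L.foldr (fun k x => (cartOf P b).s k x) (P.root i) = P.root j := by
    intro L i
    induction L with
    | nil => exact ⟨i, rfl⟩
    | cons k L ih =>
      obtain ⟨j, hj⟩ := ih
      exact ⟨P.reflectionPerm k j, by rw [List.foldr_cons, hj, cartOf_s, P.root_reflectionPerm]⟩
  have hsurj : ∀ (L : List b.support) l, ∃ u,
      L.foldr (fun k x => (cartOf P b).s k x) u = l := by
    intro L
    induction L with
    | nil => exact fun l => ⟨l, rfl⟩
    | cons k L ih =>
      intro l
      obtain ⟨u, hu⟩ := ih ((cartOf P b).s k l)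
      exact ⟨u, by rw [List.foldr_cons, hu, Cart.s_s]⟩
  have hnn : ∀ u ∈ AddSubmonoid.closure (P.root '' b.support), u = 0 ∨ 0 < h u := by
    intro u hu
    induction hu using AddSubmonoid.closure_induction with
    | mem x hx => obtain ⟨k, hk, rfl⟩ := hx; right; rw [hβ ⟨k, hk⟩]; norm_num
    | zero => exact Or.inl rfl
    | add x y _ _ hx hy =>
      rcases hx with rfl | hx
      · simpa using hy
      · rcases hy with rfl | hy
        · right; simpa using hx
        · right; rw [map_add]; omega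
  refine ⟨⟨cartOf P b, h, hβ, x, fun u => ?_, fun u => ?_, ?_⟩, rfl⟩
  · change P.toLinearMap u r' = _
    rw [hx, map_sum]
    refine Finset.sum_congr rfl fun k _ => ?_
    rw [map_zsmul, smul_eq_mul]; rfl
  · obtain ⟨B, hB⟩ := hbd u
    exact ⟨B, fun w hw => (le_abs_self _).trans (hB w hw)⟩
  · obtain ⟨B, hB⟩ := hbd r
    obtain ⟨t, ⟨L, rfl⟩, hmin⟩ := Int.exists_least_of_bdd
      (P := fun t => ∃ L : List b.support, h (L.foldr (fun k x => (cartOf P b).s k x) r) = t)
      ⟨-B, by rintro t ⟨L, rfl⟩; exact neg_le_of_abs_le (hB _ (horb L r))⟩ ⟨_, [], rfl⟩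
    obtain ⟨w, hw⟩ := list_act P b L
    refine ⟨w, fun u => by rw [hw]; exact horb L u, fun l => ?_, fun k => ?_⟩
    · obtain ⟨u, hu⟩ := hsurj L l
      exact ⟨u, by rw [hw, hu]⟩
    · have h1 := hmin _ ⟨L ++ [k], rfl⟩
      rw [List.foldr_append, List.foldr_cons, List.foldr_nil, ← hw, ← hw] at h1
      have h2 : (cartOf P b).s k r = r - (2 : ℤ) • P.root k := by
        rw [Cart.s, ← hr k]; rfl
      rw [h2, map_sub, map_sub, map_zsmul, map_zsmul, smul_eq_mul] at h1
      obtain ⟨j, hj⟩ := hroot L k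
      rw [← hw] at hj
      change -w (P.root k) ∈ AddSubmonoid.closure (Set.range fun k : b.support => P.root k)
      rw [range_root, hj]
      rw [hj] at h1
      rcases b.root_mem_or_neg_mem j with h3 | h3
      · rcases hnn _ h3 with h4 | h4
        · exact absurd h4 (P.ne_zero j)
        · omega
      · exact h3

lemma domMax_eq (D : Sys b.support M) (hD : D.toCart = cartOf P b) (C : Set M) :
    DomMax b C = D.Dx C := by
  have h1 : Dom b C = D.Dm C := by
    ext l
    have e1 : (∀ i ∈ b.support, 0 ≤ P.coroot' i l) ↔ D.Domi l := by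
      simp only [Sys.Domi, hD]
      exact ⟨fun h k => h k k.2, fun h i hi => h ⟨i, hi⟩⟩
    have e2 : (fun u w => ∃ i ∈ b.support, w = P.reflection i u) =
        fun x y => ∃ k, y = (cartOf P b).s k x := by
      ext u w
      simp only [cartOf_s]
      exact ⟨fun ⟨i, hi, h⟩ => ⟨⟨i, hi⟩, h⟩, fun ⟨k, h⟩ => ⟨k, k.2, h⟩⟩
    simp only [Dom, Sys.Dm, Set.mem_ofPred_eq, e1, e2, Cart.Orb, hD]
  have h2 : AddSubmonoid.closure (P.root '' b.support) = D.Pos := by
    rw [Sys.Pos, hD, ← range_root]; rfl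
  simp only [DomMax, Sys.Dx, h1, h2]

end Bridge

end Pool.Agent.SX
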