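import Pool.Agent.P.MP_825e45_al.SxTwo

/-! Tails on which a color is positive. -/

namespace Pool.Agent.SX

variable {ι M N : Type} [AddCommGroup M] [AddCommGroup N] {P : RootDatum ι M N} {b : P.Base}

namespace Rep

variable {V : Type} [AddCommGroup V] [Module ℂ V] (R : Rep P b V)

/-- The sum of the irreducible submodules with highest weight in `T`. -/
def Ls (T : Set M) : Submodule ℂ V := ⨆ ν : T, R.iso ν

lemma Ls_sub (T : Set M) : R.Sub (R.Ls T) := R.sub_sSup (by rintro _ ⟨ν, rfl⟩; exact R.iso_sub ν)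

lemma iso_le_Ls {T : Set M} {ν : M} (h : ν ∈ T) : R.iso ν ≤ R.Ls T :=
  le_iSup (fun ν : T => R.iso ν) ⟨ν, h⟩

variable [Finite ι] [P.IsReduced]

lemma mem_Ls (h : R.MultFree) {T : Set M} {v : V} :
    v ∈ R.Ls T ↔ ∀ ν ∉ T, (R.I h).pr ν v = 0 := by
  refine ⟨fun hv ν hν => iSup_le (a := LinearMap.ker ((R.I h).pr ν)) (fun μ v hv => ?_) hv,
    fun hv => (R.I h).mem_of_pr fun ν => ?_⟩
  · exact (R.I h).pr_ne (ν := μ.1) hv fun e => hν (e ▸ μ.2)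
  · by_cases e : ν ∈ T
    · exact R.iso_le_Ls e ((R.I h).pr_mem ν v)
    · rw [hv ν e]; exact zero_mem _

lemma dec (h : R.MultFree) {U : Submodule ℂ V} (hU : R.Sub U) : (R.I h).Gr U := by
  classical
  have h1 : ∀ ν, (∃ x ∈ U, R.HW ν x) → ∀ y ∈ U, (R.I h).pr ν y ∈ U := by
    rintro ν ⟨x, hx, hx'⟩ y _
    exact R.Wd_le (J := Set.univ) (fun j _ v hv => (hU.1 j v hv).2) (X := {x})
      (by rintro _ rfl; exact hx) (hx'.iso_eq h ▸ (R.I h).pr_mem ν y)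
  let Z := U ⊓ ⨅ ν : {ν // ∃ x ∈ U, R.HW ν x}, LinearMap.ker ((R.I h).pr ν)
  have hZ : ∀ v, v ∈ Z ↔ v ∈ U ∧ ∀ ν, (∃ x ∈ U, R.HW ν x) → (R.I h).pr ν v = 0 := fun v => by
    simp only [Z, Submodule.mem_inf, Submodule.mem_iInf, Subtype.forall, LinearMap.mem_ker]
  have h0 : Z = ⊥ := by
    by_contra h0
    obtain ⟨μ, v, hv, hv'⟩ := R.exists_HW h.1 (U := Z)
      (fun v hv μ => (hZ _).mpr ⟨hU.gr v hv.1 μ, fun ν hν => by
        rw [I_pr, ((hZ v).mp hv).2 ν hν, map_zero]⟩)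
      (fun i v hv => (hZ _).mpr ⟨(hU.1 i v hv.1).1, fun ν hν => by
        rw [I_e, ((hZ v).mp hv).2 ν hν, map_zero]⟩) h0
    exact hv'.1 (((R.I h).pr_self (hv'.mem_iso h)).symm.trans (((hZ v).mp hv).2 μ ⟨v, hv.1, hv'⟩))
  intro y hy ν
  by_cases e : ∃ x ∈ U, R.HW ν x
  · exact h1 ν e y hy
  obtain ⟨s, hs, _⟩ := (R.I h).exists_sum y
  have h2 : y - ∑ ρ ∈ s with ∃ x ∈ U, R.HW ρ x, (R.I h).pr ρ y ∈ Z := by
    refine (hZ _).mpr ⟨sub_mem hy (Submodule.sum_mem _ fun ρ hρ =>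
      h1 ρ (Finset.mem_filter.mp hρ).2 y hy), fun ρ hρ => ?_⟩
    rw [map_sub, map_sum, Finset.sum_eq_single ρ (fun σ _ h3 => (R.I h).pr_ne ((R.I h).pr_mem σ y) h3)
      fun h3 => by rw [hs ρ fun h4 => h3 (Finset.mem_filter.mpr ⟨h4, hρ⟩), map_zero],
      (R.I h).pr_self ((R.I h).pr_mem ρ y), sub_self]
  rw [h0, Submodule.mem_bot, sub_eq_zero] at h2
  rw [h2, map_sum, Finset.sum_eq_zero fun ρ hρ => (R.I h).pr_ne ((R.I h).pr_mem ρ y)
    fun (e0 : ρ = ν) => e (e0 ▸ (Finset.mem_filter.mp hρ).2)]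
  exact zero_mem _

end Rep

/-- A set of weights closed under lowering. -/
structure Low (Γ : AddSubmonoid M) where
  T : Set M
  cl : ∀ t ∈ T, ∀ ρ ∈ Γ, t - ρ ∈ T

namespace Ctx

open Rep Polynomial

variable {A : Type} [CommRing A] [Algebra ℂ A] {R : Rep P b A} (c : Ctx R)

include c

omit c in
lemma der_mul (d : Derivation ℂ A A) {U W : Submodule ℂ A} (hU : ∀ v ∈ U, d v ∈ U)
    (hW : ∀ v ∈ W, d v ∈ W) : ∀ v ∈ U * W, d v ∈ U * W := fun _ hv =>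
  Submodule.mul_induction_on hv (fun u hu w hw => by
    rw [Derivation.leibniz, smul_eq_mul, smul_eq_mul, mul_comm w]
    exact add_mem (Submodule.mul_mem_mul hu (hW w hw)) (Submodule.mul_mem_mul (hU u hu) hw))
    fun x y hx hy => by rw [map_add]; exact add_mem hx hy

omit c in
lemma mul_ind {W : Type} [AddCommGroup W] [Module ℂ W] (g : A →ₗ[ℂ] W) (Z : Submodule ℂ W)
    {x y w : A} (h : ∀ L L', g (R.fw L x * R.fw L' y) ∈ Z)
    (hw : w ∈ R.Wd Set.univ {x} * R.Wd Set.univ {y}) : g w ∈ Z := by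
  refine Submodule.mul_induction_on hw (fun u hu w hw' => ?_) fun x y hx hy => by
    rw [map_add]; exact add_mem hx hy
  refine R.Wd_map (g ∘ₗ LinearMap.mulRight ℂ w) Z (fun L _ x' hx' => ?_) hu
  refine R.Wd_map (g ∘ₗ LinearMap.mulLeft ℂ (R.fw L x')) Z (fun L' _ y' hy' => ?_) hw'
  rw [(hx' : x' = x), (hy' : y' = y)]
  exact h L L'

variable [Finite ι] [P.IsReduced] {Γ : AddSubmonoid M} (hΓ : ∀ τ, R.Tail τ → τ ∈ Γ)

include hΓ in
lemma Ls_mul {T T' T'' : Set M} (hT : ∀ ν ∈ T, ∀ ν' ∈ T', ∀ n, ν + ν' - n ∈ Γ → n ∈ T'') {u w : A}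
    (hu : u ∈ R.Ls T) (hw : w ∈ R.Ls T') : u * w ∈ R.Ls T'' := by
  refine iSup_le (a := (R.Ls T'').comap (LinearMap.mulRight ℂ w)) (fun ν u hu => ?_) hu
  refine iSup_le (a := (R.Ls T'').comap (LinearMap.mulLeft ℂ u)) (fun ν' w hw => ?_) hw
  change u * w ∈ R.Ls T''
  rcases R.iso_cases c.mf ν with h1 | ⟨_, x, _, hx⟩
  · rw [h1] at hu; rw [show u = 0 from hu, zero_mul]; exact zero_mem _
  rcases R.iso_cases c.mf ν' with h1 | ⟨_, y, _, hy⟩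
  · rw [h1] at hw; rw [show w = 0 from hw, mul_zero]; exact zero_mem _
  have hg : R.G.Gr (R.iso ν * R.iso ν') := R.gr_of_H fun φ => der_mul (c.dH φ)
    (fun _ => (R.iso_sub ν).gr.dg _) fun _ => (R.iso_sub ν').gr.dg _
  have he : ∀ i, ∀ v ∈ R.iso ν * R.iso ν', R.e i v ∈ R.iso ν * R.iso ν' := fun i =>
    der_mul (c.dE i) (fun v hv => ((R.iso_sub ν).1 i v hv).1)
      fun v hv => ((R.iso_sub ν').1 i v hv).1
  have h2 := R.dec c.mf ((R.sub_iff _).mpr ⟨fun i v hv => ⟨he i v hv, der_mul (c.dF i)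
    (fun v hv => ((R.iso_sub ν).1 i v hv).2) (fun v hv => ((R.iso_sub ν').1 i v hv).2) v hv⟩, hg⟩)
    _ (Submodule.mul_mem_mul hu hw)
  refine (R.mem_Ls c.mf).mpr fun n hn => by_contra fun h0 => hn ?_
  obtain ⟨n', z, hz, hz'⟩ := R.exists_HW c.mf.1 (U := (R.iso ν * R.iso ν') ⊓ R.iso n)
    (hg.inf (R.iso_sub n).gr) (fun i v hv => ⟨he i v hv.1, ((R.iso_sub n).1 i v hv.2).1⟩)
    ((Submodule.ne_bot_iff _).mpr ⟨_, ⟨h2 n, (R.I c.mf).pr_mem n _⟩, h0⟩)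
  obtain rfl := R.iso_hw c.mf hz' hz.2
  exact hT _ ν.2 _ ν'.2 _ (hΓ _ ⟨_, _, _, x, y, z, hx, hy, hz', by
    rw [hx.gen_eq, hy.gen_eq, ← hx.iso_eq c.mf, ← hy.iso_eq c.mf]; exact hz.1, rfl⟩)

include hΓ in
lemma Ls_iso (T : Low Γ) {σ σ' : M} {u w : A} (hu : u ∈ R.Ls {ν | ν - σ ∈ T.T})
    (hw : w ∈ R.iso σ') : u * w ∈ R.Ls {ν | ν - (σ + σ') ∈ T.T} := by
  refine c.Ls_mul hΓ (T' := {σ'}) ?_ hu (R.iso_le_Ls (Set.mem_singleton σ') hw)
  intro ν hν ν' hν' n hn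
  rw [(hν' : ν' = σ')] at hn
  have := T.cl _ hν _ hn
  rwa [show ν - σ - (ν + σ' - n) = n - (σ + σ') by abel] at this

variable [IsDomain A] {K : Type} [Field K] [Algebra ℂ K] [Algebra A K] [IsScalarTower ℂ A K]

/-- Fractions with eigenfunction denominators. -/
def Y (K : Type) [Field K] [Algebra ℂ K] [Algebra A K] [IsScalarTower ℂ A K] (T : Low Γ) :
    Submodule ℂ K where
  carrier := {y | ∃ σ s u, R.HW σ s ∧ u ∈ R.Ls {ν | ν - σ ∈ T.T} ∧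
    y * algebraMap A K s = algebraMap A K u}
  zero_mem' := ⟨0, 1, 0, c.hw_one, zero_mem _, by simp⟩
  add_mem' := by
    rintro y y' ⟨σ, s, u, h1, h3, h4⟩ ⟨σ', s', u', h1', h3', h4'⟩
    refine ⟨_, _, u * s' + u' * s, c.hw_mul h1 h1',
      add_mem (c.Ls_iso hΓ T h3 (h1'.mem_iso c.mf)) ?_, ?_⟩
    · rw [add_comm σ]; exact c.Ls_iso hΓ T h3' (h1.mem_iso c.mf)
    · rw [map_add, map_mul, map_mul, map_mul, ← h4, ← h4']; ring
  smul_mem' := by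
    rintro t y ⟨σ, s, u, h1, h3, h4⟩
    refine ⟨σ, s, t • u, h1, Submodule.smul_mem _ _ h3, ?_⟩
    rw [smul_mul_assoc, h4]; exact (map_smul (IsScalarTower.toAlgHom ℂ A K) t u).symm

lemma Y_mul {T T' T'' : Low Γ} (hT : ∀ t ∈ T.T, ∀ t' ∈ T'.T, t + t' ∈ T''.T) {y y' : K}
    (h : y ∈ c.Y hΓ K T) (h' : y' ∈ c.Y hΓ K T') : y * y' ∈ c.Y hΓ K T'' := by
  obtain ⟨σ, s, u, h1, h3, h4⟩ := h
  obtain ⟨σ', s', u', h1', h3', h4'⟩ := h'
  refine ⟨_, _, u * u', c.hw_mul h1 h1', c.Ls_mul hΓ (fun ν hν ν' hν' n hn => ?_) h3 h3', ?_⟩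
  · have := T''.cl _ (hT _ hν _ hν') _ hn
    rwa [show ν - σ + (ν' - σ') - (ν + ν' - n) = n - (σ + σ') by abel] at this
  · rw [map_mul, map_mul, ← h4, ← h4']; ring

lemma Y_mono {T T' : Low Γ} (hT : T.T ⊆ T'.T) : c.Y hΓ K T ≤ c.Y hΓ K T' := by
  rintro y ⟨σ, s, u, h1, h3, h4⟩
  exact ⟨σ, s, u, h1, (R.mem_Ls c.mf).mpr fun ν hν =>
    (R.mem_Ls c.mf).mp h3 ν fun h => hν (hT h), h4⟩

lemma Y_iso {T : Low Γ} {y : K} {σ μ : M} {s a : A} (hs : R.HW σ s) (ha : a ∈ R.iso (σ + μ))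
    (h : y * algebraMap A K s = algebraMap A K a) (hμ : μ ∈ T.T) : y ∈ c.Y hΓ K T :=
  ⟨σ, s, a, hs, R.iso_le_Ls (by simpa using hμ) ha, h⟩

lemma Y_der (d : Derivation ℂ K K) {δ : A → A}
    (hd : ∀ a, d (algebraMap A K a) = algebraMap A K (δ a))
    (hδ : ∀ W, R.Sub W → ∀ v ∈ W, δ v ∈ W) {T : Low Γ} {y : K} (hy : y ∈ c.Y hΓ K T) :
    d y ∈ c.Y hΓ K T := by
  obtain ⟨σ, s, u, h1, h3, h4⟩ := hy
  refine ⟨_, _, δ u * s - u * δ s, c.hw_mul h1 h1,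
    sub_mem (c.Ls_iso hΓ T (hδ _ (R.Ls_sub _) _ h3) (h1.mem_iso c.mf))
      (c.Ls_iso hΓ T h3 (hδ _ (R.iso_sub _) _ (h1.mem_iso c.mf))), ?_⟩
  rw [map_sub, map_mul, map_mul, map_mul, ← hd, ← hd, ← h4, Derivation.leibniz]
  simp only [smul_eq_mul]; ring

variable [IsFractionRing A K]
  {e f : b.support → Derivation ℂ K K} {h : (M →+ ℤ) → Derivation ℂ K K} (x : Ext R e f h)

include hΓ x

/-- The valuation of the leading term bounds the valuation. -/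
theorem lead {i : b.support} {p p' : Ideal A} {τ τ' : K} (t : c.TD e f h i p p' τ τ') [p.IsPrime]
    (D : DV K p) (m : M →+ ℚ) (hm : ∀ ρ ∈ Γ, 0 ≤ m ρ) (hi : m (P.root i) = 0) {l : M} {a g : A}
    (ha : R.HW l a) (hg : g ∈ R.Ls {ν | m ν < m l}) {k : ℤ}
    (hy : algebraMap A K (a + g) ∈ D.Ge k) : k ≤ D.v (algebraMap A K a) := by
  have : CharZero K := charZero_of_injective_algebraMap (algebraMap ℂ K).injective
  let R0 : Low Γ := ⟨{ν | m ν ≤ 0}, fun t ht ρ hρ => by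
    have := hm ρ hρ
    simp only [Set.mem_ofPred_eq, map_sub] at ht ⊢; linarith⟩
  let N0 : Low Γ := ⟨{ν | m ν < 0}, fun t ht ρ hρ => by
    have := hm ρ hρ
    simp only [Set.mem_ofPred_eq, map_sub] at ht ⊢; linarith⟩
  have mR : ∀ {y y' : K}, y ∈ c.Y hΓ K R0 → y' ∈ c.Y hΓ K R0 → y * y' ∈ c.Y hΓ K R0 :=
    c.Y_mul hΓ fun t ht t' ht' => by
      simp only [R0, Set.mem_ofPred_eq, map_add] at ht ht' ⊢; linarith
  have mN : ∀ {y y' : K}, y ∈ c.Y hΓ K R0 → y' ∈ c.Y hΓ K N0 → y * y' ∈ c.Y hΓ K N0 :=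
    c.Y_mul hΓ fun t ht t' ht' => by
      simp only [R0, N0, Set.mem_ofPred_eq, map_add] at ht ht' ⊢; linarith
  have pR : ∀ {y : K}, y ∈ c.Y hΓ K R0 → ∀ n : ℕ, y ^ n ∈ c.Y hΓ K R0 := by
    intro y hy n
    induction n with
    | zero =>
      exact c.Y_iso hΓ c.hw_one (μ := 0) (a := 1) (by simpa using c.hw_one.mem_iso c.mf)
        (by simp) (by simp [R0])
    | succ n ih => rw [pow_succ]; exact mR ih hy
  obtain ⟨σ, s, s', hs, hs', h1⟩ := t.d_eig x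
  have hd := c.Y_iso hΓ (T := R0) hs (hs'.mem_iso c.mf) h1 (by simp [R0, hi])
  have hd' := c.Y_iso hΓ (T := R0) (y := (τ⁻¹ - τ'⁻¹)⁻¹) (μ := P.root i) (a := s) hs'
    (by simpa using hs.mem_iso c.mf) (by rw [← h1, inv_mul_cancel_left₀ t.d_ne]) (by simp [R0, hi])
  have hσ : τ⁻¹ ∈ c.Y hΓ K R0 := by
    obtain ⟨μ, a, h2, h3⟩ := c.hw_of_moves t.mv
    obtain ⟨m, n, y, h4, h5, _, h6, _⟩ := t.fac μ a h3
    have h0 := (map_ne_zero_iff _ x.inj).mpr h3.1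
    have h7 := (D.ge_iff h0).mp ((D.p_iff a).mp h2)
    rw [h6, t.val_aux x D h4 h5, t.val x D] at h7
    have h8 := c.Y_iso hΓ (T := R0) (μ := 0) h3 (by
      rw [add_zero]; exact ((R.iso_sub μ).1 i a (h3.mem_iso c.mf)).2) (t.f_eq x h5 h6).symm
      (by simp [R0])
    have h9 := sub_mem (Submodule.smul_mem _ (n : ℂ) hd) h8
    have h10 : (n : ℂ) • (τ⁻¹ - τ'⁻¹) - -(m * τ⁻¹ + n * τ'⁻¹) = ((m + n : ℕ) : ℂ) • τ⁻¹ := by
      simp only [Nat.cast_smul_eq_nsmul, nsmul_eq_mul]; push_cast; ring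
    rwa [h10, Submodule.smul_mem_iff _ (Nat.cast_ne_zero.mpr (by omega))] at h9
  have hN : ∀ n : ℕ, τ⁻¹ ^ n ∉ c.Y hΓ K N0 := by
    intro n
    induction n with
    | zero =>
      rintro ⟨σ, s, u, h2, h3, h4⟩
      rw [pow_zero, one_mul, x.inj.eq_iff] at h4
      exact h2.1 (((R.I c.mf).pr_self (h2.mem_iso c.mf)).symm.trans
        ((R.mem_Ls c.mf).mp (h4 ▸ h3) σ (by simp [N0])))
    | succ n ih =>
      intro h2
      have h3 := c.Y_der hΓ (e i) (x.he i) (fun W hW v hv => (hW.1 i v hv).1) h2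
      have h4 : e i (τ⁻¹ ^ (n + 1)) = (-((n + 1 : ℕ) : ℂ)) • τ⁻¹ ^ n := by
        rw [Derivation.leibniz_pow, Derivation.leibniz_inv, t.sp.he, neg_smul ((n + 1 : ℕ) : ℂ),
          Nat.cast_smul_eq_nsmul]
        simp [t.sp.ne]
      rw [h4, Submodule.smul_mem_iff _ (neg_ne_zero.mpr (Nat.cast_ne_zero.mpr n.succ_ne_zero))] at h3
      exact ih h3
  obtain ⟨n, n', y, h2, h3, _, h4, h5⟩ := t.fac l a ha
  have h0 := (map_ne_zero_iff _ x.inj).mpr ha.1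
  rw [h4, t.val_aux x D h2 h3, t.val x D, mul_one]
  by_contra hk
  have h6 : ∀ j : ℕ, algebraMap A K ((R.f i ^ j) (a + g)) ∈ D.Ge (k - j) := by
    intro j
    induction j with
    | zero => simpa using hy
    | succ j ih =>
      rw [pow_succ', Module.End.mul_apply, ← x.hf, Nat.cast_succ, ← sub_sub]
      exact D.d_pred (f i) (x.hf i) ih
  have h7 : ((c.lnd i).Φ (a + g)).coeff n ∈ c.kr i τ := by
    rw [t.kr, LND.coeff_Φ]
    exact (p.restrictScalars ℂ).smul_mem _ ((D.p_iff _).mpr (D.Ge_mono (by omega) (h6 n)))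
  have h8 : (c.Ψ K i (((c.lnd i).Φ a).coeff n)).eval τ = y * (τ - τ') ^ n' := by
    have : c.Ψ K i (((c.lnd i).Φ a).coeff n) = hasseDeriv n (c.Ψ K i a) := by
      ext k; simp [Ψ, ← LND.hasse, hasseDeriv_coeff]
    rw [this, ← taylor_coeff, h5, taylor_mul, taylor_mul, taylor_pow, map_sub, taylor_X, taylor_C,
      taylor_C, add_sub_cancel_right, mul_right_comm, coeff_mul_X_pow', if_pos le_rfl,
      Nat.sub_self, mul_coeff_zero, taylor_coeff_zero]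
    simp
  have hF : ∀ u ∈ R.Ls {ν | m ν < m l}, ∀ j, ((c.lnd i).Φ u).coeff j ∈ R.Ls {ν | m ν < m l} := by
    intro u hu j
    rw [LND.coeff_Φ]
    refine Submodule.smul_mem _ _ ?_
    induction j with
    | zero => exact hu
    | succ j ih => rw [pow_succ', Module.End.mul_apply]; exact ((R.Ls_sub _).1 i _ ih).2
  rw [mem_kr, map_add, coeff_add, map_add, eval_add, h8] at h7
  have h9 := hF g hg n
  generalize ((c.lnd i).Φ g).coeff n = u at h7 h9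
  have h10 : τ⁻¹ ^ (c.Ψ K i u).natDegree * (c.Ψ K i u).eval τ * (algebraMap A K a)⁻¹ ∈
      c.Y hΓ K N0 := by
    rw [eval_eq_sum_range, Finset.mul_sum, Finset.sum_mul]
    refine Submodule.sum_mem _ fun j hj => ?_
    obtain ⟨r, hr⟩ := Nat.exists_eq_add_of_le (Nat.lt_succ_iff.mp (Finset.mem_range.mp hj))
    have e1 : τ⁻¹ ^ (j + r) * ((c.Ψ K i u).coeff j * τ ^ j) * (algebraMap A K a)⁻¹ =
        τ⁻¹ ^ r * ((c.Ψ K i u).coeff j * (algebraMap A K a)⁻¹) := by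
      have := t.sp.ne
      rw [pow_add, inv_pow τ j]; field_simp
    rw [hr, e1]
    exact mN (pR hσ r) ⟨l, a, _, ha, by simpa [N0] using hF u h9 j, by
      rw [inv_mul_cancel_right₀ h0]; simp [Ψ]⟩
  have h11 := mN (mR (pR hσ n') (pR hd' n')) h10
  have h12 : τ⁻¹ ^ n' * (τ⁻¹ - τ'⁻¹)⁻¹ ^ n' * (τ⁻¹ ^ (c.Ψ K i u).natDegree * (c.Ψ K i u).eval τ *
      (algebraMap A K a)⁻¹) = (-(-1) ^ n : ℂ) • τ⁻¹ ^ ((c.Ψ K i u).natDegree + n) := by
    have e1 : τ - τ' = -τ' * (τ * (τ⁻¹ - τ'⁻¹)) := by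
      have := t.sp.ne; have := t.sp'.ne; field_simp; ring
    have e2 : ((-1 : K) ^ n) ^ 2 = 1 := by rw [← pow_mul, mul_comm, pow_mul]; simp
    rw [eq_neg_of_add_eq_zero_right h7, h4, e1, neg_pow τ, Algebra.smul_def, pow_add]
    have := t.sp.ne; have := t.sp'.ne; have := t.d_ne
    generalize τ⁻¹ - τ'⁻¹ = d at *
    simp only [mul_pow, map_neg, map_pow, map_one, inv_pow]
    field_simp
    rw [e2, div_self (pow_ne_zero _ (neg_ne_zero.mpr t.sp'.ne))]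
  rw [h12, Submodule.smul_mem_iff _ (by simp)] at h11
  exact hN _ h11

theorem tail_mem {p : Ideal A} [p.IsPrime] (D : DV K p) (hpe : ∀ j, ∀ a ∈ p, R.e j a ∈ p)
    (hpg : R.G.Gr (p.restrictScalars ℂ)) (m w : M →+ ℚ)
    (hm : ∀ ρ ∈ Γ, 0 ≤ m ρ ∧ (m ρ = 0 → ρ = 0 ∨ 0 < w ρ))
    (hw : ∀ μ a, R.HW μ a → w μ = D.v (algebraMap A K a)) (I : Set b.support) (hI0 : I.Nonempty)
    (hJ : ∀ j ∉ I, ∀ a ∈ p, R.f j a ∈ p)
    (hI : ∀ i ∈ I, P.root i ∈ Γ ∧ m (P.root i) = 0 ∧ w (P.root i) = 1 ∧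
      ∃ p' τ τ', c.TD e f h i p p' τ τ')
    {τ : M} (hτ : R.Tail τ) (h0 : m τ = 0) : ∃ L : List b.support, (∀ i ∈ L, i ∈ I) ∧ τ = rs b L := by
  classical
  let dn : M → Low Γ := fun κ => ⟨{ν | κ - ν ∈ Γ}, fun t ht ρ hρ => by
    have := Γ.add_mem ht hρ
    rwa [show κ - t + ρ = κ - (t - ρ) by abel] at this⟩
  have md : ∀ {κ κ' : M} {y y' : K}, y ∈ c.Y hΓ K (dn κ) → y' ∈ c.Y hΓ K (dn κ') →
      y * y' ∈ c.Y hΓ K (dn (κ + κ')) := fun {κ κ'} => c.Y_mul hΓ fun t ht t' ht' => by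
    have := Γ.add_mem ht ht'
    rwa [sub_add_sub_comm] at this
  let S : M → ℤ → Submodule ℂ K := fun κ k => ⨆ L : {L : List b.support // ∀ i ∈ L, i ∈ I},
    c.Y hΓ K (dn (κ - rs b L)) ⊓ D.Ge (k - L.1.length)
  have mS : ∀ κ k (L : List b.support), (∀ i ∈ L, i ∈ I) → ∀ y ∈ c.Y hΓ K (dn (κ - rs b L)),
      y ∈ D.Ge (k - L.length) → y ∈ S κ k := fun κ k L hL y h1 h2 =>
    Submodule.mem_iSup_of_mem (p := fun L : {L : List b.support // ∀ i ∈ L, i ∈ I} =>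
      c.Y hΓ K (dn (κ - rs b L)) ⊓ D.Ge (k - L.1.length)) ⟨L, hL⟩ ⟨h1, h2⟩
  have Sm : ∀ κ κ' k k', ∀ y ∈ S κ k, ∀ y' ∈ S κ' k', y * y' ∈ S (κ + κ') (k + k') := by
    intro κ κ' k k' y hy y' hy'
    refine iSup_le (a := (S (κ + κ') (k + k')).comap (LinearMap.mulRight ℂ y'))
      (fun L y hy => ?_) hy
    refine iSup_le (a := (S (κ + κ') (k + k')).comap (LinearMap.mulLeft ℂ y))
      (fun L' y' hy' => ?_) hy'
    refine mS _ _ (L ++ L') (fun i hi => (List.mem_append.mp hi).elim (L.2 i) (L'.2 i)) (y * y')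
      ?_ ?_
    · rw [rs_append, ← sub_add_sub_comm]; exact md hy.1 hy'.1
    · rw [List.length_append, Nat.cast_add, ← sub_add_sub_comm]; exact D.Ge_mul hy.2 hy'.2
  have Sf : ∀ κ k i, ∀ y ∈ S κ k, f i y ∈ S κ k := by
    intro κ k i y hy
    refine iSup_le (a := (S κ k).comap (f i).toLinearMap) (fun L y hy => ?_) hy
    change f i y ∈ S κ k
    have h1 := c.Y_der hΓ (f i) (x.hf i) (fun W hW v hv => (hW.1 i v hv).2) hy.1
    by_cases hi : i ∈ I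
    · obtain ⟨h2, _, _, p', s, s', t⟩ := hI i hi
      obtain ⟨σ, a, a', ha, ha', h3⟩ := t.d_eig x
      have h4 := md hy.1 (c.Y_iso hΓ (T := dn (-P.root i)) ha (ha'.mem_iso c.mf) h3 (by simp [dn]))
      have h5 := D.Ge_mul hy.2 (t.d_val x D ▸ D.mem_v (s⁻¹ - s'⁻¹))
      have h6 := mS κ k (i :: L) (by simpa [hi] using L.2) _
        (by rwa [rs_cons, add_comm, ← sub_sub, sub_eq_add_neg _ (P.root i)])
        (by rwa [List.length_cons, Nat.cast_succ, ← sub_sub, sub_eq_add_neg _ 1])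
      rw [← Submodule.add_mem_iff_left _ (Submodule.smul_mem _ _ h6)]
      refine mS κ k L L.2 _ (add_mem h1 (Submodule.smul_mem _ _ (c.Y_mono hΓ (fun ν hν => ?_) h4)))
        (t.step x D hy.2)
      have := Γ.add_mem hν h2
      rwa [show κ - rs b L + -P.root i - ν + P.root i = κ - rs b L - ν by abel] at this
    · exact mS κ k L L.2 _ h1 (D.d_stab (f i) (x.hf i) (hJ i hi) hy.2)
  have word : ∀ l u, R.HW l u → ∀ L, algebraMap A K (R.fw L u) ∈ S l (D.v (algebraMap A K u)) := by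
    intro l u hu L
    induction L with
    | nil =>
      exact mS _ _ [] (by simp) _ (c.Y_iso hΓ c.hw_one (μ := l) (by simpa using hu.mem_iso c.mf)
        (by simp [fw]) (by simp [dn, rs_nil])) (by simpa [fw] using D.mem_v _)
    | cons i L ih => exact x.hf i _ ▸ Sf _ _ i _ ih
  obtain ⟨l, l', n, u, u', z, hu, hu', hz, h1, rfl⟩ := hτ
  rw [hu.gen_eq, hu'.gen_eq] at h1
  have h2 : algebraMap A K z ∈ S (l + l') (D.v (algebraMap A K u) + D.v (algebraMap A K u')) :=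
    mul_ind (IsScalarTower.toAlgHom ℂ A K).toLinearMap _ (fun L L' => by
      simpa using Sm _ _ _ _ _ (word l u hu L) _ (word l' u' hu' L')) h1
  by_contra hne
  push Not at hne
  let T : Low Γ := ⟨{ν | m ν ≤ m n ∧ (m ν = m n → w ν ≤ w n ∧ ν ≠ n)}, fun t ht ρ hρ => by
    obtain ⟨h3, h4⟩ := hm ρ hρ
    simp only [Set.mem_ofPred_eq, map_sub] at ht ⊢
    refine ⟨by linarith [ht.1], fun h5 => ?_⟩
    obtain ⟨h6, h7⟩ := ht.2 (by linarith [ht.1])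
    rcases h4 (by linarith [ht.1]) with rfl | h8
    · simpa using ⟨h6, h7⟩
    · refine ⟨by linarith, fun h9 => ?_⟩
      rw [← h9, map_sub] at h6; linarith⟩
  have h3 : algebraMap A K z ∈ c.Y hΓ K T ⊔ D.Ge (D.v (algebraMap A K z) + 1) := by
    refine iSup_le (a := c.Y hΓ K T ⊔ D.Ge (D.v (algebraMap A K z) + 1)) (fun L => ?_) h2
    have e1 : ∀ L : List b.support, (∀ i ∈ L, i ∈ I) → m (rs b L) = 0 ∧ w (rs b L) = L.length := by
      intro L hL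
      induction L with
      | nil => simp [rs_nil]
      | cons i L ih =>
        obtain ⟨_, h4, h5, _⟩ := hI i (hL i (by simp))
        obtain ⟨h6, h7⟩ := ih fun j hj => hL j (by simp [hj])
        rw [rs_cons, map_add, map_add, h4, h5, h6, h7]
        simp [add_comm]
    obtain ⟨e2, e3⟩ := e1 L L.2
    by_cases hk : D.v (algebraMap A K u) + D.v (algebraMap A K u') - L.1.length ≤
        D.v (algebraMap A K z)
    · refine inf_le_left.trans ((c.Y_mono hΓ fun ν hν => ?_).trans le_sup_left)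
      have h4 : l + l' - rs b L ∈ T.T := by
        simp only [map_sub, map_add] at h0
        refine ⟨by rw [map_sub, map_add, e2]; linarith, fun _ => ⟨?_, fun h5 => hne L L.2 ?_⟩⟩
        · rw [map_sub, map_add, e3, hw l u hu, hw l' u' hu', hw n z hz]; exact_mod_cast hk
        · rw [← h5, sub_sub_cancel]
      simpa using T.cl _ h4 _ hν
    · exact inf_le_right.trans (le_sup_of_le_right fun y => D.Ge_mono (by omega))
  obtain ⟨a, ⟨σ, s, r, h6, h8, h9⟩, o, ho, e3⟩ := Submodule.mem_sup.mp h3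
  have hz0 : algebraMap A K z ≠ 0 := (map_ne_zero_iff _ x.inj).mpr hz.1
  have hs0 : algebraMap A K s ≠ 0 := (map_ne_zero_iff _ x.inj).mpr h6.1
  have hzs := c.hw_mul hz h6
  obtain ⟨k, hk⟩ : ∃ k, k = D.v (algebraMap A K (z * s)) + 1 := ⟨_, rfl⟩
  obtain ⟨U, hU⟩ : ∃ U : Submodule ℂ A, ∀ v, v ∈ U ↔ algebraMap A K v ∈ D.Ge k :=
    ⟨(D.Ge k).comap (IsScalarTower.toAlgHom ℂ A K).toLinearMap, fun _ => Iff.rfl⟩
  have st : ∀ (d : Derivation ℂ K K) (δ : A → A), (∀ a, d (algebraMap A K a) = algebraMap A K (δ a)) →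
      (∀ a ∈ p, δ a ∈ p) → ∀ v ∈ U, δ v ∈ U := fun d δ h1 h2 v hv => by
    rw [hU, ← h1]; exact D.d_stab d h1 h2 ((hU v).mp hv)
  let T' : Set M := {ν | m ν ≤ m (n + σ) ∧ (m ν = m (n + σ) → w ν ≤ w (n + σ))}
  have h13 : z * s - r ∈ U ⊓ R.Ls T' := by
    refine ⟨(hU _).mpr ?_, sub_mem (R.iso_le_Ls (T := T') ⟨le_rfl, fun _ => le_rfl⟩ (hzs.mem_iso c.mf))
      ((R.mem_Ls c.mf).mpr fun ν hν => (R.mem_Ls c.mf).mp h8 ν fun h4 => hν ?_)⟩
    · rw [hk, map_sub, map_mul, D.v_mul hz0 hs0, ← h9, add_right_comm]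
      nth_rw 2 [← e3]
      rw [add_mul, add_sub_cancel_left]
      exact D.Ge_mul ho (D.mem_v _)
    · obtain ⟨h4, h5⟩ := h4
      simp only [map_sub, map_add, T', Set.mem_ofPred_eq] at h4 h5 ⊢
      exact ⟨by linarith, fun h7 => by linarith [(h5 (by linarith)).1]⟩
  let top := (R.I c.mf).dg fun ν => if m ν = m (n + σ) then 1 else 0
  have tc : ∀ g : A →ₗ[ℂ] A, (∀ W, R.Sub W → ∀ v ∈ W, g v ∈ W) → ∀ v, top (g v) = g (top v) :=
    fun g hg => (R.I c.mf).ext (S := top ∘ₗ g) (T := g ∘ₗ top) fun ν v hv => by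
      simp only [LinearMap.comp_apply, top]
      rw [(R.I c.mf).dg_mem _ hv, (R.I c.mf).dg_mem _ (hg _ (R.iso_sub ν) v hv), map_smul]
  obtain ⟨μ, _, ⟨y, hy, rfl⟩, hy'⟩ := R.exists_HW c.mf.1 (U := (U ⊓ R.Ls T').map top)
    (by rintro _ ⟨y, hy, rfl⟩ μ
        exact ⟨_, ((R.gr_of_H fun φ => st (h φ) _ (x.hh φ) fun a ha => hpg.dg _ ha).inf
          (R.Ls_sub T').gr) y hy μ, tc _ (fun W hW v hv => hW.gr v hv μ) y⟩)
    (by rintro i _ ⟨y, hy, rfl⟩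
        exact ⟨_, ⟨st (e i) _ (x.he i) (hpe i) y hy.1, ((R.Ls_sub T').1 i y hy.2).1⟩,
          tc _ (fun W hW v hv => (hW.1 i v hv).1) y⟩)
    ((Submodule.ne_bot_iff _).mpr ⟨_, ⟨_, h13, rfl⟩, fun h4 => hzs.1 (by
      have h5 := (R.I c.mf).pr_dg (fun ν => if m ν = m (n + σ) then 1 else 0) (n + σ) (z * s - r)
      rw [h4, map_zero, map_sub, (R.mem_Ls c.mf).mp h8 _ (by simp [T]),
        (R.I c.mf).pr_self (hzs.mem_iso c.mf)] at h5
      simpa using h5.symm)⟩)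
  have h14 := (R.I c.mf).pr_dg (fun ν => if m ν = m (n + σ) then 1 else 0) μ y
  rw [(R.I c.mf).pr_self (hy'.mem_iso c.mf)] at h14
  have h15 : m μ = m (n + σ) := by_contra fun h4 => hy'.1 (by rwa [if_neg h4, zero_smul] at h14)
  have h16 : μ ∈ T' := by_contra fun h4 => hy'.1 (by
    rw [(R.mem_Ls c.mf).mp hy.2 μ h4, smul_zero] at h14; exact h14)
  obtain ⟨i, hi⟩ := hI0
  obtain ⟨_, h4, _, p', t, t', tt⟩ := hI i hi
  have h17 := c.lead hΓ x tt D m (fun ρ hρ => (hm ρ hρ).1) h4 hy' (g := y - top y) (k := k)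
    ((R.mem_Ls c.mf).mpr fun ν hν => by
      rw [map_sub, (R.I c.mf).pr_dg]
      by_cases e0 : m ν = m (n + σ)
      · simp [e0]
      · rw [(R.mem_Ls c.mf).mp hy.2 ν fun h5 => hν (by rw [h15]; exact lt_of_le_of_ne h5.1 e0)]
        simp)
    (by rw [add_sub_cancel]; exact (hU y).mp hy.1)
  have h18 := h16.2 h15
  rw [hw _ _ hy', hw _ _ hzs] at h18
  have h19 : D.v (algebraMap A K (top y)) ≤ D.v (algebraMap A K (z * s)) := by exact_mod_cast h18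
  omega

end Ctx

end Pool.Agent.SX
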