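import Pool.Agent.P.MP_825e45_al.SxQuad

/-! A root of type T gives a parabolic of even spherical type. -/

namespace Pool.Agent.SX

open Polynomial

section Der

variable {K : Type} [Field K] [Algebra ℂ K]

lemma transc (D : Derivation ℂ K K) {y : K} (hy : D y ≠ 0) (S : Type) [CommRing S] [Algebra S K]
    (hS : Function.Injective (algebraMap S K)) (h : ∀ s, D (algebraMap S K s) = 0) :
    Transcendental S y := by
  have : CharZero K := charZero_of_injective_algebraMap (algebraMap ℂ K).injective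
  have key : ∀ n, ∀ g : K[X], g.natDegree = n → (∀ k, D (g.coeff k) = 0) → g.eval y = 0 →
      g = 0 := by
    intro n
    induction n using Nat.strong_induction_on with
    | _ n ih =>
    intro g hn h1 h2
    have h3 := d_eval D g y
    rw [h2, map_zero, show dc D g = 0 by ext k; rw [coeff_dc, h1, coeff_zero], eval_zero,
      zero_add, eq_comm, mul_eq_zero] at h3
    have h4 : g.natDegree = 0 := by_contra fun h0 => h0 (derivative_eq_zero.mp
      (ih _ (hn ▸ natDegree_derivative_lt h0) _ rfl (fun k => by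
        rw [coeff_derivative, D.leibniz, h1, ← Nat.cast_succ, D.map_natCast]; simp)
        (h3.resolve_right hy)))
    rw [eq_C_of_natDegree_eq_zero h4] at h2 ⊢
    rw [show g.coeff 0 = 0 by simpa using h2, map_zero]
  rintro ⟨p, h1, h2⟩
  exact h1 ((Polynomial.map_eq_zero_iff hS).mp (key _ _ rfl (fun k => by rw [coeff_map, h])
    (by rwa [eval_map_algebraMap])))

lemma d_zpow (D : Derivation ℂ K K) {y r : K} (h0 : y ≠ 0) (h : D y = r * y) (k : ℤ) :
    D (y ^ k) = k * r * y ^ k := by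
  rw [D.leibniz_zpow, h, zpow_sub_one₀ h0, smul_eq_mul, zsmul_eq_mul]; field_simp

/-- Iterated brackets of `E` with `e` and `f`. -/
noncomputable def op (e f E : Derivation ℂ K K) : List Bool → Derivation ℂ K K
  | [] => E
  | true :: w => ⁅op e f E w, e⁆
  | false :: w => ⁅op e f E w, f⁆

end Der

variable {ι M N : Type} [AddCommGroup M] [AddCommGroup N] {P : RootDatum ι M N} {b : P.Base}
  {A : Type} [CommRing A] [Algebra ℂ A] [IsDomain A] {R : Rep P b A}

namespace Rep.Lift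

variable (X : R.Lift) (i : b.support)

lemma op_alg (j : b.support) (w : List Bool) : ∃ (T : A →ₗ[ℂ] A) (z : ℤ),
    (∀ a, op (X.e i) (X.f i) (X.e j) w (algebraMap A _ a) = algebraMap A _ (T a)) ∧
    (∀ W, R.Sub W → ∀ a ∈ W, T a ∈ W) ∧
    ∀ μ, ∀ a ∈ R.wt μ, T a ∈ R.wt (μ + (P.root j + z • P.root i)) := by
  induction w with
  | nil => exact ⟨R.e j, 0, X.he j, fun W hW a ha => (hW.1 j a ha).1, by simpa using R.e_wt j⟩
  | cons t w ih =>
    obtain ⟨T, z, h1, h2, h3⟩ := ih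
    cases t with
    | true =>
      refine ⟨T ∘ₗ R.e i - R.e i ∘ₗ T, z + 1, fun a => by
        simp [op, Derivation.commutator_apply, X.he, h1], fun W hW a ha =>
        sub_mem (h2 W hW _ (hW.1 i a ha).1) (hW.1 i _ (h2 W hW a ha)).1, fun μ a ha => ?_⟩
      have h4 := h3 _ _ (R.e_wt i μ a ha)
      have h5 := R.e_wt i _ _ (h3 μ a ha)
      rw [show μ + P.root i + (P.root j + z • P.root i) =
        μ + (P.root j + (z + 1) • P.root i) by module] at h4
      rw [show μ + (P.root j + z • P.root i) + P.root i =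
        μ + (P.root j + (z + 1) • P.root i) by module] at h5
      exact sub_mem h4 h5
    | false =>
      refine ⟨T ∘ₗ R.f i - R.f i ∘ₗ T, z - 1, fun a => by
        simp [op, Derivation.commutator_apply, X.hf, h1], fun W hW a ha =>
        sub_mem (h2 W hW _ (hW.1 i a ha).2) (hW.1 i _ (h2 W hW a ha)).2, fun μ a ha => ?_⟩
      have h4 := h3 _ _ (R.f_wt i μ a ha)
      have h5 := R.f_wt i _ _ (h3 μ a ha)
      rw [show μ - P.root i + (P.root j + z • P.root i) =
        μ + (P.root j + (z - 1) • P.root i) by module] at h4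
      rw [show μ + (P.root j + z • P.root i) - P.root i =
        μ + (P.root j + (z - 1) • P.root i) by module] at h5
      exact sub_mem h4 h5

lemma op_inv {y : FractionRing A} (hy : y ∈ X.Inv {i}) {j : b.support} (hj : j ≠ i)
    (w : List Bool) : op (X.e i) (X.f i) (X.e j) w y = 0 := by
  have key : ∀ y', Relation.ReflTransGen
      (fun u w => ∃ k ∈ ({i} : Set b.support), w = X.e k u ∨ w = X.f k u) y y' →
      op (X.e i) (X.f i) (X.e j) w y' = 0 := by
    induction w with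
    | nil => exact fun y' h => hy.2 y' h j hj
    | cons t w ih =>
      intro y' h
      cases t with
      | true =>
        rw [op, Derivation.commutator_apply, ih y' h, ih _ (h.tail ⟨i, rfl, Or.inl rfl⟩)]; simp
      | false =>
        rw [op, Derivation.commutator_apply, ih y' h, ih _ (h.tail ⟨i, rfl, Or.inr rfl⟩)]; simp
  exact key y .refl

/-- Functions killed by the nilradical of the minimal parabolic. -/
noncomputable def Z : Submodule ℂ A :=
  ⨅ (j : {j // j ≠ i}) (w : List Bool), LinearMap.ker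
    ((op (X.e i) (X.f i) (X.e j) w).toLinearMap ∘ₗ (IsScalarTower.toAlgHom ℂ A _).toLinearMap)

lemma mem_Z {a : A} :
    a ∈ X.Z i ↔ ∀ j ≠ i, ∀ w, op (X.e i) (X.f i) (X.e j) w (algebraMap A _ a) = 0 := by
  simp [Z]

lemma Z_gr : R.G.Gr (X.Z i) := fun a ha μ => (X.mem_Z i).mpr fun j hj w => by
  obtain ⟨T, z, h1, _, h3⟩ := X.op_alg i j w
  have h4 := (X.mem_Z i).mp ha j hj w
  rw [h1, map_eq_zero_iff _ X.ext.inj] at h4 ⊢
  rw [← R.G.pr_comm T (· + (P.root j + z • P.root i)) (add_left_injective _) h3, h4, map_zero]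

lemma Z_e (a : A) (ha : a ∈ X.Z i) : R.e i a ∈ X.Z i := (X.mem_Z i).mpr fun j hj w => by
  have h1 := (X.mem_Z i).mp ha j hj (true :: w)
  rwa [op, Derivation.commutator_apply, (X.mem_Z i).mp ha j hj w, map_zero, sub_zero, X.he] at h1

lemma denom (h : R.Rat) {y : FractionRing A} (hy : y ∈ X.Inv {i}) :
    ∃ (σ : M) (s a : A), s ≠ 0 ∧ algebraMap A _ a = y * algebraMap A _ s ∧
      ∀ z, z = s ∨ z = a → z ∈ X.Z i ∧
        ∀ μ, R.G.pr μ z ≠ 0 → ∀ φ : M →+ ℤ, φ (P.root i) = 0 → φ μ = φ σ := by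
  classical
  let g : A →ₗ[ℂ] FractionRing A := (IsScalarTower.toAlgHom ℂ A _).toLinearMap
  let J : Submodule ℂ A := (LinearMap.range g).comap (LinearMap.mulLeft ℂ y ∘ₗ g)
  have hJ : ∀ (D : Derivation ℂ (FractionRing A) (FractionRing A)) (T : A → A),
      (∀ a, D (algebraMap A _ a) = algebraMap A _ (T a)) → D y = 0 → ∀ s a,
      algebraMap A _ a = y * algebraMap A _ s →
      algebraMap A _ (T a) = y * algebraMap A _ (T s) := fun D T h1 h2 s a ha => by
    rw [← h1, ha, D.leibniz, h2, h1]; simp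
  obtain ⟨s1, h1, h2, h3⟩ : ∃ s ∈ J, s ≠ 0 ∧ s ∈ X.Z i := by
    obtain ⟨⟨a0, s0⟩, h0⟩ := IsLocalization.surj (nonZeroDivisors A) y
    obtain ⟨W, hW, _, h1⟩ := R.exists_fd h s0
    obtain ⟨t, ht⟩ := R.G.fin_wts W
    obtain ⟨ψ, hψ⟩ := ext_fun (v := fun i : b.support => P.root i) b.linearIndepOn_root
      fun j => if j = i then 0 else 1
    have low : ∀ s ∈ W, s ≠ 0 → ∃ μ ∈ t, R.G.pr μ s ≠ 0 ∧ ∀ ν, R.G.pr ν s ≠ 0 → ψ μ ≤ ψ ν :=
      fun s hs h0 => by
        obtain ⟨μ, h1, h2⟩ := Set.exists_min_image {ν | R.G.pr ν s ≠ 0} ψ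
          (t.finite_toSet.subset fun ν hν => by_contra fun h => hν (ht s hs ν h))
          (by_contra fun h => h0 (R.G.eq_zero_of_pr fun ν => by_contra fun h' => h ⟨ν, h'⟩))
        exact ⟨μ, by_contra fun e => h1 (ht s hs μ e), h1, h2⟩
    obtain ⟨μ, ⟨_, s, h2, h3, h4, h5⟩, hmax⟩ := Set.exists_max_image
      {μ | μ ∈ t ∧ ∃ s ∈ J, s ∈ W ∧ s ≠ 0 ∧ ∀ ν, R.G.pr ν s ≠ 0 → ψ μ ≤ ψ ν} ψ
      (t.finite_toSet.subset fun _ h => h.1) (by
        obtain ⟨μ, h2, _, h3⟩ := low _ h1 (nonZeroDivisors.coe_ne_zero s0)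
        exact ⟨μ, h2, s0, ⟨a0, h0.symm⟩, h1, nonZeroDivisors.coe_ne_zero s0, h3⟩)
    refine ⟨s, h2, h4, (X.mem_Z i).mpr fun j hj w => ?_⟩
    obtain ⟨T, z, h6, h7, h8⟩ := X.op_alg i j w
    rw [h6, map_eq_zero_iff _ X.ext.inj]
    by_contra h9
    obtain ⟨ν, h10, h11, h12⟩ := low _ (h7 W hW s h3) h9
    obtain ⟨a, ha⟩ := h2
    have h13 := hmax ν ⟨h10, T s, ⟨T a, hJ _ T h6 (X.op_inv i hy hj w) s a ha⟩, h7 W hW s h3, h9,
      h12⟩
    have h14 := R.G.pr_comm T (· + (P.root j + z • P.root i)) (add_left_injective _) h8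
      (ν - (P.root j + z • P.root i)) s
    simp only [sub_add_cancel] at h14
    have h15 := h5 _ fun e => h11 (by rw [h14, e, map_zero])
    simp only [map_sub, map_add, map_zsmul, hψ, if_neg hj, if_true, smul_zero] at h15
    linarith
  have hH := fun φ hφ => hJ (X.h φ) (R.H φ) (X.ext.hh φ) (hy.1 φ fun k hk => by
    rw [(hk : k = i)]; exact hφ)
  have key : ∀ t : Finset M, ∀ s ∈ J, s ≠ 0 → s ∈ X.Z i → (∀ μ ∉ t, R.G.pr μ s = 0) →
      ∃ σ, ∃ s ∈ J, s ≠ 0 ∧ s ∈ X.Z i ∧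
        ∀ φ : M →+ ℤ, φ (P.root i) = 0 → R.H φ s = (φ σ : ℂ) • s := by
    intro t
    induction t using Finset.induction_on with
    | empty => exact fun s _ h0 _ h => absurd (R.G.eq_zero_of_pr fun μ => h μ (by simp)) h0
    | insert σ t _ ih =>
      intro s hs h0 hz h
      by_cases h1 : ∀ φ : M →+ ℤ, φ (P.root i) = 0 → R.H φ s = (φ σ : ℂ) • s
      · exact ⟨σ, s, hs, h0, hz, h1⟩
      push Not at h1
      obtain ⟨φ, hφ, h1⟩ := h1
      obtain ⟨a, ha⟩ := id hs
      refine ih (R.H φ s - (φ σ : ℂ) • s) (sub_mem ⟨_, hH φ hφ s a ha⟩ (J.smul_mem _ hs))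
        (sub_ne_zero.mpr h1) (sub_mem ((X.Z_gr i).dg _ hz) (Submodule.smul_mem _ _ hz))
        fun μ hμ => ?_
      rw [map_sub, map_smul, H, R.G.pr_dg]
      by_cases e : μ = σ
      · rw [e, sub_self]
      · rw [h μ (by simp [e, hμ]), smul_zero, smul_zero, sub_self]
  obtain ⟨t, ht, _⟩ := R.G.exists_sum s1
  obtain ⟨σ, s, ⟨a, ha⟩, h4, h5, h6⟩ := key t s1 h1 h2 h3 ht
  replace ha : algebraMap A _ a = y * algebraMap A _ s := ha
  have h7 : ∀ z, (∀ φ : M →+ ℤ, φ (P.root i) = 0 → R.H φ z = (φ σ : ℂ) • z) →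
      ∀ μ, R.G.pr μ z ≠ 0 → ∀ φ : M →+ ℤ, φ (P.root i) = 0 → φ μ = φ σ := fun z hz μ h0 φ hφ => by
    have := congrArg (R.G.pr μ) (hz φ hφ)
    rw [H, R.G.pr_dg, map_smul] at this
    exact_mod_cast smul_left_injective ℂ h0 this
  refine ⟨σ, s, a, h4, ha, ?_⟩
  rintro z (rfl | rfl)
  · exact ⟨h5, h7 z h6⟩
  · refine ⟨(X.mem_Z i).mpr fun j hj w => ?_, h7 z fun φ hφ => X.ext.inj ?_⟩
    · rw [ha, Derivation.leibniz, X.op_inv i hy hj w, (X.mem_Z i).mp h5 j hj w]; simp
    · rw [hH φ hφ s z ha, h6 φ hφ, Int.cast_smul_eq_zsmul, Int.cast_smul_eq_zsmul, map_zsmul,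
        map_zsmul, ha, mul_smul_comm]

end Rep.Lift

namespace Ctx

open Rep

variable (c : Ctx R)

include c

lemma lift : Nonempty R.Lift := by
  have : Algebra.FormallyEtale A (FractionRing A) := .of_isLocalization (nonZeroDivisors A)
  exact ⟨⟨fun i => xt _ (c.dE i), fun i => xt _ (c.dF i), fun φ => xt _ (c.dH φ),
    fun i => xt_alg _ _, fun i => xt_alg _ _, fun φ μ a ha => by
      rw [xt_alg, show c.dH φ a = (φ μ : ℂ) • a from R.H_mem φ ha, Int.cast_smul_eq_zsmul,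
        map_zsmul]⟩⟩

lemma slice (X : R.Lift) {i : b.support} {t : FractionRing A} (h1 : X.e i t = -1)
    (h2 : ∀ j ≠ i, X.e j t = 0) (h3 : ∀ φ, X.h φ t = -φ (P.root i) * t)
    (F : IntermediateField ℂ (FractionRing A)) (ht : t ∈ F) (S : Submodule F (FractionRing A))
    (C : M → Prop) (hC' : ∀ μ, C μ → C (μ + P.root i))
    (hS : ∀ μ u, C μ → (∀ j, X.e j u = 0) → (∀ φ, X.h φ u = φ μ * u) → u ∈ S) {z : A}
    (hz : z ∈ X.Z i) (hz' : ∀ μ, R.G.pr μ z ≠ 0 → C μ) : algebraMap A _ z ∈ S := by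
  let D := c.lne i
  let π := D.θ (algebraMap A (FractionRing A)) t
  have k1 : ∀ μ, ∀ z ∈ X.Z i, z ∈ R.wt μ → ∀ k,
      (D.Φ z).coeff k ∈ X.Z i ∧ (D.Φ z).coeff k ∈ R.wt (μ + k • P.root i) := fun μ z h4 h5 k => by
    have := R.e_pow i (X.Z_e i) h4 h5 k
    rw [D.coeff_Φ]
    exact ⟨Submodule.smul_mem _ _ this.1, Submodule.smul_mem _ _ this.2⟩
  have k2 : ∀ μ, ∀ z ∈ X.Z i, z ∈ R.wt μ → C μ → π z ∈ S := fun μ z h4 h5 h6 => by
    refine hS μ _ h6 (fun j => ?_) fun φ => ?_ <;>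
      rw [D.θ_apply, eval₂_eq_eval_map, d_eval]
    · by_cases hj : j = i
      · subst hj
        rw [h1, dc_map (X.e j) (X.he j) (g' := derivative (D.Φ z)) fun k => ?_, derivative_map]
        · ring
        rw [D.Φ_deriv, D.coeff_Φ, D.coeff_Φ, map_smul, ← Module.End.mul_apply,
          ← Module.End.mul_apply, ← pow_succ]
        exact congrArg (fun T : Module.End ℂ A => (k.factorial : ℂ)⁻¹ • T z) (pow_succ' _ _).symm
      · rw [h2 j hj, show dc (X.e j) ((D.Φ z).map (algebraMap A _)) = 0 by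
          ext k
          rw [coeff_dc, coeff_map, coeff_zero]
          exact (X.mem_Z i).mp (k1 μ z h4 h5 k).1 j hj []]
        simp
    · rw [h3, show dc (X.h φ) ((D.Φ z).map (algebraMap A _)) =
          (φ μ : ℂ) • (D.Φ z).map (algebraMap A _) + (φ (P.root i) : ℂ) •
            (Polynomial.X * derivative ((D.Φ z).map (algebraMap A _))) by
        ext k
        rw [coeff_dc, coeff_add, coeff_smul, coeff_smul, LND.X_deriv, coeff_map,
          X.hh φ _ _ (k1 μ z h4 h5 k).2, map_add, map_nsmul]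
        simp only [zsmul_eq_mul, nsmul_eq_mul, Algebra.smul_def (R := ℂ), map_intCast, map_natCast]
        push_cast; ring]
      simp only [eval_add, eval_mul, eval_X, Algebra.smul_def, map_intCast, eval_intCast]
      ring
  obtain ⟨s, _, hs⟩ := R.G.exists_sum z
  rw [← hs s subset_rfl, map_sum]
  refine sum_mem fun μ _ => ?_
  by_cases h0 : R.G.pr μ z = 0
  · rw [h0, map_zero]; exact zero_mem _
  have h4 : D.θ π (-t) = algebraMap A _ := by rw [D.θ_comp, neg_add_cancel, D.θ_zero]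
  rw [← h4, D.θ_apply, eval₂_eq_sum, Polynomial.sum]
  refine sum_mem fun k hk => ?_
  have h5 := k1 μ _ (X.Z_gr i z hz μ) (R.G.pr_mem μ z) k
  rw [mul_comm]
  refine S.smul_mem ⟨_, pow_mem (neg_mem ht) k⟩ (k2 _ _ h5.1 h5.2 ?_)
  clear h5 hk
  induction k with
  | zero => simpa using hz' μ h0
  | succ k ih => rw [succ_nsmul, ← add_assoc]; exact hC' _ ih

variable [Finite ι] [P.IsReduced] [IsNoetherianRing A] [IsIntegrallyClosed A]

theorem even_of_T {i : b.support} (hT : R.TypeT i) : R.EvenType {i} := by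
  classical
  obtain ⟨X⟩ := c.lift
  have : CharZero (FractionRing A) :=
    charZero_of_injective_algebraMap (algebraMap ℂ (FractionRing A)).injective
  obtain ⟨p, p', τ, τ', T⟩ : ∃ p p' τ τ', c.TD X.e X.f X.h i p p' τ τ' :=
    ⟨_, c.exists_TD X.ext hT hT.choose_spec.choose_spec.2.1⟩
  have := T.mv.1
  obtain ⟨V⟩ := exists_DV (FractionRing A) p T.mv.2.1
  have d0 := T.d_ne
  have dv := T.d_val X.ext V
  have sp : ∀ {τ}, Sp X.e X.f X.h i τ → X.e i τ⁻¹ = -1 ∧ X.f i τ⁻¹ = τ⁻¹ ^ 2 ∧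
      (∀ j ≠ i, X.e j τ⁻¹ = 0) ∧ ∀ φ, X.h φ τ⁻¹ = -φ (P.root i) * τ⁻¹ := fun s => by
    have := s.ne
    refine ⟨?_, s.f_inv, fun j hj => ?_, fun φ => ?_⟩ <;> rw [Derivation.leibniz_inv]
    · rw [s.he, smul_eq_mul]; field_simp
    · rw [s.hne j hj, smul_zero]
    · rw [s.hh, smul_eq_mul]; field_simp
  obtain ⟨a1, a2, a3, a4⟩ := sp T.sp
  obtain ⟨b1, b2, b3, b4⟩ := sp T.sp'
  clear sp T
  generalize τ⁻¹ = t, τ'⁻¹ = t' at *
  obtain ⟨I, hI⟩ : ∃ I, I = algebraMap ℂ (FractionRing A) Complex.I := ⟨_, rfl⟩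
  have I2 : I ^ 2 = -1 := by rw [hI, ← map_pow, Complex.I_sq]; simp
  have I0 : I ≠ 0 := fun e => by simp [e] at I2
  let x : ℕ → FractionRing A := fun a =>
    if a = 0 then I / (t - t') else if a = 1 then -I * (t + t') / (t - t') else
      2 * I * (t * t') / (t - t')
  have x0 : x 0 = I / (t - t') := rfl
  have x1 : x 1 = -I * (t + t') / (t - t') := rfl
  have x2 : x 2 = 2 * I * (t * t') / (t - t') := rfl
  clear_value x
  have dx : ∀ D : Derivation ℂ (FractionRing A) (FractionRing A),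
      D (x 0) = -I * (D t - D t') / (t - t') ^ 2 ∧
      D (x 1) = 2 * I * (t' * D t - t * D t') / (t - t') ^ 2 ∧
      D (x 2) = 2 * I * (t ^ 2 * D t' - t' ^ 2 * D t) / (t - t') ^ 2 := fun D => by
    have h1 : D I = 0 := hI ▸ D.map_algebraMap _
    have h2 : D 2 = 0 := D.map_natCast 2
    simp only [x0, x1, x2, D.leibniz_div, D.leibniz, map_sub, map_add, map_neg, h1, h2, smul_eq_mul]
    refine ⟨?_, ?_, ?_⟩ <;> field_simp <;> ring
  have n0 : x 0 ≠ 0 := x0 ▸ div_ne_zero I0 d0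
  have e0 : X.e i (x 0) = 0 := by rw [(dx _).1, a1, b1]; simp
  have e1 : X.e i (x 1) = 2 * x 0 := by rw [(dx _).2.1, a1, b1, x0]; field_simp; ring
  have e2 : X.e i (x 2) = 2 * x 1 := by rw [(dx _).2.2, a1, b1, x1]; field_simp; ring
  have f0 : X.f i (x 0) = x 1 := by rw [(dx _).1, a2, b2, x1]; field_simp; ring
  have f1 : X.f i (x 1) = x 2 := by rw [(dx _).2.1, a2, b2, x2]; field_simp
  have f2 : X.f i (x 2) = 0 := by rw [(dx _).2.2, a2, b2]; field_simp; ring
  have h0 : ∀ φ, X.h φ (x 0) = φ (P.root i) * x 0 := fun φ => by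
    rw [(dx _).1, a4, b4, x0]; field_simp; ring
  have kill : ∀ D : Derivation ℂ (FractionRing A) (FractionRing A), D t = 0 → D t' = 0 →
      ∀ s ∈ x '' Set.Iic (2 * 1), D s = 0 := by
    rintro D h1 h2 _ ⟨a, ha, rfl⟩
    have := dx D
    simp only [h1, h2, mul_zero, sub_self, zero_div] at this
    have ha' : a ≤ 2 := ha
    interval_cases a
    exacts [this.1, this.2.1, this.2.2]
  obtain ⟨F, hF⟩ : ∃ F, F = IntermediateField.adjoin ℂ (x '' Set.Iic (2 * 1)) := ⟨_, rfl⟩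
  have xF : ∀ a ≤ 2, x a ∈ F := fun a ha => hF ▸ IntermediateField.subset_adjoin _ _ ⟨a, ha, rfl⟩
  have IF : I ∈ F := hI ▸ F.algebraMap_mem _
  have F2 : (2 : FractionRing A) ∈ F := natCast_mem F 2
  have dF : t - t' ∈ F := by
    rw [show t - t' = I / x 0 by rw [x0]; field_simp]
    exact div_mem IF (xF 0 (by omega))
  have tF : t ∈ F := by
    rw [show t = (I - x 1) / (2 * x 0) by rw [x0, x1]; field_simp; ring]
    exact div_mem (sub_mem IF (xF 1 (by omega))) (mul_mem F2 (xF 0 (by omega)))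
  have eig : ∀ ρ u, (∀ φ : M →+ ℤ, φ (P.root i) = 0 → φ ρ = 0) → (∀ j, X.e j u = 0) →
      (∀ φ, X.h φ u = φ ρ * u) → u ∈ F := fun ρ u h1 h2 h3 => by
    by_cases u0 : u = 0
    · rw [u0]; exact zero_mem _
    have h4 : ∀ φ : M →+ ℤ, 2 * φ ρ = φ (P.root i) * co P i ρ := fun φ => by
      have := h1 (2 • φ - φ (P.root i) • co P i) (by simp [co_self, mul_comm])
      simp only [AddMonoidHom.sub_apply, AddMonoidHom.smul_apply, smul_eq_mul, nsmul_eq_mul] at this
      omega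
    have de : ∀ j (k : ℤ), X.e j ((t - t') ^ k) = 0 := fun j k => by
      rw [d_zpow (X.e j) d0 (r := 0) ?_, mul_zero, zero_mul]
      by_cases hj : j = i
      · rw [hj, map_sub, a1, b1]; simp
      · rw [map_sub, a3 j hj, b3 j hj]; simp
    have dh : ∀ φ (k : ℤ), X.h φ ((t - t') ^ k) = k * -φ (P.root i) * (t - t') ^ k := fun φ k =>
      d_zpow (X.h φ) d0 (by rw [map_sub, a4, b4]; ring) k
    obtain ⟨r, hr⟩ := c.const X.ext (y := u * u * (t - t') ^ co P i ρ)
      (fun j => by simp [h2, de]) fun φ => by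
        have : (2 * φ ρ : FractionRing A) = φ (P.root i) * co P i ρ := by exact_mod_cast h4 φ
        simp only [Derivation.leibniz, h3, dh, smul_eq_mul]
        linear_combination (u * u * (t - t') ^ co P i ρ) * this
    have n1 := mul_ne_zero (mul_ne_zero u0 u0) (zpow_ne_zero (co P i ρ) d0)
    have h5 : V.v (u * u * (t - t') ^ co P i ρ) = 0 := V.v_eq n1
      (V.Ge_zero.mpr (hr ▸ V.O.algebraMap_mem r))
      (by rw [neg_zero, V.Ge_zero, ← hr, ← map_inv₀]; exact V.O.algebraMap_mem _)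
    have h6 : ∀ k : ℤ, V.v ((t - t') ^ k) = -k := fun k => by
      obtain ⟨n, rfl | rfl⟩ := k.eq_nat_or_neg
      · rw [zpow_natCast, V.v_pow d0, dv]; ring
      · rw [zpow_neg, zpow_natCast, V.v_inv (pow_ne_zero _ d0), V.v_pow d0, dv]; ring
    rw [V.v_mul (mul_ne_zero u0 u0) (zpow_ne_zero _ d0), V.v_mul u0 u0, h6] at h5
    obtain ⟨r', hr'⟩ := c.const X.ext (y := u * (t - t') ^ V.v u)
      (fun j => by simp [h2, de]) fun φ => by
        have h7 : φ ρ = φ (P.root i) * V.v u := by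
          have := h4 φ
          rw [show co P i ρ = 2 * V.v u by omega] at this
          linarith
        simp only [Derivation.leibniz, h3, dh, smul_eq_mul, h7]
        push_cast; ring
    rw [(eq_div_iff (zpow_ne_zero _ d0)).mpr hr'.symm]
    exact div_mem (F.algebraMap_mem _) (zpow_mem dF _)
  refine ⟨X, 1, fun _ => i, x, one_pos, fun _ _ => ⟨rfl, rfl⟩,
    Or.inl fun a ha a' ha' _ => by simp only [Set.mem_Iio] at ha ha'; omega,
    fun φ => by simp [h0], ?_, ?_, ?_, Set.Subset.antisymm (fun y hy => ?_) fun y hy => ⟨?_, ?_⟩⟩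
  · rintro _ rfl
    refine ⟨e0, f2, fun a ha => ?_⟩
    have ha' : a < 2 := ha
    interval_cases a <;> simp [f0, f1, e1, e2]
  · simp only [Finset.sum_range_succ, Finset.range_zero, Finset.sum_empty, x0, x1, x2,
      Nat.reduceMul, Nat.reduceSub, Nat.sub_zero]
    field_simp
    linear_combination (-(t - t') ^ 2) * I2
  · have h1 : AlgebraicIndependent ℂ fun o : Option Unit => o.elim (x 1) fun _ => x 0 :=
      AlgebraicIndependent.option_iff.mpr ⟨algebraicIndependent_unique_type_iff.mpr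
        (transc (X.h (co P i)) (by simp [h0, co_self, n0]) ℂ (algebraMap ℂ _).injective
          (Derivation.map_algebraMap _)),
        transc (X.e i) (by simp [e1, n0]) _ Subtype.val_injective fun s => adj_kill _
          (by rintro _ ⟨_, rfl⟩; exact e0) (IntermediateField.algebra_adjoin_le_adjoin _ _ s.2)⟩
    have h2 := h1.comp (![some (), none] : Fin 2 → Option Unit) (by decide)
    rwa [show (fun o : Option Unit => o.elim (x 1) fun _ => x 0) ∘ ![some (), none] =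
      fun a : Fin (2 * 1) => x a from funext fun a => by fin_cases a <;> rfl] at h2
  · obtain ⟨σ, s, a, h1, h2, h3⟩ := X.denom i c.mf.1 hy
    have sl := fun S hS z hz => c.slice X a1 a3 a4 F tF S
      (fun μ => ∀ φ : M →+ ℤ, φ (P.root i) = 0 → φ μ = φ σ)
      (fun μ h φ hφ => by simpa [hφ] using h φ hφ) hS (h3 z hz).1 (h3 z hz).2
    have s0 : algebraMap A (FractionRing A) s ≠ 0 := (map_ne_zero_iff _ X.ext.inj).mpr h1
    obtain ⟨ν, g, h4, h5, h6, g0⟩ : ∃ ν g, (∀ φ : M →+ ℤ, φ (P.root i) = 0 → φ ν = φ σ) ∧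
        (∀ j, X.e j g = 0) ∧ (∀ φ, X.h φ g = φ ν * g) ∧ g ≠ 0 := by
      by_contra h4
      push Not at h4
      exact s0 (sl ⊥ h4 s (Or.inl rfl))
    have h7 := sl (Submodule.span F {g}) fun μ u h7 h8 h9 => Submodule.mem_span_singleton.mpr
      ⟨⟨u / g, eig (μ - ν) _ (fun φ hφ => by rw [map_sub, h7 φ hφ, h4 φ hφ, sub_self])
        (fun j => d_div_zero _ (c := 0) (by simp [h8]) (by simp [h5])) fun φ => by
          rw [Derivation.leibniz_div, h9, h6, map_sub]
          simp only [smul_eq_mul]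
          push_cast; field_simp⟩, div_mul_cancel₀ u g0⟩
    obtain ⟨r, hr⟩ := Submodule.mem_span_singleton.mp (h7 s (Or.inl rfl))
    obtain ⟨r', hr'⟩ := Submodule.mem_span_singleton.mp (h7 a (Or.inr rfl))
    rw [← hF, (eq_div_iff s0).mpr h2.symm, ← hr, ← hr', IntermediateField.smul_def,
      IntermediateField.smul_def, smul_eq_mul, smul_eq_mul, mul_div_mul_right _ _ g0]
    exact div_mem r'.2 r.2
  · exact fun φ hφ => adj_kill _ (kill _ (by simp [a4, hφ i rfl]) (by simp [b4, hφ i rfl])) hy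
  · refine fun y' h => X.uinv ?_ (fun s hs j hj => kill _ (a3 j hj) (b3 j hj) s hs) hy h
    rintro _ ⟨a, ha, rfl⟩ _ rfl
    have ha' : a ≤ 2 := ha
    rw [← hF]
    interval_cases a
    · exact ⟨e0 ▸ zero_mem _, f0 ▸ xF 1 (by omega)⟩
    · exact ⟨e1 ▸ mul_mem F2 (xF 0 (by omega)), f1 ▸ xF 2 (by omega)⟩
    · exact ⟨e2 ▸ mul_mem F2 (xF 1 (by omega)), f2 ▸ zero_mem _⟩

end Ctx

end Pool.Agent.SX
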