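import Pool.Agent.P.MP_825e45_al.SxRoot

/-! A simple root moves at most two colors; their valuations. -/

namespace Pool.Agent.SX

namespace Ctx

open Polynomial Rep

variable {ι M N : Type} [AddCommGroup M] [AddCommGroup N] {P : RootDatum ι M N} {b : P.Base}
  {A : Type} [CommRing A] [Algebra ℂ A] [IsDomain A] {R : Rep P b A} (c : Ctx R)
  [Finite ι] [P.IsReduced]
  {K : Type} [Field K] [Algebra ℂ K] [Algebra A K] [IsScalarTower ℂ A K] [IsFractionRing A K]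
  {e f : b.support → Derivation ℂ K K} {h : (M →+ ℤ) → Derivation ℂ K K} (x : Ext R e f h)

section Closure

variable (L : Type) [Field L] [Algebra ℂ L] [Algebra K L] [Algebra A L] [IsScalarTower ℂ K L]
  [IsScalarTower A K L] [IsScalarTower ℂ A L] [Algebra.FormallyEtale K L]

include x in
lemma extL : Ext R (fun j => xt L (e j)) (fun j => xt L (f j)) (fun φ => xt L (h φ)) := by
  refine ⟨?_, fun i a => ?_, fun i a => ?_, fun i a => ?_⟩
  · rw [IsScalarTower.algebraMap_eq A K L]; exact (algebraMap K L).injective.comp x.inj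
  all_goals rw [IsScalarTower.algebraMap_apply A K L, IsScalarTower.algebraMap_apply A K L, xt_alg]
  · rw [x.he]
  · rw [x.hf]
  · rw [x.hh]

variable {L}

lemma sp_down {i : b.support} {τ : K}
    (s : Sp (fun j => xt L (e j)) (fun j => xt L (f j)) (fun φ => xt L (h φ)) i (algebraMap K L τ)) :
    Sp e f h i τ := by
  have hi := (algebraMap K L).injective
  refine ⟨hi ?_, hi ?_, fun j hj => hi ?_, fun φ => hi ?_⟩ <;> rw [← xt_alg]
  · simpa using s.hf
  · simpa using s.he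
  · simpa using s.hne j hj
  · simpa using s.hh φ

lemma kr_aeval {i : b.support} {τ : L} {a : A} : a ∈ c.kr i τ ↔ aeval τ (c.Ψ K i a) = 0 := by
  rw [kr, RingHom.mem_ker, LND.θ_aeval _ K]; rfl

lemma kr_alg (i : b.support) (τ : K) : c.kr i (algebraMap K L τ) = c.kr i τ := by
  ext a
  rw [c.kr_aeval (K := K), aeval_algebraMap_apply, map_eq_zero, mem_kr, coe_aeval_eq_eval]

variable [Algebra.IsAlgebraic K L]

include c x

lemma constL {r : L} (h1 : ∀ j, xt L (e j) r = 0) (h2 : ∀ φ, xt L (h φ) r = 0) :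
    ∃ t, algebraMap ℂ L t = r := by
  have hint : IsIntegral K r := Algebra.IsIntegral.isIntegral r
  have key : ∀ d : Derivation ℂ K K, xt L d r = 0 → ∀ k, d ((minpoly K r).coeff k) = 0 := by
    intro d hd k
    have h3 := d_eval (xt L d) ((minpoly K r).map (algebraMap K L)) r
    have h4 : dc (xt L d) ((minpoly K r).map (algebraMap K L)) =
        (dc d (minpoly K r)).map (algebraMap K L) := by
      ext n; rw [coeff_dc, coeff_map, coeff_map, xt_alg, coeff_dc]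
    rw [hd, mul_zero, add_zero, h4, eval_map_algebraMap, eval_map_algebraMap, minpoly.aeval,
      map_zero] at h3
    have h5 : dc d (minpoly K r) = 0 := by
      refine eq_zero_of_dvd_of_degree_lt (minpoly.dvd K r h3.symm) ?_
      rw [degree_eq_natDegree (minpoly.ne_zero hint), degree_lt_iff_coeff_zero]
      intro n hn
      rw [coeff_dc]
      rcases hn.eq_or_lt with rfl | hn
      · rw [(minpoly.monic hint).coeff_natDegree, d.map_one_eq_zero]
      · rw [coeff_eq_zero_of_natDegree_lt hn, map_zero]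
    rw [← coeff_dc, h5, coeff_zero]
  obtain ⟨q, hq⟩ := (lifts_iff_coeff_lifts (f := algebraMap ℂ K) (minpoly K r)).mpr fun k =>
    c.const x (fun j => key _ (h1 j) k) fun φ => key _ (h2 φ) k
  have h6 : IsIntegral ℂ r := IsAlgebraic.isIntegral ⟨q, fun e0 => minpoly.ne_zero hint
    (by rw [← hq, e0, map_zero]), by
      rw [← aeval_map_algebraMap K, ← coe_mapRingHom, hq, minpoly.aeval]⟩
  exact minpoly.mem_range_of_degree_eq_one ℂ r
    (IsAlgClosed.degree_eq_one_of_irreducible ℂ (minpoly.irreducible h6))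

lemma two_sp {i : b.support} {s t u : L}
    (hs : Sp (fun j => xt L (e j)) (fun j => xt L (f j)) (fun φ => xt L (h φ)) i s)
    (ht : Sp (fun j => xt L (e j)) (fun j => xt L (f j)) (fun φ => xt L (h φ)) i t)
    (hu : Sp (fun j => xt L (e j)) (fun j => xt L (f j)) (fun φ => xt L (h φ)) i u)
    (h1 : s ≠ t) (h2 : s ≠ u) : t = u := by
  have h3 : s⁻¹ - t⁻¹ ≠ 0 := sub_ne_zero.mpr (inv_injective.ne h1)
  have h4 : s⁻¹ - u⁻¹ ≠ 0 := sub_ne_zero.mpr (inv_injective.ne h2)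
  obtain ⟨r, hr⟩ := c.constL x (r := (s⁻¹ - t⁻¹) / (s⁻¹ - u⁻¹))
    (fun j => d_div_zero _ (c := 0) (by simpa using hs.e_sub ht j) (by simpa using hs.e_sub hu j))
    fun φ => d_div_zero _ (hs.h_sub ht φ) (hs.h_sub hu φ)
  rw [eq_div_iff h4] at hr
  have h5 := congrArg (xt L (f i)) hr
  rw [Derivation.leibniz, Derivation.map_algebraMap, map_sub, map_sub, hs.f_inv, ht.f_inv,
    hu.f_inv, smul_zero, add_zero, smul_eq_mul] at h5
  refine inv_injective (mul_left_cancel₀ h3 ?_)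
  linear_combination (s⁻¹ + u⁻¹) * hr - h5

variable (L) [IsAlgClosed L]

lemma poly_of_moves {i : b.support} {p : Ideal A} (hp : R.Moves i p) :
    ∃ q : K[X], q.Monic ∧ Irreducible q ∧ q.eval 0 ≠ 0 ∧ (∀ τ : L, aeval τ q = 0 ↔ c.kr i τ = p) ∧
      ∀ τ : L, c.kr i τ = p →
        Sp (fun j => xt L (e j)) (fun j => xt L (f j)) (fun φ => xt L (h φ)) i τ := by
  have := hp.1
  obtain ⟨q, h1, h2, h3⟩ := (c.lnd i).exists_poly K L (Ideal.ne_bot_of_height_eq_one hp.2.1)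
    ((c.lnd i).noStab_of_height hp.2.1 hp.2.2.2.2)
  obtain ⟨μ, a, ha, ha'⟩ := c.hw_of_moves hp
  have h4 : ∀ τ : L, c.kr i τ = p →
      Sp (fun j => xt L (e j)) (fun j => xt L (f j)) (fun φ => xt L (h φ)) i τ :=
    fun τ hτ => c.sp_of_root (extL x L) ha' (hτ ▸ ha)
  refine ⟨q, h1, h2, fun h0 => (h4 0 ((h3 0).2 ?_)).ne rfl,
    fun τ => ⟨(h3 τ).2, fun h5 => (h3 τ).1 h5.ge⟩, h4⟩
  rw [← map_zero (algebraMap K L), aeval_algebraMap_apply, coe_aeval_eq_eval, h0, map_zero]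

lemma moves_of_root {i : b.support} {μ : M} {a : A} (ha : R.HW μ a) {τ : L}
    (hτ : aeval τ (c.Ψ K i a) = 0) : R.Moves i (c.kr i τ) :=
  c.moves_of_sp (extL x L) (c.sp_of_root (extL x L) ha (c.kr_aeval.mpr hτ))
    ((Submodule.ne_bot_iff _).mpr ⟨a, c.kr_aeval.mpr hτ, ha.1⟩)

lemma factor {i : b.support} {p p' : Ideal A} (hc : ∀ r, R.Moves i r → r = p ∨ r = p')
    {q q' : K[X]} (h1 : q.Monic) (h2 : Irreducible q) (h3 : ∀ τ : L, aeval τ q = 0 ↔ c.kr i τ = p)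
    (h1' : q'.Monic) (h2' : Irreducible q') (h3' : ∀ τ : L, aeval τ q' = 0 ↔ c.kr i τ = p')
    {μ : M} {a : A} (ha : R.HW μ a) : ∃ (m n : ℕ) (y : K), y ≠ 0 ∧ f i y = 0 ∧
      co P i μ = m * q.natDegree + n * q'.natDegree ∧
      algebraMap A K a = y * q.eval 0 ^ m * q'.eval 0 ^ n ∧ c.Ψ K i a = C y * q ^ m * q' ^ n := by
  obtain ⟨h4, h5, h6⟩ := c.Ψ_deg x ha i
  obtain ⟨m, n, h7⟩ := factor_two L h1 h2 h1' h2' (c.Ψ K i a) (leadingCoeff_ne_zero.mp h5)
    fun τ hτ => by rw [h3, h3']; exact hc _ (c.moves_of_root x L ha hτ)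
  refine ⟨m, n, _, h5, h6, ?_, ?_, h7⟩
  · rw [h4, h7, mul_assoc, natDegree_C_mul h5, (h1.pow m).natDegree_mul (h1'.pow n),
      natDegree_pow, natDegree_pow]; push_cast; ring
  · simpa [c.Ψ_zero i] using congrArg (eval 0) h7

end Closure

/-- The two colors of a root of type T with their equations. -/
structure TD (e f : b.support → Derivation ℂ K K) (h : (M →+ ℤ) → Derivation ℂ K K)
    (i : b.support) (p p' : Ideal A) (τ τ' : K) : Prop where
  mv : R.Moves i p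
  mv' : R.Moves i p'
  ne : p ≠ p'
  all : ∀ r, R.Moves i r → r = p ∨ r = p'
  sp : Sp e f h i τ
  sp' : Sp e f h i τ'
  kr : c.kr i τ = p
  kr' : c.kr i τ' = p'
  fac : ∀ μ a, R.HW μ a → ∃ (m n : ℕ) (y : K), y ≠ 0 ∧ f i y = 0 ∧ co P i μ = m + n ∧
    algebraMap A K a = y * (-τ) ^ m * (-τ') ^ n ∧
    c.Ψ K i a = C y * (X - C τ) ^ m * (X - C τ') ^ n

include c x

lemma no_color {i : b.support} (hn : ∀ q, ¬ R.Moves i q) {μ : M} {a : A} (ha : R.HW μ a) :
    co P i μ = 0 := by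
  have : CharZero K := charZero_of_injective_algebraMap (algebraMap ℂ K).injective
  have := Algebra.FormallyEtale.of_isSeparable K (AlgebraicClosure K)
  obtain ⟨h4, h5, _⟩ := c.Ψ_deg x ha i
  by_contra h1
  obtain ⟨τ, hτ⟩ := IsAlgClosed.exists_aeval_eq_zero (AlgebraicClosure K) (c.Ψ K i a)
    fun h2 => h1 (by rw [h4, natDegree_eq_of_degree_eq_some h2]; rfl)
  exact hn _ (c.moves_of_root x _ ha hτ)

lemma exists_TD {i : b.support} (hT : R.TypeT i) {p : Ideal A} (hp : R.Moves i p) :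
    ∃ p' τ τ', c.TD e f h i p p' τ τ' := by
  have : CharZero K := charZero_of_injective_algebraMap (algebraMap ℂ K).injective
  let L := AlgebraicClosure K
  have := Algebra.FormallyEtale.of_isSeparable K L
  obtain ⟨p', hp', hne⟩ : ∃ p', R.Moves i p' ∧ p ≠ p' := by
    obtain ⟨r, r', h1, h2, h3⟩ := hT
    by_cases e0 : p = r
    · exact ⟨r', h3, e0 ▸ h1⟩
    · exact ⟨r, h2, e0⟩
  have lin : ∀ {p p'}, R.Moves i p → R.Moves i p' → p ≠ p' → ∃ τ : K, Sp e f h i τ ∧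
      ∀ σ : L, aeval σ (X - C τ) = 0 ↔ c.kr i σ = p := by
    intro p p' hp hp' hne
    obtain ⟨q, h1, h2, _, h3, h4⟩ := c.poly_of_moves x L hp
    obtain ⟨q', _, h2', _, h3', h4'⟩ := c.poly_of_moves x L hp'
    obtain ⟨s, hs⟩ := exists_root L h2
    obtain ⟨s', hs'⟩ := exists_root L h2'
    have h5 : ∀ t : L, aeval t q = 0 → s' ≠ t := fun t ht e0 =>
      hne (by rw [← (h3 t).mp ht, ← e0, (h3' s').mp hs'])
    have h6 : q.natDegree = 1 := by
      classical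
      have h7 : q.rootSet L = {s} := Set.eq_singleton_iff_unique_mem.mpr
        ⟨mem_rootSet.mpr ⟨h2.ne_zero, hs⟩, fun t ht => c.two_sp x (h4' _ ((h3' _).mp hs'))
          (h4 _ ((h3 _).mp (mem_rootSet.mp ht).2)) (h4 _ ((h3 _).mp hs))
          (h5 t (mem_rootSet.mp ht).2) (h5 s hs)⟩
      rw [← card_rootSet_eq_natDegree h2.separable (IsAlgClosed.splits (q.map (algebraMap K L)))]
      simp [h7]
    have h8 : q = X - C (-q.coeff 0) := by
      rw [map_neg, sub_neg_eq_add]; exact h1.eq_X_add_C h6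
    rw [h8] at h3
    exact ⟨_, sp_down (h4 _ ((h3 _).mp (by simp))), h3⟩
  obtain ⟨τ, s, hτ⟩ := lin hp hp' hne
  obtain ⟨τ', s', hτ'⟩ := lin hp' hp hne.symm
  have k : c.kr i (algebraMap K L τ) = p := (hτ _).mp (by simp)
  have k' : c.kr i (algebraMap K L τ') = p' := (hτ' _).mp (by simp)
  have hall : ∀ r, R.Moves i r → r = p ∨ r = p' := by
    intro r hr
    obtain ⟨q, _, h2, _, h3, h4⟩ := c.poly_of_moves x L hr
    obtain ⟨_, _, _, _, _, h5⟩ := c.poly_of_moves x L hp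
    obtain ⟨_, _, _, _, _, h6⟩ := c.poly_of_moves x L hp'
    obtain ⟨t, ht⟩ := exists_root L h2
    by_cases e0 : algebraMap K L τ = t
    · left; rw [← (h3 t).mp ht, ← e0, k]
    · right
      rw [← (h3 t).mp ht, ← k', c.two_sp x (h5 _ k) (h6 _ k') (h4 t ((h3 t).mp ht))
        (fun e1 => hne (by rw [← k, ← k', e1])) e0]
  refine ⟨p', τ, τ', hp, hp', hne, hall, s, s', (c.kr_alg i τ).symm.trans k,
    (c.kr_alg i τ').symm.trans k', fun μ a ha => ?_⟩
  simpa using c.factor x L hall (monic_X_sub_C τ) (irreducible_X_sub_C τ) hτ (monic_X_sub_C τ')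
    (irreducible_X_sub_C τ') hτ' ha

omit c in
lemma v_le_one {i : b.support} {p : Ideal A} [p.IsPrime] (hp : R.Moves i p) (D : DV K p) {τ : K}
    (hτ : f i τ = -1) : D.v τ = 0 ∨ D.v τ = 1 := by
  have h0 : τ ≠ 0 := fun h1 => by simp [h1] at hτ
  have h1 := D.d_pred (f i) (x.hf i) (D.mem_v τ)
  rw [hτ, neg_mem_iff] at h1
  have h2 := D.le_of_one h1
  by_cases h3 : D.v τ ≤ 0
  · exact Or.inl (D.d_move (f i) (x.hf i) hp.2.2.2.2 h0
      (by rw [hτ, neg_mem_iff]; exact D.Ge_mono h3 (D.Ge_zero.mpr (one_mem _))))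
  · omega

lemma not_T {i : b.support} (hT : ¬ R.TypeT i) {p : Ideal A} [p.IsPrime] (hp : R.Moves i p)
    (D : DV K p) : ∃ (g : ℕ) (w : ℤ), 0 < g ∧ 0 < w ∧ (g = 1 → w = 1) ∧
      ∀ μ a, R.HW μ a → ∃ m : ℕ, co P i μ = m * g ∧ D.v (algebraMap A K a) = m * w := by
  have : CharZero K := charZero_of_injective_algebraMap (algebraMap ℂ K).injective
  let L := AlgebraicClosure K
  have := Algebra.FormallyEtale.of_isSeparable K L
  obtain ⟨q, h1, h2, h0, h3, h4⟩ := c.poly_of_moves x L hp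
  have key : ∀ μ a, R.HW μ a → ∃ m : ℕ, co P i μ = m * q.natDegree ∧
      D.v (algebraMap A K a) = m * D.v (q.eval 0) := by
    intro μ a ha
    obtain ⟨m, n, y, h5, h6, h7, h8, _⟩ := c.factor x L (p := p) (p' := p)
      (fun r hr => Or.inl (by_contra fun e0 => hT ⟨r, p, e0, hr, hp⟩)) h1 h2 h3 h1 h2 h3 ha
    refine ⟨m + n, by rw [h7]; push_cast; ring, ?_⟩
    rw [h8, mul_assoc, ← pow_add, D.v_mul h5 (pow_ne_zero _ h0), D.v_pow h0,
      D.d_move (f i) (x.hf i) hp.2.2.2.2 h5 (by rw [h6]; exact zero_mem _), zero_add]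
  have hw : 0 < D.v (q.eval 0) := by
    obtain ⟨μ, a, ha, ha'⟩ := c.hw_of_moves hp
    obtain ⟨m, _, h5⟩ := key μ a ha'
    have := (D.ge_iff ((map_ne_zero_iff _ x.inj).mpr ha'.1)).mp ((D.p_iff a).mp ha)
    rw [h5] at this
    by_contra h6
    nlinarith [Int.natCast_nonneg m]
  refine ⟨_, _, h2.natDegree_pos, hw, fun h6 => ?_, key⟩
  have h8 : q = X - C (-q.coeff 0) := by
    rw [map_neg, sub_neg_eq_add]; exact h1.eq_X_add_C h6
  have h9 := v_le_one x hp D (sp_down (h4 (algebraMap K L (-q.coeff 0))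
    ((h3 _).mp (by rw [h8]; simp)))).hf
  rw [D.v_neg, coeff_zero_eq_eval_zero] at h9
  omega

omit x in
lemma TD.symm {i : b.support} {p p' : Ideal A} {τ τ' : K} (t : c.TD e f h i p p' τ τ') :
    c.TD e f h i p' p τ' τ :=
  ⟨t.mv', t.mv, t.ne.symm, fun r hr => (t.all r hr).symm, t.sp', t.sp, t.kr', t.kr, fun μ a ha => by
    obtain ⟨m, n, y, h1, h2, h3, h4, h5⟩ := t.fac μ a ha
    exact ⟨n, m, y, h1, h2, by rw [h3, add_comm], by rw [h4]; ring, by rw [h5]; ring⟩⟩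

variable {c} {i : b.support} {p p' : Ideal A} {τ τ' : K} (t : c.TD e f h i p p' τ τ')

include t

lemma TD.val' [p.IsPrime] (D : DV K p) : D.v τ' = 0 := by
  refine (v_le_one x t.mv D t.sp'.hf).resolve_right fun h1 => t.ne ?_
  have h2 : ∀ g : A[X], (g.map (algebraMap A K)).eval τ' - (g.map (algebraMap A K)).eval 0 ∈
      D.Ge 1 := by
    intro g
    induction g using Polynomial.induction_on' with
    | add g r hg hr =>
      rw [Polynomial.map_add, eval_add, eval_add, add_sub_add_comm]; exact add_mem hg hr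
    | monomial n a =>
      cases n with
      | zero => simp
      | succ n =>
        have h3 := D.Ge_mul (D.Ge_zero.mpr (D.alg_O a)) (D.zpow_Ge t.sp'.ne h1 (n + 1 : ℕ))
        rw [zpow_natCast] at h3
        simpa using D.Ge_mono (by omega : (1 : ℤ) ≤ 0 + (n + 1 : ℕ)) h3
  have h3 : p' ≤ p := fun a ha => by
    have h4 := h2 ((c.lnd i).Φ a)
    change (c.Ψ K i a).eval τ' - (c.Ψ K i a).eval 0 ∈ _ at h4
    rw [c.mem_kr.mp (t.kr' ▸ ha), Ψ_zero, zero_sub, neg_mem_iff] at h4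
    exact (D.p_iff a).mpr h4
  have := t.mv'.1
  have : p'.FiniteHeight := by simp [p'.finiteHeight_iff, t.mv'.2.1]
  exact (Ideal.eq_of_le_of_height_le p' h3 (by rw [t.mv.2.1, t.mv'.2.1])).symm

lemma TD.val_aux [p.IsPrime] (D : DV K p) {m n : ℕ} {y : K} (h1 : y ≠ 0) (h2 : f i y = 0) :
    D.v (y * (-τ) ^ m * (-τ') ^ n) = m * D.v τ := by
  have h3 := pow_ne_zero m (neg_ne_zero.mpr t.sp.ne)
  rw [D.v_mul (mul_ne_zero h1 h3) (pow_ne_zero n (neg_ne_zero.mpr t.sp'.ne)), D.v_mul h1 h3,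
    D.v_pow (neg_ne_zero.mpr t.sp.ne), D.v_pow (neg_ne_zero.mpr t.sp'.ne), D.v_neg, D.v_neg,
    t.val' x D, D.d_move (f i) (x.hf i) t.mv.2.2.2.2 h1 (by rw [h2]; exact zero_mem _)]
  ring

lemma TD.val [p.IsPrime] (D : DV K p) : D.v τ = 1 := by
  refine (v_le_one x t.mv D t.sp.hf).resolve_left fun h1 => ?_
  obtain ⟨μ, a, ha, ha'⟩ := c.hw_of_moves t.mv
  obtain ⟨m, n, y, h2, h3, _, h4, _⟩ := t.fac μ a ha'
  have := (D.ge_iff ((map_ne_zero_iff _ x.inj).mpr ha'.1)).mp ((D.p_iff a).mp ha)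
  rw [h4, t.val_aux x D h2 h3, h1] at this
  omega

lemma TD.fac' [p.IsPrime] [p'.IsPrime] (D : DV K p) (D' : DV K p') {μ : M} {a : A}
    (ha : R.HW μ a) : ∃ (m n : ℕ) (y : K), f i y = 0 ∧ co P i μ = m + n ∧
      algebraMap A K a = y * (-τ) ^ m * (-τ') ^ n ∧ D.v (algebraMap A K a) = m ∧
      D'.v (algebraMap A K a) = n := by
  obtain ⟨m, n, y, h2, h3, h4, h5, _⟩ := t.fac μ a ha
  refine ⟨m, n, y, h3, h4, h5, ?_, ?_⟩
  · rw [h5, t.val_aux x D h2 h3, t.val x D, mul_one]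
  · rw [h5, mul_right_comm, t.symm.val_aux x D' h2 h3, t.symm.val x D', mul_one]

omit x in
lemma TD.d_ne : τ⁻¹ - τ'⁻¹ ≠ 0 :=
  sub_ne_zero.mpr (inv_injective.ne fun e0 => t.ne (by rw [← t.kr, ← t.kr', e0]))

lemma TD.d_eig : ∃ σ s a, R.HW σ s ∧ R.HW (σ + -P.root i) a ∧
    (τ⁻¹ - τ'⁻¹) * algebraMap A K s = algebraMap A K a :=
  c.rat_eig x t.d_ne (t.sp.e_sub t.sp') (t.sp.h_sub t.sp')

lemma TD.inv_mem [p.IsPrime] (D : DV K p) : τ'⁻¹ ∈ D.Ge 0 := by
  simpa [t.val' x D] using D.inv_mem_v τ'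

lemma TD.d_val [p.IsPrime] (D : DV K p) : D.v (τ⁻¹ - τ'⁻¹) = -1 := by
  have h1 : τ⁻¹ ∈ D.Ge (-1) := by simpa [t.val x D] using D.inv_mem_v τ
  have h2 := (D.ge_iff t.d_ne).mp (sub_mem h1 (D.Ge_mono (by omega) (t.inv_mem x D)))
  by_contra h3
  have h4 := add_mem ((D.ge_iff t.d_ne).mpr (show 0 ≤ _ by omega)) (t.inv_mem x D)
  rw [sub_add_cancel, D.ge_iff (inv_ne_zero t.sp.ne), D.v_inv t.sp.ne, t.val x D] at h4
  omega

lemma TD.step [p.IsPrime] (D : DV K p) {k : ℤ} {y : K} (hy : y ∈ D.Ge k) :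
    f i y + (k : ℂ) • (y * (τ⁻¹ - τ'⁻¹)) ∈ D.Ge k := by
  have h1 := D.d_Ge (f i) (x.hf i) t.sp.ne (t.val x D) hy
  have h2 := D.Ge_mul hy (t.inv_mem x D)
  rw [add_zero] at h2
  have : f i y + (k : ℂ) • (y * (τ⁻¹ - τ'⁻¹)) =
      f i y - (k : ℂ) • (y * (f i τ * τ⁻¹)) - (k : ℂ) • (y * τ'⁻¹) := by
    rw [t.sp.hf, mul_sub, neg_one_mul, mul_neg]; module
  rw [this]; exact sub_mem h1 (Submodule.smul_mem _ _ h2)

lemma TD.d_unmoved {r : Ideal A} [r.IsPrime] (D : DV K r) (hr : ∀ a ∈ r, R.f i a ∈ r) :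
    0 ≤ D.v (τ⁻¹ - τ'⁻¹) := by
  have key : ∀ s : K, f i s = -1 → s⁻¹ ∈ D.Ge 0 := fun s hs => by
    have h1 := D.d_stab (f i) (x.hf i) hr (D.mem_v s)
    rw [hs, neg_mem_iff] at h1
    exact D.Ge_mono (by have := D.le_of_one h1; omega) (D.inv_mem_v s)
  exact (D.ge_iff t.d_ne).mp (sub_mem (key _ t.sp.hf) (key _ t.sp'.hf))

lemma TD.f_eq {a : A} {m n : ℕ} {y : K} (h3 : f i y = 0)
    (h5 : algebraMap A K a = y * (-τ) ^ m * (-τ') ^ n) :
    algebraMap A K (R.f i a) = -(m * τ⁻¹ + n * τ'⁻¹) * algebraMap A K a := by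
  have hpow : ∀ (s : K) (k : ℕ), s ≠ 0 → f i s = -1 → f i ((-s) ^ k) = -(k * s⁻¹) * (-s) ^ k := by
    intro s k hs hs'
    cases k with
    | zero => simp
    | succ k =>
      rw [Derivation.leibniz_pow, map_neg, hs', Nat.add_sub_cancel, pow_succ]
      simp only [smul_eq_mul, nsmul_eq_mul]; field_simp
  rw [← x.hf, h5, Derivation.leibniz, Derivation.leibniz, hpow _ _ t.sp.ne t.sp.hf,
    hpow _ _ t.sp'.ne t.sp'.hf, h3]
  simp only [smul_eq_mul]; ring

lemma TD.tail [p.IsPrime] [p'.IsPrime] (D : DV K p) (D' : DV K p') : R.Tail (2 • P.root i) := by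
  have : CharZero K := charZero_of_injective_algebraMap (algebraMap ℂ K).injective
  obtain ⟨μ1, a1, h1, h1'⟩ := c.hw_of_moves t.mv
  obtain ⟨μ2, a2, h2, h2'⟩ := c.hw_of_moves t.mv'
  have ha := c.hw_mul h1' h2'
  have hp : a1 * a2 ∈ p := p.mul_mem_right _ h1
  have hp' : a1 * a2 ∈ p' := p'.mul_mem_left _ h2
  generalize a1 * a2 = a, μ1 + μ2 = μ at ha hp hp'
  have h0 := (map_ne_zero_iff _ x.inj).mpr ha.1
  obtain ⟨m, n, y, h3, h4, h5, h6, h7⟩ := t.fac' x D D' ha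
  have hm := (D.ge_iff h0).mp ((D.p_iff a).mp hp)
  have hn := (D'.ge_iff h0).mp ((D'.p_iff a).mp hp')
  have e1 := t.f_eq x h3 h5
  have e2 : algebraMap A K (R.f i (R.f i a)) =
      ((m * τ⁻¹ + n * τ'⁻¹) ^ 2 - (m * τ⁻¹ ^ 2 + n * τ'⁻¹ ^ 2)) * algebraMap A K a := by
    rw [← x.hf, e1, Derivation.leibniz, x.hf, e1, map_neg, map_add, Derivation.leibniz,
      Derivation.leibniz, t.sp.f_inv, t.sp'.f_inv, Derivation.map_natCast, Derivation.map_natCast]
    simp only [smul_eq_mul]; ring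
  have hH : R.H (co P i) a = ((m : ℂ) + n) • a := by rw [R.H_mem _ ha.2.1, h4]; simp
  have g1 := hw_pow (R.e_f i) (R.Hco_f i) (ha.2.2 i) hH 0
  have g2 := hw_pow (R.e_f i) (R.Hco_f i) (ha.2.2 i) hH 1
  simp only [pow_succ, pow_zero, one_mul, Module.End.mul_apply, Module.End.one_apply] at g1 g2
  have w1 := R.f_wt i _ _ ha.2.1
  have k0 : a ∈ R.gen a := ha.gen_eq ▸ R.mem_Wd rfl
  have k1 : ∀ u ∈ R.gen a, R.f i u ∈ R.gen a := fun u => ha.gen_eq ▸ R.Wd_f (Set.mem_univ i)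
  refine ⟨μ, μ, μ + μ - 2 • P.root i, a, a,
    ((m : ℂ) + n) • (a * R.f i (R.f i a)) - ((m : ℂ) + n - 1) • (R.f i a * R.f i a), ha, ha,
    ⟨fun hz => ?_, sub_mem (Submodule.smul_mem _ _ ?_) (Submodule.smul_mem _ _ ?_), fun j => ?_⟩,
    sub_mem (Submodule.smul_mem _ _ (Submodule.mul_mem_mul k0 (k1 _ (k1 _ k0))))
      (Submodule.smul_mem _ _ (Submodule.mul_mem_mul (k1 _ k0) (k1 _ k0))), by abel⟩
  · have h8 := congrArg (algebraMap A K) hz
    simp only [map_sub, Algebra.smul_def, map_mul, ← IsScalarTower.algebraMap_apply, e1, e2,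
      map_add, map_natCast, map_one, map_zero] at h8
    have h9 : (m : K) * n * (τ⁻¹ - τ'⁻¹) ^ 2 * algebraMap A K a ^ 2 = 0 := by
      linear_combination -h8
    exact mul_ne_zero (mul_ne_zero (mul_ne_zero (Nat.cast_ne_zero.mpr (by omega))
      (Nat.cast_ne_zero.mpr (by omega))) (pow_ne_zero 2 t.d_ne)) (pow_ne_zero 2 h0) h9
  · have := c.act.2.1 _ _ _ ha.2.1 _ (R.f_wt i _ _ w1)
    rwa [show μ + (μ - P.root i - P.root i) = μ + μ - 2 • P.root i by rw [two_smul]; abel] at this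
  · have := c.act.2.1 _ _ _ w1 _ w1
    rwa [show μ - P.root i + (μ - P.root i) = μ + μ - 2 • P.root i by rw [two_smul]; abel] at this
  · rw [map_sub, map_smul, map_smul, (c.act.2.2 j _ _).1, (c.act.2.2 j _ _).1, ha.2.2]
    by_cases hj : j = i
    · subst hj
      rw [g1, g2]
      simp only [mul_smul_comm, smul_mul_assoc, zero_mul, add_zero]
      rw [mul_comm (R.f j a) a]; push_cast; module
    · simp [R.ef_ne j i _ hj, ha.2.2]

omit t in
lemma typeT_of_moves {j : b.support} (hT : R.TypeT j) [p.IsPrime] (hj : R.Moves j p)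
    (hi : R.Moves i p) (D : DV K p) : R.TypeT i := by
  by_contra h1
  have hij : i ≠ j := fun e0 => h1 (e0 ▸ hT)
  obtain ⟨p', τ, τ', t⟩ := c.exists_TD x hT hj
  obtain ⟨g, w, hg, hw, _, h2⟩ := c.not_T x h1 hi D
  obtain ⟨σ, s, a, hs, ha, h3⟩ := t.d_eig x
  obtain ⟨m, h4, h5⟩ := h2 _ _ hs
  obtain ⟨m', h6, h7⟩ := h2 _ _ ha
  have h8 := congrArg D.v h3
  rw [D.v_mul t.d_ne ((map_ne_zero_iff _ x.inj).mpr hs.1), t.d_val x D, h5, h7] at h8
  have h9 : co P i (P.root j) ≤ 0 := by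
    rcases (cartOf P b).pair i j hij with h | h | h | h | h | h <;>
      · have := h.1
        change co P i (P.root j) = _ at this
        omega
  rw [map_add, map_neg, h4] at h6
  have h10 : (m' : ℤ) < m := by nlinarith
  have h11 : (0 : ℤ) < g := by exact_mod_cast hg
  nlinarith

end Ctx

end Pool.Agent.SX
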